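import Pool.Agent.NH28.Tr

/-!
Orders at primes, the product formula, Minkowski's theorem with conditions at primes.
-/

set_option autoImplicit false

namespace Pool.Agent.NH28

open NumberField IsDedekindDomain Finset Module
open Pool.Agent.W180.OP (Pl av wt fv fv_apply wt_nonneg fv_support_finite)
open Pool.Agent.W180.TP (wt_pos)

variable {L : Type} [Field L] [NumberField L]

/-- the logarithm of the norm of a prime -/
noncomputable def lN (v : HeightOneSpectrum (𝓞 L)) : ℝ := Real.log (Ideal.absNorm v.asIdeal)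

lemma lN_pos (v : HeightOneSpectrum (𝓞 L)) : 0 < lN v :=
  Real.log_pos (by exact_mod_cast HeightOneSpectrum.one_lt_absNorm v)

lemma fv_eq (v : HeightOneSpectrum (𝓞 L)) (z : L) : fv v z = (WithZeroMulInt.toNNReal
      (NumberField.HeightOneSpectrum.absNorm_ne_zero v) (v.valuation L z) : ℝ) :=
  FinitePlace.norm_embedding' (v := v) (x := z)

/-- the order of an integer -/
noncomputable def om (v : HeightOneSpectrum (𝓞 L)) (x : 𝓞 L) : ℕ :=
  multiplicity v.asIdeal (Ideal.span {x})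

lemma log_fv_int (v : HeightOneSpectrum (𝓞 L)) {x : 𝓞 L} (hx : x ≠ 0) :
    Real.log (fv v (x : L)) = -(om v x : ℝ) * lN v := by
  have h1 : v.valuation L (x : L) = WithZero.exp (-(om v x : ℤ)) := by
    rw [show ((x : L)) = algebraMap (𝓞 L) L x from rfl, HeightOneSpectrum.valuation_of_algebraMap,
      HeightOneSpectrum.intValuation_eq_exp_neg_multiplicity v hx]
    rfl
  rw [fv_eq, h1, WithZeroMulInt.toNNReal_neg_apply _ (WithZero.exp_ne_zero)]
  have h2 : (WithZero.unzero (WithZero.exp_ne_zero (a := (-(om v x : ℤ))))).toAdd =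
    -(om v x : ℤ) := rfl
  rw [h2]
  push_cast
  rw [Real.log_zpow]
  push_cast
  rfl

lemma le_om {v : HeightOneSpectrum (𝓞 L)} {x : 𝓞 L} (hx : x ≠ 0) {a : ℕ}
    (h : x ∈ v.asIdeal ^ a) : a ≤ om v x := by
  rw [← HeightOneSpectrum.intValuation_le_pow_iff_mem,
    HeightOneSpectrum.intValuation_eq_exp_neg_multiplicity v hx, WithZero.exp_le_exp] at h
  have : (a : ℤ) ≤ om v x := by
    unfold om
    linarith
  exact_mod_cast this

lemma log_fv_le_of_mem {v : HeightOneSpectrum (𝓞 L)} {x : 𝓞 L} (hx : x ≠ 0) {a : ℕ}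
    (h : x ∈ v.asIdeal ^ a) : Real.log (fv v (x : L)) ≤ -(a : ℝ) * lN v := by
  rw [log_fv_int v hx]
  have h1 : (a : ℝ) ≤ om v x := by exact_mod_cast le_om hx h
  have := mul_le_mul_of_nonneg_right h1 (lN_pos v).le
  linarith

/-- the product formula -/
theorem prod_formula {x : L} (hx : x ≠ 0) (T : Finset (HeightOneSpectrum (𝓞 L)))
    (hT : ∀ v, fv v x ≠ 1 → v ∈ T) :
    ∑ w : InfinitePlace L, (w.mult : ℝ) * Real.log (w x) + ∑ v ∈ T, Real.log (fv v x) = 0 := by
  have h := NumberField.prod_abs_eq_one (K := L) hx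
  have h1 : ∏ᶠ w : FinitePlace L, w x = ∏ᶠ v : HeightOneSpectrum (𝓞 L), fv v x := by
    rw [← finprod_comp_equiv (FinitePlace.equivHeightOneSpectrum (K := L)).symm]
    rfl
  rw [h1] at h
  have h2 : ∏ᶠ v : HeightOneSpectrum (𝓞 L), fv v x = ∏ v ∈ T, fv v x := by
    refine finprod_eq_prod_of_mulSupport_subset _ ?_
    intro v hv
    exact hT v hv
  rw [h2] at h
  have hpos : ∀ w : InfinitePlace L, 0 < w x := fun w => InfinitePlace.pos_iff.mpr hx
  have hpos' : ∀ v : HeightOneSpectrum (𝓞 L), 0 < fv v x := fun v => (fv v).pos hx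
  have h4 : Real.log ((∏ w : InfinitePlace L, w x ^ w.mult) * ∏ v ∈ T, fv v x) = 0 := by
    rw [h, Real.log_one]
  rw [Real.log_mul (Finset.prod_ne_zero_iff.2 fun w _ => (pow_pos (hpos w) _).ne')
    (Finset.prod_ne_zero_iff.2 fun v _ => (hpos' v).ne'), Real.log_prod, Real.log_prod] at h4
  · rw [← h4]
    congr 1
    exact Finset.sum_congr rfl fun w _ => (Real.log_pow _ _).symm
  · exact fun v _ => (hpos' v).ne'
  · exact fun w _ => (pow_pos (hpos w) _).ne'

open NumberField.InfinitePlace NumberField.mixedEmbedding MeasureTheory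
open scoped nonZeroDivisors NNReal ENNReal

/-- Minkowski's theorem for ideals -/
theorem mink_ideal (I : Ideal (𝓞 L)) (hI : I ≠ ⊥) (c : InfinitePlace L → ℝ≥0)
    (hc : (Ideal.absNorm I : ℝ) * √|(discr L : ℝ)| < ∏ w : InfinitePlace L, (c w : ℝ) ^ mult w) :
    ∃ x ∈ I, x ≠ 0 ∧ ∀ w : InfinitePlace L, w (x : L) < c w := by
  classical
  have hI' : (I : FractionalIdeal (𝓞 L)⁰ L) ≠ 0 := FractionalIdeal.coeIdeal_ne_zero.mpr hI
  let J : (FractionalIdeal (𝓞 L)⁰ L)ˣ := Units.mk0 (I : FractionalIdeal (𝓞 L)⁰ L) hI'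
  have hN : finrank ℚ L = nrRealPlaces L + 2 * nrComplexPlaces L :=
    (card_add_two_mul_card_eq_rank L).symm
  have h : minkowskiBound L J < volume (convexBodyLT L c) := by
    rw [minkowskiBound, volume_fundamentalDomain_fractionalIdealLatticeBasis,
      volume_fundamentalDomain_latticeBasis, convexBodyLT_volume, mixedEmbedding.finrank]
    have h1 : (FractionalIdeal.absNorm J.1 : ℚ) = (Ideal.absNorm I : ℚ) := by
      rw [Units.val_mk0, FractionalIdeal.coeIdeal_absNorm]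
    rw [h1]
    have h2 : ENNReal.ofReal ((Ideal.absNorm I : ℚ) : ℝ) = ((Ideal.absNorm I : ℝ≥0) : ℝ≥0∞) := by
      rw [Rat.cast_natCast, ENNReal.ofReal_natCast]; simp
    rw [h2]
    have h3 : ((2 : ℝ≥0∞)⁻¹ ^ nrComplexPlaces L) = (((2 : ℝ≥0)⁻¹ ^ nrComplexPlaces L : ℝ≥0) : ℝ≥0∞) := by
      rw [ENNReal.coe_pow, ENNReal.coe_inv two_ne_zero]; rfl
    rw [h3, show (2 : ℝ≥0∞) = ((2 : ℝ≥0) : ℝ≥0∞) from rfl, ← ENNReal.coe_pow, ← ENNReal.coe_mul,
      ← ENNReal.coe_mul, ← ENNReal.coe_mul, ← ENNReal.coe_mul, ENNReal.coe_lt_coe,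
      ← NNReal.coe_lt_coe]
    push_cast
    rw [Int.norm_eq_abs, NNReal.coe_real_pi]
    have h5 : (2 : ℝ)⁻¹ ^ nrComplexPlaces L * 2 ^ finrank ℚ L =
        2 ^ nrRealPlaces L * 2 ^ nrComplexPlaces L := by
      rw [hN, pow_add, pow_mul', sq, ← mul_assoc, mul_comm ((2 : ℝ)⁻¹ ^ nrComplexPlaces L),
        inv_pow]
      field_simp
    have hp0 : (0 : ℝ) ≤ ∏ w : InfinitePlace L, (c w : ℝ) ^ mult w :=
      Finset.prod_nonneg fun w _ => by positivity
    calc (Ideal.absNorm I : ℝ) * ((2 : ℝ)⁻¹ ^ nrComplexPlaces L * √|(discr L : ℝ)|) *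
          2 ^ finrank ℚ L
        = ((Ideal.absNorm I : ℝ) * √|(discr L : ℝ)|) *
          ((2 : ℝ)⁻¹ ^ nrComplexPlaces L * 2 ^ finrank ℚ L) := by ring
      _ = ((Ideal.absNorm I : ℝ) * √|(discr L : ℝ)|) *
          (2 ^ nrRealPlaces L * 2 ^ nrComplexPlaces L) := by rw [h5]
      _ < (∏ w : InfinitePlace L, (c w : ℝ) ^ mult w) *
            (2 ^ nrRealPlaces L * 2 ^ nrComplexPlaces L) := by
          apply mul_lt_mul_of_pos_right hc; positivity
      _ ≤ (∏ w : InfinitePlace L, (c w : ℝ) ^ mult w) *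
            (2 ^ nrRealPlaces L * Real.pi ^ nrComplexPlaces L) := by
          gcongr
          exact Real.two_le_pi
      _ = 2 ^ nrRealPlaces L * Real.pi ^ nrComplexPlaces L *
            ∏ w : InfinitePlace L, (c w : ℝ) ^ mult w := by ring
  obtain ⟨a, ha, ha0, hw⟩ := exists_ne_zero_mem_ideal_lt L J h
  rw [Units.val_mk0, FractionalIdeal.mem_coeIdeal] at ha
  obtain ⟨x, hx, rfl⟩ := ha
  refine ⟨x, hx, ?_, fun w => hw w⟩
  rintro rfl
  exact ha0 (map_zero _)

end Pool.Agent.NH28
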