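import Pool.Agent.NH28.Cnt

/-!
Asymptotics, and the choice of the degree.
-/

set_option autoImplicit false

namespace Pool.Agent.NH28

open Finset Filter Topology
open Pool.Agent.TH875 (Sm mem_Sm dg)

/-- the lower bound for the truncated sum -/
noncomputable def HH (ν B t0 T J : ℕ) : ℝ :=
  (((T : ℝ) - B) ^ (ν + 1) - ((T : ℝ) - B - J) ^ (ν + 1)) /
    ((ν + 1) * ((T : ℝ) + t0 - B + 1) ^ ν)

lemma pow_sub_pow_le' (ν : ℕ) {a b : ℝ} (hb : 0 ≤ b) (hab : b ≤ a) :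
    a ^ (ν + 1) - b ^ (ν + 1) ≤ (ν + 1) * ((a - b) * a ^ ν) := by
  induction ν with
  | zero => simp
  | succ ν ih =>
    have ha : 0 ≤ a := hb.trans hab
    have h1 : a ^ (ν + 1 + 1) - b ^ (ν + 1 + 1) =
        a * (a ^ (ν + 1) - b ^ (ν + 1)) + (a - b) * b ^ (ν + 1) := by ring
    have h2 : b ^ (ν + 1) ≤ a ^ (ν + 1) := pow_le_pow_left₀ hb hab _
    rw [h1]
    push_cast
    have h3 := mul_le_mul_of_nonneg_left ih ha
    have h4 := mul_le_mul_of_nonneg_left h2 (sub_nonneg.2 hab)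
    have h5 : a * ((ν + 1) * ((a - b) * a ^ ν)) = (ν + 1) * ((a - b) * a ^ (ν + 1)) := by ring
    rw [h5] at h3
    linarith

theorem Gs_lower {n ν d : ℕ} (hd : 1 ≤ d) (E : Finset (Fin n →₀ ℕ)) (T J B t0 : ℕ)
    (hB : ∀ β ∈ E, β.degree ≤ d * B) (hJ : J + B ≤ T) (k : Fin (ν + 1)) :
    ((Sm d E (ν + 1) (d * (T + t0))).card : ℝ) * HH ν B t0 T J ≤
      Gs d E (ν + 1) (d * T) J k := by
  have hJT : (J : ℝ) + B ≤ T := by exact_mod_cast hJ
  have ht0 : (0 : ℝ) ≤ t0 := Nat.cast_nonneg _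
  have hJ0 : (0 : ℝ) ≤ J := Nat.cast_nonneg _
  have hY : (0 : ℝ) < (T : ℝ) + t0 - B + 1 := by linarith
  rw [Gs_eq hd E _ J k (Nat.mul_le_mul_left d (by omega))]
  have h1 : ∀ u ∈ Finset.range J, ((Sm d E (ν + 1) (d * (T + t0))).card : ℝ) *
      (((T : ℝ) - B - u) / (T + t0 - B + 1)) ^ ν ≤
        ((Sm d E (ν + 1) (d * T - d * (u + 1))).card : ℝ) := by
    intro u hu
    have hu' := Finset.mem_range.1 hu
    have h2 := card_compare (ν := ν) hd E T (u + 1) B t0 hB (by omega)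
    rw [show d * T - d * (u + 1) = d * (T - (u + 1)) by rw [Nat.mul_sub]]
    push_cast at h2 ⊢
    rw [show (T : ℝ) - B - u = T - (u + 1) - B + 1 by ring]
    exact h2
  refine le_trans ?_ (Finset.sum_le_sum h1)
  rw [← Finset.mul_sum]
  refine mul_le_mul_of_nonneg_left ?_ (Nat.cast_nonneg _)
  -- telescoping
  have h3 : ∀ u ∈ Finset.range J, ((((T : ℝ) - B - u) ^ (ν + 1)) -
      (((T : ℝ) - B - ((u + 1 : ℕ) : ℝ)) ^ (ν + 1))) / ((ν + 1) * ((T : ℝ) + t0 - B + 1) ^ ν) ≤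
      (((T : ℝ) - B - u) / (T + t0 - B + 1)) ^ ν := by
    intro u hu
    have hu' : (u : ℝ) + 1 ≤ J := by exact_mod_cast Finset.mem_range.1 hu
    have h4 := pow_sub_pow_le' ν (a := (T : ℝ) - B - u) (b := (T : ℝ) - B - ((u + 1 : ℕ) : ℝ))
      (by push_cast; linarith) (by push_cast; linarith)
    have h5 : (T : ℝ) - B - u - ((T : ℝ) - B - ((u + 1 : ℕ) : ℝ)) = 1 := by push_cast; ring
    rw [h5, one_mul] at h4
    have hν : (0 : ℝ) < (ν : ℝ) + 1 := by positivity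
    rw [div_pow, div_le_div_iff₀ (by positivity) (by positivity)]
    have h6 := mul_le_mul_of_nonneg_right h4 (pow_pos hY ν).le
    linarith
  refine le_trans (le_of_eq ?_) (Finset.sum_le_sum h3)
  rw [← Finset.sum_div]
  unfold HH
  congr 1
  have h7 := Finset.sum_range_sub' (fun u : ℕ => ((T : ℝ) - B - u) ^ (ν + 1)) J
  rw [h7]
  simp

/-- the limit function -/
noncomputable def gg (ν r : ℕ) (τ : ℝ) : ℝ :=
  τ * (1 - r) + r * ((1 - (1 - τ) ^ (ν + 1)) / (ν + 1))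

theorem tendsto_HH (ν r B t0 : ℕ) (τ : ℝ) (hτ : 0 ≤ τ) :
    Tendsto (fun T : ℕ => (((⌊τ * T⌋₊ : ℕ) : ℝ) * (1 - r) + r * HH ν B t0 T ⌊τ * T⌋₊) / T) atTop
      (𝓝 (gg ν r τ)) := by
  have hT : Tendsto (fun T : ℕ => (T : ℝ)) atTop atTop := tendsto_natCast_atTop_atTop
  have h1 : Tendsto (fun T : ℕ => ((⌊τ * T⌋₊ : ℕ) : ℝ) / T) atTop (𝓝 τ) :=
    (tendsto_nat_floor_mul_div_atTop hτ).comp hT
  have hc : ∀ c : ℝ, Tendsto (fun T : ℕ => c / (T : ℝ)) atTop (𝓝 0) := fun c =>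
    tendsto_const_nhds.div_atTop hT
  have h2 : Tendsto (fun T : ℕ => 1 - (B : ℝ) / T) atTop (𝓝 1) := by
    simpa using (tendsto_const_nhds (x := (1 : ℝ))).sub (hc B)
  have h3 : Tendsto (fun T : ℕ => 1 + ((t0 : ℝ) - B + 1) / T) atTop (𝓝 1) := by
    simpa using (tendsto_const_nhds (x := (1 : ℝ))).add (hc ((t0 : ℝ) - B + 1))
  have hν : (0 : ℝ) < (ν : ℝ) + 1 := by positivity
  have h4 : Tendsto (fun T : ℕ => ((1 - (B : ℝ) / T) ^ (ν + 1) -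
      ((1 - (B : ℝ) / T) - ((⌊τ * T⌋₊ : ℕ) : ℝ) / T) ^ (ν + 1)) /
        ((ν + 1) * (1 + ((t0 : ℝ) - B + 1) / T) ^ ν)) atTop
      (𝓝 ((1 ^ (ν + 1) - (1 - τ) ^ (ν + 1)) / ((ν + 1) * 1 ^ ν))) := by
    refine Tendsto.div ((h2.pow _).sub ((h2.sub h1).pow _)) ((h3.pow _).const_mul _) ?_
    rw [one_pow, mul_one]
    exact hν.ne'
  have h5 : Tendsto (fun T : ℕ => ((⌊τ * T⌋₊ : ℕ) : ℝ) / T * (1 - r) +
      r * (((1 - (B : ℝ) / T) ^ (ν + 1) -
      ((1 - (B : ℝ) / T) - ((⌊τ * T⌋₊ : ℕ) : ℝ) / T) ^ (ν + 1)) /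
        ((ν + 1) * (1 + ((t0 : ℝ) - B + 1) / T) ^ ν))) atTop
      (𝓝 (τ * (1 - r) + r * ((1 ^ (ν + 1) - (1 - τ) ^ (ν + 1)) / ((ν + 1) * 1 ^ ν)))) :=
    (h1.mul_const _).add (h4.const_mul _)
  have e0 : gg ν r τ = τ * (1 - r) + r * ((1 ^ (ν + 1) - (1 - τ) ^ (ν + 1)) /
      ((ν + 1) * 1 ^ ν)) := by
    unfold gg
    rw [one_pow, one_pow, mul_one]
  rw [e0]
  refine h5.congr' ?_
  filter_upwards [eventually_gt_atTop (B + 1)] with T hTB
  have hT0 : (T : ℝ) ≠ 0 := by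
    have : 0 < T := by omega
    exact_mod_cast this.ne'
  have hTR : (B : ℝ) + 1 < T := by exact_mod_cast hTB
  have ht0 : (0 : ℝ) ≤ t0 := Nat.cast_nonneg _
  have hY : (T : ℝ) + t0 - B + 1 ≠ 0 := by linarith
  unfold HH
  have e1 : (1 : ℝ) - B / T = (T - B) / T := by field_simp
  have e2 : (1 : ℝ) + ((t0 : ℝ) - B + 1) / T = (T + t0 - B + 1) / T := by
    field_simp
    ring
  have e3 : ((T : ℝ) - B) / T - ((⌊τ * T⌋₊ : ℕ) : ℝ) / T = (T - B - (⌊τ * T⌋₊ : ℕ)) / T := by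
    rw [sub_div, sub_div, sub_div]
  rw [e1, e2, e3, div_pow, div_pow, div_pow, add_div]
  have hTp : (T : ℝ) ^ ν ≠ 0 := pow_ne_zero _ hT0
  have hYp := pow_ne_zero ν hY
  have hν' := hν.ne'
  congr 1
  · ring
  · rw [pow_succ (T : ℝ) ν]
    field_simp

/-- the constant -/
noncomputable def cst (ν r : ℕ) : ℝ :=
  (ν + 1) / (1 - ν * (r - 1) * (1 - (1 - 1 / (r : ℝ)) ^ (1 / (ν : ℝ))))

lemma cst_pos {ν r : ℕ} (hν : 1 ≤ ν) (hr : 1 ≤ r) :
    0 < 1 - (ν : ℝ) * (r - 1) * (1 - (1 - 1 / (r : ℝ)) ^ (1 / (ν : ℝ))) := by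
  rcases Nat.eq_or_lt_of_le hr with h1 | h1
  · subst h1
    norm_num
  have hrR : (1 : ℝ) < r := by exact_mod_cast h1
  have hνR : (0 : ℝ) < ν := by exact_mod_cast hν
  set x : ℝ := 1 - 1 / (r : ℝ) with hx
  have hxp : 0 < x := by
    rw [hx, sub_pos, div_lt_one (by linarith)]
    exact hrR
  have hx1 : x < 1 := by
    rw [hx]
    have : 0 < 1 / (r : ℝ) := by positivity
    linarith
  set s : ℝ := x ^ (1 / (ν : ℝ)) with hs
  have hsp : 0 < s := Real.rpow_pos_of_pos hxp _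
  have hs1 : s < 1 := Real.rpow_lt_one hxp.le hx1 (by positivity)
  have hsν : s ^ ν = x := by
    rw [hs, ← Real.rpow_natCast, ← Real.rpow_mul hxp.le, one_div, inv_mul_cancel₀ hνR.ne',
      Real.rpow_one]
  have h2 : 1 + (ν : ℝ) * (s⁻¹ - 1) ≤ (s⁻¹) ^ ν := by
    have := one_add_mul_le_pow (a := s⁻¹ - 1) (by
      have : 0 < s⁻¹ := by positivity
      linarith) ν
    rwa [add_sub_cancel] at this
  rw [inv_pow, hsν] at h2
  have h3 : x⁻¹ * (r - 1) = r := by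
    rw [hx]
    have : (r : ℝ) ≠ 0 := by linarith
    have h4 : (r : ℝ) - 1 ≠ 0 := by linarith
    field_simp
  have h5 : (ν : ℝ) * (s⁻¹ - 1) * (r - 1) ≤ 1 := by
    have h6 := mul_le_mul_of_nonneg_right h2 (by linarith : (0 : ℝ) ≤ r - 1)
    rw [h3] at h6
    nlinarith
  have h7 := mul_le_mul_of_nonneg_right h5 hsp.le
  have h8 : (ν : ℝ) * (s⁻¹ - 1) * (r - 1) * s = ν * (r - 1) * (1 - s) := by
    have := hsp.ne'
    field_simp
  rw [h8] at h7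
  linarith

lemma gg_eq {ν r : ℕ} (hν : 1 ≤ ν) (hr : 1 ≤ r) :
    gg ν r (1 - (1 - 1 / (r : ℝ)) ^ (1 / (ν : ℝ))) = 1 / cst ν r := by
  have hνR : (0 : ℝ) < ν := by exact_mod_cast hν
  have hrR : (1 : ℝ) ≤ r := by exact_mod_cast hr
  set x : ℝ := 1 - 1 / (r : ℝ) with hx
  have hxp : 0 ≤ x := by
    rw [hx, sub_nonneg, div_le_one (by linarith)]
    exact hrR
  set s : ℝ := x ^ (1 / (ν : ℝ)) with hs
  have hsν : s ^ ν = x := by
    rw [hs, ← Real.rpow_natCast, ← Real.rpow_mul hxp, one_div, inv_mul_cancel₀ hνR.ne',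
      Real.rpow_one]
  unfold gg cst
  rw [one_div_div, sub_sub_cancel, pow_succ, hsν]
  have h3 : (r : ℝ) * x = r - 1 := by
    rw [hx]
    have : (r : ℝ) ≠ 0 := by linarith
    field_simp
  have h4 : (ν : ℝ) + 1 ≠ 0 := by positivity
  rw [eq_div_iff h4]
  have h5 : (r : ℝ) * ((1 - x * s) / (ν + 1)) * (ν + 1) = r - (r * x) * s := by
    field_simp
  rw [add_mul, h5, h3]
  ring

/-- the choice of the degree -/
theorem choose_deg {ν r : ℕ} (hν : 1 ≤ ν) (hr : 1 ≤ r) (d B t0 : ℕ) (hd : 1 ≤ d) (C1 : ℝ)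
    (ε : ℝ) (hε : 0 < ε) :
    ∃ T J : ℕ, 1 ≤ T ∧ J + B ≤ T ∧ 0 < (J : ℝ) * (1 - r) + r * HH ν B t0 T J ∧
      (d : ℝ) * T + C1 + 1 ≤ (cst ν r + ε) * (d * ((J : ℝ) * (1 - r) + r * HH ν B t0 T J)) := by
  have hpos := cst_pos hν hr
  have hc : 0 < cst ν r := by
    unfold cst
    positivity
  set τ0 : ℝ := 1 - (1 - 1 / (r : ℝ)) ^ (1 / (ν : ℝ)) with hτ0
  have hg0 : gg ν r τ0 = 1 / cst ν r := gg_eq hν hr
  have hνR : (0 : ℝ) < ν := by exact_mod_cast hν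
  have hrR : (1 : ℝ) ≤ r := by exact_mod_cast hr
  have hτ01 : τ0 ≤ 1 := by
    have : 0 ≤ (1 - 1 / (r : ℝ)) ^ (1 / (ν : ℝ)) := Real.rpow_nonneg (by
      rw [sub_nonneg, div_le_one (by linarith)]
      exact hrR) _
    linarith
  have hτ00 : 0 < τ0 := by
    have h1 : (1 - 1 / (r : ℝ)) ^ (1 / (ν : ℝ)) < 1 := by
      refine Real.rpow_lt_one (by
        rw [sub_nonneg, div_le_one (by linarith)]
        exact hrR) ?_ (by positivity)
      have : 0 < 1 / (r : ℝ) := by positivity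
      linarith
    linarith
  -- a value with enough room
  set G0 : ℝ := 1 / (cst ν r + ε / 2) with hG0
  have hG0p : 0 < G0 := by positivity
  have hlt : G0 < gg ν r τ0 := by
    rw [hg0, hG0]
    exact one_div_lt_one_div_of_lt hc (by linarith)
  have hcont : Continuous (gg ν r) := by
    unfold gg
    fun_prop
  obtain ⟨τ, hτ0', hτ1, hgτ⟩ : ∃ τ : ℝ, 0 < τ ∧ τ < 1 ∧ G0 < gg ν r τ := by
    have h1 : ∀ᶠ τ in 𝓝 τ0, G0 < gg ν r τ := (hcont.tendsto τ0).eventually_const_lt hlt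
    have h2 : ∀ᶠ τ in 𝓝 τ0, 0 < τ := eventually_gt_nhds hτ00
    have h3 : ∀ᶠ τ in 𝓝[<] τ0, G0 < gg ν r τ ∧ 0 < τ := (h1.and h2).filter_mono nhdsWithin_le_nhds
    have h4 : ∀ᶠ τ in 𝓝[<] τ0, τ < τ0 := eventually_mem_nhdsWithin
    obtain ⟨τ, ⟨h5, h6⟩, h7⟩ := (h3.and h4).exists
    exact ⟨τ, h6, by linarith, h5⟩
  have hlim := (tendsto_HH ν r B t0 τ hτ0'.le).eventually_const_lt hgτ
  -- `J + B ≤ T` for large `T`
  have hJB : ∀ᶠ T : ℕ in atTop, ⌊τ * T⌋₊ + B ≤ T := by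
    have hT : Tendsto (fun T : ℕ => (T : ℝ)) atTop atTop := tendsto_natCast_atTop_atTop
    filter_upwards [hT.eventually_ge_atTop ((B : ℝ) / (1 - τ))] with T hT1
    rw [div_le_iff₀ (by linarith)] at hT1
    have h1 : ((⌊τ * T⌋₊ : ℕ) : ℝ) ≤ τ * T := Nat.floor_le (by positivity)
    have h2 : ((⌊τ * T⌋₊ + B : ℕ) : ℝ) ≤ (T : ℕ) := by
      push_cast
      linarith
    exact_mod_cast h2
  have hdR : (1 : ℝ) ≤ d := by exact_mod_cast hd
  -- the final inequality for large `T`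
  have hfin : ∀ᶠ T : ℕ in atTop, (d : ℝ) * T + C1 + 1 ≤ (cst ν r + ε) * (d * (G0 * T)) := by
    have hT : Tendsto (fun T : ℕ => (T : ℝ)) atTop atTop := tendsto_natCast_atTop_atTop
    have hθ : 1 < (cst ν r + ε) * G0 := by
      rw [hG0, mul_one_div, one_lt_div (by positivity)]
      linarith
    filter_upwards [hT.eventually_ge_atTop ((|C1| + 1) / ((cst ν r + ε) * G0 - 1))] with T hT1
    rw [div_le_iff₀ (by linarith)] at hT1
    have h1 : C1 ≤ |C1| := le_abs_self _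
    have h2 : (0 : ℝ) ≤ T := Nat.cast_nonneg _
    have h3 : (T : ℝ) * ((cst ν r + ε) * G0 - 1) ≤ d * (T * ((cst ν r + ε) * G0 - 1)) := by
      have : 0 ≤ (T : ℝ) * ((cst ν r + ε) * G0 - 1) := mul_nonneg h2 (by linarith)
      nlinarith
    have h4 : (cst ν r + ε) * (d * (G0 * T)) = d * (T * ((cst ν r + ε) * G0 - 1)) + d * T := by
      ring
    rw [h4]
    linarith
  obtain ⟨T, ⟨hT1, hT2⟩, hT3, hT4⟩ := (((eventually_ge_atTop 1).and hlim).and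
    (hJB.and hfin)).exists
  have hTR : (1 : ℝ) ≤ T := by exact_mod_cast hT1
  have hTp : (0 : ℝ) < T := by linarith
  rw [lt_div_iff₀ hTp] at hT2
  refine ⟨T, ⌊τ * T⌋₊, hT1, hT3, lt_trans (by positivity) hT2, hT4.trans ?_⟩
  have h1 : (0 : ℝ) < cst ν r + ε := by linarith
  exact mul_le_mul_of_nonneg_left (mul_le_mul_of_nonneg_left hT2.le (by linarith)) h1.le

end Pool.Agent.NH28
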