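import Pool.Agent.NH28.MainW

/-!
The asymptotic constants with real parameters.
-/

set_option autoImplicit false

namespace Pool.Agent.NH28

open Finset Filter Topology
open Pool.Agent.TH875 (Sm mem_Sm dg)

/-- the limit function -/
noncomputable def ggR (ν : ℕ) (ρ τ : ℝ) : ℝ :=
  τ * (1 - ρ) + ρ * ((1 - (1 - τ) ^ (ν + 1)) / (ν + 1))

theorem tendsto_HHR (ν B t0 : ℕ) (ρ τ : ℝ) (hτ : 0 ≤ τ) :
    Tendsto (fun T : ℕ => (((⌊τ * T⌋₊ : ℕ) : ℝ) * (1 - ρ) + ρ * HH ν B t0 T ⌊τ * T⌋₊) / T) atTop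
      (𝓝 (ggR ν ρ τ)) := by
  have hT : Tendsto (fun T : ℕ => (T : ℝ)) atTop atTop := tendsto_natCast_atTop_atTop
  have h1 : Tendsto (fun T : ℕ => ((⌊τ * T⌋₊ : ℕ) : ℝ) / T) atTop (𝓝 τ) :=
    (tendsto_nat_floor_mul_div_atTop hτ).comp hT
  have hc : ∀ c : ℝ, Tendsto (fun T : ℕ => c / (T : ℝ)) atTop (𝓝 0) := fun c =>
    tendsto_const_nhds.div_atTop hT
  have h2 : Tendsto (fun T : ℕ => 1 - (B : ℝ) / T) atTop (𝓝 1) := by
    simpa using (tendsto_const_nhds (x := (1 : ℝ))).sub (hc B)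
  have h3 : Tendsto (fun T : ℕ => 1 + ((t0 : ℝ) - B + 1) / T) atTop (𝓝 1) := by
    simpa using (tendsto_const_nhds (x := (1 : ℝ))).add (hc ((t0 : ℝ) - B + 1))
  have hν : (0 : ℝ) < (ν : ℝ) + 1 := by positivity
  have h4 : Tendsto (fun T : ℕ => ((1 - (B : ℝ) / T) ^ (ν + 1) -
      ((1 - (B : ℝ) / T) - ((⌊τ * T⌋₊ : ℕ) : ℝ) / T) ^ (ν + 1)) /
        ((ν + 1) * (1 + ((t0 : ℝ) - B + 1) / T) ^ ν)) atTop
      (𝓝 ((1 ^ (ν + 1) - (1 - τ) ^ (ν + 1)) / ((ν + 1) * 1 ^ ν))) := by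
    refine Tendsto.div ((h2.pow _).sub ((h2.sub h1).pow _)) ((h3.pow _).const_mul _) ?_
    rw [one_pow, mul_one]
    exact hν.ne'
  have h5 : Tendsto (fun T : ℕ => ((⌊τ * T⌋₊ : ℕ) : ℝ) / T * (1 - ρ) +
      ρ * (((1 - (B : ℝ) / T) ^ (ν + 1) -
      ((1 - (B : ℝ) / T) - ((⌊τ * T⌋₊ : ℕ) : ℝ) / T) ^ (ν + 1)) /
        ((ν + 1) * (1 + ((t0 : ℝ) - B + 1) / T) ^ ν))) atTop
      (𝓝 (τ * (1 - ρ) + ρ * ((1 ^ (ν + 1) - (1 - τ) ^ (ν + 1)) / ((ν + 1) * 1 ^ ν)))) :=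
    (h1.mul_const _).add (h4.const_mul _)
  have e0 : ggR ν ρ τ = τ * (1 - ρ) + ρ * ((1 ^ (ν + 1) - (1 - τ) ^ (ν + 1)) /
      ((ν + 1) * 1 ^ ν)) := by
    unfold ggR
    rw [one_pow, one_pow, mul_one]
  rw [e0]
  refine h5.congr' ?_
  filter_upwards [eventually_gt_atTop (B + 1)] with T hTB
  have hT0 : (T : ℝ) ≠ 0 := by
    have : 0 < T := by omega
    exact_mod_cast this.ne'
  have hTR : (B : ℝ) + 1 < T := by exact_mod_cast hTB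
  have ht0 : (0 : ℝ) ≤ t0 := Nat.cast_nonneg _
  have hY : (T : ℝ) + t0 - B + 1 ≠ 0 := by linarith
  unfold HH
  have e1 : (1 : ℝ) - B / T = (T - B) / T := by field_simp
  have e2 : (1 : ℝ) + ((t0 : ℝ) - B + 1) / T = (T + t0 - B + 1) / T := by
    field_simp
    ring
  have e3 : ((T : ℝ) - B) / T - ((⌊τ * T⌋₊ : ℕ) : ℝ) / T = (T - B - (⌊τ * T⌋₊ : ℕ)) / T := by
    rw [sub_div, sub_div, sub_div]
  rw [e1, e2, e3, div_pow, div_pow, div_pow, add_div]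
  have hTp : (T : ℝ) ^ ν ≠ 0 := pow_ne_zero _ hT0
  have hYp := pow_ne_zero ν hY
  have hν' := hν.ne'
  congr 1
  · ring
  · rw [pow_succ (T : ℝ) ν]
    field_simp

/-- the constant -/
noncomputable def cstR (ν : ℕ) (ρ : ℝ) : ℝ :=
  (ν + 1) / (1 - ν * (ρ - 1) * (1 - (1 - 1 / ρ) ^ (1 / (ν : ℝ))))

lemma cstR_pos {ν : ℕ} (hν : 1 ≤ ν) {ρ : ℝ} (hρ : 1 ≤ ρ) :
    0 < 1 - (ν : ℝ) * (ρ - 1) * (1 - (1 - 1 / ρ) ^ (1 / (ν : ℝ))) := by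
  rcases eq_or_lt_of_le hρ with h1 | hrR
  · subst h1
    norm_num
  have hνR : (0 : ℝ) < ν := by exact_mod_cast hν
  set x : ℝ := 1 - 1 / ρ with hx
  have hxp : 0 < x := by
    rw [hx, sub_pos, div_lt_one (by linarith)]
    exact hrR
  have hx1 : x < 1 := by
    rw [hx]
    have : 0 < 1 / ρ := by positivity
    linarith
  set s : ℝ := x ^ (1 / (ν : ℝ)) with hs
  have hsp : 0 < s := Real.rpow_pos_of_pos hxp _
  have hs1 : s < 1 := Real.rpow_lt_one hxp.le hx1 (by positivity)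
  have hsν : s ^ ν = x := by
    rw [hs, ← Real.rpow_natCast, ← Real.rpow_mul hxp.le, one_div, inv_mul_cancel₀ hνR.ne',
      Real.rpow_one]
  have h2 : 1 + (ν : ℝ) * (s⁻¹ - 1) ≤ (s⁻¹) ^ ν := by
    have := one_add_mul_le_pow (a := s⁻¹ - 1) (by
      have : 0 < s⁻¹ := by positivity
      linarith) ν
    rwa [add_sub_cancel] at this
  rw [inv_pow, hsν] at h2
  have h3 : x⁻¹ * (ρ - 1) = ρ := by
    rw [hx]
    have : ρ ≠ 0 := by linarith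
    have h4 : ρ - 1 ≠ 0 := by linarith
    field_simp
  have h5 : (ν : ℝ) * (s⁻¹ - 1) * (ρ - 1) ≤ 1 := by
    have h6 := mul_le_mul_of_nonneg_right h2 (by linarith : (0 : ℝ) ≤ ρ - 1)
    rw [h3] at h6
    nlinarith
  have h7 := mul_le_mul_of_nonneg_right h5 hsp.le
  have h8 : (ν : ℝ) * (s⁻¹ - 1) * (ρ - 1) * s = ν * (ρ - 1) * (1 - s) := by
    have := hsp.ne'
    field_simp
  rw [h8] at h7
  linarith

lemma ggR_eq {ν : ℕ} (hν : 1 ≤ ν) {ρ : ℝ} (hρ : 1 ≤ ρ) :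
    ggR ν ρ (1 - (1 - 1 / ρ) ^ (1 / (ν : ℝ))) = 1 / cstR ν ρ := by
  have hνR : (0 : ℝ) < ν := by exact_mod_cast hν
  set x : ℝ := 1 - 1 / ρ with hx
  have hxp : 0 ≤ x := by
    rw [hx, sub_nonneg, div_le_one (by linarith)]
    exact hρ
  set s : ℝ := x ^ (1 / (ν : ℝ)) with hs
  have hsν : s ^ ν = x := by
    rw [hs, ← Real.rpow_natCast, ← Real.rpow_mul hxp, one_div, inv_mul_cancel₀ hνR.ne',
      Real.rpow_one]
  unfold ggR cstR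
  rw [one_div_div, sub_sub_cancel, pow_succ, hsν]
  have h3 : ρ * x = ρ - 1 := by
    rw [hx]
    have : ρ ≠ 0 := by linarith
    field_simp
  have h4 : (ν : ℝ) + 1 ≠ 0 := by positivity
  rw [eq_div_iff h4]
  have h5 : ρ * ((1 - x * s) / (ν + 1)) * (ν + 1) = ρ - (ρ * x) * s := by
    field_simp
  rw [add_mul, h5, h3]
  ring

lemma one_le_cstR {ν : ℕ} (hν : 1 ≤ ν) {ρ : ℝ} (hρ : 1 ≤ ρ) : (ν : ℝ) + 1 ≤ cstR ν ρ := by
  have h1 := cstR_pos hν hρ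
  unfold cstR
  rw [le_div_iff₀ h1]
  have hx0 : 0 ≤ 1 - 1 / ρ := by
    rw [sub_nonneg, div_le_one (by linarith)]
    exact hρ
  have hx1 : 1 - 1 / ρ ≤ 1 := by
    have : 0 ≤ 1 / ρ := by positivity
    linarith
  have h2 : (1 - 1 / ρ) ^ (1 / (ν : ℝ)) ≤ 1 := Real.rpow_le_one hx0 hx1 (by positivity)
  have h3 : 0 ≤ (ν : ℝ) * (ρ - 1) * (1 - (1 - 1 / ρ) ^ (1 / (ν : ℝ))) :=
    mul_nonneg (mul_nonneg (Nat.cast_nonneg _) (by linarith)) (by linarith)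
  have h4 : (0 : ℝ) ≤ (ν : ℝ) + 1 := by positivity
  nlinarith

/-- a good value of `τ` -/
lemma exists_tau {ν : ℕ} (hν : 1 ≤ ν) {ρ : ℝ} (hρ : 1 ≤ ρ) (B t0 : ℕ) {ε : ℝ} (hε : 0 < ε) :
    ∃ τ G : ℝ, 1 / (cstR ν ρ + ε) < G ∧ ∀ᶠ T : ℕ in atTop, ⌊τ * T⌋₊ + B ≤ T ∧
      G * T ≤ ((⌊τ * T⌋₊ : ℕ) : ℝ) * (1 - ρ) + ρ * HH ν B t0 T ⌊τ * T⌋₊ := by
  have hpos := cstR_pos hν hρ
  have hc : 0 < cstR ν ρ := by
    unfold cstR
    positivity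
  set τ0 : ℝ := 1 - (1 - 1 / ρ) ^ (1 / (ν : ℝ)) with hτ0
  have hg0 : ggR ν ρ τ0 = 1 / cstR ν ρ := ggR_eq hν hρ
  have hνR : (0 : ℝ) < ν := by exact_mod_cast hν
  have hτ01 : τ0 ≤ 1 := by
    have : 0 ≤ (1 - 1 / ρ) ^ (1 / (ν : ℝ)) := Real.rpow_nonneg (by
      rw [sub_nonneg, div_le_one (by linarith)]
      exact hρ) _
    linarith
  have hτ00 : 0 < τ0 := by
    have h1 : (1 - 1 / ρ) ^ (1 / (ν : ℝ)) < 1 := by
      refine Real.rpow_lt_one (by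
        rw [sub_nonneg, div_le_one (by linarith)]
        exact hρ) ?_ (by positivity)
      have : 0 < 1 / ρ := by positivity
      linarith
    linarith
  set G0 : ℝ := 1 / (cstR ν ρ + ε / 2) with hG0
  have hG0p : 0 < G0 := by positivity
  have hlt : G0 < ggR ν ρ τ0 := by
    rw [hg0, hG0]
    exact one_div_lt_one_div_of_lt hc (by linarith)
  have hcont : Continuous (ggR ν ρ) := by
    unfold ggR
    fun_prop
  obtain ⟨τ, hτ0', hτ1, hgτ⟩ : ∃ τ : ℝ, 0 < τ ∧ τ < 1 ∧ G0 < ggR ν ρ τ := by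
    have h1 : ∀ᶠ τ in 𝓝 τ0, G0 < ggR ν ρ τ := (hcont.tendsto τ0).eventually_const_lt hlt
    have h2 : ∀ᶠ τ in 𝓝 τ0, 0 < τ := eventually_gt_nhds hτ00
    have h3 : ∀ᶠ τ in 𝓝[<] τ0, G0 < ggR ν ρ τ ∧ 0 < τ := (h1.and h2).filter_mono nhdsWithin_le_nhds
    have h4 : ∀ᶠ τ in 𝓝[<] τ0, τ < τ0 := eventually_mem_nhdsWithin
    obtain ⟨τ, ⟨h5, h6⟩, h7⟩ := (h3.and h4).exists
    exact ⟨τ, h6, by linarith, h5⟩
  have hlim := (tendsto_HHR ν B t0 ρ τ hτ0'.le).eventually_const_lt hgτ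
  have hJB : ∀ᶠ T : ℕ in atTop, ⌊τ * T⌋₊ + B ≤ T := by
    have hT : Tendsto (fun T : ℕ => (T : ℝ)) atTop atTop := tendsto_natCast_atTop_atTop
    filter_upwards [hT.eventually_ge_atTop ((B : ℝ) / (1 - τ))] with T hT1
    rw [div_le_iff₀ (by linarith)] at hT1
    have h1 : ((⌊τ * T⌋₊ : ℕ) : ℝ) ≤ τ * T := Nat.floor_le (by positivity)
    have h2 : ((⌊τ * T⌋₊ + B : ℕ) : ℝ) ≤ (T : ℕ) := by
      push_cast
      linarith
    exact_mod_cast h2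
  refine ⟨τ, G0, one_div_lt_one_div_of_lt (by positivity) (by linarith), ?_⟩
  filter_upwards [hlim, hJB, eventually_ge_atTop 1] with T h1 h2 h3
  have hTp : (0 : ℝ) < T := by exact_mod_cast h3
  rw [lt_div_iff₀ hTp] at h1
  exact ⟨h2, h1.le⟩

/-- a common degree for finitely many parameters -/
theorem choose_T (D : ℕ) (hD : 1 ≤ D) (C1 ε : ℝ) (hε : 0 < ε) (A : Set ℝ)
    (hA : A.Finite) (c : ℝ → ℝ) (hc : ∀ ρ ∈ A, 0 < c ρ) (κ : ℝ → ℕ → ℝ) (P : ℝ → ℕ → Prop)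
    (h : ∀ ρ ∈ A, ∃ G : ℝ, 1 / (c ρ + ε) < G ∧ ∀ᶠ T : ℕ in atTop, P ρ T ∧ G * T ≤ κ ρ T) :
    ∃ T : ℕ, 1 ≤ T ∧ ∀ ρ ∈ A, P ρ T ∧ (D : ℝ) * T + C1 + 1 ≤ (c ρ + ε) * (D * κ ρ T) := by
  have hT : Tendsto (fun T : ℕ => (T : ℝ)) atTop atTop := tendsto_natCast_atTop_atTop
  have hDR : (1 : ℝ) ≤ D := by exact_mod_cast hD
  have hall : ∀ᶠ T : ℕ in atTop, ∀ ρ ∈ A, P ρ T ∧
      (D : ℝ) * T + C1 + 1 ≤ (c ρ + ε) * (D * κ ρ T) := by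
    rw [Filter.eventually_all_finite hA]
    intro ρ hρ
    obtain ⟨G, hG, hev⟩ := h ρ hρ
    have hcp := hc ρ hρ
    have hcε : 0 < c ρ + ε := by linarith
    have hθ : 1 < (c ρ + ε) * G := by
      rw [div_lt_iff₀ hcε] at hG
      linarith
    filter_upwards [hev, hT.eventually_ge_atTop ((|C1| + 1) / ((c ρ + ε) * G - 1))] with T hT2 hT1
    refine ⟨hT2.1, ?_⟩
    rw [div_le_iff₀ (by linarith)] at hT1
    have h1 : C1 ≤ |C1| := le_abs_self _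
    have h2 : (0 : ℝ) ≤ T := Nat.cast_nonneg _
    have h3 : (T : ℝ) * ((c ρ + ε) * G - 1) ≤ D * (T * ((c ρ + ε) * G - 1)) := by
      have : 0 ≤ (T : ℝ) * ((c ρ + ε) * G - 1) := mul_nonneg h2 (by linarith)
      nlinarith
    have h4 : (c ρ + ε) * (D * (G * T)) = D * (T * ((c ρ + ε) * G - 1)) + D * T := by
      ring
    have h5 : (c ρ + ε) * (D * (G * T)) ≤ (c ρ + ε) * (D * κ ρ T) :=
      mul_le_mul_of_nonneg_left (mul_le_mul_of_nonneg_left hT2.2 (by linarith)) hcε.le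
    refine le_trans ?_ h5
    rw [h4]
    linarith
  obtain ⟨T, hT1, hT2⟩ := ((eventually_ge_atTop 1).and hall).exists
  exact ⟨T, hT1, hT2⟩

end Pool.Agent.NH28
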