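import Pool.Agent.NH28.HtSum

/-!
A multiplier with prescribed local bounds, for which finitely many traces do not vanish.
-/

set_option autoImplicit false

namespace Pool.Agent.NH28

open NumberField IsDedekindDomain Finset Module Height
open Pool.Agent.W180.OP (Pl av wt fv fv_apply wt_nonneg fv_support_finite nrm le_nrm nrm_pos
  exists_nrm nrm_nonneg partial_le)
open Pool.Agent.W180.TP (wt_pos one_term)

/-- a combination of powers of a generator for which finitely many traces do not vanish -/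
theorem exists_gamma {K L : Type} [Field K] [NumberField K] [Field L] [NumberField L] [Algebra K L]
    {q : ℕ} (hq : 0 < q) (P : Fin q → L) (hP : ∀ i, P i ≠ 0) (a : L)
    (ha : IntermediateField.adjoin ℚ {a} = ⊤) :
    ∃ c : ℕ, c ≤ q * finrank K L ∧ ∀ i, Algebra.trace K L
      ((∑ k ∈ Finset.range (finrank K L), (c : L) ^ k * a ^ k) * P i) ≠ 0 := by
  classical
  have hK : IntermediateField.adjoin K {a} = ⊤ :=
    IntermediateField.adjoin_eq_top_of_adjoin_eq_top (E := K) ℚ ha
  have hint : IsIntegral K a := IsIntegral.of_finite K _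
  set pb0 : PowerBasis K (IntermediateField.adjoin K {a}) :=
    IntermediateField.adjoin.powerBasis hint with hpb0
  set e0 : (IntermediateField.adjoin K {a}) ≃ₐ[K] L := (IntermediateField.equivOfEq hK).trans
    IntermediateField.topEquiv with he0
  set pb : PowerBasis K L := pb0.map e0 with hpb
  have hgen : pb.gen = a := by
    rw [hpb, PowerBasis.map_gen, hpb0, IntermediateField.adjoin.powerBasis_gen]
    rfl
  have hdim : pb.dim = finrank K L := (PowerBasis.finrank pb).symm
  set Q : Fin q → Polynomial K := fun i => ∑ k ∈ Finset.range (finrank K L),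
    Polynomial.C (Algebra.trace K L (a ^ k * P i)) * Polynomial.X ^ k with hQ
  have hcoeff : ∀ i, ∀ k < finrank K L, (Q i).coeff k = Algebra.trace K L (a ^ k * P i) := by
    intro i k hk
    rw [hQ]
    simp only [Polynomial.finsetSum_coeff, Polynomial.coeff_C_mul, Polynomial.coeff_X_pow]
    rw [Finset.sum_eq_single k]
    · simp
    · intro j _ hji
      have : k ≠ j := fun h => hji h.symm
      simp [this]
    · intro h
      exact absurd (Finset.mem_range.2 hk) h
  have hQ0 : ∀ i, Q i ≠ 0 := by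
    intro i h0
    apply hP i
    have hnd := traceForm_nondegenerate K L
    refine hnd.1 (P i) fun y => ?_
    have h1 : Algebra.traceForm K L (P i) = 0 := by
      refine pb.basis.ext fun k => ?_
      rw [pb.basis_eq_pow, hgen]
      have hk : (k : ℕ) < finrank K L := by have := k.2; omega
      have h2 := hcoeff i k hk
      rw [h0, Polynomial.coeff_zero] at h2
      rw [Algebra.traceForm_apply, mul_comm, ← h2]
      rfl
    rw [h1]
    rfl
  have hdeg : ∀ i, (Q i).natDegree ≤ finrank K L := by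
    intro i
    refine Polynomial.natDegree_sum_le_of_forall_le _ _ fun k hk => ?_
    refine (Polynomial.natDegree_C_mul_X_pow_le _ _).trans (Finset.mem_range.1 hk).le
  set Bad : Finset K := Finset.univ.biUnion fun i => (Q i).roots.toFinset with hBad
  have hBadc : Bad.card ≤ q * finrank K L := by
    refine (Finset.card_biUnion_le_card_mul _ _ (finrank K L) fun p hp => ?_).trans ?_
    · exact (Multiset.toFinset_card_le _).trans ((Polynomial.card_roots' _).trans (hdeg p))
    · rw [Finset.card_univ, Fintype.card_fin]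
  set Cs : Finset K := (Finset.range (q * finrank K L + 1)).image (fun c : ℕ => (c : K)) with hCs
  have hCsc : Cs.card = q * finrank K L + 1 := by
    rw [hCs, Finset.card_image_of_injective _ Nat.cast_injective, Finset.card_range]
  obtain ⟨z, hz, hzB⟩ := Finset.exists_mem_notMem_of_card_lt_card
    (show Bad.card < Cs.card by rw [hCsc]; omega)
  obtain ⟨c, hc, rfl⟩ := Finset.mem_image.1 hz
  refine ⟨c, by have := Finset.mem_range.1 hc; omega, fun i h => ?_⟩
  apply hzB
  rw [hBad, Finset.mem_biUnion]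
  refine ⟨i, Finset.mem_univ _, ?_⟩
  rw [Multiset.mem_toFinset, Polynomial.mem_roots (hQ0 i), Polynomial.IsRoot, hQ]
  simp only [Polynomial.eval_finsetSum, Polynomial.eval_mul, Polynomial.eval_C,
    Polynomial.eval_pow, Polynomial.eval_X]
  rw [Finset.sum_mul, map_sum] at h
  rw [← h]
  refine Finset.sum_congr rfl fun k _ => ?_
  have h3 : (c : L) ^ k * a ^ k * P i = ((c : K) ^ k) • (a ^ k * P i) := by
    rw [Algebra.smul_def, map_pow, map_natCast, mul_assoc]
  rw [h3, map_smul, smul_eq_mul, mul_comm]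

/-- **the multiplier** -/
theorem exists_theta (K : Type) [Field K] [NumberField K] (n r : ℕ) :
    ∃ C1 : ℝ, 0 ≤ C1 ∧ ∀ (M q : ℕ), 0 < q → ∀ (S : Finset (Pl K)),
      (∀ v : InfinitePlace K, Sum.inl v ∈ S) → ∃ C2 : ℝ, 0 ≤ C2 ∧
      ∀ (L : Type) [Field L] [NumberField L] [Algebra K L], finrank K L ≤ r →
        ∀ x : Fin n → L, x ≠ 0 →
          IntermediateField.adjoin K {z | ∃ i j, z = x i / x j} = ⊤ →
          ∀ P : Fin q → L, (∀ i, P i ≠ 0) → ∀ β : Pl L → ℝ,
            M * logHeight x + C1 * (logHeight x + 1) + C2 ≤ ∑ v ∈ S, ∑ w ∈ ab L v, β w →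
            ∃ θ : L, (∀ i, Algebra.trace K L (θ * P i) ≠ 0) ∧
              (∀ v ∈ S, ∀ w ∈ ab L v,
                wt w * Real.log (av w θ) + M * (wt w * Real.log (nrm (av w) x)) ≤ β w) ∧
              ∀ v, v ∉ S → ∀ w ∈ ab L v, av w θ * nrm (av w) x ^ M ≤ 1 := by
  classical
  obtain ⟨Cp, hCp0, hCp⟩ := exists_prim K n r
  set R : ℕ := finrank ℚ K * r with hR
  refine ⟨Cp + R * (r * Cp), by positivity, ?_⟩
  intro M q hq S hS
  obtain ⟨CN, hCN0, hCN⟩ := sum_lN S
  set Cq : ℝ := Real.log (((r : ℝ) + 1) * ((q : ℝ) * r + 1) ^ r) with hCq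
  have hq1 : (1 : ℝ) ≤ (q : ℝ) * r + 1 := by
    have : (0 : ℝ) ≤ (q : ℝ) * r := by positivity
    linarith
  have hr1 : (1 : ℝ) ≤ (r : ℝ) + 1 := by
    have : (0 : ℝ) ≤ (r : ℝ) := by positivity
    linarith
  have hCqp : (1 : ℝ) ≤ ((r : ℝ) + 1) * ((q : ℝ) * r + 1) ^ r :=
    one_le_mul_of_one_le_of_one_le hr1 (one_le_pow₀ hq1)
  have hCq0 : 0 ≤ Cq := Real.log_nonneg hCqp
  refine ⟨CN * r + R * Cq + 1, by positivity, ?_⟩
  intro L _ _ _ hr x hx hadj P hP β hβ
  obtain ⟨a, haadj, haw, hdisc⟩ := hCp L hr x hx hadj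
  set h := logHeight x with hh
  have hh0 : 0 ≤ h := logHeight_nonneg x
  set E : ℝ := Cq + r * (Cp * (h + 1)) with hE
  have hE0 : 0 ≤ E := by positivity
  -- the data for Minkowski's theorem
  choose m hm using fun v : HeightOneSpectrum (𝓞 L) => log_nrm hx v
  set T : Finset (HeightOneSpectrum (𝓞 L)) := fab L S ∪ (nrm_support hx).toFinset with hT
  have hTs : ∀ v, nrm (fv v) x ≠ 1 → v ∈ T := fun v hv => by
    rw [hT, Finset.mem_union]
    right
    rw [Set.Finite.mem_toFinset]
    exact hv
  set e : HeightOneSpectrum (𝓞 L) → ℤ := fun v =>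
    (if v ∈ fab L S then ⌊β (Sum.inr v) / lN v⌋ else 0) - M * m v with he
  set g : InfinitePlace L → ℝ := fun w =>
    (β (Sum.inl w)) / w.mult - M * Real.log (nrm w.1 x) - E with hg
  have hmult : ∀ w : InfinitePlace L, (0 : ℝ) < w.mult := fun w => by
    exact_mod_cast InfinitePlace.mult_pos
  have hfin : finrank ℚ L ≤ R := by
    rw [← finrank_mul_finrank ℚ K L, hR]
    exact Nat.mul_le_mul_left _ hr
  have hfinR : (finrank ℚ L : ℝ) ≤ R := by exact_mod_cast hfin
  have hsum_mult : ∑ w : InfinitePlace L, (w.mult : ℝ) = finrank ℚ L := by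
    exact_mod_cast InfinitePlace.sum_mult_eq (K := L)
  have hsg : ∑ w : InfinitePlace L, (w.mult : ℝ) * g w = ∑ w : InfinitePlace L, β (Sum.inl w) -
      M * ∑ w : InfinitePlace L, (w.mult : ℝ) * Real.log (nrm w.1 x) - finrank ℚ L * E := by
    rw [← hsum_mult, Finset.mul_sum, Finset.sum_mul, ← Finset.sum_sub_distrib,
      ← Finset.sum_sub_distrib]
    refine Finset.sum_congr rfl fun w _ => ?_
    rw [hg]
    have := (hmult w).ne'
    field_simp
  have hse : ∑ v ∈ fab L S, β (Sum.inr v) - ∑ v ∈ fab L S, lN v -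
      M * ∑ v ∈ T, Real.log (nrm (fv v) x) ≤ ∑ v ∈ T, (e v : ℝ) * lN v := by
    have h1 : ∑ v ∈ T, (e v : ℝ) * lN v = ∑ v ∈ T, ((if v ∈ fab L S then
        ⌊β (Sum.inr v) / lN v⌋ else 0 : ℤ) : ℝ) * lN v -
        M * ∑ v ∈ T, Real.log (nrm (fv v) x) := by
      rw [Finset.mul_sum, ← Finset.sum_sub_distrib]
      refine Finset.sum_congr rfl fun v _ => ?_
      rw [he, hm v]
      push_cast
      ring
    have h2 : ∑ v ∈ T, ((if v ∈ fab L S then ⌊β (Sum.inr v) / lN v⌋ else 0 : ℤ) : ℝ) * lN v =
        ∑ v ∈ fab L S, (⌊β (Sum.inr v) / lN v⌋ : ℝ) * lN v := by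
      rw [← Finset.sum_subset (Finset.subset_union_left (s₁ := fab L S)
        (s₂ := (nrm_support hx).toFinset))]
      · exact Finset.sum_congr rfl fun v hv => by simp only [hv, if_true]
      · intro v _ hv
        simp only [hv, if_false, Int.cast_zero, zero_mul]
    rw [h1, h2, ← Finset.sum_sub_distrib]
    refine sub_le_sub_right (Finset.sum_le_sum fun v _ => ?_) _
    have h3 := lN_pos v
    have h4 := (Int.sub_one_lt_floor (β (Sum.inr v) / lN v)).le
    have h5 := mul_le_mul_of_nonneg_right h4 h3.le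
    rw [sub_mul, div_mul_cancel₀ _ h3.ne', one_mul] at h5
    exact h5
  have hht := height_sum hx T hTs
  rw [← hh] at hht
  have hlN := hCN L
  have hcond : Real.log |(discr L : ℝ)| / 2 <
      ∑ w : InfinitePlace L, (w.mult : ℝ) * g w + ∑ v ∈ T, (e v : ℝ) * lN v := by
    rw [sum_split S hS] at hβ
    have h1 : CN * (finrank K L : ℝ) ≤ CN * r :=
      mul_le_mul_of_nonneg_left (by exact_mod_cast hr) hCN0
    have h2 : (finrank ℚ L : ℝ) * E ≤ R * E := mul_le_mul_of_nonneg_right hfinR hE0
    have h3 : Real.log |(discr L : ℝ)| / 2 ≤ Cp * (h + 1) := by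
      have : 0 ≤ Cp * (h + 1) := by positivity
      linarith
    have h4 : (R : ℝ) * E = R * Cq + R * (r * Cp) * (h + 1) := by rw [hE]; ring
    have h5 : (M : ℝ) * h = M * ∑ w : InfinitePlace L, (w.mult : ℝ) * Real.log (nrm w.1 x) +
        M * ∑ v ∈ T, Real.log (nrm (fv v) x) := by rw [hht]; ring
    have h6 : (Cp + R * (r * Cp)) * (h + 1) = Cp * (h + 1) + R * (r * Cp) * (h + 1) := by ring
    rw [hsg]
    linarith
  obtain ⟨θ, hθ0, hθw, hθv, hθn⟩ := mink T e g hcond
  obtain ⟨c, hcq, hc⟩ := exists_gamma (K := K) hq (fun i => θ * P i)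
    (fun i => mul_ne_zero hθ0 (hP i)) (a : L) haadj
  set γ : L := ∑ k ∈ Finset.range (finrank K L), (c : L) ^ k * (a : L) ^ k with hγ
  have hγ0 : γ ≠ 0 := by
    intro h0
    apply hc ⟨0, hq⟩
    rw [h0, zero_mul, map_zero]
  have hγint : IsIntegral ℤ γ := by
    refine IsIntegral.sum _ fun k _ => IsIntegral.mul (IsIntegral.pow ?_ _)
      (IsIntegral.pow (NumberField.RingOfIntegers.isIntegral_coe a) _)
    have := isIntegral_algebraMap (R := ℤ) (A := L) (x := (c : ℤ))
    simpa using this
  have hγfin : ∀ v : HeightOneSpectrum (𝓞 L), fv v γ ≤ 1 := by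
    intro v
    rw [fv_le_one_iff]
    exact v.valuation_le_one (⟨γ, hγint⟩ : 𝓞 L)
  have hγinf : ∀ w : InfinitePlace L, Real.log (w γ) ≤ E := by
    intro w
    have hwγ : 0 < w γ := InfinitePlace.pos_iff.mpr hγ0
    have hX0 : 0 ≤ Cp * (h + 1) := by positivity
    have hwa : w (a : L) ≤ Real.exp (Cp * (h + 1)) := by
      by_cases hw0 : w (a : L) = 0
      · rw [hw0]; exact (Real.exp_pos _).le
      · exact (Real.log_le_iff_le_exp (lt_of_le_of_ne (apply_nonneg w _) (Ne.symm hw0))).1 (haw w)
    have h1 : w γ ≤ ∑ k ∈ Finset.range (finrank K L), w ((c : L) ^ k * (a : L) ^ k) :=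
      w.1.sum_le _ _
    have h2 : ∀ k ∈ Finset.range (finrank K L), w ((c : L) ^ k * (a : L) ^ k) ≤
        ((q : ℝ) * r + 1) ^ r * Real.exp (r * (Cp * (h + 1))) := by
      intro k hk
      have hk' : k ≤ r := (Finset.mem_range.1 hk).le.trans hr
      have h4 : w (c : L) = c := by
        rw [← InfinitePlace.norm_embedding_eq, map_natCast, Complex.norm_natCast]
      rw [map_mul, map_pow, map_pow, h4]
      have h5 : (c : ℝ) ≤ (q : ℝ) * r + 1 := by
        have h6 : (c : ℝ) ≤ (q : ℝ) * finrank K L := by exact_mod_cast hcq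
        have h7 : (q : ℝ) * finrank K L ≤ (q : ℝ) * r :=
          mul_le_mul_of_nonneg_left (by exact_mod_cast hr) (Nat.cast_nonneg _)
        linarith
      have h6 : (c : ℝ) ^ k ≤ ((q : ℝ) * r + 1) ^ r :=
        (pow_le_pow_left₀ (Nat.cast_nonneg _) h5 _).trans (pow_le_pow_right₀ hq1 hk')
      have h7 : w (a : L) ^ k ≤ Real.exp (r * (Cp * (h + 1))) := by
        calc w (a : L) ^ k ≤ Real.exp (Cp * (h + 1)) ^ k :=
              pow_le_pow_left₀ (apply_nonneg w _) hwa _
          _ ≤ Real.exp (Cp * (h + 1)) ^ r := pow_le_pow_right₀ (Real.one_le_exp hX0) hk'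
          _ = Real.exp (r * (Cp * (h + 1))) := by rw [← Real.exp_nat_mul]
      exact mul_le_mul h6 h7 (by positivity) (by positivity)
    have h3 := Finset.sum_le_card_nsmul _ _ _ h2
    rw [Finset.card_range, nsmul_eq_mul] at h3
    have h4 : w γ ≤ ((r : ℝ) + 1) * (((q : ℝ) * r + 1) ^ r * Real.exp (r * (Cp * (h + 1)))) := by
      refine h1.trans (h3.trans (mul_le_mul_of_nonneg_right ?_ (by positivity)))
      have : (finrank K L : ℝ) ≤ r := by exact_mod_cast hr
      linarith
    have h5 := Real.log_le_log hwγ h4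
    rw [← mul_assoc, Real.log_mul (by positivity) (Real.exp_pos _).ne', Real.log_exp] at h5
    exact h5
  refine ⟨θ * γ, ?_, ?_, ?_⟩
  · intro i
    have := hc i
    rwa [show θ * γ * P i = γ * (θ * P i) by ring]
  · intro v hv w hw
    have hov := mem_ab.1 hw
    cases w with
    | inl w =>
      have h1 := hθw w
      have h2 := hγinf w
      have hwθ : w θ ≠ 0 := (InfinitePlace.pos_iff.mpr hθ0).ne'
      have hwγ : w γ ≠ 0 := (InfinitePlace.pos_iff.mpr hγ0).ne'
      show (w.mult : ℝ) * Real.log (w (θ * γ)) + M * ((w.mult : ℝ) * Real.log (nrm w.1 x)) ≤ _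
      rw [map_mul, Real.log_mul hwθ hwγ]
      have h3 : Real.log (w θ) + Real.log (w γ) ≤
          (β (Sum.inl w)) / w.mult - M * Real.log (nrm w.1 x) := by
        rw [hg] at h1
        linarith
      have h4 := mul_le_mul_of_nonneg_left h3 (hmult w).le
      have h5 : (w.mult : ℝ) * ((β (Sum.inl w)) / w.mult - M * Real.log (nrm w.1 x)) =
          β (Sum.inl w) - M * ((w.mult : ℝ) * Real.log (nrm w.1 x)) := by
        have := (hmult w).ne'
        field_simp
      rw [h5] at h4
      linarith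
    | inr w =>
      have hwS : w ∈ fab L S := mem_fab.2 ⟨v, hv, hov⟩
      have h1 := hθv w (Finset.mem_union_left _ hwS)
      have hpθ : 0 < fv w θ := (fv w).pos hθ0
      have hpγ : 0 < fv w γ := (fv w).pos hγ0
      have h2 : Real.log (fv w γ) ≤ 0 := Real.log_nonpos hpγ.le (hγfin w)
      show (1 : ℝ) * Real.log (fv w (θ * γ)) + M * (1 * Real.log (nrm (fv w) x)) ≤ _
      rw [map_mul, Real.log_mul hpθ.ne' hpγ.ne', hm w]
      rw [he] at h1
      simp only [hwS, if_true] at h1
      push_cast at h1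
      have h3 := Int.floor_le (β (Sum.inr w) / lN w)
      have h4 := mul_le_mul_of_nonneg_right h3 (lN_pos w).le
      rw [div_mul_cancel₀ _ (lN_pos w).ne'] at h4
      linarith
  · intro v hv w hw
    have hov := mem_ab.1 hw
    cases w with
    | inl w =>
      exfalso
      apply hv
      cases v with
      | inl v => exact hS v
      | inr v => exact hov.elim
    | inr w =>
      have hpθ : 0 < fv w θ := (fv w).pos hθ0
      have hpx := nrm_pos (fv w) hx
      have hwS : w ∉ fab L S := by
        intro hwS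
        obtain ⟨v', hv', hov'⟩ := mem_fab.1 hwS
        exact hv ((ov_unique hov hov') ▸ hv')
      have h1 : fv w θ * nrm (fv w) x ^ M ≤ 1 := by
        by_cases hwT : w ∈ T
        · have h2 := hθv w hwT
          rw [he] at h2
          simp only [hwS, if_false] at h2
          push_cast at h2
          have h3 : Real.log (fv w θ * nrm (fv w) x ^ M) ≤ 0 := by
            rw [Real.log_mul hpθ.ne' (pow_pos hpx _).ne', Real.log_pow, hm w]
            linarith
          exact (Real.log_nonpos_iff (by positivity)).1 h3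
        · have h2 : nrm (fv w) x = 1 := by
            by_contra h
            exact hwT (hTs w h)
          rw [h2, one_pow, mul_one]
          exact hθn w hwT
      show fv w (θ * γ) * nrm (fv w) x ^ M ≤ 1
      rw [map_mul]
      calc fv w θ * fv w γ * nrm (fv w) x ^ M = (fv w θ * nrm (fv w) x ^ M) * fv w γ := by ring
        _ ≤ 1 * 1 := mul_le_mul h1 (hγfin w) ((fv w).nonneg _) zero_le_one
        _ = 1 := one_mul _

end Pool.Agent.NH28
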