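import Pool.Agent.NH28.PlaceV
import Pool.Agent.NH28.Theta

/-!
Primes outside the bad set.
-/

set_option autoImplicit false

namespace Pool.Agent.NH28

open MvPolynomial Finset NumberField IsDedekindDomain Height Module
open Pool.Agent.W180.OP Pool.Agent.W180.TP Pool.Agent.TH875

lemma fv_sum_le {L : Type} [Field L] [NumberField L] (w : HeightOneSpectrum (𝓞 L)) {ι : Type}
    (s : Finset ι) (f : ι → L) (C : ℝ) (hC : 0 ≤ C) (h : ∀ i ∈ s, fv w (f i) ≤ C) :
    fv w (∑ i ∈ s, f i) ≤ C := by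
  classical
  induction s using Finset.induction_on with
  | empty => rw [Finset.sum_empty, map_zero]; exact hC
  | insert a s ha ih =>
    rw [Finset.sum_insert ha]
    refine (FinitePlace.add_le (FinitePlace.mk w) _ _).trans (max_le ?_ ?_)
    · exact h a (Finset.mem_insert_self _ _)
    · exact ih fun i hi => h i (Finset.mem_insert_of_mem hi)

/-- the primes at which a form is not integral -/
lemma exists_bad {K : Type} [Field K] [NumberField K] {n : ℕ} (F : MvPolynomial (Fin n) K) :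
    ∃ T : Finset (HeightOneSpectrum (𝓞 K)), ∀ v, v ∉ T → ∀ β, fv v (F.coeff β) ≤ 1 := by
  classical
  have h1 : (⋃ β : F.support, {v : HeightOneSpectrum (𝓞 K) | fv v (F.coeff β.1) ≠ 1}).Finite :=
    Set.finite_iUnion fun β => fv_support_finite (mem_support_iff.1 β.2)
  refine ⟨h1.toFinset, fun v hv β => ?_⟩
  by_cases hβ : β ∈ F.support
  · rw [Set.Finite.mem_toFinset] at hv
    simp only [Set.mem_iUnion, not_exists, Set.mem_ofPred_eq, not_not] at hv
    exact (hv ⟨β, hβ⟩).le
  · rw [notMem_support_iff.1 hβ, map_zero]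
    exact zero_le_one

lemma int_val {K : Type} [Field K] [NumberField K] {n M : ℕ} (F : MvPolynomial (Fin n) K)
    (hF : F.IsHomogeneous M) (v : HeightOneSpectrum (𝓞 K)) (hv : ∀ β, fv v (F.coeff β) ≤ 1)
    {L : Type} [Field L] [NumberField L] [Algebra K L] (w : HeightOneSpectrum (𝓞 L))
    (hw : w.asIdeal.LiesOver v.asIdeal) (x : Fin n → L) :
    fv w (aeval x F) ≤ nrm (fv w) x ^ M := by
  classical
  rw [aeval_def, eval₂_eq']
  refine fv_sum_le w _ _ _ (pow_nonneg (nrm_nonneg _ _) _) fun β hβ => ?_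
  rw [map_mul, map_prod, fv_ext v w hw]
  have h1 : fv v (F.coeff β) ^ ldeg v w ≤ 1 := pow_le_one₀ ((fv v).nonneg _) (hv β)
  have hdeg : ∑ i, β i = M := by
    have h2 := hF (mem_support_iff.1 hβ)
    have h3 := (DFunLike.congr_fun (Finsupp.degree_eq_weight_one (σ := Fin n) (R := ℕ)) β).trans h2
    rw [← h3, Finsupp.degree_eq_sum]
  have h2 : ∏ i, fv w (x i ^ β i) ≤ nrm (fv w) x ^ M := by
    rw [← hdeg, ← Finset.prod_pow_eq_pow_sum]
    refine Finset.prod_le_prod (fun i _ => (fv w).nonneg _) fun i _ => ?_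
    rw [map_pow]
    exact pow_le_pow_left₀ ((fv w).nonneg _) (le_nrm (fv w) x i) _
  calc _ ≤ 1 * ∏ i, fv w (x i ^ β i) :=
        mul_le_mul_of_nonneg_right h1 (Finset.prod_nonneg fun i _ => (fv w).nonneg _)
    _ ≤ _ := by rw [one_mul]; exact h2

/-- the trace is integral outside the bad set -/
lemma int_trace {K : Type} [Field K] [NumberField K] {n M : ℕ} (F : MvPolynomial (Fin n) K)
    (hF : F.IsHomogeneous M) (v : HeightOneSpectrum (𝓞 K)) (hv : ∀ β, fv v (F.coeff β) ≤ 1)
    {L : Type} [Field L] [NumberField L] [Algebra K L] (x : Fin n → L) (θ : L)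
    (hθ : ∀ w ∈ ab L (Sum.inr v : Pl K), av w θ * nrm (av w) x ^ M ≤ 1) :
    fv v (Algebra.trace K L (θ * aeval x F)) ≤ 1 := by
  refine trace_fin v _ fun w hw => ?_
  have h1 := hθ (Sum.inr w) (mem_ab.2 hw)
  have h2 := int_val F hF v hv w hw x
  rw [map_mul]
  exact (mul_le_mul_of_nonneg_left h2 ((fv w).nonneg _)).trans h1

/-- the height is at most the sum over the places of `S` -/
lemma height_le_sum {K : Type} [Field K] [NumberField K] {N : ℕ} {z : Fin N → K} (hz : z ≠ 0)
    (S : Finset (Pl K)) (hS : ∀ v : InfinitePlace K, Sum.inl v ∈ S)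
    (h : ∀ v : HeightOneSpectrum (𝓞 K), Sum.inr v ∉ S → ∀ j, fv v (z j) ≤ 1) :
    logHeight z ≤ ∑ v ∈ S, wt v * Real.log (nrm (av v) z) := by
  classical
  have hN := Pool.Agent.NH28.fin_pos_of_ne hz
  have : Nonempty (Fin N) := ⟨⟨0, hN⟩⟩
  set T : Finset (HeightOneSpectrum (𝓞 K)) := (nrm_support hz).toFinset ∪ S.toRight with hT
  rw [height_sum hz T (fun v hv => Finset.mem_union_left _ ((Set.Finite.mem_toFinset _).2 hv))]
  have e1 : ∑ v ∈ S, wt v * Real.log (nrm (av v) z) =
      ∑ v ∈ S.toLeft, (v.mult : ℝ) * Real.log (nrm v.1 z) +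
        ∑ v ∈ S.toRight, Real.log (nrm (fv v) z) := by
    conv_lhs => rw [← Finset.toLeft_disjSum_toRight (u := S), Finset.sum_disjSum]
    congr 1
    exact Finset.sum_congr rfl fun v _ => one_mul _
  have e2 : S.toLeft = Finset.univ := by
    ext v
    simp [hS]
  rw [e1, e2]
  refine add_le_add le_rfl ?_
  rw [← Finset.sum_sdiff (Finset.subset_union_right : S.toRight ⊆ T)]
  have h1 : ∑ v ∈ T \ S.toRight, Real.log (nrm (fv v) z) ≤ 0 := by
    refine Finset.sum_nonpos fun v hv => ?_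
    have hv' : Sum.inr v ∉ S := by
      have := (Finset.mem_sdiff.1 hv).2
      simpa using this
    refine Real.log_nonpos (nrm_nonneg _ _) ?_
    exact ciSup_le fun j => h v hv' j
  linarith

end Pool.Agent.NH28
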