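import Mathlib

/-!
Bases adapted to weights; a layer cake inequality.
-/

set_option autoImplicit false

namespace Pool.Agent.NH28

open Finset Module

section greedy

variable {K V ι : Type} [Field K] [AddCommGroup V] [Module K V] [FiniteDimensional K V]
  [Fintype ι]

/-- exchange of one vector of a basis -/
lemma indep_update {N : ℕ} (b : Basis (Fin N) K V) (v : V) (a : Fin N) (h : b.repr v a ≠ 0) :
    LinearIndependent K (Function.update (b : Fin N → V) a v) := by
  classical
  rw [Fintype.linearIndependent_iff]
  intro d hd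
  have h1 : ∑ j, d j • Function.update (b : Fin N → V) a v j =
      d a • v + ∑ j ∈ Finset.univ.erase a, d j • b j := by
    rw [← Finset.add_sum_erase _ _ (Finset.mem_univ a), Function.update_self]
    congr 1
    refine Finset.sum_congr rfl fun j hj => ?_
    rw [Function.update_of_ne (Finset.ne_of_mem_erase hj)]
  rw [h1] at hd
  have h2 : ∀ i, b.repr (d a • v + ∑ j ∈ Finset.univ.erase a, d j • b j) i =
      d a * b.repr v i + if i = a then 0 else d i := by
    intro i
    rw [map_add, map_smul, map_sum, Finsupp.add_apply, Finsupp.smul_apply, smul_eq_mul,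
      Finsupp.finsetSum_apply]
    congr 1
    by_cases hi : i = a
    · rw [if_pos hi]
      refine Finset.sum_eq_zero fun j hj => ?_
      rw [map_smul, Basis.repr_self, Finsupp.smul_apply, Finsupp.single_apply, if_neg, smul_zero]
      rw [hi]
      exact Finset.ne_of_mem_erase hj
    · rw [if_neg hi, Finset.sum_eq_single i]
      · rw [map_smul, Basis.repr_self, Finsupp.smul_apply, Finsupp.single_eq_same, smul_eq_mul,
          mul_one]
      · intro j _ hj
        rw [map_smul, Basis.repr_self, Finsupp.smul_apply, Finsupp.single_apply, if_neg hj,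
          smul_zero]
      · intro h
        exact absurd (Finset.mem_erase.2 ⟨hi, Finset.mem_univ _⟩) h
  have h3 : d a = 0 := by
    have := h2 a
    rw [hd, map_zero, Finsupp.zero_apply, if_pos rfl, add_zero] at this
    rcases mul_eq_zero.1 this.symm with h4 | h4
    · exact h4
    · exact absurd h4 h
  intro i
  by_cases hi : i = a
  · rw [hi, h3]
  · have := h2 i
    rw [hd, map_zero, Finsupp.zero_apply, if_neg hi, h3, zero_mul, zero_add] at this
    exact this.symm

/-- a basis of largest weight is adapted to all levels -/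
theorem greedy (φ : ι → V) (hφ : Submodule.span K (Set.range φ) = ⊤) (μ : ι → ℝ) (N : ℕ)
    (hN : finrank K V = N) :
    ∃ β : Fin N → ι, LinearIndependent K (fun a => φ (β a)) ∧ ∀ t : ℝ,
      finrank K (Submodule.span K (φ '' {i | t ≤ μ i})) ≤
        ((Finset.univ : Finset (Fin N)).filter fun a => t ≤ μ (β a)).card := by
  classical
  -- some basis
  obtain ⟨κ, a, ha, hspan, hind⟩ := exists_linearIndependent' K φ
  have hfin : Finite κ := Finite.of_injective a ha
  have := Fintype.ofFinite κ
  have hcard : Fintype.card κ = N := by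
    have h1 := finrank_span_eq_card hind
    rw [hspan, hφ, finrank_top, hN] at h1
    exact h1.symm
  let e : Fin N ≃ κ := (Fintype.equivFinOfCardEq hcard).symm
  set Bs : Finset (Fin N → ι) := Finset.univ.filter fun β => LinearIndependent K fun j => φ (β j)
    with hBs
  have hne : Bs.Nonempty := by
    refine ⟨fun j => a (e j), ?_⟩
    rw [hBs, Finset.mem_filter]
    exact ⟨Finset.mem_univ _, hind.comp e e.injective⟩
  obtain ⟨β, hβ, hmax⟩ := Finset.exists_max_image Bs (fun β => ∑ j, μ (β j)) hne
  have hβi : LinearIndependent K fun j => φ (β j) := (Finset.mem_filter.1 hβ).2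
  refine ⟨β, hβi, fun t => ?_⟩
  have htop : (⊤ : Submodule K V) ≤ Submodule.span K (Set.range fun j => φ (β j)) := by
    have h1 : finrank K (Submodule.span K (Set.range fun j => φ (β j))) = finrank K V := by
      rw [finrank_span_eq_card hβi, Fintype.card_fin, hN]
    exact (Submodule.eq_top_of_finrank_eq h1).ge
  let b : Basis (Fin N) K V := Basis.mk hβi htop
  have hb : ∀ j, b j = φ (β j) := fun j => Basis.mk_apply hβi htop j
  have key : ∀ i (j : Fin N), b.repr (φ i) j ≠ 0 → μ i ≤ μ (β j) := by
    intro i j hij
    by_contra hlt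
    push Not at hlt
    have h1 := indep_update b (φ i) j hij
    have h2 : (Function.update (b : Fin N → V) j (φ i)) =
        fun l => φ (Function.update β j i l) := by
      funext l
      by_cases hl : l = j
      · subst hl
        rw [Function.update_self, Function.update_self]
      · rw [Function.update_of_ne hl, Function.update_of_ne hl, hb]
    rw [h2] at h1
    have h3 : ∑ l, μ (Function.update β j i l) ≤ ∑ l, μ (β l) :=
      hmax (Function.update β j i) (by
        rw [hBs, Finset.mem_filter]
        exact ⟨Finset.mem_univ _, h1⟩)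
    have h4 : ∑ l, μ (Function.update β j i l) = ∑ l, μ (β l) - μ (β j) + μ i := by
      rw [← Finset.add_sum_erase _ _ (Finset.mem_univ j), Function.update_self,
        ← Finset.add_sum_erase Finset.univ (fun l => μ (β l)) (Finset.mem_univ j)]
      have : ∑ l ∈ Finset.univ.erase j, μ (Function.update β j i l) =
          ∑ l ∈ Finset.univ.erase j, μ (β l) := Finset.sum_congr rfl fun l hl => by
        rw [Function.update_of_ne (Finset.ne_of_mem_erase hl)]
      rw [this]
      ring
    rw [h4] at h3
    linarith
  have h5 : Submodule.span K (φ '' {i | t ≤ μ i}) ≤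
      Submodule.span K ((fun j => φ (β j)) ''
        (((Finset.univ : Finset (Fin N)).filter fun a => t ≤ μ (β a)) : Set (Fin N))) := by
    rw [Submodule.span_le]
    rintro _ ⟨i, hi, rfl⟩
    have h6 := b.sum_repr (φ i)
    rw [← h6]
    refine Submodule.sum_mem _ fun j _ => ?_
    by_cases hj : b.repr (φ i) j = 0
    · rw [hj, zero_smul]
      exact Submodule.zero_mem _
    · refine Submodule.smul_mem _ _ (Submodule.subset_span ⟨j, ?_, (hb j).symm⟩)
      rw [Finset.mem_coe, Finset.mem_filter]
      exact ⟨Finset.mem_univ _, le_trans hi (key i j hj)⟩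
  refine (Submodule.finrank_mono h5).trans ?_
  have h6 := finrank_span_finset_le_card (R := K) (((Finset.univ : Finset (Fin N)).filter
    fun a => t ≤ μ (β a)).image fun j => φ (β j))
  rw [Finset.coe_image] at h6
  exact le_trans h6 Finset.card_image_le

/-- codimensions are subadditive -/
theorem codim_inf {σ : Type} (s : Finset σ) (U : σ → Submodule K V) :
    (finrank K V : ℝ) - finrank K (s.inf U : Submodule K V) ≤
      ∑ i ∈ s, ((finrank K V : ℝ) - finrank K (U i)) := by
  classical
  induction s using Finset.induction_on with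
  | empty =>
    rw [Finset.inf_empty, finrank_top, sub_self, Finset.sum_empty]
  | insert a s ha ih =>
    rw [Finset.inf_insert, Finset.sum_insert ha]
    have h1 := Submodule.finrank_sup_add_finrank_inf_eq (U a) (s.inf U)
    have h2 := Submodule.finrank_le (U a ⊔ s.inf U)
    have h3 : (finrank K (U a ⊔ s.inf U : Submodule K V) : ℝ) + finrank K (U a ⊓ s.inf U : Submodule K V) =
        finrank K (U a) + finrank K (s.inf U : Submodule K V) := by exact_mod_cast h1
    have h4 : (finrank K (U a ⊔ s.inf U : Submodule K V) : ℝ) ≤ finrank K V := by exact_mod_cast h2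
    linarith

end greedy

section layer

open MeasureTheory

lemma integral_ind (B m : ℝ) (hB : 0 ≤ B) :
    ∫ t in Set.Ioc 0 B, (Set.Iic m).indicator (fun _ => (1 : ℝ)) t = min B (max m 0) := by
  rw [integral_indicator measurableSet_Iic, Measure.restrict_restrict measurableSet_Iic,
    integral_const, smul_eq_mul, mul_one]
  have : Set.Iic m ∩ Set.Ioc 0 B = Set.Ioc 0 (min B m) := by
    ext t
    simp only [Set.mem_inter_iff, Set.mem_Iic, Set.mem_Ioc, le_min_iff]
    tauto
  rw [measureReal_restrict_apply_univ, this, Real.volume_real_Ioc, sub_zero]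
  rcases le_total m 0 with h | h
  · rw [max_eq_right h, max_eq_right ((min_le_right _ _).trans h), min_eq_right hB]
  · rw [max_eq_left h, max_eq_left (le_min hB h)]

lemma integrable_ind (B m : ℝ) :
    IntegrableOn ((Set.Iic m).indicator (fun _ => (1 : ℝ))) (Set.Ioc 0 B) :=
  (integrableOn_const (by simp)).indicator measurableSet_Iic

/-- layer cake -/
theorem layer {α σ : Type} [Fintype α] [Fintype σ] (B : ℝ) (hB : 0 ≤ B) (N : ℝ) (m : α → ℝ)
    (b l : σ → ℝ) (hl : ∀ j, 0 ≤ l j) (hbB : ∀ j, b j ≤ B)
    (h : ∀ t, 0 < t → t ≤ B → N ≤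
      (((Finset.univ : Finset α).filter fun a => t ≤ m a).card : ℝ) +
      (((Finset.univ : Finset σ).filter fun j => l j < t - (B - b j)).card : ℝ)) :
    N * B ≤ ∑ a, min B (max (m a) 0) + ∑ j, max (b j - l j) 0 := by
  classical
  have h1 : ∀ t ∈ Set.Ioc (0 : ℝ) B, N ≤ ∑ a, (Set.Iic (m a)).indicator (fun _ => (1 : ℝ)) t +
      ∑ j, (1 - (Set.Iic (l j + (B - b j))).indicator (fun _ => (1 : ℝ)) t) := by
    intro t ht
    refine (h t ht.1 ht.2).trans (le_of_eq ?_)
    congr 1
    · rw [Finset.card_eq_sum_ones, Finset.sum_filter]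
      push_cast
      exact Finset.sum_congr rfl fun a _ => by
        by_cases hc : t ≤ m a
        · rw [Set.indicator_of_mem (Set.mem_Iic.2 hc), if_pos hc]
        · rw [Set.indicator_of_notMem (fun h => hc (Set.mem_Iic.1 h)), if_neg hc]
    · rw [Finset.card_eq_sum_ones, Finset.sum_filter]
      push_cast
      exact Finset.sum_congr rfl fun j _ => by
        by_cases hc : t ≤ l j + (B - b j)
        · rw [Set.indicator_of_mem (Set.mem_Iic.2 hc), if_neg (by linarith), sub_self]
        · rw [Set.indicator_of_notMem (fun h => hc (Set.mem_Iic.1 h)), if_pos (by linarith),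
            sub_zero]
  have hcon : IntegrableOn (fun _ : ℝ => (1 : ℝ)) (Set.Ioc 0 B) := integrableOn_const (by simp)
  have hi1 : IntegrableOn (fun t => ∑ a, (Set.Iic (m a)).indicator (fun _ => (1 : ℝ)) t)
      (Set.Ioc 0 B) := integrable_finsetSum _ fun a _ => integrable_ind B (m a)
  have hi2' : ∀ j ∈ (Finset.univ : Finset σ), IntegrableOn (fun t =>
      (1 - (Set.Iic (l j + (B - b j))).indicator (fun _ => (1 : ℝ)) t)) (Set.Ioc 0 B) :=
    fun j _ => hcon.sub (integrable_ind B (l j + (B - b j)))
  have hi2 : IntegrableOn (fun t => ∑ j,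
      (1 - (Set.Iic (l j + (B - b j))).indicator (fun _ => (1 : ℝ)) t)) (Set.Ioc 0 B) :=
    integrable_finsetSum _ hi2'
  have h2 : ∫ t in Set.Ioc 0 B, N ≤ ∫ t in Set.Ioc 0 B,
      (∑ a, (Set.Iic (m a)).indicator (fun _ => (1 : ℝ)) t +
        ∑ j, (1 - (Set.Iic (l j + (B - b j))).indicator (fun _ => (1 : ℝ)) t)) :=
    setIntegral_mono_on (integrableOn_const (by simp)) (hi1.add hi2) measurableSet_Ioc h1
  rw [integral_add hi1 hi2, integral_finsetSum _ fun a _ => integrable_ind B (m a),
    integral_finsetSum _ hi2'] at h2
  have h3 : ∫ t in Set.Ioc 0 B, N = N * B := by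
    rw [setIntegral_const, Real.volume_real_Ioc_of_le hB, sub_zero, smul_eq_mul, mul_comm]
  rw [h3] at h2
  refine h2.trans (add_le_add (le_of_eq ?_) ?_)
  · exact Finset.sum_congr rfl fun a _ => integral_ind B (m a) hB
  · refine Finset.sum_le_sum fun j _ => ?_
    rw [integral_sub hcon (integrable_ind B _), integral_ind B _ hB, setIntegral_const,
      Real.volume_real_Ioc_of_le hB, sub_zero, smul_eq_mul, mul_one]
    have h4 : 0 ≤ l j + (B - b j) := by
      have := hl j
      have := hbB j
      linarith
    rw [max_eq_left h4]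
    rcases le_total B (l j + (B - b j)) with h5 | h5
    · rw [min_eq_left h5, sub_self]
      exact le_max_right _ _
    · rw [min_eq_right h5]
      refine le_trans (le_of_eq ?_) (le_max_left _ _)
      ring

end layer

end Pool.Agent.NH28
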