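import Pool.Agent.TH875.Cm3

/-!
Counting exponents.
-/

set_option autoImplicit false

namespace Pool.Agent.NH28

open Finset
open Pool.Agent.TH875 (Sm mem_Sm dg)

section sym

variable {n r : ℕ}

/-- symmetry in the exponents -/
lemma sum_sym' {d : ℕ} (hd : 1 ≤ d) (E : Finset (Fin n →₀ ℕ)) (m : ℕ) (f : ℕ → ℝ)
    (k k' : Fin r) : ∑ s ∈ Sm d E r m, f (s.1 k) = ∑ s ∈ Sm d E r m, f (s.1 k') := by
  classical
  refine Finset.sum_nbij' (fun s => (s.1 ∘ Equiv.swap k k', s.2))
    (fun s => (s.1 ∘ Equiv.swap k k', s.2)) ?_ ?_ ?_ ?_ ?_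
  · intro s hs
    rw [mem_Sm hd] at hs ⊢
    refine ⟨hs.1, ?_⟩
    rw [← hs.2]
    unfold dg
    simp only [Function.comp_apply]
    rw [Equiv.sum_comp (Equiv.swap k k') s.1]
  · intro s hs
    rw [mem_Sm hd] at hs ⊢
    refine ⟨hs.1, ?_⟩
    rw [← hs.2]
    unfold dg
    simp only [Function.comp_apply]
    rw [Equiv.sum_comp (Equiv.swap k k') s.1]
  · intro s _
    ext1
    · funext i; simp
    · rfl
  · intro s _
    ext1
    · funext i; simp
    · rfl
  · intro s _
    simp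

/-- the truncated sum of the first exponents -/
noncomputable def Gs (d : ℕ) (E : Finset (Fin n →₀ ℕ)) (r m J : ℕ) (k : Fin r) : ℝ :=
  ∑ s ∈ Sm d E r m, min (J : ℝ) (s.1 k)

/-- convexity -/
theorem conv {d : ℕ} (hd : 1 ≤ d) (E : Finset (Fin n →₀ ℕ)) (m J : ℕ) (k0 : Fin r)
    (lam : Fin r → ℝ) (hlam : ∀ k, 0 ≤ lam k) :
    ∑ s ∈ Sm d E r m, max (J * ∑ k, lam k - ∑ k, (s.1 k : ℝ) * lam k) 0 ≤
      (∑ k, lam k) * (J * (Sm d E r m).card - Gs d E r m J k0) := by
  have h1 : ∀ s ∈ Sm d E r m, max (J * ∑ k, lam k - ∑ k, (s.1 k : ℝ) * lam k) 0 ≤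
      ∑ k, lam k * ((J : ℝ) - min (J : ℝ) (s.1 k)) := by
    intro s _
    have h0 : ∀ k, 0 ≤ lam k * ((J : ℝ) - min (J : ℝ) (s.1 k)) := fun k =>
      mul_nonneg (hlam k) (by have := min_le_left (J : ℝ) (s.1 k); linarith)
    refine max_le ?_ (Finset.sum_nonneg fun k _ => h0 k)
    rw [Finset.mul_sum, ← Finset.sum_sub_distrib]
    refine Finset.sum_le_sum fun k _ => ?_
    have h2 := min_le_right (J : ℝ) (s.1 k)
    nlinarith [hlam k]
  refine (Finset.sum_le_sum h1).trans (le_of_eq ?_)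
  rw [Finset.sum_comm, Finset.sum_mul]
  refine Finset.sum_congr rfl fun k _ => ?_
  rw [← Finset.mul_sum, Finset.sum_sub_distrib, Finset.sum_const, nsmul_eq_mul]
  have h3 := sum_sym' hd E m (fun j => min (J : ℝ) (j : ℝ)) k k0
  unfold Gs
  rw [h3]
  ring

/-- exponents at least `u` -/
lemma card_ge {d : ℕ} (hd : 1 ≤ d) (E : Finset (Fin n →₀ ℕ)) (m u : ℕ) (k : Fin r)
    (hu : d * u ≤ m) :
    ((Sm d E r m).filter fun s => u ≤ s.1 k).card = (Sm d E r (m - d * u)).card := by
  classical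
  refine Finset.card_bij' (fun s _ => (Function.update s.1 k (s.1 k - u), s.2))
    (fun s _ => (Function.update s.1 k (s.1 k + u), s.2)) ?_ ?_ ?_ ?_
  · intro s hs
    rw [Finset.mem_filter, mem_Sm hd] at hs
    rw [mem_Sm hd]
    refine ⟨hs.1.1, ?_⟩
    have h1 := hs.1.2
    unfold dg at h1 ⊢
    simp only
    have h2 : ∑ j, Function.update s.1 k (s.1 k - u) j + u = ∑ j, s.1 j := by
      rw [← Finset.add_sum_erase _ _ (Finset.mem_univ k),
        ← Finset.add_sum_erase Finset.univ s.1 (Finset.mem_univ k), Function.update_self]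
      have : ∑ j ∈ Finset.univ.erase k, Function.update s.1 k (s.1 k - u) j =
          ∑ j ∈ Finset.univ.erase k, s.1 j := Finset.sum_congr rfl fun j hj => by
        rw [Function.update_of_ne (Finset.ne_of_mem_erase hj)]
      rw [this]
      have := hs.2
      omega
    rw [← h1, ← h2, mul_add]
    omega
  · intro s hs
    rw [mem_Sm hd] at hs
    rw [Finset.mem_filter, mem_Sm hd]
    refine ⟨⟨hs.1, ?_⟩, ?_⟩
    · have h1 := hs.2
      unfold dg at h1 ⊢
      simp only
      have h2 : ∑ j, Function.update s.1 k (s.1 k + u) j = ∑ j, s.1 j + u := by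
        rw [← Finset.add_sum_erase _ _ (Finset.mem_univ k),
          ← Finset.add_sum_erase Finset.univ s.1 (Finset.mem_univ k), Function.update_self]
        have : ∑ j ∈ Finset.univ.erase k, Function.update s.1 k (s.1 k + u) j =
            ∑ j ∈ Finset.univ.erase k, s.1 j := Finset.sum_congr rfl fun j hj => by
          rw [Function.update_of_ne (Finset.ne_of_mem_erase hj)]
        rw [this]
        omega
      rw [h2, mul_add]
      omega
    · simp
  · intro s hs
    rw [Finset.mem_filter] at hs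
    ext1
    · funext i
      by_cases hi : i = k
      · subst hi
        simp only [Function.update_self]
        have := hs.2
        omega
      · simp [Function.update_of_ne hi]
    · rfl
  · intro s _
    ext1
    · funext i
      by_cases hi : i = k
      · subst hi
        simp
      · simp [Function.update_of_ne hi]
    · rfl

/-- the truncated sum by levels -/
lemma Gs_eq {d : ℕ} (hd : 1 ≤ d) (E : Finset (Fin n →₀ ℕ)) (m J : ℕ) (k : Fin r)
    (hJ : d * J ≤ m) :
    Gs d E r m J k = ∑ u ∈ Finset.range J, ((Sm d E r (m - d * (u + 1))).card : ℝ) := by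
  classical
  have h1 : ∀ a : ℕ, min (J : ℝ) (a : ℝ) = ∑ u ∈ Finset.range J,
      if u + 1 ≤ a then (1 : ℝ) else 0 := by
    intro a
    rw [← Finset.sum_filter, Finset.sum_const, nsmul_eq_mul, mul_one]
    have : (Finset.range J).filter (fun u => u + 1 ≤ a) = Finset.range (min J a) := by
      ext u
      simp only [Finset.mem_filter, Finset.mem_range, lt_min_iff]
      omega
    rw [this, Finset.card_range]
    push_cast
    rfl
  unfold Gs
  rw [Finset.sum_congr rfl fun s _ => h1 (s.1 k), Finset.sum_comm]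
  refine Finset.sum_congr rfl fun u hu => ?_
  have hu' := Finset.mem_range.1 hu
  rw [← card_ge hd E m (u + 1) k ((Nat.mul_le_mul_left d (by omega)).trans hJ),
    Finset.card_filter]
  push_cast
  rfl

end sym

/-- the number of exponents with given sum -/
lemma card_anti (ν t : ℕ) : (Finset.piAntidiag (Finset.univ : Finset (Fin (ν + 1))) t).card =
    (t + ν).choose ν := by
  rw [← Finset.map_sym_eq_piAntidiag, Finset.card_map, Finset.sym_univ, Finset.card_univ,
    Sym.card_sym_eq_choose, Fintype.card_fin]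
  rw [show ν + 1 + t - 1 = t + ν by omega]
  exact Nat.choose_symm_add

lemma card_Sm {n ν d : ℕ} (hd : 1 ≤ d) (E : Finset (Fin n →₀ ℕ)) (t B : ℕ)
    (hB : ∀ β ∈ E, β.degree ≤ d * B) (ht : B ≤ t) :
    (Sm d E (ν + 1) (d * t)).card = ∑ β ∈ E.filter (fun β => d ∣ β.degree),
      (t - β.degree / d + ν).choose ν := by
  classical
  have h1 : (Sm d E (ν + 1) (d * t)) = (E.filter (fun β => d ∣ β.degree)).biUnion fun β =>
      (Finset.piAntidiag (Finset.univ : Finset (Fin (ν + 1))) (t - β.degree / d)).map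
        ⟨fun a => (a, β), Prod.mk_left_injective β⟩ := by
    ext s
    rw [mem_Sm hd, Finset.mem_biUnion]
    simp only [Finset.mem_filter, Finset.mem_map, Finset.mem_piAntidiag, Function.Embedding.coeFn_mk]
    constructor
    · rintro ⟨hs, hdg⟩
      unfold dg at hdg
      have hdvd : d ∣ s.2.degree := by
        have : d ∣ d * ∑ k, s.1 k + s.2.degree := by rw [hdg]; exact Dvd.intro _ rfl
        exact (Nat.dvd_add_right (Dvd.intro _ rfl)).1 this
      refine ⟨s.2, ⟨hs, hdvd⟩, s.1, ⟨?_, fun i _ => Finset.mem_univ i⟩, rfl⟩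
      obtain ⟨c, hc⟩ := hdvd
      rw [hc] at hdg ⊢
      rw [Nat.mul_div_cancel_left _ (by omega)]
      rw [← mul_add] at hdg
      have h5 : Finset.univ.sum s.1 + c = t := Nat.eq_of_mul_eq_mul_left (by omega) hdg
      omega
    · rintro ⟨β, ⟨hβ, hdvd⟩, a, ⟨ha, -⟩, rfl⟩
      refine ⟨hβ, ?_⟩
      unfold dg
      simp only
      obtain ⟨c, hc⟩ := hdvd
      have h2 := hB β hβ
      rw [hc] at ha h2 ⊢
      rw [Nat.mul_div_cancel_left _ (by omega)] at ha
      have h3 : c ≤ B := Nat.le_of_mul_le_mul_left h2 (by omega)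
      rw [ha, ← mul_add]
      congr 1
      omega
  rw [h1, Finset.card_biUnion]
  · refine Finset.sum_congr rfl fun β _ => ?_
    rw [Finset.card_map, card_anti]
  · intro β _ β' _ hne
    rw [Function.onFun, Finset.disjoint_left]
    intro s hs hs'
    obtain ⟨a, -, rfl⟩ := Finset.mem_map.1 hs
    obtain ⟨a', -, h⟩ := Finset.mem_map.1 hs'
    exact hne (Prod.ext_iff.1 h).2.symm

lemma choose_ratio (ν : ℕ) {a b : ℕ} (h : a ≤ b) :
    (b + ν).choose ν * (a + 1) ^ ν ≤ (a + ν).choose ν * (b + 1) ^ ν := by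
  induction ν with
  | zero => simp
  | succ ν ih =>
    have h1 : ∀ c : ℕ, (ν + 1) * (c + (ν + 1)).choose (ν + 1) = (c + (ν + 1)) * (c + ν).choose ν := by
      intro c
      have := Nat.add_one_mul_choose_eq (c + ν) ν
      rw [show c + (ν + 1) = c + ν + 1 by ring]
      linarith
    have h2 : (ν + 1) * ((b + (ν + 1)).choose (ν + 1) * (a + 1) ^ (ν + 1)) ≤
        (ν + 1) * ((a + (ν + 1)).choose (ν + 1) * (b + 1) ^ (ν + 1)) := by
      calc (ν + 1) * ((b + (ν + 1)).choose (ν + 1) * (a + 1) ^ (ν + 1)) =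
            ((b + (ν + 1)) * (a + 1)) * ((b + ν).choose ν * (a + 1) ^ ν) := by
            rw [← mul_assoc, h1, pow_succ]; ring
        _ ≤ ((a + (ν + 1)) * (b + 1)) * ((a + ν).choose ν * (b + 1) ^ ν) := by
            refine Nat.mul_le_mul ?_ ih
            nlinarith
        _ = (ν + 1) * ((a + (ν + 1)).choose (ν + 1) * (b + 1) ^ (ν + 1)) := by
            rw [← mul_assoc (ν + 1) ((a + (ν + 1)).choose (ν + 1)), h1 a, pow_succ]; ring
    exact Nat.le_of_mul_le_mul_left h2 (by omega)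

/-- comparison of two degrees -/
theorem card_compare {n ν d : ℕ} (hd : 1 ≤ d) (E : Finset (Fin n →₀ ℕ)) (T u B t0 : ℕ)
    (hB : ∀ β ∈ E, β.degree ≤ d * B) (hu : u + B ≤ T) :
    ((Sm d E (ν + 1) (d * (T + t0))).card : ℝ) * (((T : ℝ) - u - B + 1) / (T + t0 - B + 1)) ^ ν ≤
      (Sm d E (ν + 1) (d * (T - u))).card := by
  rw [card_Sm hd E (T + t0) B hB (by omega), card_Sm hd E (T - u) B hB (by omega)]
  push_cast
  rw [Finset.sum_mul]
  refine Finset.sum_le_sum fun β hβ => ?_
  rw [Finset.mem_filter] at hβ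
  obtain ⟨c, hc⟩ := hβ.2
  have h2 := hB β hβ.1
  rw [hc] at h2 ⊢
  rw [Nat.mul_div_cancel_left _ (by omega)]
  have h3 : c ≤ B := Nat.le_of_mul_le_mul_left h2 (by omega)
  have h4 := choose_ratio ν (a := T - u - c) (b := T + t0 - c) (by omega)
  have h5 : (((T + t0 - c + ν).choose ν : ℕ) : ℝ) * (((T - u - c : ℕ) : ℝ) + 1) ^ ν ≤
      (((T - u - c + ν).choose ν : ℕ) : ℝ) * (((T + t0 - c : ℕ) : ℝ) + 1) ^ ν := by
    exact_mod_cast h4
  have e1 : ((T - u - c : ℕ) : ℝ) = (T : ℝ) - u - c := by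
    rw [Nat.cast_sub (by omega), Nat.cast_sub (by omega)]
  have e2 : ((T + t0 - c : ℕ) : ℝ) = (T : ℝ) + t0 - c := by
    rw [Nat.cast_sub (by omega), Nat.cast_add]
  rw [e1, e2] at h5
  have hcB : (c : ℝ) ≤ B := by exact_mod_cast h3
  have huT : (u : ℝ) + B ≤ T := by exact_mod_cast hu
  have ht0 : (0 : ℝ) ≤ t0 := Nat.cast_nonneg _
  have hu0 : (0 : ℝ) ≤ u := Nat.cast_nonneg _
  have p1 : (0 : ℝ) < (T : ℝ) + t0 - c + 1 := by linarith
  have p2 : (0 : ℝ) < (T : ℝ) + t0 - B + 1 := by linarith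
  have h6 : (((T + t0 - c + ν).choose ν : ℕ) : ℝ) *
      (((T : ℝ) - u - c + 1) / (T + t0 - c + 1)) ^ ν ≤ (((T - u - c + ν).choose ν : ℕ) : ℝ) := by
    rw [div_pow, mul_div_assoc', div_le_iff₀ (pow_pos p1 _)]
    exact h5
  refine le_trans (mul_le_mul_of_nonneg_left ?_ (Nat.cast_nonneg _)) h6
  refine pow_le_pow_left₀ (by
    have : (0 : ℝ) ≤ (T : ℝ) - u - B + 1 := by linarith
    positivity) ?_ _
  rw [div_le_div_iff₀ p2 p1]
  nlinarith

end Pool.Agent.NH28
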