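import Pool.Agent.NH28.T2W

/-!
The constant is increasing; a uniform version of `t2w`.
-/

set_option autoImplicit false

namespace Pool.Agent.NH28

open MvPolynomial Finset NumberField IsDedekindDomain Height Module
open Pool.Agent.W180.OP Pool.Agent.W180.TP
open Pool.Agent.TH875 (top_members not_all form_ub)

lemma tangent (n : ℕ) {s t : ℝ} (hs : 0 ≤ s) (ht : 0 ≤ t) :
    t ^ (n + 1) + (n + 1) * t ^ n * (s - t) ≤ s ^ (n + 1) := by
  induction n with
  | zero => simp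
  | succ n ih =>
    have h1 := mul_le_mul_of_nonneg_left ih hs
    have h2 : s ^ (n + 1 + 1) = s * s ^ (n + 1) := by ring
    rw [h2]
    refine le_trans ?_ h1
    have h3 : 0 ≤ ((n : ℝ) + 1) * t ^ n * (s - t) ^ 2 := by positivity
    have h4 : s * (t ^ (n + 1) + ((n : ℝ) + 1) * t ^ n * (s - t)) =
        t ^ (n + 1 + 1) + (((n + 1 : ℕ) : ℝ) + 1) * t ^ (n + 1) * (s - t) +
          ((n : ℝ) + 1) * t ^ n * (s - t) ^ 2 := by
      push_cast
      ring
    rw [h4]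
    linarith

lemma ggR_le {ν : ℕ} (hν : 1 ≤ ν) {ρ : ℝ} (hρ : 1 ≤ ρ) {τ : ℝ} (hτ : τ ≤ 1) :
    ggR ν ρ τ ≤ 1 / cstR ν ρ := by
  rw [← ggR_eq hν hρ]
  have hνR : (0 : ℝ) < ν := by exact_mod_cast hν
  set x : ℝ := 1 - 1 / ρ with hx
  have hxp : 0 ≤ x := by
    rw [hx, sub_nonneg, div_le_one (by linarith)]
    exact hρ
  set t : ℝ := x ^ (1 / (ν : ℝ)) with ht
  have ht0 : 0 ≤ t := Real.rpow_nonneg hxp _
  have htν : t ^ ν = x := by
    rw [ht, ← Real.rpow_natCast, ← Real.rpow_mul hxp, one_div, inv_mul_cancel₀ hνR.ne',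
      Real.rpow_one]
  have h1 := tangent ν (s := 1 - τ) (t := t) (by linarith) ht0
  rw [htν] at h1
  have h3 : ρ * x = ρ - 1 := by
    rw [hx]
    have : ρ ≠ 0 := by linarith
    field_simp
  unfold ggR
  rw [sub_sub_cancel]
  have hν1 : (0 : ℝ) < (ν : ℝ) + 1 := by positivity
  have h4 : τ * (1 - ρ) + ρ * ((1 - (1 - τ) ^ (ν + 1)) / (ν + 1)) ≤
      τ * (1 - ρ) + ρ * ((1 - (t ^ (ν + 1) + (ν + 1) * x * (1 - τ - t))) / (ν + 1)) := by
    refine add_le_add le_rfl (mul_le_mul_of_nonneg_left ?_ (by linarith))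
    exact div_le_div_of_nonneg_right (by linarith) hν1.le
  refine h4.trans (le_of_eq ?_)
  have h5 : ρ * ((1 - (t ^ (ν + 1) + (ν + 1) * x * (1 - τ - t))) / (ν + 1)) =
      ρ * ((1 - t ^ (ν + 1)) / (ν + 1)) - (ρ * x) * (1 - τ - t) := by
    field_simp
    ring
  rw [h5, h3]
  ring

lemma cstR_mono {ν : ℕ} (hν : 1 ≤ ν) {ρ ρ' : ℝ} (hρ : 1 ≤ ρ) (h : ρ ≤ ρ') :
    cstR ν ρ ≤ cstR ν ρ' := by
  have hρ' : 1 ≤ ρ' := hρ.trans h
  have h1 := one_le_cstR hν hρ
  have h2 := one_le_cstR hν hρ'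
  have hν0 : (0 : ℝ) ≤ ν := Nat.cast_nonneg _
  have hc : 0 < cstR ν ρ := by linarith
  have hc' : 0 < cstR ν ρ' := by linarith
  rw [← one_div_le_one_div hc' hc, ← ggR_eq hν hρ']
  set τ : ℝ := 1 - (1 - 1 / ρ') ^ (1 / (ν : ℝ)) with hτ
  have hτ1 : τ ≤ 1 := by
    have : 0 ≤ (1 - 1 / ρ') ^ (1 / (ν : ℝ)) := Real.rpow_nonneg (by
      rw [sub_nonneg, div_le_one (by linarith)]
      exact hρ') _
    linarith
  refine le_trans ?_ (ggR_le hν hρ hτ1)
  have h3 := tangent ν (s := 1 - τ) (t := 1) (by linarith) zero_le_one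
  simp only [one_pow, mul_one] at h3
  have hν1 : (0 : ℝ) < (ν : ℝ) + 1 := by positivity
  have h4 : (1 - (1 - τ) ^ (ν + 1)) / ((ν : ℝ) + 1) ≤ τ := by
    rw [div_le_iff₀ hν1]
    linarith
  unfold ggR
  nlinarith

/-- a uniform version -/
theorem t2u {K : Type} [Field K] [NumberField K] {n q ν r : ℕ} (hν : 1 ≤ ν) 
    (F : Fin q → MvPolynomial (Fin n) K) (d : Fin q → ℕ) (hd : ∀ i, 1 ≤ d i)
    (hF : ∀ i, (F i).IsHomogeneous (d i)) (ε ε1 : ℝ) (hε1 : 0 < ε1)
    (hεε : ε1 * cstR ν r ≤ ε) :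
    ∀ (S : Finset (Pl K)) (C : ℝ), 0 ≤ C → ∃ C' : ℝ, 0 ≤ C' ∧
        ∀ (L : Type) [Field L] [NumberField L] [Algebra K L],
        finrank K L ≤ r → ∀ x : Fin n → L, x ≠ 0 → (∀ i, aeval x (F i) ≠ 0) →
        ∀ (T : Finset (Pl L)) (V : Pl L → Pl K), (∀ w ∈ T, V w ∈ S ∧ Ov (V w) w) →
        ∑ w ∈ T, wt w * (∑ i, lam (av w) (d i) (bc L (F i)) x / d i) /
          cstR ν (finrank K L / nn (V w) w) ≤ (1 + ε1) * logHeight x + C →
        ∀ ρ : ℝ, 1 ≤ ρ → ρ ≤ r → (∀ w ∈ T, finrank K L / nn (V w) w ≤ ρ) →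
        ∑ w ∈ T, wt w * ∑ i, lam (av w) (d i) (bc L (F i)) x / d i ≤
          (cstR ν ρ + ε) * logHeight x + C' := by
  classical
  intro S C hC
  choose Cb hCb0 hCb using fun i : Fin q => form_ub (F i) (hF i)
  have hCbs : 0 ≤ ∑ i, Cb i := Finset.sum_nonneg fun e _ => hCb0 e
  set Q : ℝ := (finrank ℚ K : ℝ) * r with hQ
  have hQ0 : 0 ≤ Q := by positivity
  set W : ℝ := (∑ i, Cb i) * Q with hW
  have hW0 : 0 ≤ W := by positivity
  refine ⟨|cstR ν r| * (C + S.card * (r * W)), by positivity, ?_⟩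
  intro L _ _ _ hrL x hx hFx T V hT hmain ρ hρ1 hρr hρ
  have hfq : (finrank ℚ L : ℝ) ≤ Q := by
    have h1 : finrank ℚ K * finrank K L = finrank ℚ L := finrank_mul_finrank ℚ K L
    rw [hQ, ← h1]
    push_cast
    exact mul_le_mul_of_nonneg_left (by exact_mod_cast hrL) (Nat.cast_nonneg _)
  have hd0 : ∀ i, (1 : ℝ) ≤ d i := fun i => by exact_mod_cast hd i
  have hlow : ∀ w : Pl L, -W ≤ wt w * (∑ i, lam (av w) (d i) (bc L (F i)) x / d i) := by
    intro w
    rw [Finset.mul_sum, neg_le, ← Finset.sum_neg_distrib]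
    have h1 : ∀ i ∈ Finset.univ, -(wt w * (lam (av w) (d i) (bc L (F i)) x / d i)) ≤ Cb i * Q := by
      intro i _
      have h2 := hCb i L w x hx (hFx i)
      have h3 : Cb i * finrank ℚ L ≤ Cb i * Q := mul_le_mul_of_nonneg_left hfq (hCb0 i)
      have h4 : 0 ≤ Cb i * Q := mul_nonneg (hCb0 i) hQ0
      have h5 : -(wt w * (lam (av w) (d i) (bc L (F i)) x / d i)) =
          -(wt w * lam (av w) (d i) (bc L (F i)) x) / d i := by ring
      rw [h5, div_le_iff₀ (by have := hd0 i; linarith)]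
      have h6 : Cb i * Q ≤ Cb i * Q * d i := le_mul_of_one_le_right h4 (hd0 i)
      linarith
    refine (Finset.sum_le_sum h1).trans (le_of_eq ?_)
    rw [← Finset.sum_mul]
  have hcρ := one_le_cstR hν hρ1
  have hcr := cstR_mono hν hρ1 hρr
  have hν0 : (0 : ℝ) ≤ ν := Nat.cast_nonneg _
  have hcρ0 : 0 < cstR ν ρ := by linarith
  have hcr0 : 0 < cstR ν r := by linarith
  have hh := logHeight_nonneg x
  -- the number of places
  have hcard : (T.card : ℝ) ≤ S.card * r := by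
    have h1 : T ⊆ S.biUnion fun v => ab L v := by
      intro w hw
      obtain ⟨hv, hvw⟩ := hT w hw
      exact Finset.mem_biUnion.2 ⟨V w, hv, mem_ab.2 hvw⟩
    have h2 := (Finset.card_le_card h1).trans Finset.card_biUnion_le
    have h3 : ∑ v ∈ S, (ab L v).card ≤ ∑ _v ∈ S, r :=
      Finset.sum_le_sum fun v _ => (card_ab_le L v).trans hrL
    rw [Finset.sum_const, smul_eq_mul] at h3
    exact_mod_cast h2.trans h3
  have hterm : ∀ w ∈ T, (wt w * ∑ i, lam (av w) (d i) (bc L (F i)) x / d i) / cstR ν ρ ≤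
      wt w * (∑ i, lam (av w) (d i) (bc L (F i)) x / d i) /
          cstR ν (finrank K L / nn (V w) w) + W := by
    intro w hw
    obtain ⟨hv, hvw⟩ := hT w hw
    have hρw : 1 ≤ (finrank K L : ℝ) / nn (V w) w :=
      RR_one_le (rho_mem (r := r) hrL (mem_ab.2 hvw))
    have hc1 := one_le_cstR hν hρw
    have hc2 := cstR_mono hν hρw (hρ w hw)
    set a : ℝ := wt w * (∑ i, lam (av w) (d i) (bc L (F i)) x / d i) with ha
    have h1 := hlow w
    have hcw : 0 < cstR ν (finrank K L / nn (V w) w) := by linarith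
    have h2 : (a + W) / cstR ν ρ ≤ (a + W) / cstR ν (finrank K L / nn (V w) w) :=
      div_le_div_of_nonneg_left (by linarith) hcw hc2
    rw [add_div, add_div] at h2
    have h3 : 0 ≤ W / cstR ν ρ := div_nonneg hW0 hcρ0.le
    have h4 : W / cstR ν (finrank K L / nn (V w) w) ≤ W := div_le_self hW0 (by linarith)
    linarith
  have h1 := Finset.sum_le_sum hterm
  rw [← Finset.sum_div, Finset.sum_add_distrib, Finset.sum_const, nsmul_eq_mul,
    div_le_iff₀ hcρ0] at h1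
  refine h1.trans ?_
  have h2 : (T.card : ℝ) * W ≤ S.card * (r * W) := by
    have := mul_le_mul_of_nonneg_right hcard hW0
    linarith
  have h3 : (∑ w ∈ T, wt w * (∑ i, lam (av w) (d i) (bc L (F i)) x / d i) /
          cstR ν (finrank K L / nn (V w) w) + T.card * W) * cstR ν ρ ≤
      ((1 + ε1) * logHeight x + (C + S.card * (r * W))) * cstR ν ρ :=
    mul_le_mul_of_nonneg_right (by linarith) hcρ0.le
  refine h3.trans ?_
  rw [abs_of_pos hcr0]
  have hCS : 0 ≤ C + S.card * (r * W) := by positivity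
  have h4 : (C + S.card * (r * W)) * cstR ν ρ ≤ cstR ν r * (C + S.card * (r * W)) := by
    rw [mul_comm]
    exact mul_le_mul_of_nonneg_right hcr hCS
  have h5 : ε1 * cstR ν ρ ≤ ε := (mul_le_mul_of_nonneg_left hcr hε1.le).trans hεε
  have h6 : ε1 * cstR ν ρ * logHeight x ≤ ε * logHeight x := mul_le_mul_of_nonneg_right h5 hh
  nlinarith

end Pool.Agent.NH28
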