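import Pool.Agent.NH28.GainD
import Pool.Agent.NH28.Mono

/-!
Counting exponents with small last coordinates.
-/

set_option autoImplicit false

namespace Pool.Agent.NH28

open Finset Filter Topology
open Pool.Agent.TH875 (Sm mem_Sm dg)

lemma choose_ratio' (ν m : ℕ) (hm : ν ≤ m) {u t : ℕ} (h : u ≤ t) :
    (u + ν).choose ν * (t + m) ^ ν ≤ (t + ν).choose ν * (u + m) ^ ν := by
  induction ν with
  | zero => simp
  | succ ν ih =>
    have h1 : ∀ c : ℕ, (ν + 1) * (c + (ν + 1)).choose (ν + 1) = (c + (ν + 1)) * (c + ν).choose ν := by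
      intro c
      have := Nat.add_one_mul_choose_eq (c + ν) ν
      rw [show c + (ν + 1) = c + ν + 1 by ring]
      linarith
    have hkey : (u + (ν + 1)) * (t + m) ≤ (t + (ν + 1)) * (u + m) := by
      obtain ⟨a, rfl⟩ := Nat.exists_eq_add_of_le h
      obtain ⟨b, rfl⟩ := Nat.exists_eq_add_of_le hm
      nlinarith [Nat.zero_le (a * b)]
    have h2 : (ν + 1) * ((u + (ν + 1)).choose (ν + 1) * (t + m) ^ (ν + 1)) ≤
        (ν + 1) * ((t + (ν + 1)).choose (ν + 1) * (u + m) ^ (ν + 1)) := by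
      calc (ν + 1) * ((u + (ν + 1)).choose (ν + 1) * (t + m) ^ (ν + 1)) =
            ((u + (ν + 1)) * (t + m)) * ((u + ν).choose ν * (t + m) ^ ν) := by
            rw [← mul_assoc, h1, pow_succ]; ring
        _ ≤ ((t + (ν + 1)) * (u + m)) * ((t + ν).choose ν * (u + m) ^ ν) :=
            Nat.mul_le_mul hkey (ih (by omega))
        _ = (ν + 1) * ((t + (ν + 1)).choose (ν + 1) * (u + m) ^ (ν + 1)) := by
            rw [← mul_assoc (ν + 1) ((t + (ν + 1)).choose (ν + 1)), h1 t, pow_succ]; ring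
    exact Nat.le_of_mul_le_mul_left h2 (by omega)

/-- the number of exponents whose last coordinates have sum at most `u` -/
lemma card_small (ν t u : ℕ) :
    (((Finset.piAntidiag (Finset.univ : Finset (Fin (ν + 1))) t).filter
      fun a => ∑ k : Fin ν, a k.succ ≤ u).card : ℝ) ≤
      ((t + ν).choose ν : ℝ) * (((u : ℝ) + ν) / (t + ν)) ^ ν ∨ t + ν = 0 := by
  classical
  by_cases ht : t + ν = 0
  · exact Or.inr ht
  left
  have htp : (0 : ℝ) < (t : ℝ) + ν := by exact_mod_cast Nat.pos_of_ne_zero ht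
  rcases le_total u t with hut | hut
  · have h1 : ((Finset.piAntidiag (Finset.univ : Finset (Fin (ν + 1))) t).filter
        fun a => ∑ k : Fin ν, a k.succ ≤ u).card ≤
        (Finset.piAntidiag (Finset.univ : Finset (Fin (ν + 1))) u).card := by
      refine Finset.card_le_card_of_injOn (fun a => Fin.cons (u - ∑ k : Fin ν, a k.succ)
        (fun k => a k.succ)) ?_ ?_
      · intro a ha
        have ha' := Finset.mem_filter.1 (Finset.mem_coe.1 ha)
        refine Finset.mem_coe.2 (Finset.mem_piAntidiag.2 ⟨?_, fun i _ => Finset.mem_univ i⟩)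
        have h2 : (Finset.univ : Finset (Fin (ν + 1))).sum (Fin.cons (u - ∑ k : Fin ν, a k.succ)
            (fun k => a k.succ) : Fin (ν + 1) → ℕ) =
            (u - ∑ k : Fin ν, a k.succ) + ∑ k : Fin ν, a k.succ := by
          rw [Fin.sum_univ_succ]
          simp
        rw [h2]
        exact Nat.sub_add_cancel ha'.2
      · intro a ha b hb hab
        have ha' := Finset.mem_filter.1 (Finset.mem_coe.1 ha)
        have hb' := Finset.mem_filter.1 (Finset.mem_coe.1 hb)
        have hsa := (Finset.mem_piAntidiag.1 ha'.1).1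
        have hsb := (Finset.mem_piAntidiag.1 hb'.1).1
        simp only at hab
        have h3 : (fun k : Fin ν => a k.succ) = fun k : Fin ν => b k.succ := (Fin.cons_inj.1 hab).2
        have h4 : ∑ k : Fin ν, a k.succ = ∑ k : Fin ν, b k.succ := by
          refine Finset.sum_congr rfl fun k _ => ?_
          exact congrFun h3 k
        rw [Fin.sum_univ_succ] at hsa hsb
        funext k
        refine Fin.cases ?_ (fun k => congrFun h3 k) k
        omega
    rw [card_anti] at h1
    have h2 := choose_ratio' ν ν le_rfl hut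
    have h3 : (((u + ν).choose ν : ℕ) : ℝ) * ((t : ℝ) + ν) ^ ν ≤
        (((t + ν).choose ν : ℕ) : ℝ) * ((u : ℝ) + ν) ^ ν := by exact_mod_cast h2
    have h4 : (((Finset.piAntidiag (Finset.univ : Finset (Fin (ν + 1))) t).filter
      fun a => ∑ k : Fin ν, a k.succ ≤ u).card : ℝ) ≤ (((u + ν).choose ν : ℕ) : ℝ) := by
      exact_mod_cast h1
    refine h4.trans ?_
    rw [div_pow, mul_div_assoc', le_div_iff₀ (pow_pos htp _)]
    exact h3
  · have h1 : ((Finset.piAntidiag (Finset.univ : Finset (Fin (ν + 1))) t).filter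
        fun a => ∑ k : Fin ν, a k.succ ≤ u).card ≤ (t + ν).choose ν := by
      rw [← card_anti]
      exact Finset.card_filter_le _ _
    have h2 : (1 : ℝ) ≤ (((u : ℝ) + ν) / (t + ν)) ^ ν := by
      refine one_le_pow₀ ?_
      rw [le_div_iff₀ htp, one_mul]
      have : (t : ℝ) ≤ u := by exact_mod_cast hut
      linarith
    have h3 : (((Finset.piAntidiag (Finset.univ : Finset (Fin (ν + 1))) t).filter
      fun a => ∑ k : Fin ν, a k.succ ≤ u).card : ℝ) ≤ (((t + ν).choose ν : ℕ) : ℝ) := by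
      exact_mod_cast h1
    exact h3.trans (le_mul_of_one_le_right (Nat.cast_nonneg _) h2)

lemma sum_pow_le (ν J : ℕ) : ∑ u ∈ Finset.range J, ((u : ℝ) + ν) ^ ν ≤
    ((J : ℝ) + ν) ^ (ν + 1) / (ν + 1) := by
  have hν : (0 : ℝ) < (ν : ℝ) + 1 := by positivity
  induction J with
  | zero =>
    rw [Finset.sum_range_zero]
    positivity
  | succ J ih =>
    rw [Finset.sum_range_succ]
    have h1 := tangent ν (s := (J : ℝ) + ν + 1) (t := (J : ℝ) + ν) (by positivity) (by positivity)
    rw [add_sub_cancel_left, mul_one] at h1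
    rw [le_div_iff₀ hν] at ih ⊢
    push_cast
    have h2 : (J : ℝ) + 1 + ν = J + ν + 1 := by ring
    rw [h2, add_mul]
    linarith

/-- the sum for one `β` -/
lemma sum_small (ν t J : ℕ) (hν : 1 ≤ ν) :
    ∑ a ∈ Finset.piAntidiag (Finset.univ : Finset (Fin (ν + 1))) t,
      max ((J : ℝ) - ∑ k : Fin ν, (a k.succ : ℝ)) 0 ≤
      ((t + ν).choose ν : ℝ) * (((J : ℝ) + ν) ^ (ν + 1) / ((ν + 1) * ((t : ℝ) + ν) ^ ν)) := by
  classical
  have h1 : ∀ a ∈ Finset.piAntidiag (Finset.univ : Finset (Fin (ν + 1))) t,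
      max ((J : ℝ) - ∑ k : Fin ν, (a k.succ : ℝ)) 0 = ∑ u ∈ Finset.range J,
        if ∑ k : Fin ν, a k.succ ≤ u then (1 : ℝ) else 0 := by
    intro a _
    rw [← Finset.sum_filter, Finset.sum_const, nsmul_eq_mul, mul_one]
    obtain ⟨m, hm⟩ : ∃ m, m = ∑ k : Fin ν, a k.succ := ⟨_, rfl⟩
    have hm' : ∑ k : Fin ν, (a k.succ : ℝ) = m := by rw [hm]; push_cast; rfl
    rw [hm', ← hm]
    have h2 : (Finset.range J).filter (fun u => m ≤ u) = Finset.Ico m J := by
      ext u
      simp only [Finset.mem_filter, Finset.mem_range, Finset.mem_Ico]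
      omega
    rw [h2, Nat.card_Ico]
    rcases le_total m J with h | h
    · rw [Nat.cast_sub h, max_eq_left]
      have : (m : ℝ) ≤ J := by exact_mod_cast h
      linarith
    · rw [Nat.sub_eq_zero_of_le h, Nat.cast_zero, max_eq_right]
      have : (J : ℝ) ≤ m := by exact_mod_cast h
      linarith
  rw [Finset.sum_congr rfl h1, Finset.sum_comm]
  have htp : (0 : ℝ) < (t : ℝ) + ν := by
    have h2 : (1 : ℝ) ≤ ν := by exact_mod_cast hν
    have h3 : (0 : ℝ) ≤ t := Nat.cast_nonneg _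
    linarith
  have h2 : ∀ u ∈ Finset.range J, ∑ a ∈ Finset.piAntidiag (Finset.univ : Finset (Fin (ν + 1))) t,
      (if ∑ k : Fin ν, a k.succ ≤ u then (1 : ℝ) else 0) ≤
      ((t + ν).choose ν : ℝ) / ((t : ℝ) + ν) ^ ν * ((u : ℝ) + ν) ^ ν := by
    intro u _
    rw [← Finset.sum_filter, Finset.sum_const, nsmul_eq_mul, mul_one]
    rcases card_small ν t u with h3 | h3
    · refine h3.trans (le_of_eq ?_)
      rw [div_pow]
      field_simp
    · omega
  refine (Finset.sum_le_sum h2).trans ?_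
  rw [← Finset.mul_sum]
  have h3 := mul_le_mul_of_nonneg_left (sum_pow_le ν J)
    (div_nonneg (Nat.cast_nonneg ((t + ν).choose ν)) (pow_nonneg htp.le ν))
  refine h3.trans (le_of_eq ?_)
  have hν' : (ν : ℝ) + 1 ≠ 0 := by positivity
  have := (pow_pos htp ν).ne'
  field_simp

/-- the sum over all the exponents -/
theorem sum_pt {n ν d : ℕ} (hd : 1 ≤ d) (hν : 1 ≤ ν) (E : Finset (Fin n →₀ ℕ)) (T B J : ℕ)
    (hB : ∀ β ∈ E, β.degree ≤ d * B) (hT : B ≤ T) :
    ∑ s ∈ Sm d E (ν + 1) (d * T), max ((J : ℝ) - ∑ k : Fin ν, (s.1 k.succ : ℝ)) 0 ≤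
      ((Sm d E (ν + 1) (d * T)).card : ℝ) *
        (((J : ℝ) + ν) ^ (ν + 1) / ((ν + 1) * ((T : ℝ) - B + ν) ^ ν)) := by
  classical
  have h1 : (Sm d E (ν + 1) (d * T)) = (E.filter (fun β => d ∣ β.degree)).biUnion fun β =>
      (Finset.piAntidiag (Finset.univ : Finset (Fin (ν + 1))) (T - β.degree / d)).map
        ⟨fun a => (a, β), Prod.mk_left_injective β⟩ := by
    ext s
    rw [mem_Sm hd, Finset.mem_biUnion]
    simp only [Finset.mem_filter, Finset.mem_map, Finset.mem_piAntidiag, Function.Embedding.coeFn_mk]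
    constructor
    · rintro ⟨hs, hdg⟩
      unfold dg at hdg
      have hdvd : d ∣ s.2.degree := by
        have : d ∣ d * ∑ k, s.1 k + s.2.degree := by rw [hdg]; exact Dvd.intro _ rfl
        exact (Nat.dvd_add_right (Dvd.intro _ rfl)).1 this
      refine ⟨s.2, ⟨hs, hdvd⟩, s.1, ⟨?_, fun i _ => Finset.mem_univ i⟩, rfl⟩
      obtain ⟨c, hc⟩ := hdvd
      rw [hc] at hdg ⊢
      rw [Nat.mul_div_cancel_left _ (by omega)]
      rw [← mul_add] at hdg
      have h5 : Finset.univ.sum s.1 + c = T := Nat.eq_of_mul_eq_mul_left (by omega) hdg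
      omega
    · rintro ⟨β, ⟨hβ, hdvd⟩, a, ⟨ha, -⟩, rfl⟩
      refine ⟨hβ, ?_⟩
      unfold dg
      simp only
      obtain ⟨c, hc⟩ := hdvd
      have h2 := hB β hβ
      rw [hc] at ha h2 ⊢
      rw [Nat.mul_div_cancel_left _ (by omega)] at ha
      have h3 : c ≤ B := Nat.le_of_mul_le_mul_left h2 (by omega)
      rw [ha, ← mul_add]
      congr 1
      omega
  have hTB : (B : ℝ) ≤ T := by exact_mod_cast hT
  have hν1 : (1 : ℝ) ≤ ν := by exact_mod_cast hν
  have hpos : (0 : ℝ) < (T : ℝ) - B + ν := by linarith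
  have hcard := card_Sm (ν := ν) hd E T B hB hT
  rw [hcard, Nat.cast_sum, Finset.sum_mul, h1, Finset.sum_biUnion]
  · refine Finset.sum_le_sum fun β hβ => ?_
    rw [Finset.sum_map]
    refine (sum_small ν (T - β.degree / d) J hν).trans ?_
    refine mul_le_mul_of_nonneg_left ?_ (Nat.cast_nonneg _)
    refine div_le_div_of_nonneg_left (by positivity) (by positivity) ?_
    refine mul_le_mul_of_nonneg_left ?_ (by positivity)
    refine pow_le_pow_left₀ hpos.le ?_ _
    have h2 : T ≤ (T - β.degree / d) + B := by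
      have h3 : β.degree / d ≤ B := by
        refine Nat.div_le_of_le_mul ?_
        exact hB β (Finset.mem_filter.1 hβ).1
      omega
    have h4 : (T : ℝ) ≤ ((T - β.degree / d : ℕ) : ℝ) + B := by exact_mod_cast h2
    linarith
  · intro β _ β' _ hne
    rw [Function.onFun, Finset.disjoint_left]
    intro s hs hs'
    obtain ⟨a, -, rfl⟩ := Finset.mem_map.1 hs
    obtain ⟨a', -, h⟩ := Finset.mem_map.1 hs'
    exact hne (Prod.ext_iff.1 h).2.symm

end Pool.Agent.NH28
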