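import Pool.Agent.NH28.Bas

/-!
A basis adapted to several filtrations.
-/

set_option autoImplicit false

namespace Pool.Agent.NH28

open Finset Module

open Classical in
/-- the filtration at one place -/
noncomputable def Fil {K V κ : Type} [Field K] [AddCommGroup V] [Module K V] (u : κ → V)
    (l : κ → ℝ) (t : ℝ) : Submodule K V :=
  if t ≤ 0 then ⊤ else Submodule.span K (u '' {s | t ≤ l s})

lemma fil_codim {K V κ : Type} [Field K] [AddCommGroup V] [Module K V] [FiniteDimensional K V]
    [Fintype κ] (u : κ → V) (hu : LinearIndependent K u) (l : κ → ℝ) (t : ℝ) :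
    (finrank K V : ℝ) - finrank K (Fil (K := K) u l t) ≤
      ∑ s, (if l s < t then (1 : ℝ) else 0) +
        (if 0 < t then (finrank K V : ℝ) - Fintype.card κ else 0) := by
  classical
  unfold Fil
  by_cases hc : t ≤ 0
  · rw [if_pos hc, finrank_top, sub_self, if_neg (by linarith), add_zero]
    exact Finset.sum_nonneg fun s _ => by split_ifs <;> norm_num
  · rw [if_neg hc, if_pos (by linarith)]
    have h6 : finrank K (Submodule.span K (u '' {s | t ≤ l s})) =
        (Finset.univ.filter fun s => t ≤ l s).card := by
      have h7 : u '' {s | t ≤ l s} = Set.range (fun s : {s // t ≤ l s} => u s) := by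
        rw [Set.image_eq_range]
        rfl
      rw [h7]
      have h8 := finrank_span_eq_card (hu.comp (fun s : {s // t ≤ l s} => (s : κ))
        Subtype.val_injective)
      rw [Fintype.card_subtype] at h8
      exact h8
    rw [h6]
    have h8 : (Finset.univ.filter fun s => t ≤ l s).card +
        (Finset.univ.filter fun s => l s < t).card = Fintype.card κ := by
      rw [← Finset.card_univ, ← Finset.card_filter_add_card_filter_not
        (s := (Finset.univ : Finset κ)) (fun s => t ≤ l s)]
      congr 2
      ext s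
      simp
    have h9 : ∑ s, (if l s < t then (1 : ℝ) else 0) =
        ((Finset.univ.filter fun s => l s < t).card : ℝ) := by
      rw [Finset.card_filter]
      push_cast
      rfl
    rw [h9]
    have h11 : ((Finset.univ.filter fun s => t ≤ l s).card : ℝ) +
        (Finset.univ.filter fun s => l s < t).card = Fintype.card κ := by
      exact_mod_cast h8
    linarith

theorem core_lin {K V ι σ : Type} [Field K] [AddCommGroup V] [Module K V]
    [FiniteDimensional K V] [Fintype ι] (φ : ι → V) (N : ℕ) (hN : finrank K V = N)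
    (W : Finset σ) (κ : σ → Type) [∀ w, Fintype (κ w)] (u : ∀ w, κ w → V)
    (hu : ∀ w, LinearIndependent K (u w)) (l : ∀ w, κ w → ℝ) (hl : ∀ w s, 0 ≤ l w s)
    (b : σ → ℝ) (B : ℝ) (hB : 0 ≤ B) (hbB : ∀ w ∈ W, b w ≤ B)
    (μ : ι → ℝ) (hμ : ∀ i, 0 ≤ μ i)
    (h : ∀ t ≤ B, (W.inf fun w => Fil (u w) (l w) (t - (B - b w))) ≤
      Submodule.span K (φ '' {i | t ≤ μ i})) :
    ∃ β : Fin N → ι, LinearIndependent K (fun a => φ (β a)) ∧
      N * B - ∑ w ∈ W, (∑ s, max (b w - l w s) 0 + ((N : ℝ) - Fintype.card (κ w)) * max (b w) 0) ≤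
        ∑ a, μ (β a) := by
  classical
  have hspan : Submodule.span K (Set.range φ) = ⊤ := by
    rw [eq_top_iff]
    have h1 := h 0 hB
    have h2 : (W.inf fun w => Fil (K := K) (u w) (l w) (0 - (B - b w))) = ⊤ := by
      rw [Finset.inf_eq_top_iff]
      intro w hw
      unfold Fil
      rw [if_pos]
      have := hbB w hw
      linarith
    rw [h2] at h1
    refine h1.trans (Submodule.span_mono ?_)
    rintro _ ⟨i, _, rfl⟩
    exact ⟨i, rfl⟩
  have hcard : ∀ w, Fintype.card (κ w) ≤ N := fun w => by
    rw [← hN]
    exact (hu w).fintype_card_le_finrank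
  obtain ⟨β, hβ, hcount⟩ := greedy φ hspan μ N hN
  refine ⟨β, hβ, ?_⟩
  -- the layer cake inequality
  have hlay := layer (α := Fin N) (σ := (w : W) × (κ w ⊕ Fin (N - Fintype.card (κ w)))) B hB N
    (fun a => μ (β a)) (fun j => b j.1) (fun j => Sum.elim (l j.1) (fun _ => 0) j.2)
    (by
      rintro ⟨w, s | s⟩
      · exact hl _ _
      · exact le_rfl)
    (by
      rintro ⟨w, s⟩
      exact hbB _ w.2)
    (by
      intro t ht htB
      have h1 := hcount t
      have h2 := Submodule.finrank_mono (h t htB)
      have h3 := codim_inf (K := K) (V := V) W fun w => Fil (u w) (l w) (t - (B - b w))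
      rw [hN] at h3
      have h4 : (finrank K (W.inf fun w => Fil (u w) (l w) (t - (B - b w)) : Submodule K V) : ℝ) ≤
          ((Finset.univ.filter fun a => t ≤ μ (β a)).card : ℝ) := by
        exact_mod_cast h2.trans h1
      have h5 : ∑ w ∈ W, ((N : ℝ) - finrank K (Fil (K := K) (u w) (l w) (t - (B - b w)))) ≤
          ((Finset.univ.filter fun j : (w : W) × (κ w ⊕ Fin (N - Fintype.card (κ w))) =>
            Sum.elim (l j.1) (fun _ => 0) j.2 < t - (B - b j.1)).card : ℝ) := by
        have e1 : ((Finset.univ.filter fun j : (w : W) × (κ w ⊕ Fin (N - Fintype.card (κ w))) =>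
            Sum.elim (l j.1) (fun _ => 0) j.2 < t - (B - b j.1)).card : ℝ) =
            ∑ w ∈ W, (∑ s, (if l w s < t - (B - b w) then (1 : ℝ) else 0) +
              (if 0 < t - (B - b w) then (N : ℝ) - Fintype.card (κ w) else 0)) := by
          rw [Finset.card_filter, ← Finset.univ_sigma_univ, Finset.sum_sigma,
            ← Finset.sum_coe_sort W]
          push_cast
          refine Finset.sum_congr rfl fun w _ => ?_
          rw [Fintype.sum_sum_type]
          congr 1
          have hs : ∑ _a : Fin (N - Fintype.card (κ w)), (if (0 : ℝ) < t - (B - b w) then (1 : ℝ)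
              else 0) = if 0 < t - (B - b w) then (N : ℝ) - Fintype.card (κ w) else 0 := by
            rw [Finset.sum_const, Finset.card_univ, Fintype.card_fin, nsmul_eq_mul,
              Nat.cast_sub (hcard w)]
            split_ifs
            · rw [mul_one]
            · rw [mul_zero]
          exact hs
        rw [e1]
        refine Finset.sum_le_sum fun w _ => ?_
        have := fil_codim (K := K) (u w) (hu w) (l w) (t - (B - b w))
        rwa [hN] at this
      linarith)
  have h1 : ∑ a, min B (max (μ (β a)) 0) ≤ ∑ a, μ (β a) := by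
    refine Finset.sum_le_sum fun a _ => ?_
    rw [max_eq_left (hμ _)]
    exact min_le_right _ _
  have h2 : ∑ j : (w : W) × (κ w ⊕ Fin (N - Fintype.card (κ w))),
      max (b j.1 - Sum.elim (l j.1) (fun _ => 0) j.2) 0 =
      ∑ w ∈ W, (∑ s, max (b w - l w s) 0 + ((N : ℝ) - Fintype.card (κ w)) * max (b w) 0) := by
    rw [← Finset.univ_sigma_univ, Finset.sum_sigma, ← Finset.sum_coe_sort W]
    refine Finset.sum_congr rfl fun w _ => ?_
    rw [Fintype.sum_sum_type]
    simp only [Sum.elim_inl, Sum.elim_inr, sub_zero]
    rw [Finset.sum_const, Finset.card_univ, Fintype.card_fin, nsmul_eq_mul,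
      Nat.cast_sub (hcard w)]
  rw [h2] at hlay
  linarith

end Pool.Agent.NH28
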