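import Mathlib
import Pool.Agent.W413.MZ.Disc

/-!
A bound for the discriminant.
-/

set_option autoImplicit false

namespace Pool.Agent.NH28

open NumberField Finset Module IntermediateField

variable {L : Type} [Field L] [NumberField L]

lemma norm_hom_le (a : L) (H : ℝ) (h : ∀ w : InfinitePlace L, w a ≤ H) (σ : L →+* ℂ) :
    ‖σ a‖ ≤ H := by
  have := h (InfinitePlace.mk σ)
  rwa [InfinitePlace.apply] at this

/-- the discriminant of a field with a small integral generator -/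
theorem disc_le (a : 𝓞 L) (ha : ℚ⟮(a : L)⟯ = ⊤) (H : ℝ) (hH : 1 ≤ H)
    (h : ∀ w : InfinitePlace L, w (a : L) ≤ H) :
    Real.log |(discr L : ℝ)| ≤ 2 * Real.log ((finrank ℚ L).factorial) +
      2 * (finrank ℚ L : ℝ) ^ 2 * Real.log H := by
  classical
  have hint : IsIntegral ℚ (a : L) := IsIntegral.of_finite ℚ _
  set pb0 : PowerBasis ℚ ℚ⟮(a : L)⟯ := IntermediateField.adjoin.powerBasis hint with hpb0
  set e0 : ℚ⟮(a : L)⟯ ≃ₐ[ℚ] L := (IntermediateField.equivOfEq ha).trans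
    IntermediateField.topEquiv with he0
  set pb : PowerBasis ℚ L := pb0.map e0 with hpb
  have hgen : pb.gen = (a : L) := by
    rw [hpb, PowerBasis.map_gen, hpb0, IntermediateField.adjoin.powerBasis_gen]
    rfl
  set b : Basis (Fin pb.dim) ℚ L := pb.basis with hb
  have hbi : ∀ i, b i = algebraMap (𝓞 L) L (a ^ (i : ℕ)) := by
    intro i
    rw [hb, pb.basis_eq_pow, hgen, map_pow]
  have hdim : pb.dim = finrank ℚ L := (PowerBasis.finrank pb).symm
  -- the discriminant is an integer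
  obtain ⟨D, hD⟩ : ∃ D : ℤ, Algebra.discr ℚ b = D := by
    have h1 : IsIntegral ℤ (Algebra.discr ℚ b) := by
      refine Algebra.discr_isIntegral ℚ fun i => ?_
      rw [hbi]
      exact NumberField.RingOfIntegers.isIntegral_coe _
    obtain ⟨D, hD⟩ := IsIntegrallyClosed.isIntegral_iff.1 h1
    exact ⟨D, by rw [← hD]; rfl⟩
  obtain ⟨m, hm, hm0, -⟩ := MZ413.exists_index b (fun i => a ^ (i : ℕ)) hbi D hD
  have hcard : Fintype.card (Fin pb.dim) = Fintype.card (L →ₐ[ℚ] ℂ) := by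
    rw [Fintype.card_fin, hdim, AlgHom.card ℚ L ℂ]
  set e : Fin pb.dim ≃ (L →ₐ[ℚ] ℂ) := Fintype.equivOfCardEq hcard with he
  have h2 := Algebra.discr_eq_det_embeddingsMatrixReindex_pow_two ℚ ℂ b e
  rw [hD] at h2
  have hH0 : 0 ≤ H := by linarith
  have h3 : ‖(Algebra.embeddingsMatrixReindex ℚ ℂ b e).det‖ ≤
      (finrank ℚ L).factorial * (H ^ finrank ℚ L) ^ finrank ℚ L := by
    have h4 := Matrix.det_le (A := Algebra.embeddingsMatrixReindex ℚ ℂ b e)
      (abv := NormedField.toAbsoluteValue ℂ) (x := H ^ finrank ℚ L) (by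
        intro i j
        show ‖Algebra.embeddingsMatrixReindex ℚ ℂ b e i j‖ ≤ _
        have h5 : Algebra.embeddingsMatrixReindex ℚ ℂ b e i j = (e j) (b i) := rfl
        rw [h5, hbi, map_pow, map_pow, norm_pow]
        have h6 : ‖(e j) (algebraMap (𝓞 L) L a)‖ ≤ H := norm_hom_le (a : L) H h (e j).toRingHom
        calc ‖(e j) (algebraMap (𝓞 L) L a)‖ ^ (i : ℕ) ≤ H ^ (i : ℕ) :=
              pow_le_pow_left₀ (norm_nonneg _) h6 _
          _ ≤ H ^ finrank ℚ L := pow_le_pow_right₀ hH (by have := i.2; omega))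
    rw [nsmul_eq_mul, Fintype.card_fin] at h4
    have h44 : ‖(Algebra.embeddingsMatrixReindex ℚ ℂ b e).det‖ ≤
        (pb.dim.factorial : ℝ) * (H ^ finrank ℚ L) ^ pb.dim := h4
    refine h44.trans (le_of_eq ?_)
    rw [hdim]
  have hdet0 : (0 : ℝ) ≤ (finrank ℚ L).factorial * (H ^ finrank ℚ L) ^ finrank ℚ L := by
    positivity
  have h7 : |(D : ℝ)| ≤ ((finrank ℚ L).factorial * (H ^ finrank ℚ L) ^ finrank ℚ L) ^ 2 := by
    have h8 : ‖((algebraMap ℚ ℂ) (D : ℚ))‖ = |(D : ℝ)| := by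
      rw [map_intCast, Complex.norm_intCast]
    rw [← h8, h2, norm_pow]
    exact pow_le_pow_left₀ (norm_nonneg _) h3 2
  have h9 : |(discr L : ℝ)| ≤ |(D : ℝ)| := by
    rw [← hm]
    push_cast
    rw [abs_mul, abs_pow]
    have : (1 : ℝ) ≤ |(m : ℝ)| := by
      rw [← Int.cast_abs]
      exact_mod_cast Int.one_le_abs hm0
    have h1m : (1 : ℝ) ≤ |(m : ℝ)| ^ 2 := one_le_pow₀ this
    calc |(discr L : ℝ)| = 1 * |(discr L : ℝ)| := (one_mul _).symm
      _ ≤ |(m : ℝ)| ^ 2 * |(discr L : ℝ)| := mul_le_mul_of_nonneg_right h1m (abs_nonneg _)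
  have hD0 : (0 : ℝ) < |(discr L : ℝ)| := abs_pos.2 (by exact_mod_cast NumberField.discr_ne_zero L)
  have h10 := Real.log_le_log hD0 (h9.trans h7)
  have hf : (0 : ℝ) < (finrank ℚ L).factorial := by exact_mod_cast Nat.factorial_pos _
  have hHp : (0 : ℝ) < H := by linarith
  rw [Real.log_pow, Real.log_mul hf.ne' (by positivity), ← pow_mul, Real.log_pow] at h10
  push_cast at h10
  refine h10.trans (le_of_eq ?_)
  ring

end Pool.Agent.NH28
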