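import Pool.Agent.NH28.Mink
import Pool.Agent.NH28.DiscB

/-!
Denominators, and small integral generators of the residue field of a point.
-/

set_option autoImplicit false

namespace Pool.Agent.NH28

open NumberField IsDedekindDomain Finset Module Height
open Pool.Agent.W180.OP (Pl av wt fv fv_apply wt_nonneg fv_support_finite nrm le_nrm nrm_pos
  exists_nrm nrm_nonneg partial_le)
open Pool.Agent.W180.TP (wt_pos one_term)

variable {L : Type} [Field L] [NumberField L]

lemma log_fv (v : HeightOneSpectrum (𝓞 L)) {z : L} (hz : z ≠ 0) :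
    ∃ k : ℤ, Real.log (fv v z) = k * lN v := by
  have hz' : v.valuation L z ≠ 0 := (Valuation.ne_zero_iff _).2 hz
  refine ⟨(WithZero.unzero hz').toAdd, ?_⟩
  rw [fv_eq, WithZeroMulInt.toNNReal_neg_apply _ hz']
  push_cast
  rw [Real.log_zpow]
  rfl

/-- a common denominator of controlled size -/
theorem exists_denom {n : ℕ} (y : Fin n → L) (j : Fin n) (hj : y j = 1) :
    ∃ u : ℕ, 1 ≤ u ∧ Real.log u ≤ logHeight y ∧ ∀ i, IsIntegral ℤ ((u : L) * y i) := by
  classical
  have hn : 0 < n := Fin.pos j
  have hN1 : ∀ v : HeightOneSpectrum (𝓞 L), 1 < Ideal.absNorm v.asIdeal := fun v =>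
    HeightOneSpectrum.one_lt_absNorm v
  have hge : ∀ f : AbsoluteValue L ℝ, 1 ≤ nrm f y := fun f => by
    have := le_nrm f y j
    rwa [hj, map_one] at this
  have hk : ∀ v : HeightOneSpectrum (𝓞 L), ∃ k : ℕ, Real.log (nrm (fv v) y) = k * lN v := by
    intro v
    obtain ⟨i, hi⟩ := exists_nrm (fv v) hn y
    have h0 : y i ≠ 0 := by
      intro h0
      rw [h0, map_zero] at hi
      have := hge (fv v)
      linarith
    obtain ⟨k, hk⟩ := log_fv v h0
    have h1 : 0 ≤ (k : ℝ) * lN v := by
      rw [← hk, hi]
      exact Real.log_nonneg (hge _)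
    have h2 : 0 ≤ (k : ℝ) := nonneg_of_mul_nonneg_left h1 (lN_pos v)
    have h3 : 0 ≤ k := by exact_mod_cast h2
    refine ⟨k.toNat, ?_⟩
    rw [← hi, hk]
    have : ((k.toNat : ℤ) : ℝ) = (k : ℝ) := by rw [Int.toNat_of_nonneg h3]
    rw [← this]
    push_cast
    rfl
  choose k hk using hk
  have hfin : {v : HeightOneSpectrum (𝓞 L) | nrm (fv v) y ≠ 1}.Finite := by
    have h1 : (⋃ i : {i : Fin n // y i ≠ 0}, {v : HeightOneSpectrum (𝓞 L) | fv v (y i) ≠ 1}).Finite :=
      Set.finite_iUnion fun i => fv_support_finite i.2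
    refine h1.subset fun v hv => ?_
    by_contra hc
    apply hv
    simp only [Set.mem_iUnion, not_exists, Set.mem_ofPred_eq, not_not] at hc
    obtain ⟨i, hi⟩ := exists_nrm (fv v) hn y
    by_cases h0 : y i = 0
    · rw [h0, map_zero] at hi
      have := hge (fv v)
      linarith
    · rw [← hi]
      exact hc ⟨i, h0⟩
  set T := hfin.toFinset with hT
  set u : ℕ := ∏ v ∈ T, Ideal.absNorm v.asIdeal ^ k v with hu
  have hu1 : 0 < u := Finset.prod_pos fun v _ => pow_pos (by have := hN1 v; omega) _
  have huO : (u : 𝓞 L) ≠ 0 := by exact_mod_cast hu1.ne'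
  have huL : (u : L) ≠ 0 := by exact_mod_cast hu1.ne'
  have huc : ((u : 𝓞 L) : L) = (u : L) := by push_cast; rfl
  refine ⟨u, hu1, ?_, ?_⟩
  · have h1 : Real.log u = ∑ v ∈ T, Real.log (nrm (fv v) y) := by
      rw [hu]
      push_cast
      rw [Real.log_prod]
      · refine Finset.sum_congr rfl fun v _ => ?_
        rw [Real.log_pow, hk v]
        rfl
      · intro v _
        have := hN1 v
        have h3 : (0 : ℝ) < (Ideal.absNorm v.asIdeal : ℕ) := by exact_mod_cast (by omega)
        exact (pow_pos h3 _).ne'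
    rw [h1]
    have h2 := partial_le y j hj ∅ T
    rw [Finset.sum_empty, zero_add] at h2
    exact h2
  · intro i
    by_cases hy0 : y i = 0
    · rw [hy0, mul_zero]
      exact isIntegral_zero
    have hmem : (u : L) * y i ∈ (algebraMap (𝓞 L) L).range := by
      refine HeightOneSpectrum.mem_integers_of_valuation_le_one L _ fun v => ?_
      rw [← fv_le_one_iff]
      have hpu : 0 < fv v (u : L) := (fv v).pos huL
      have hpy : 0 < fv v (y i) := (fv v).pos hy0
      rw [map_mul]
      have hle : Real.log (fv v (y i)) ≤ Real.log (nrm (fv v) y) :=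
        Real.log_le_log hpy (le_nrm _ _ _)
      have h1 : Real.log (fv v (u : L)) ≤ - Real.log (nrm (fv v) y) := by
        by_cases hv : v ∈ T
        · have h2 : (u : 𝓞 L) ∈ v.asIdeal ^ k v := by
            rw [hu, ← Finset.mul_prod_erase _ _ hv, Nat.cast_mul]
            refine Ideal.mul_mem_right _ _ ?_
            rw [Nat.cast_pow]
            exact Ideal.pow_mem_pow (Ideal.absNorm_mem _) _
          have h3 := log_fv_le_of_mem huO h2
          rw [huc] at h3
          rw [hk v]
          linarith
        · have h2 : nrm (fv v) y = 1 := by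
            by_contra h
            exact hv (by rw [hT, Set.Finite.mem_toFinset]; exact h)
          rw [h2, Real.log_one, neg_zero]
          refine Real.log_nonpos hpu.le ?_
          rw [fv_le_one_iff, ← huc]
          exact v.valuation_le_one (u : 𝓞 L)
      have h4 : Real.log (fv v (u : L) * fv v (y i)) ≤ 0 := by
        rw [Real.log_mul hpu.ne' hpy.ne']
        linarith
      exact (Real.log_nonpos_iff (by positivity)).1 h4
    obtain ⟨z, hz⟩ := hmem
    rw [← hz]
    exact NumberField.RingOfIntegers.isIntegral_coe z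

end Pool.Agent.NH28
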