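import Pool.Agent.NH28.Mono

/-!
Few divisors; the place below a place, the local degree.
-/

set_option autoImplicit false

namespace Pool.Agent.NH28

open MvPolynomial Finset NumberField IsDedekindDomain Height Module
open Pool.Agent.W180.OP Pool.Agent.W180.TP

theorem t2few {K : Type} [Field K] [NumberField K] {n q ν : ℕ} (hν : 1 ≤ ν) (hq : q ≤ ν)
    (F : Fin q → MvPolynomial (Fin n) K) (d : Fin q → ℕ) (hd : ∀ i, 1 ≤ d i)
    (hF : ∀ i, (F i).IsHomogeneous (d i)) : ∃ C : ℝ, 0 ≤ C ∧
      ∀ (L : Type) [Field L] [NumberField L] [Algebra K L],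
        ∀ x : Fin n → L, x ≠ 0 → (∀ i, aeval x (F i) ≠ 0) →
        ∀ (T : Finset (Pl L)) (V : Pl L → Pl K), (∀ w ∈ T, Ov (V w) w) →
        ∑ w ∈ T, wt w * (∑ i, lam (av w) (d i) (bc L (F i)) x / d i) /
          cstR ν (finrank K L / nn (V w) w) ≤ logHeight x + C * finrank ℚ L := by
  classical
  choose Cb hCb0 hCb using fun i : Fin q => liou_u (F i) (d i) (hF i)
  have hCbs : 0 ≤ ∑ i, Cb i := Finset.sum_nonneg fun e _ => hCb0 e
  refine ⟨∑ i, Cb i, hCbs, ?_⟩
  intro L _ _ _ x hx hFx T V hT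
  have hd0 : ∀ i, (1 : ℝ) ≤ d i := fun i => by exact_mod_cast hd i
  have hh := logHeight_nonneg x
  have hN : (0 : ℝ) ≤ finrank ℚ L := Nat.cast_nonneg _
  have hν1 : (0 : ℝ) < (ν : ℝ) + 1 := by positivity
  have hterm : ∀ w ∈ T, wt w * (∑ i, lam (av w) (d i) (bc L (F i)) x / d i) /
          cstR ν (finrank K L / nn (V w) w) ≤
      ∑ i, (wt w * max 0 (lam (av w) (d i) (bc L (F i)) x)) / (ν + 1) / d i := by
    intro w hw
    have hρw : 1 ≤ (finrank K L : ℝ) / nn (V w) w :=
      RR_one_le (rho_mem (r := finrank K L) le_rfl (mem_ab.2 (hT w hw)))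
    have hc1 := one_le_cstR hν hρw
    have hcw : 0 < cstR ν (finrank K L / nn (V w) w) := by linarith
    rw [Finset.mul_sum, Finset.sum_div]
    refine Finset.sum_le_sum fun i _ => ?_
    have hdi : (0 : ℝ) < d i := by have := hd0 i; linarith
    have hw0 := wt_nonneg w
    have h1 : wt w * (lam (av w) (d i) (bc L (F i)) x / d i) ≤
        wt w * max 0 (lam (av w) (d i) (bc L (F i)) x) / d i := by
      rw [mul_div_assoc]
      refine mul_le_mul_of_nonneg_left ?_ hw0
      exact div_le_div_of_nonneg_right (le_max_right _ _) hdi.le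
    have h2 : 0 ≤ wt w * max 0 (lam (av w) (d i) (bc L (F i)) x) / d i := by positivity
    calc wt w * (lam (av w) (d i) (bc L (F i)) x / d i) / cstR ν (finrank K L / nn (V w) w)
        ≤ (wt w * max 0 (lam (av w) (d i) (bc L (F i)) x) / d i) /
            cstR ν (finrank K L / nn (V w) w) := div_le_div_of_nonneg_right h1 hcw.le
      _ ≤ (wt w * max 0 (lam (av w) (d i) (bc L (F i)) x) / d i) / (ν + 1) :=
          div_le_div_of_nonneg_left h2 hν1 hc1
      _ = _ := by rw [div_right_comm]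
  refine (Finset.sum_le_sum hterm).trans ?_
  rw [Finset.sum_comm]
  have h3 : ∀ i ∈ Finset.univ, ∑ w ∈ T, (wt w * max 0 (lam (av w) (d i) (bc L (F i)) x)) /
      (ν + 1) / d i ≤ logHeight x / (ν + 1) + Cb i * finrank ℚ L := by
    intro i _
    have hdi : (0 : ℝ) < d i := by have := hd0 i; linarith
    rw [← Finset.sum_div, ← Finset.sum_div, div_le_iff₀ hdi, div_le_iff₀ hν1]
    refine (hCb i L T x hx (hFx i)).trans ?_
    have e1 : (logHeight x / (ν + 1) + Cb i * finrank ℚ L) * d i * (ν + 1) =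
        d i * logHeight x + Cb i * finrank ℚ L * d i * (ν + 1) := by
      field_simp
    rw [e1]
    have h4 : 0 ≤ Cb i * finrank ℚ L := mul_nonneg (hCb0 i) hN
    have h5 : Cb i * finrank ℚ L ≤ Cb i * finrank ℚ L * d i := le_mul_of_one_le_right h4 (hd0 i)
    have h6 : Cb i * finrank ℚ L * d i ≤ Cb i * finrank ℚ L * d i * (ν + 1) := by
      refine le_mul_of_one_le_right (h4.trans h5) ?_
      have : (0 : ℝ) ≤ ν := Nat.cast_nonneg _
      linarith
    linarith
  refine (Finset.sum_le_sum h3).trans ?_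
  rw [Finset.sum_add_distrib, Finset.sum_const, Finset.card_univ, Fintype.card_fin,
    nsmul_eq_mul, ← Finset.sum_mul]
  refine add_le_add ?_ le_rfl
  rw [mul_div_assoc', div_le_iff₀ hν1]
  have hq' : (q : ℝ) ≤ ν + 1 := by
    have : (q : ℝ) ≤ ν := by exact_mod_cast hq
    linarith
  have := mul_le_mul_of_nonneg_right hq' hh
  linarith

/-- the local degree at a place of `L` over `K` -/
noncomputable def lo (K : Type) [Field K] [NumberField K] {L : Type} [Field L] [NumberField L]
    [Algebra K L] : Pl L → ℝ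
  | Sum.inl w => w.mult / (w.comap (algebraMap K L)).mult
  | Sum.inr w => ((w.asIdeal.under (𝓞 K)).ramificationIdx' w.asIdeal *
      (w.asIdeal.under (𝓞 K)).inertiaDeg' w.asIdeal : ℕ)

lemma nn_eq_lo {K L : Type} [Field K] [NumberField K] [Field L] [NumberField L] [Algebra K L]
    {v : Pl K} {w : Pl L} (h : Ov v w) : nn v w = lo K w := by
  cases v with
  | inl v =>
    cases w with
    | inl w =>
      have h1 : w.comap (algebraMap K L) = v := h
      show (w.mult : ℝ) / v.mult = w.mult / (w.comap (algebraMap K L)).mult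
      rw [h1]
    | inr w => exact h.elim
  | inr v =>
    cases w with
    | inl w => exact h.elim
    | inr w =>
      have h1 : w.asIdeal.LiesOver v.asIdeal := h
      have h2 : v.asIdeal = w.asIdeal.under (𝓞 K) := h1.over
      show ((ldeg v w : ℕ) : ℝ) = ((w.asIdeal.under (𝓞 K)).ramificationIdx' w.asIdeal *
        (w.asIdeal.under (𝓞 K)).inertiaDeg' w.asIdeal : ℕ)
      rw [← h2]
      rfl

/-- the place below -/
lemma exists_V {K L : Type} [Field K] [NumberField K] [Field L] [NumberField L] [Algebra K L]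
    (S : Finset (Pl K)) (T : Finset (Pl L)) (h : ∀ w ∈ T, ∃ v ∈ S, Ov v w) (v0 : Pl K) :
    ∃ V : Pl L → Pl K, ∀ w ∈ T, V w ∈ S ∧ Ov (V w) w := by
  classical
  have h1 : ∀ w : Pl L, ∃ v : Pl K, w ∈ T → (v ∈ S ∧ Ov v w) := by
    intro w
    by_cases hw : w ∈ T
    · obtain ⟨v, hv, hvw⟩ := h w hw
      exact ⟨v, fun _ => ⟨hv, hvw⟩⟩
    · exact ⟨v0, fun hw' => absurd hw' hw⟩
  choose V hV using h1
  exact ⟨V, hV⟩

end Pool.Agent.NH28
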