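import Pool.Agent.NH28.AsyR

/-!
The gain for the divisors of a system.
-/

set_option autoImplicit false

namespace Pool.Agent.NH28

open Finset Filter Topology
open Pool.Agent.TH875 (Sm mem_Sm dg)

lemma HH_nonneg {ν B t0 T J : ℕ} (h : J + B ≤ T) : 0 ≤ HH ν B t0 T J := by
  have hJT : (J : ℝ) + B ≤ T := by exact_mod_cast h
  have ht0 : (0 : ℝ) ≤ t0 := Nat.cast_nonneg _
  have hJ0 : (0 : ℝ) ≤ J := Nat.cast_nonneg _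
  unfold HH
  refine div_nonneg ?_ ?_
  · have h1 : ((T : ℝ) - B - J) ^ (ν + 1) ≤ ((T : ℝ) - B) ^ (ν + 1) :=
      pow_le_pow_left₀ (by linarith) (by linarith) _
    linarith
  · have h2 : (0 : ℝ) < (T : ℝ) + t0 - B + 1 := by linarith
    positivity

/-- the gain at a place -/
lemma Ga_div {n ν D : ℕ} (hD : 1 ≤ D) (E : Finset (Fin n →₀ ℕ)) (T J B t1 N : ℕ)
    (hB : ∀ β ∈ E, β.degree ≤ D * B) (hJ : J + B ≤ T) (hN1 : 1 ≤ N)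
    (hN : N ≤ (Sm D E (ν + 1) (D * (T + t1))).card) (Λ : Fin (ν + 1) → ℝ) (hΛ : ∀ k, 0 ≤ Λ k)
    {ρ : ℝ} (hρ : 0 ≤ ρ) :
    ((J : ℝ) * (1 - ρ) + ρ * HH ν B t1 T J) * ∑ k, Λ k ≤
      Ga D E (ν + 1) (D * T) N (J * ∑ k, Λ k) Λ ρ := by
  have hN0 : (0 : ℝ) < N := by exact_mod_cast hN1
  have hP : 0 ≤ ∑ k, Λ k := Finset.sum_nonneg fun k _ => hΛ k
  have h1 := conv hD E (D * T) J 0 Λ hΛ
  have h2 := Gs_lower (ν := ν) hD E T J B t1 hB hJ 0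
  have h3 : (N : ℝ) * HH ν B t1 T J ≤ Gs D E (ν + 1) (D * T) J 0 := by
    refine le_trans ?_ h2
    exact mul_le_mul_of_nonneg_right (by exact_mod_cast hN) (HH_nonneg hJ)
  unfold Ga
  set P : ℝ := ∑ k, Λ k with hPd
  set c : ℝ := ((Sm D E (ν + 1) (D * T)).card : ℝ) with hc
  set A : ℝ := ∑ s ∈ Sm D E (ν + 1) (D * T), max (J * P - ∑ k, (s.1 k : ℝ) * Λ k) 0 with hA
  set Gv : ℝ := Gs D E (ν + 1) (D * T) J 0 with hGv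
  have h4 : A + (N - c) * (J * P) ≤ P * (J * N - N * HH ν B t1 T J) := by
    have h5 : P * (J * c - Gv) + (N - c) * (J * P) = P * (J * N - Gv) := by ring
    have h6 : P * (J * N - Gv) ≤ P * (J * N - N * HH ν B t1 T J) :=
      mul_le_mul_of_nonneg_left (by linarith) hP
    linarith
  have h5 : ρ / N * (A + (N - c) * (J * P)) ≤ ρ / N * (P * (J * N - N * HH ν B t1 T J)) :=
    mul_le_mul_of_nonneg_left h4 (div_nonneg hρ hN0.le)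
  have h6 : ρ / N * (P * (J * N - N * HH ν B t1 T J)) = ρ * P * (J - HH ν B t1 T J) := by
    field_simp
  rw [h6] at h5
  have h7 : (J * (1 - ρ) + ρ * HH ν B t1 T J) * P = J * P - ρ * P * (J - HH ν B t1 T J) := by
    ring
  rw [h7]
  linarith

/-- the hypothesis of `main_w` for divisors -/
theorem gain_div {n ν r D : ℕ} (hν : 1 ≤ ν) (hD : 1 ≤ D) {Sy : Type} (ε : ℝ) (hε : 0 < ε) :
    ∀ (E : Sy → Finset (Fin n →₀ ℕ)) (B t1 : ℕ) (C1 : ℝ), 0 ≤ C1 →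
      (∀ e, ∀ β ∈ E e, β.degree ≤ D * B) → ∃ T : ℕ, 1 ≤ T ∧
      ∃ (bb : Sy → (Fin (ν + 1) → ℝ) → ℝ → ℝ) (Jb : ℝ), 0 ≤ Jb ∧
        (∀ e Λ ρ, (∀ k, 0 ≤ Λ k) → 0 ≤ bb e Λ ρ) ∧
        (∀ e Λ ρ, (∀ k, 0 ≤ Λ k) → bb e Λ ρ ≤ Jb * ∑ k, Λ k) ∧
        ∀ N : ℕ, 1 ≤ N → ∀ e, (Sm D (E e) (ν + 1) (D * T)).card ≤ N →
          N ≤ (Sm D (E e) (ν + 1) (D * (T + t1))).card → ∀ Λ, (∀ k, 0 ≤ Λ k) → ∀ ρ ∈ RR r,
            (D * T + C1 + 1) * ((∑ k, Λ k) / ((|cstR ν ρ| + ε) * D)) ≤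
              Ga D (E e) (ν + 1) (D * T) N (bb e Λ ρ) Λ ρ := by
  classical
  intro E B t1 C1 hC1 hB
  have hτ : ∀ ρ : ℝ, ∃ τ G : ℝ, ρ ∈ RR r → (1 / (cstR ν ρ + ε) < G ∧ ∀ᶠ T : ℕ in atTop,
      ⌊τ * T⌋₊ + B ≤ T ∧
      G * T ≤ ((⌊τ * T⌋₊ : ℕ) : ℝ) * (1 - ρ) + ρ * HH ν B t1 T ⌊τ * T⌋₊) := by
    intro ρ
    by_cases h : ρ ∈ RR r
    · obtain ⟨τ, G, h1, h2⟩ := exists_tau hν (RR_one_le h) B t1 hε
      exact ⟨τ, G, fun _ => ⟨h1, h2⟩⟩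
    · exact ⟨0, 0, fun h' => absurd h' h⟩
  choose τ G hτG using hτ
  have hcpos : ∀ ρ ∈ RR r, 0 < cstR ν ρ := by
    intro ρ hρ
    have h1 := one_le_cstR hν (RR_one_le hρ)
    have : (0 : ℝ) ≤ ν := Nat.cast_nonneg _
    linarith
  obtain ⟨T, hT1, hT⟩ := choose_T D hD C1 ε hε (RR r) (RR_finite r) (cstR ν) hcpos
    (fun ρ T => ((⌊τ ρ * T⌋₊ : ℕ) : ℝ) * (1 - ρ) + ρ * HH ν B t1 T ⌊τ ρ * T⌋₊)
    (fun ρ T => ⌊τ ρ * T⌋₊ + B ≤ T) (fun ρ hρ => ⟨G ρ, (hτG ρ hρ).1, (hτG ρ hρ).2⟩)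
  set J : ℝ → ℕ := fun ρ => if ρ ∈ RR r then ⌊τ ρ * T⌋₊ else 0 with hJd
  set Jb : ℝ := ∑ ρ ∈ (RR_finite r).toFinset, (J ρ : ℝ) with hJb
  have hJle : ∀ ρ, (J ρ : ℝ) ≤ Jb := by
    intro ρ
    by_cases h : ρ ∈ RR r
    · exact Finset.single_le_sum (f := fun ρ => (J ρ : ℝ)) (fun _ _ => Nat.cast_nonneg _)
        ((RR_finite r).mem_toFinset.2 h)
    · simp only [hJd, if_neg h, Nat.cast_zero]
      exact Finset.sum_nonneg fun _ _ => Nat.cast_nonneg _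
  have hP : ∀ Λ : Fin (ν + 1) → ℝ, (∀ k, 0 ≤ Λ k) → 0 ≤ ∑ k, Λ k := fun Λ hΛ =>
    Finset.sum_nonneg fun k _ => hΛ k
  refine ⟨T, hT1, fun _ Λ ρ => J ρ * ∑ k, Λ k, Jb, Finset.sum_nonneg fun _ _ => Nat.cast_nonneg _,
    fun _ Λ ρ hΛ => mul_nonneg (Nat.cast_nonneg _) (hP Λ hΛ),
    fun _ Λ ρ hΛ => mul_le_mul_of_nonneg_right (hJle ρ) (hP Λ hΛ), ?_⟩
  intro N hN1 e _ hN2 Λ hΛ ρ hρ
  obtain ⟨h1, h2⟩ := hT ρ hρ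
  have hJρ : J ρ = ⌊τ ρ * T⌋₊ := by simp only [hJd, if_pos hρ]
  have h3 := Ga_div hD (E e) T (J ρ) B t1 N (hB e) (by rw [hJρ]; exact h1) hN1 hN2 Λ hΛ
    (by have := RR_one_le hρ; linarith : (0 : ℝ) ≤ ρ)
  refine le_trans ?_ h3
  rw [← hJρ] at h2
  rw [abs_of_pos (hcpos ρ hρ)]
  have hc := hcpos ρ hρ
  have hDR : (0 : ℝ) < D := by exact_mod_cast hD
  have hden : 0 < (cstR ν ρ + ε) * D := by positivity
  rw [mul_div_assoc', div_le_iff₀ hden]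
  have h4 := mul_le_mul_of_nonneg_right h2 (hP Λ hΛ)
  linarith

end Pool.Agent.NH28
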