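import Pool.Agent.NH28.CntP

/-!
The gain for the points.
-/

set_option autoImplicit false

namespace Pool.Agent.NH28

open Finset Filter Topology
open Pool.Agent.TH875 (Sm mem_Sm dg)

/-- the bound for the gain -/
noncomputable def kap (ν B t1 T J : ℕ) (ρ : ℝ) : ℝ :=
  J - ρ * (((J : ℝ) + ν) ^ (ν + 1) / ((ν + 1) * ((T : ℝ) - B + ν) ^ ν) +
    (1 - (((T : ℝ) - B + 1) / (T + t1 - B + 1)) ^ ν) * J)

lemma Ga_pt {n ν D : ℕ} (hD : 1 ≤ D) (hν : 1 ≤ ν) (E : Finset (Fin n →₀ ℕ)) (T J B t1 N : ℕ)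
    (hB : ∀ β ∈ E, β.degree ≤ D * B) (hT : B ≤ T) (hN1 : 1 ≤ N)
    (hN' : (Sm D E (ν + 1) (D * T)).card ≤ N)
    (hN : N ≤ (Sm D E (ν + 1) (D * (T + t1))).card) (Λ : Fin (ν + 1) → ℝ) (hΛ : ∀ k, 0 ≤ Λ k)
    {μ : ℝ} (hμ : 0 ≤ μ) (hμΛ : ∀ k : Fin ν, μ ≤ Λ k.succ) {ρ : ℝ} (hρ : 0 ≤ ρ) :
    kap ν B t1 T J ρ * μ ≤ Ga D E (ν + 1) (D * T) N (J * μ) Λ ρ := by
  have hN0 : (0 : ℝ) < N := by exact_mod_cast hN1
  have hTB : (B : ℝ) ≤ T := by exact_mod_cast hT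
  have ht1 : (0 : ℝ) ≤ t1 := Nat.cast_nonneg _
  have hJ0 : (0 : ℝ) ≤ J := Nat.cast_nonneg _
  -- the sum of the positive parts
  have h1 : ∀ s ∈ Sm D E (ν + 1) (D * T), max (J * μ - ∑ k, (s.1 k : ℝ) * Λ k) 0 ≤
      μ * max ((J : ℝ) - ∑ k : Fin ν, (s.1 k.succ : ℝ)) 0 := by
    intro s _
    refine max_le ?_ (mul_nonneg hμ (le_max_right _ _))
    have h2 : μ * ∑ k : Fin ν, (s.1 k.succ : ℝ) ≤ ∑ k, (s.1 k : ℝ) * Λ k := by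
      rw [Fin.sum_univ_succ, Finset.mul_sum]
      have h3 : 0 ≤ (s.1 0 : ℝ) * Λ 0 := mul_nonneg (Nat.cast_nonneg _) (hΛ 0)
      have h4 : ∑ k : Fin ν, μ * (s.1 k.succ : ℝ) ≤ ∑ k : Fin ν, (s.1 k.succ : ℝ) * Λ k.succ :=
        Finset.sum_le_sum fun k _ => by
          rw [mul_comm]
          exact mul_le_mul_of_nonneg_left (hμΛ k) (Nat.cast_nonneg _)
      linarith
    have h3 : μ * ((J : ℝ) - ∑ k : Fin ν, (s.1 k.succ : ℝ)) ≤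
        μ * max ((J : ℝ) - ∑ k : Fin ν, (s.1 k.succ : ℝ)) 0 :=
      mul_le_mul_of_nonneg_left (le_max_left _ _) hμ
    linarith
  have h2 := Finset.sum_le_sum h1
  rw [← Finset.mul_sum] at h2
  have h3 := mul_le_mul_of_nonneg_left (sum_pt hD hν E T B J hB hT) hμ
  have h4 := card_compare (ν := ν) hD E T 0 B t1 hB (by omega)
  rw [Nat.sub_zero, Nat.cast_zero, sub_zero] at h4
  unfold Ga kap
  set Φ : ℝ := ((J : ℝ) + ν) ^ (ν + 1) / ((ν + 1) * ((T : ℝ) - B + ν) ^ ν) with hΦ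
  set q : ℝ := (((T : ℝ) - B + 1) / (T + t1 - B + 1)) ^ ν with hq
  set c : ℝ := ((Sm D E (ν + 1) (D * T)).card : ℝ) with hc
  set A : ℝ := ∑ s ∈ Sm D E (ν + 1) (D * T), max (J * μ - ∑ k, (s.1 k : ℝ) * Λ k) 0 with hA
  have hν1 : (1 : ℝ) ≤ ν := by exact_mod_cast hν
  have hpos : (0 : ℝ) < (T : ℝ) - B + ν := by linarith
  have hΦ0 : 0 ≤ Φ := by positivity
  have hq0 : 0 ≤ q := by
    have : (0 : ℝ) ≤ ((T : ℝ) - B + 1) / (T + t1 - B + 1) := div_nonneg (by linarith) (by linarith)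
    positivity
  have hcN : c ≤ N := by
    rw [hc]
    exact_mod_cast hN'
  have hNq : N * q ≤ c := by
    refine le_trans ?_ h4
    exact mul_le_mul_of_nonneg_right (by exact_mod_cast hN) hq0
  have h5 : A + (N - c) * (J * μ) ≤ μ * (N * (Φ + (1 - q) * J)) := by
    have h6 : c * Φ ≤ N * Φ := mul_le_mul_of_nonneg_right hcN hΦ0
    have h7 : (N - c) * J ≤ (N - N * q) * J := mul_le_mul_of_nonneg_right (by linarith) hJ0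
    have h8 : μ * (c * Φ + (N - c) * J) ≤ μ * (N * Φ + (N - N * q) * J) :=
      mul_le_mul_of_nonneg_left (by linarith) hμ
    have h9 : μ * (c * Φ + (N - c) * J) = μ * (c * Φ) + (N - c) * (J * μ) := by ring
    have h10 : μ * (N * Φ + (N - N * q) * J) = μ * (N * (Φ + (1 - q) * J)) := by ring
    linarith
  have h6 : ρ / N * (A + (N - c) * (J * μ)) ≤ ρ / N * (μ * (N * (Φ + (1 - q) * J))) :=
    mul_le_mul_of_nonneg_left h5 (div_nonneg hρ hN0.le)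
  have h7 : ρ / N * (μ * (N * (Φ + (1 - q) * J))) = ρ * (Φ + (1 - q) * J) * μ := by
    field_simp
  rw [h7] at h6
  have h8 : (J - ρ * (Φ + (1 - q) * J)) * μ = J * μ - ρ * (Φ + (1 - q) * J) * μ := by ring
  rw [h8]
  linarith

/-- the constant for points -/
noncomputable def cp (ν : ℕ) (ρ : ℝ) : ℝ := (ν + 1) / ν * ρ ^ (1 / (ν : ℝ))

lemma one_le_cp {ν : ℕ} (hν : 1 ≤ ν) {ρ : ℝ} (hρ : 1 ≤ ρ) : 1 ≤ cp ν ρ := by
  have hνR : (0 : ℝ) < ν := by exact_mod_cast hν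
  have h1 : 1 ≤ ρ ^ (1 / (ν : ℝ)) := Real.one_le_rpow hρ (by positivity)
  have h2 : (1 : ℝ) ≤ (ν + 1) / ν := by
    rw [le_div_iff₀ hνR]
    linarith
  unfold cp
  nlinarith

theorem tendsto_kap {ν : ℕ} (hν : 1 ≤ ν) (B t1 : ℕ) (ρ τ : ℝ) (hτ : 0 ≤ τ) :
    Tendsto (fun T : ℕ => kap ν B t1 T ⌊τ * T⌋₊ ρ / T) atTop
      (𝓝 (τ - ρ * (τ ^ (ν + 1) / (ν + 1)))) := by
  have hT : Tendsto (fun T : ℕ => (T : ℝ)) atTop atTop := tendsto_natCast_atTop_atTop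
  have h1 : Tendsto (fun T : ℕ => ((⌊τ * T⌋₊ : ℕ) : ℝ) / T) atTop (𝓝 τ) :=
    (tendsto_nat_floor_mul_div_atTop hτ).comp hT
  have hc : ∀ c : ℝ, Tendsto (fun T : ℕ => c / (T : ℝ)) atTop (𝓝 0) := fun c =>
    tendsto_const_nhds.div_atTop hT
  have h2 : Tendsto (fun T : ℕ => ((⌊τ * T⌋₊ : ℕ) : ℝ) / T + (ν : ℝ) / T) atTop (𝓝 τ) := by
    simpa using h1.add (hc (ν : ℝ))
  have h3 : Tendsto (fun T : ℕ => 1 + ((ν : ℝ) - B) / T) atTop (𝓝 1) := by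
    simpa using (tendsto_const_nhds (x := (1 : ℝ))).add (hc ((ν : ℝ) - B))
  have h4 : Tendsto (fun T : ℕ => 1 + ((1 : ℝ) - B) / T) atTop (𝓝 1) := by
    simpa using (tendsto_const_nhds (x := (1 : ℝ))).add (hc ((1 : ℝ) - B))
  have h5 : Tendsto (fun T : ℕ => 1 + ((t1 : ℝ) - B + 1) / T) atTop (𝓝 1) := by
    simpa using (tendsto_const_nhds (x := (1 : ℝ))).add (hc ((t1 : ℝ) - B + 1))
  have hν1 : (0 : ℝ) < (ν : ℝ) + 1 := by positivity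
  have h6 : Tendsto (fun T : ℕ => (((⌊τ * T⌋₊ : ℕ) : ℝ) / T + (ν : ℝ) / T) ^ (ν + 1) /
      ((ν + 1) * (1 + ((ν : ℝ) - B) / T) ^ ν)) atTop (𝓝 (τ ^ (ν + 1) / ((ν + 1) * 1 ^ ν))) := by
    refine Tendsto.div (h2.pow _) ((h3.pow _).const_mul _) ?_
    rw [one_pow, mul_one]
    exact hν1.ne'
  have h7 : Tendsto (fun T : ℕ => (1 - ((1 + ((1 : ℝ) - B) / T) /
      (1 + ((t1 : ℝ) - B + 1) / T)) ^ ν) * (((⌊τ * T⌋₊ : ℕ) : ℝ) / T)) atTop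
      (𝓝 ((1 - (1 / 1) ^ ν) * τ)) := by
    refine Tendsto.mul (tendsto_const_nhds.sub ((h4.div h5 one_ne_zero).pow _)) h1
  have h8 := h1.sub ((h6.add h7).const_mul ρ)
  have e0 : τ - ρ * (τ ^ (ν + 1) / ((ν + 1) * 1 ^ ν) + (1 - (1 / 1) ^ ν) * τ) =
      τ - ρ * (τ ^ (ν + 1) / (ν + 1)) := by
    simp
  rw [e0] at h8
  refine h8.congr' ?_
  filter_upwards [eventually_gt_atTop (B + 1)] with T hTB
  have hT0 : (T : ℝ) ≠ 0 := by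
    have : 0 < T := by omega
    exact_mod_cast this.ne'
  have hTR : (B : ℝ) + 1 < T := by exact_mod_cast hTB
  have ht0 : (0 : ℝ) ≤ t1 := Nat.cast_nonneg _
  have hνR : (1 : ℝ) ≤ ν := by exact_mod_cast hν
  have hY : (T : ℝ) + t1 - B + 1 ≠ 0 := by linarith
  have hY2 : (T : ℝ) - B + ν ≠ 0 := by linarith
  unfold kap
  have e1 : (1 : ℝ) + ((ν : ℝ) - B) / T = (T - B + ν) / T := by
    field_simp
    ring
  have e2 : (1 : ℝ) + ((1 : ℝ) - B) / T = (T - B + 1) / T := by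
    field_simp
    ring
  have e3 : (1 : ℝ) + ((t1 : ℝ) - B + 1) / T = (T + t1 - B + 1) / T := by
    field_simp
    ring
  have hTp : (T : ℝ) ^ ν ≠ 0 := pow_ne_zero _ hT0
  have hYp := pow_ne_zero ν hY2
  have hν' := hν1.ne'
  have e4 : (((⌊τ * T⌋₊ : ℕ) : ℝ) / T + (ν : ℝ) / T) ^ (ν + 1) /
      ((ν + 1) * (((T : ℝ) - B + ν) / T) ^ ν) =
      ((((⌊τ * T⌋₊ : ℕ) : ℝ) + ν) ^ (ν + 1) / ((ν + 1) * ((T : ℝ) - B + ν) ^ ν)) / T := by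
    rw [← add_div, div_pow, div_pow, pow_succ (T : ℝ) ν]
    field_simp
  have e5 : (((T : ℝ) - B + 1) / T) / (((T : ℝ) + t1 - B + 1) / T) =
      ((T : ℝ) - B + 1) / (T + t1 - B + 1) := div_div_div_cancel_right₀ hT0 _ _
  rw [e1, e2, e3, e4, e5]
  generalize (((T : ℝ) - B + 1) / (T + t1 - B + 1)) ^ ν = q
  generalize (((⌊τ * T⌋₊ : ℕ) : ℝ) + ν) ^ (ν + 1) / ((ν + 1) * ((T : ℝ) - B + ν) ^ ν) = Φ
  ring

/-- a good value of `τ` -/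
lemma exists_tau_pt {ν : ℕ} (hν : 1 ≤ ν) {ρ : ℝ} (hρ : 1 ≤ ρ) (B t1 : ℕ) {ε : ℝ} (hε : 0 < ε) :
    ∃ τ G : ℝ, 1 / (cp ν ρ + ε) < G ∧ ∀ᶠ T : ℕ in atTop, B ≤ T ∧
      G * T ≤ kap ν B t1 T ⌊τ * T⌋₊ ρ := by
  have hνR : (0 : ℝ) < ν := by exact_mod_cast hν
  have hc := one_le_cp hν hρ
  have hρ0 : 0 < ρ := by linarith
  set s : ℝ := ρ ^ (1 / (ν : ℝ)) with hs
  have hs0 : 0 < s := Real.rpow_pos_of_pos hρ0 _
  have hsν : s ^ ν = ρ := by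
    rw [hs, ← Real.rpow_natCast, ← Real.rpow_mul hρ0.le, one_div, inv_mul_cancel₀ hνR.ne',
      Real.rpow_one]
  set τ : ℝ := s⁻¹ with hτ
  have hτ0 : 0 ≤ τ := by positivity
  have hval : τ - ρ * (τ ^ (ν + 1) / (ν + 1)) = 1 / cp ν ρ := by
    have h1 : ρ * (τ ^ (ν + 1) / (ν + 1)) = τ / (ν + 1) := by
      rw [hτ, ← hsν, pow_succ, inv_pow]
      have : s ^ ν ≠ 0 := (pow_pos hs0 _).ne'
      field_simp
    rw [h1]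
    unfold cp
    rw [← hs, hτ]
    have : (ν : ℝ) + 1 ≠ 0 := by positivity
    field_simp
    ring
  have hlim := tendsto_kap hν B t1 ρ τ hτ0
  rw [hval] at hlim
  have hlt : 1 / (cp ν ρ + ε / 2) < 1 / cp ν ρ := one_div_lt_one_div_of_lt (by linarith) (by linarith)
  refine ⟨τ, 1 / (cp ν ρ + ε / 2), one_div_lt_one_div_of_lt (by linarith) (by linarith), ?_⟩
  filter_upwards [hlim.eventually_const_lt hlt, eventually_ge_atTop 1, eventually_ge_atTop B]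
    with T h1 h2 h3
  have hTp : (0 : ℝ) < T := by exact_mod_cast h2
  rw [lt_div_iff₀ hTp] at h1
  exact ⟨h3, h1.le⟩

/-- the smallest of the last coordinates -/
noncomputable def mn {ν : ℕ} (Λ : Fin (ν + 1) → ℝ) : ℝ := ⨅ k : Fin ν, Λ k.succ

lemma mn_le {ν : ℕ} (Λ : Fin (ν + 1) → ℝ) (k : Fin ν) : mn Λ ≤ Λ k.succ :=
  ciInf_le (Set.finite_range _).bddBelow k

lemma mn_nonneg {ν : ℕ} (Λ : Fin (ν + 1) → ℝ) (h : ∀ k, 0 ≤ Λ k) : 0 ≤ mn Λ :=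
  Real.iInf_nonneg fun k => h k.succ

/-- the hypothesis of `main_w` for points -/
theorem gain_pt {n ν r D : ℕ} (hν : 1 ≤ ν) (hD : 1 ≤ D) {Sy : Type} (ε : ℝ) (hε : 0 < ε) :
    ∀ (E : Sy → Finset (Fin n →₀ ℕ)) (B t1 : ℕ) (C1 : ℝ), 0 ≤ C1 →
      (∀ e, ∀ β ∈ E e, β.degree ≤ D * B) → ∃ T : ℕ, 1 ≤ T ∧
      ∃ (bb : Sy → (Fin (ν + 1) → ℝ) → ℝ → ℝ) (Jb : ℝ), 0 ≤ Jb ∧
        (∀ e Λ ρ, (∀ k, 0 ≤ Λ k) → 0 ≤ bb e Λ ρ) ∧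
        (∀ e Λ ρ, (∀ k, 0 ≤ Λ k) → bb e Λ ρ ≤ Jb * ∑ k, Λ k) ∧
        ∀ N : ℕ, 1 ≤ N → ∀ e, (Sm D (E e) (ν + 1) (D * T)).card ≤ N →
          N ≤ (Sm D (E e) (ν + 1) (D * (T + t1))).card → ∀ Λ, (∀ k, 0 ≤ Λ k) → ∀ ρ ∈ RR r,
            (D * T + C1 + 1) * (mn Λ / ((|cp ν ρ| + ε) * D)) ≤
              Ga D (E e) (ν + 1) (D * T) N (bb e Λ ρ) Λ ρ := by
  classical
  intro E B t1 C1 hC1 hB
  have hτ : ∀ ρ : ℝ, ∃ τ G : ℝ, ρ ∈ RR r → (1 / (cp ν ρ + ε) < G ∧ ∀ᶠ T : ℕ in atTop,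
      B ≤ T ∧ G * T ≤ kap ν B t1 T ⌊τ * T⌋₊ ρ) := by
    intro ρ
    by_cases h : ρ ∈ RR r
    · obtain ⟨τ, G, h1, h2⟩ := exists_tau_pt hν (RR_one_le h) B t1 hε
      exact ⟨τ, G, fun _ => ⟨h1, h2⟩⟩
    · exact ⟨0, 0, fun h' => absurd h' h⟩
  choose τ G hτG using hτ
  have hcpos : ∀ ρ ∈ RR r, 0 < cp ν ρ := by
    intro ρ hρ
    have h1 := one_le_cp hν (RR_one_le hρ)
    linarith
  obtain ⟨T, hT1, hT⟩ := choose_T D hD C1 ε hε (RR r) (RR_finite r) (cp ν) hcpos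
    (fun ρ T => kap ν B t1 T ⌊τ ρ * T⌋₊ ρ)
    (fun _ T => B ≤ T) (fun ρ hρ => ⟨G ρ, (hτG ρ hρ).1, (hτG ρ hρ).2⟩)
  set J : ℝ → ℕ := fun ρ => if ρ ∈ RR r then ⌊τ ρ * T⌋₊ else 0 with hJd
  set Jb : ℝ := ∑ ρ ∈ (RR_finite r).toFinset, (J ρ : ℝ) with hJb
  have hJle : ∀ ρ, (J ρ : ℝ) ≤ Jb := by
    intro ρ
    by_cases h : ρ ∈ RR r
    · exact Finset.single_le_sum (f := fun ρ => (J ρ : ℝ)) (fun _ _ => Nat.cast_nonneg _)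
        ((RR_finite r).mem_toFinset.2 h)
    · simp only [hJd, if_neg h, Nat.cast_zero]
      exact Finset.sum_nonneg fun _ _ => Nat.cast_nonneg _
  have hJb0 : 0 ≤ Jb := Finset.sum_nonneg fun _ _ => Nat.cast_nonneg _
  have hmnP : ∀ Λ : Fin (ν + 1) → ℝ, (∀ k, 0 ≤ Λ k) → mn Λ ≤ ∑ k, Λ k := by
    intro Λ hΛ
    exact (mn_le Λ ⟨0, hν⟩).trans
      (Finset.single_le_sum (f := Λ) (fun k _ => hΛ k) (Finset.mem_univ _))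
  refine ⟨T, hT1, fun _ Λ ρ => J ρ * mn Λ, Jb, hJb0,
    fun _ Λ ρ hΛ => mul_nonneg (Nat.cast_nonneg _) (mn_nonneg Λ hΛ),
    fun _ Λ ρ hΛ => mul_le_mul (hJle ρ) (hmnP Λ hΛ) (mn_nonneg Λ hΛ) hJb0, ?_⟩
  intro N hN1 e hN0 hN2 Λ hΛ ρ hρ
  obtain ⟨h1, h2⟩ := hT ρ hρ
  have hJρ : J ρ = ⌊τ ρ * T⌋₊ := by simp only [hJd, if_pos hρ]
  have h3 := Ga_pt hD hν (E e) T (J ρ) B t1 N (hB e) h1 hN1 hN0 hN2 Λ hΛ (mn_nonneg Λ hΛ)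
    (fun k => mn_le Λ k) (by have := RR_one_le hρ; linarith : (0 : ℝ) ≤ ρ)
  refine le_trans ?_ h3
  rw [← hJρ] at h2
  rw [abs_of_pos (hcpos ρ hρ)]
  have hc := hcpos ρ hρ
  have hDR : (0 : ℝ) < D := by exact_mod_cast hD
  have hden : 0 < (cp ν ρ + ε) * D := by positivity
  rw [mul_div_assoc', div_le_iff₀ hden]
  have h4 := mul_le_mul_of_nonneg_right h2 (mn_nonneg Λ hΛ)
  linarith

end Pool.Agent.NH28
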