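import Pool.Agent.R405.SchV
import Pool.Agent.R405.Big

/-!
The refined subspace theorem for forms with coefficients in the field of the points.
-/

set_option autoImplicit false

namespace Pool.Agent.NH28

open Finset NumberField IsDedekindDomain Height Module
open Pool.Agent.W180.OP (Pl av wt nrm le_nrm nrm_pos nrm_nonneg wt_nonneg)
open Pool.Agent.R405 (exv dot schV Good exists_good dot_exv exists_big)

theorem sch_rat {k : Type} [Field k] [NumberField k] {N : ℕ} (hN : 1 ≤ N) {ι : Type} [Fintype ι]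
    (L : ι → Fin N → k) :
    ∃ Z : Finset (Fin N → k), (∀ z ∈ Z, z ≠ 0) ∧ ∀ (S : Finset (Pl k)) (ε : ℝ), 0 < ε →
      ∃ C : ℝ, 0 ≤ C ∧ ∀ x : Fin N → k, x ≠ 0 → (∀ z ∈ Z, ∑ j, z j * x j ≠ 0) →
        (∀ l, ∑ j, L l j * x j ≠ 0) → ∀ β : Pl k → Fin N → ι,
        (∀ v ∈ S, LinearIndependent k fun a => L (β v a)) →
        ∑ v ∈ S, wt v * ∑ a, (Real.log (nrm (av v) x) -
          Real.log (av v (∑ j, L (β v a) j * x j))) ≤ (N + ε) * logHeight x + C := by
  classical
  obtain ⟨M, hM1, hM2, hi, ⟨φ⟩⟩ := exists_big k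
  have : NumberField M := ⟨⟩
  let _ : Algebra k M := φ.toAlgebra
  obtain ⟨Z, hZ, hmain⟩ := schV (k := k) hi hN (fun l => exv M (L l))
  refine ⟨Z, hZ, fun S ε hε => ?_⟩
  choose f hf using fun v : Pl k => exists_good (K := M) v
  obtain ⟨C, hC0, hC⟩ := hmain S f (fun v _ => hf v) ε hε
  refine ⟨C, hC0, fun x hx hZx hLx β hβ => ?_⟩
  have hdot : ∀ l, dot (exv M (L l)) (exv M x) = algebraMap k M (∑ j, L l j * x j) :=
    fun l => dot_exv (K := M) (L l) x
  have h1 := hC x hx hZx (fun l => by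
    rw [hdot]
    intro h0
    exact hLx l ((map_eq_zero _).1 h0)) β (fun v hv => by
    have h2 : (Matrix.of fun a => L (β v a)).det ≠ 0 := by
      have h3 : LinearIndependent k (Matrix.of fun a => L (β v a)).row := hβ v hv
      rw [Matrix.linearIndependent_rows_iff_isUnit, Matrix.isUnit_iff_isUnit_det] at h3
      exact h3.ne_zero
    have h4 : (Matrix.of fun a => exv M (L (β v a))) =
        (Matrix.of fun a => L (β v a)).map (algebraMap k M) := rfl
    rw [h4, ← RingHom.mapMatrix_apply, ← RingHom.map_det]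
    intro h0
    exact h2 ((map_eq_zero _).1 h0))
  refine le_trans (le_of_eq ?_) h1
  refine Finset.sum_congr rfl fun v _ => ?_
  congr 1
  refine Finset.sum_congr rfl fun a _ => ?_
  rw [hdot, (hf v).ext]

end Pool.Agent.NH28
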