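import Pool.Agent.NH28.Bad
import Pool.Agent.NH28.Sch

/-!
The global estimate.
-/

set_option autoImplicit false

namespace Pool.Agent.NH28

open MvPolynomial Finset NumberField IsDedekindDomain Height Module
open Pool.Agent.W180.OP Pool.Agent.W180.TP Pool.Agent.TH875

/-- the property of the constant in `exists_theta` -/
def ThetaP (K : Type) [Field K] [NumberField K] (n r : ℕ) (C1 : ℝ) : Prop :=
  0 ≤ C1 ∧ ∀ (M q : ℕ), 0 < q → ∀ (S : Finset (Pl K)),
      (∀ v : InfinitePlace K, Sum.inl v ∈ S) → ∃ C2 : ℝ, 0 ≤ C2 ∧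
      ∀ (L : Type) [Field L] [NumberField L] [Algebra K L], finrank K L ≤ r →
        ∀ x : Fin n → L, x ≠ 0 →
          IntermediateField.adjoin K {z | ∃ i j, z = x i / x j} = ⊤ →
          ∀ P : Fin q → L, (∀ i, P i ≠ 0) → ∀ β : Pl L → ℝ,
            M * logHeight x + C1 * (logHeight x + 1) + C2 ≤ ∑ v ∈ S, ∑ w ∈ ab L v, β w →
            ∃ θ : L, (∀ i, Algebra.trace K L (θ * P i) ≠ 0) ∧
              (∀ v ∈ S, ∀ w ∈ ab L v,
                wt w * Real.log (av w θ) + M * (wt w * Real.log (nrm (av w) x)) ≤ β w) ∧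
              ∀ v, v ∉ S → ∀ w ∈ ab L v, av w θ * nrm (av w) x ^ M ≤ 1

/-- the final computation -/
lemma final_ineq {h hz X Y N r r' J H M C1 C2 C3 C4 Cp ε' Sg A : ℝ}
    (hN : 1 ≤ N) (hr : 1 ≤ r) (hr' : 1 ≤ r') (hrr : r' ≤ r) (hh : 0 ≤ h)
    (hC30 : 0 ≤ C3) (hC40 : 0 ≤ C4) (hCp0 : 0 ≤ Cp) (hhz0 : 0 ≤ hz)
    (hY : Y = M * h + C1 * (h + 1) + C2)
    (hε' : ε' = 1 / (r * (C3 + 1)))
    (hSg : Sg * r' = Y - J * X)
    (hA : r' * A ≤ r * (N * (J - H) * X))
    (hz3 : hz ≤ C3 * (h + 1))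
    (hmain : N * hz ≤ (N + ε') * hz + C4 + (N * (Sg + Cp) + A)) :
    (J * (1 - r) + r * H) * X ≤ (M + C1 + 1) * h + (C1 + C2 + 1 + r * C4 + r * Cp) := by
  have h1 : 0 ≤ ε' * hz + C4 + N * (Sg + Cp) + A := by linarith
  have h2 : 0 ≤ r' * (ε' * hz + C4 + N * (Sg + Cp) + A) := mul_nonneg (by linarith) h1
  have hε0 : 0 ≤ ε' := by rw [hε']; positivity
  have h3 : r' * (ε' * hz) ≤ r * (ε' * hz) :=
    mul_le_mul_of_nonneg_right hrr (mul_nonneg hε0 hhz0)
  have h4 : r * (ε' * hz) ≤ h + 1 := by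
    have h5 : r * (ε' * hz) ≤ r * (ε' * (C3 * (h + 1))) :=
      mul_le_mul_of_nonneg_left (mul_le_mul_of_nonneg_left hz3 hε0) (by linarith)
    refine h5.trans ?_
    rw [hε']
    have h6 : r * (1 / (r * (C3 + 1)) * (C3 * (h + 1))) = (C3 / (C3 + 1)) * (h + 1) := by
      have : r ≠ 0 := by linarith
      have : C3 + 1 ≠ 0 := by linarith
      field_simp
    rw [h6]
    have h7 : C3 / (C3 + 1) ≤ 1 := by
      rw [div_le_one (by linarith)]
      linarith
    have h8 := mul_le_mul_of_nonneg_right h7 (by linarith : (0 : ℝ) ≤ h + 1)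
    linarith
  have h5 : r' * C4 ≤ r * C4 := mul_le_mul_of_nonneg_right hrr hC40
  have h6 : r' * Cp ≤ r * Cp := mul_le_mul_of_nonneg_right hrr hCp0
  have h7 : r' * (ε' * hz + C4 + N * (Sg + Cp) + A) = r' * (ε' * hz) + r' * C4 +
      N * (Sg * r') + N * (r' * Cp) + r' * A := by ring
  rw [h7, hSg] at h2
  have h8 : N * (r' * Cp) ≤ N * (r * Cp) := mul_le_mul_of_nonneg_left h6 (by linarith)
  have hhN : h + 1 ≤ N * (h + 1) := le_mul_of_one_le_left (by linarith) hN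
  have hC4N : r * C4 ≤ N * (r * C4) := le_mul_of_one_le_left (by positivity) hN
  have h9 : N * ((J * (1 - r) + r * H) * X) ≤
      N * ((M + C1 + 1) * h + (C1 + C2 + 1 + r * C4 + r * Cp)) := by
    have e1 : N * ((M + C1 + 1) * h + (C1 + C2 + 1 + r * C4 + r * Cp)) =
      N * (M * h + C1 * (h + 1) + C2) + N * (h + 1) + N * (r * C4) + N * (r * Cp) := by ring
    have e2 : N * ((J * (1 - r) + r * H) * X) = N * (J * X) - r * (N * (J - H) * X) := by ring
    rw [e1, e2, ← hY]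
    linarith
  exact le_of_mul_le_mul_left h9 (by linarith)

end Pool.Agent.NH28
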