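import Pool.Agent.NH28.PlaceV

/-!
The estimates at one place of `K`, with arbitrary parameters.
-/

set_option autoImplicit false

namespace Pool.Agent.NH28

open MvPolynomial Finset NumberField IsDedekindDomain Height Module
open Pool.Agent.W180.OP Pool.Agent.W180.TP Pool.Agent.TH875

theorem place_w {K : Type} [Field K] [NumberField K] {n m R M D N : ℕ} (hD : 1 ≤ D)
    (I : Ideal (MvPolynomial (Fin n) K)) (G : Fin m → MvPolynomial (Fin n) K)
    (hI : I = Ideal.span (Set.range G)) {Sy : Type} [Fintype Sy]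
    (y : Sy → Fin R → MvPolynomial (Fin n) K)
    (E : Sy → Finset (Fin n →₀ ℕ)) (hE : ∀ e, Ind I (y e) (E e))
    (sec : VM I M →ₗ[K] MvPolynomial (Fin n) K)
    (hsec : ∀ v, (sec v).IsHomogeneous M ∧ Ideal.Quotient.mkₐ K I (sec v) = v)
    (u : ∀ e, {s // s ∈ Sm D (E e) R M} → VM I M)
    (hu : ∀ e s, (u e s : MvPolynomial (Fin n) K ⧸ I) = Ideal.Quotient.mkₐ K I (ym (y e) s.1))
    [FiniteDimensional K (VM I M)] (b0 : Fin N → VM I M) (hN : finrank K (VM I M) = N)
    (v : Pl K) (r : ℕ) (c0 : ℝ) (hc0 : 0 ≤ c0) :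
    ∃ C : ℝ, 0 ≤ C ∧ ∀ (L : Type) [Field L] [NumberField L] [Algebra K L], finrank K L ≤ r →
      ∀ x : Fin n → L, x ≠ 0 → (∀ k, aeval x (G k) = 0) → ∀ e : Pl L → Sy,
      (∀ w k, aeval x (y (e w) k) ≠ 0) →
      (∀ w k, 0 ≤ wt w * lam (av w) D (bc L (y (e w) k)) x + c0) →
      (∀ i : Ix K u, aeval x (sec (ph u i)) ≠ 0) → ∀ (θ : L) (g0 : ℝ) (b : Pl L → ℝ), θ ≠ 0 →
      (∀ w, 0 ≤ b w) →
      (∀ w ∈ ab L v, wt w * Real.log (av w θ) + M * (wt w * Real.log (nrm (av w) x)) ≤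
        nn v w * (g0 + b w)) →
      (∀ i : Ix K u, Algebra.trace K L (θ * aeval x (sec (ph u i))) ≠ 0) →
      (∀ j, aeval x (sec (b0 j)) ≠ 0 → Algebra.trace K L (θ * aeval x (sec (b0 j))) ≠ 0 →
        wt v * Real.log (av v (Algebra.trace K L (θ * aeval x (sec (b0 j))))) ≤
        g0 + ∑ w ∈ ab L v, b w + C) ∧
      ∃ β : Fin N → Ix K u, LinearIndependent K (fun a => ph u (β a)) ∧
        ∑ a, wt v * Real.log (av v (Algebra.trace K L (θ * aeval x (sec (ph u (β a)))))) ≤
          N * (g0 + C) + ∑ w ∈ ab L v, (∑ s ∈ Sm D (E (e w)) R M,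
            max (b w - ∑ k, (s.1 k : ℝ) * LL v w c0 D (y (e w) k) x) 0 +
            ((N : ℝ) - (Sm D (E (e w)) R M).card) * b w) := by
  classical
  obtain ⟨ct, hct0, hct⟩ := trace_pl v r
  -- the crude constants
  choose Ca hCa0 hCa using fun i : Ix K u => loc_crude (sec (ph u i)) (hsec (ph u i)).1
  choose Cc hCc0 hCc using fun j : Fin N => loc_crude (sec (b0 j)) (hsec (b0 j)).1
  -- the fine constants
  have hfine : ∀ (i : Ix K u) (a : Σ e : Sy, Finset {s // s ∈ Sm D (E e) R M}), ∃ C : ℝ, 0 ≤ C ∧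
      (a ∈ i.1 → ∀ (L : Type) [Field L] [NumberField L] [Algebra K L] (w : Pl L)
      (x : Fin n → L), x ≠ 0 → (∀ k, aeval x (G k) = 0) → (∀ k, aeval x (y a.1 k) ≠ 0) →
      aeval x (sec (ph u i)) ≠ 0 → ∀ τ : ℝ,
      (∀ s ∈ a.2, τ ≤ wt w * ∑ k, (s.1.1 k : ℝ) * lam (av w) D (bc L (y a.1 k)) x) →
      wt w * Real.log (av w (aeval x (sec (ph u i)))) ≤
        M * (wt w * Real.log (nrm (av w) x)) - τ + C * finrank ℚ L) := by
    intro i a
    by_cases ha : a ∈ i.1
    · obtain ⟨C, hC0, hC⟩ := loc_one hD I G hI (y a.1) (E a.1) sec hsec (u a.1) (hu a.1) a.2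
        (ph u i) (mem_span_of_mem u i.1 a ha _ (ph_mem u i))
      exact ⟨C, hC0, fun _ => hC⟩
    · exact ⟨0, le_rfl, fun h => absurd h ha⟩
  choose Cb hCb0 hCb using hfine
  have hCcs : 0 ≤ ∑ j, Cc j := Finset.sum_nonneg fun j _ => hCc0 j
  set Cs : ℝ := ∑ i, Ca i + ∑ i, ∑ a, Cb i a + ∑ j, Cc j with hCs
  have hCc1 : ∀ j, Cc j ≤ Cs := by
    intro j
    have h1 := Finset.single_le_sum (f := Cc) (fun i _ => hCc0 i) (Finset.mem_univ j)
    have h2 : 0 ≤ ∑ i, ∑ a, Cb i a := Finset.sum_nonneg fun i _ => Finset.sum_nonneg fun a _ =>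
      hCb0 i a
    have h3 : 0 ≤ ∑ i, Ca i := Finset.sum_nonneg fun i _ => hCa0 i
    linarith
  have hCa1 : ∀ i, Ca i ≤ Cs := by
    intro i
    have h1 := Finset.single_le_sum (f := Ca) (fun i _ => hCa0 i) (Finset.mem_univ i)
    have h2 : 0 ≤ ∑ i, ∑ a, Cb i a := Finset.sum_nonneg fun i _ => Finset.sum_nonneg fun a _ =>
      hCb0 i a
    linarith
  have hCb1 : ∀ i a, Cb i a ≤ Cs := by
    intro i a
    have h1 := Finset.single_le_sum (f := fun i => ∑ a, Cb i a) (fun i _ =>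
      Finset.sum_nonneg fun a _ => hCb0 i a) (Finset.mem_univ i)
    have h2 := Finset.single_le_sum (f := fun a => Cb i a) (fun a _ => hCb0 i a)
      (Finset.mem_univ a)
    have h3 : 0 ≤ ∑ i, Ca i := Finset.sum_nonneg fun i _ => hCa0 i
    linarith
  have hCs0 : 0 ≤ Cs := by
    have h3 : 0 ≤ ∑ i, Ca i := Finset.sum_nonneg fun i _ => hCa0 i
    have h2 : 0 ≤ ∑ i, ∑ a, Cb i a := Finset.sum_nonneg fun i _ => Finset.sum_nonneg fun a _ =>
      hCb0 i a
    linarith
  set Q : ℝ := (finrank ℚ K : ℝ) * r with hQ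
  have hQ0 : 0 ≤ Q := by positivity
  set C1 : ℝ := c0 * M + Cs * Q with hC1
  have hC10 : 0 ≤ C1 := by positivity
  refine ⟨C1 + ct, by positivity, ?_⟩
  intro L _ _ _ hr x hx hGx e hyx hpos hphx θ g0 b hθ0 hb0 hθ htr
  have hfq : (finrank ℚ L : ℝ) ≤ Q := by
    have h1 : finrank ℚ K * finrank K L = finrank ℚ L := finrank_mul_finrank ℚ K L
    rw [hQ, ← h1]
    push_cast
    exact mul_le_mul_of_nonneg_left (by exact_mod_cast hr) (Nat.cast_nonneg _)
  have hfq0 : (0 : ℝ) ≤ finrank ℚ L := Nat.cast_nonneg _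
  set Λ : Pl L → Fin R → ℝ := fun w k => LL v w c0 D (y (e w) k) x with hΛ
  have hΛ0 : ∀ w k, 0 ≤ Λ w k := fun w k => div_nonneg (hpos w k) (nn_nonneg v w)
  set l : ∀ w : Pl L, {s // s ∈ Sm D (E (e w)) R M} → ℝ := fun w s =>
    ∑ k, (s.1.1 k : ℝ) * Λ w k with hl
  have hl0 : ∀ w s, 0 ≤ l w s := fun w s => Finset.sum_nonneg fun k _ =>
    mul_nonneg (Nat.cast_nonneg _) (hΛ0 w k)
  set B : ℝ := ∑ w ∈ ab L v, b w with hB
  set z : Ix K u → ℝ := fun i =>
    wt v * Real.log (av v (Algebra.trace K L (θ * aeval x (sec (ph u i))))) with hz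
  -- the main local estimate
  have hmain : ∀ i : Ix K u, ∀ t ≤ B, (∀ w ∈ ab L v, 0 < t - (B - b w) →
      ∃ A : Finset {s // s ∈ Sm D (E (e w)) R M},
        (⟨e w, A⟩ : Σ e : Sy, Finset {s // s ∈ Sm D (E e) R M}) ∈ i.1 ∧
        ∀ s ∈ A, t - (B - b w) ≤ l w s) → t ≤ g0 + B + (C1 + ct) - z i := by
    intro i t ht hi
    have h1 : ∀ w ∈ ab L v, wt w * Real.log (av w (θ * aeval x (sec (ph u i)))) ≤
        nn v w * (g0 + B - t + C1) := by
      intro w hw
      have hnn := one_le_nn (mem_ab.1 hw)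
      have h2 : wt w * Real.log (av w (aeval x (sec (ph u i)))) ≤
          M * (wt w * Real.log (nrm (av w) x)) - nn v w * (t - (B - b w)) + C1 := by
        by_cases h0 : 0 < t - (B - b w)
        · obtain ⟨A, hA, hA2⟩ := hi w hw h0
          have h3 := hCb i ⟨e w, A⟩ hA L w x hx hGx (hyx w) (hphx i)
            (nn v w * (t - (B - b w)) - c0 * M) (by
              intro s hs
              have h4 := mul_le_mul_of_nonneg_left (hA2 s hs) (nn_nonneg v w)
              have h5 : nn v w * l w s = wt w * ∑ k, (s.1.1 k : ℝ) *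
                  lam (av w) D (bc L (y (e w) k)) x + c0 * ∑ k, (s.1.1 k : ℝ) := by
                simp only [hl, hΛ, LL]
                rw [Finset.mul_sum, Finset.mul_sum, Finset.mul_sum, ← Finset.sum_add_distrib]
                refine Finset.sum_congr rfl fun k _ => ?_
                have : nn v w ≠ 0 := by linarith
                field_simp
              have h6 : ∑ k, (s.1.1 k : ℝ) ≤ M := by
                have h7 := ((mem_Sm hD (E (e w)) M s.1).1 s.2).2
                unfold dg at h7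
                have h8 : ∑ k, s.1.1 k ≤ D * ∑ k, s.1.1 k := Nat.le_mul_of_pos_left _ hD
                have h9 : ∑ k, s.1.1 k ≤ M := by omega
                exact_mod_cast h9
              have h7 := mul_le_mul_of_nonneg_left h6 hc0
              rw [h5] at h4
              linarith)
          have h4 : Cb i ⟨e w, A⟩ * finrank ℚ L ≤ Cs * Q :=
            mul_le_mul (hCb1 _ _) hfq hfq0 hCs0
          rw [hC1]
          linarith
        · push Not at h0
          have h3 := hCa i L w x hx (hphx i)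
          have h4 : Ca i * finrank ℚ L ≤ Cs * Q := mul_le_mul (hCa1 _) hfq hfq0 hCs0
          have h5 : nn v w * (t - (B - b w)) ≤ 0 :=
            mul_nonpos_of_nonneg_of_nonpos (nn_nonneg v w) h0
          have h6 : 0 ≤ c0 * M := by positivity
          rw [hC1]
          linarith
      have h3 := hθ w hw
      rw [map_mul, Real.log_mul ((av w).pos_iff.2 hθ0).ne' ((av w).pos_iff.2 (hphx i)).ne', mul_add]
      have h4 : C1 ≤ nn v w * C1 := le_mul_of_one_le_left hC10 hnn
      have h5 : nn v w * (g0 + B - t + C1) = nn v w * (g0 + b w) - nn v w * (t - (B - b w)) +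
          nn v w * C1 := by ring
      rw [h5]
      linarith
    have h2 := hct L hr _ _ h1 (htr i)
    show t ≤ g0 + B + (C1 + ct) - z i
    have h3 : z i ≤ g0 + B - t + C1 + ct := h2
    linarith
  obtain ⟨h1, β, hβ, h2⟩ := place_abs u (fun e => indep_u hD I (y e) (E e) (hE e) (u e) (hu e))
    N hN (ab L v) e l hl0 b hb0 (fun i => g0 + B + (C1 + ct) - z i) hmain
  refine ⟨fun j hjx hjt => ?_, β, hβ, ?_⟩
  · have h3 : ∀ w ∈ ab L v, wt w * Real.log (av w (θ * aeval x (sec (b0 j)))) ≤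
        nn v w * (g0 + B + C1) := by
      intro w hw
      have hnn := one_le_nn (mem_ab.1 hw)
      have h4 := hCc j L w x hx hjx
      have h5 : Cc j * finrank ℚ L ≤ Cs * Q := mul_le_mul (hCc1 _) hfq hfq0 hCs0
      have h6 : 0 ≤ c0 * M := by positivity
      have h7 := hθ w hw
      have h8 : C1 ≤ nn v w * C1 := le_mul_of_one_le_left hC10 hnn
      have h9 : nn v w * b w ≤ nn v w * B := mul_le_mul_of_nonneg_left
        (Finset.single_le_sum (f := b) (fun w _ => hb0 w) hw) (nn_nonneg v w)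
      rw [map_mul, Real.log_mul ((av w).pos_iff.2 hθ0).ne' ((av w).pos_iff.2 hjx).ne', mul_add]
      have h10 : nn v w * (g0 + B + C1) = nn v w * (g0 + b w) + (nn v w * B - nn v w * b w) +
          nn v w * C1 := by ring
      have h11 : wt w * Real.log (av w θ) + M * (wt w * Real.log (nrm (av w) x)) ≤
        nn v w * (g0 + b w) := h7
      rw [h10]
      linarith
    have h4 := hct L hr _ _ h3 hjt
    linarith
  · have h3 : ∑ w ∈ ab L v, (∑ s, max (b w - l w s) 0 +
        ((N : ℝ) - Fintype.card {s // s ∈ Sm D (E (e w)) R M}) * b w) =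
        ∑ w ∈ ab L v, (∑ s ∈ Sm D (E (e w)) R M,
            max (b w - ∑ k, (s.1 k : ℝ) * LL v w c0 D (y (e w) k) x) 0 +
            ((N : ℝ) - (Sm D (E (e w)) R M).card) * b w) := by
      refine Finset.sum_congr rfl fun w _ => ?_
      have h5 : ∑ s, max (b w - l w s) 0 = ∑ s ∈ Sm D (E (e w)) R M,
          max (b w - ∑ k, (s.1 k : ℝ) * Λ w k) 0 :=
        Finset.sum_coe_sort (Sm D (E (e w)) R M) (fun s =>
          max (b w - ∑ k, (s.1 k : ℝ) * Λ w k) 0)
      rw [h5, Fintype.card_coe]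
    have h4 : ∑ a, (g0 + B + (C1 + ct) - z (β a)) = N * B + N * (g0 + (C1 + ct)) -
        ∑ a, z (β a) := by
      rw [Finset.sum_sub_distrib, Finset.sum_const, Finset.card_univ, Fintype.card_fin,
        nsmul_eq_mul]
      ring
    rw [h4] at h2
    show ∑ a, z (β a) ≤ _
    linarith

end Pool.Agent.NH28
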