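import Pool.Agent.NH28.Prim

/-!
The height as a sum of local terms.
-/

set_option autoImplicit false

namespace Pool.Agent.NH28

open NumberField IsDedekindDomain Finset Module Height
open Pool.Agent.W180.OP (Pl av wt fv fv_apply wt_nonneg fv_support_finite nrm le_nrm nrm_pos
  exists_nrm nrm_nonneg partial_le)
open Pool.Agent.W180.TP (wt_pos one_term)

variable {L : Type} [Field L] [NumberField L]

lemma fin_pos_of_ne {n : ℕ} {x : Fin n → L} (hx : x ≠ 0) : 0 < n := by
  rcases Nat.eq_zero_or_pos n with h | h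
  · subst h
    exact absurd (Subsingleton.elim x 0) hx
  · exact h

/-- the support of the local terms -/
lemma nrm_support {n : ℕ} {x : Fin n → L} (hx : x ≠ 0) :
    {v : HeightOneSpectrum (𝓞 L) | nrm (fv v) x ≠ 1}.Finite := by
  have hn := fin_pos_of_ne hx
  have h1 : (⋃ i : {i : Fin n // x i ≠ 0}, {v : HeightOneSpectrum (𝓞 L) | fv v (x i) ≠ 1}).Finite :=
    Set.finite_iUnion fun i => fv_support_finite i.2
  refine h1.subset fun v hv => ?_
  by_contra hc
  apply hv
  simp only [Set.mem_iUnion, not_exists, Set.mem_ofPred_eq, not_not] at hc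
  obtain ⟨i, hi⟩ := exists_nrm (fv v) hn x
  by_cases h0 : x i = 0
  · rw [h0, map_zero] at hi
    have := nrm_pos (fv v) hx
    linarith
  · rw [← hi]
    exact hc ⟨i, h0⟩

/-- the height as a sum -/
theorem height_sum {n : ℕ} {x : Fin n → L} (hx : x ≠ 0) (T : Finset (HeightOneSpectrum (𝓞 L)))
    (hT : ∀ v, nrm (fv v) x ≠ 1 → v ∈ T) :
    logHeight x = ∑ w : InfinitePlace L, (w.mult : ℝ) * Real.log (nrm w.1 x) +
      ∑ v ∈ T, Real.log (nrm (fv v) x) := by
  classical
  have e : ∏ᶠ v : FinitePlace L, ⨆ i, v (x i) =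
      ∏ᶠ v : HeightOneSpectrum (𝓞 L), nrm (fv v) x := by
    rw [← finprod_comp_equiv (FinitePlace.equivHeightOneSpectrum (K := L)).symm]
    rfl
  have e2 : ∏ᶠ v : HeightOneSpectrum (𝓞 L), nrm (fv v) x = ∏ v ∈ T, nrm (fv v) x := by
    refine finprod_eq_prod_of_mulSupport_subset _ fun v hv => ?_
    exact hT v hv
  have hw : ∀ w : InfinitePlace L, (⨆ i, w (x i)) = nrm w.1 x := fun w => rfl
  have h4 : 0 < ∏ w : InfinitePlace L, (⨆ i, w (x i)) ^ w.mult :=
    prod_pos fun w _ => pow_pos (by rw [hw]; exact nrm_pos _ hx) _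
  have h5 : 0 < ∏ v ∈ T, nrm (fv v) x := prod_pos fun v _ => nrm_pos _ hx
  rw [logHeight_eq_log_mulHeight, NumberField.mulHeight_eq hx, e, e2,
    Real.log_mul h4.ne' h5.ne', Real.log_prod fun w _ => (pow_pos (by
      rw [hw]; exact nrm_pos _ hx) _).ne',
    Real.log_prod fun v _ => (nrm_pos _ hx).ne']
  congr 1
  exact Finset.sum_congr rfl fun w _ => by rw [Real.log_pow, hw]

lemma log_nrm {n : ℕ} {x : Fin n → L} (hx : x ≠ 0) (v : HeightOneSpectrum (𝓞 L)) :
    ∃ k : ℤ, Real.log (nrm (fv v) x) = k * lN v := by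
  obtain ⟨i, hi⟩ := exists_nrm (fv v) (fin_pos_of_ne hx) x
  have h0 : x i ≠ 0 := by
    intro h0
    rw [h0, map_zero] at hi
    have := nrm_pos (fv v) hx
    linarith
  obtain ⟨k, hk⟩ := log_fv v h0
  exact ⟨k, by rw [← hi, hk]⟩

variable {K : Type} [Field K] [NumberField K] [Algebra K L]

lemma lN_le {v : HeightOneSpectrum (𝓞 K)} {w : HeightOneSpectrum (𝓞 L)}
    (hw : w.asIdeal.LiesOver v.asIdeal) : lN w ≤ ldeg v w * lN v := by
  have hmax : v.asIdeal.IsMaximal := v.isMaximal
  have hN := Ideal.absNorm_eq_pow_inertiaDeg'_of_liesOver w.asIdeal v.asIdeal v.isPrime v.ne_bot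
  have hr : 0 < v.asIdeal.ramificationIdx' w.asIdeal := Nat.pos_of_ne_zero
    (Ideal.IsDedekindDomain.ramificationIdx'_ne_zero_of_liesOver w.asIdeal v.ne_bot)
  unfold lN ldeg
  rw [hN]
  push_cast
  rw [Real.log_pow]
  have h1 : (1 : ℝ) ≤ v.asIdeal.ramificationIdx' w.asIdeal := by exact_mod_cast hr
  have h2 : (0 : ℝ) ≤ v.asIdeal.inertiaDeg' w.asIdeal := Nat.cast_nonneg _
  have h3 := lN_pos v
  unfold lN at h3
  have h4 : (v.asIdeal.inertiaDeg' w.asIdeal : ℝ) * Real.log (Ideal.absNorm v.asIdeal) =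
      1 * ((v.asIdeal.inertiaDeg' w.asIdeal : ℝ) * Real.log (Ideal.absNorm v.asIdeal)) :=
    (one_mul _).symm
  rw [h4, mul_assoc]
  exact mul_le_mul_of_nonneg_right h1 (by positivity)

/-- the finite places above a set of places -/
noncomputable def fab (L : Type) [Field L] [NumberField L] [Algebra K L] (S : Finset (Pl K)) :
    Finset (HeightOneSpectrum (𝓞 L)) :=
  open Classical in (S.biUnion fun v => ab L v).toRight

lemma mem_fab {S : Finset (Pl K)} {w : HeightOneSpectrum (𝓞 L)} :
    w ∈ fab L S ↔ ∃ v ∈ S, Ov v (Sum.inr w : Pl L) := by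
  classical
  unfold fab
  rw [Finset.mem_toRight, Finset.mem_biUnion]
  simp only [mem_ab]

/-- a sum over the places above `S`, where `S` contains the infinite places -/
lemma sum_split (S : Finset (Pl K)) (hS : ∀ v : InfinitePlace K, Sum.inl v ∈ S) (F : Pl L → ℝ) :
    ∑ v ∈ S, ∑ w ∈ ab L v, F w = ∑ w : InfinitePlace L, F (Sum.inl w) +
      ∑ w ∈ fab L S, F (Sum.inr w) := by
  classical
  rw [← Finset.sum_biUnion]
  · have h1 : (S.biUnion fun v => ab L v) =
        (Finset.univ : Finset (InfinitePlace L)).disjSum (fab L S) := by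
      ext w
      rw [Finset.mem_biUnion]
      cases w with
      | inl w =>
        simp only [Finset.inl_mem_disjSum, Finset.mem_univ, iff_true]
        exact ⟨Sum.inl (w.comap (algebraMap K L)), hS _, mem_ab.2 rfl⟩
      | inr w =>
        rw [Finset.inr_mem_disjSum, mem_fab]
        simp only [mem_ab]
    rw [h1, Finset.sum_disjSum]
  · intro v _ v' _ hne
    rw [Function.onFun, Finset.disjoint_left]
    intro w hw hw'
    exact hne (ov_unique (mem_ab.1 hw) (mem_ab.1 hw'))

/-- the norms of the primes above `S` -/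
lemma sum_lN (S : Finset (Pl K)) : ∃ C : ℝ, 0 ≤ C ∧ ∀ (L : Type) [Field L] [NumberField L]
    [Algebra K L], ∑ w ∈ fab L S, lN w ≤ C * finrank K L := by
  classical
  set F : Pl K → ℝ := fun v => match v with
    | Sum.inl _ => 0
    | Sum.inr v => lN v with hF
  have hF0 : ∀ v, 0 ≤ F v := by
    intro v
    cases v with
    | inl v => exact le_rfl
    | inr v => exact (lN_pos v).le
  refine ⟨∑ v ∈ S, F v, Finset.sum_nonneg fun v _ => hF0 v, ?_⟩
  intro L _ _ _
  have h1 : ∑ w ∈ fab L S, lN w = ∑ w ∈ S.biUnion (fun v => ab L v), (match w with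
      | Sum.inl _ => (0 : ℝ)
      | Sum.inr w => lN w) := by
    unfold fab
    rw [← Finset.toLeft_disjSum_toRight (u := S.biUnion fun v => ab L v), Finset.sum_disjSum]
    simp
  rw [h1, Finset.sum_biUnion]
  · rw [Finset.sum_mul]
    refine Finset.sum_le_sum fun v _ => ?_
    rw [← sum_nn L v, Finset.mul_sum]
    refine Finset.sum_le_sum fun w hw => ?_
    have hov := mem_ab.1 hw
    cases v with
    | inl v =>
      cases w with
      | inl w => show (0 : ℝ) ≤ 0 * _; rw [zero_mul]
      | inr w => exact hov.elim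
    | inr v =>
      cases w with
      | inl w => exact hov.elim
      | inr w =>
        show lN w ≤ lN v * (ldeg v w : ℝ)
        rw [mul_comm]
        exact lN_le hov
  · intro v _ v' _ hne
    rw [Function.onFun, Finset.disjoint_left]
    intro w hw hw'
    exact hne (ov_unique (mem_ab.1 hw) (mem_ab.1 hw'))

end Pool.Agent.NH28
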