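import Pool.Agent.TH875.Cm6

/-!
The local size of a form in the span of monomials in the `y`.
-/

set_option autoImplicit false

namespace Pool.Agent.NH28

open MvPolynomial Finset NumberField IsDedekindDomain Height Module
open Pool.Agent.W180.OP Pool.Agent.W180.TP Pool.Agent.TH875

/-- the normalised size of a monomial in the `y` -/
lemma rho_ym {K L : Type} [Field K] [Field L] [Algebra K L] (f : AbsoluteValue L ℝ) {n R d : ℕ}
    (y : Fin R → MvPolynomial (Fin n) K) {x : Fin n → L} (hx : x ≠ 0)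
    (s : (Fin R → ℕ) × (Fin n →₀ ℕ)) :
    rho f (dg d s) (ym y s) x ≤ ∏ k, rho f d (y k) x ^ s.1 k := by
  classical
  have h1 : rho f (dg d s) (ym y s) x = (∏ k, rho f d (y k) x ^ s.1 k) *
      rho f s.2.degree (monomial s.2 1 : MvPolynomial (Fin n) K) x := by
    unfold rho ym dg
    rw [map_mul, map_mul, map_prod, map_prod, pow_add, mul_div_mul_comm]
    congr 1
    simp only [div_pow]
    rw [Finset.prod_div_distrib]
    congr 1
    · exact Finset.prod_congr rfl fun k _ => by rw [map_pow, map_pow]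
    · rw [pow_mul, ← Finset.prod_pow_eq_pow_sum]
  rw [h1]
  exact mul_le_of_le_one_right (Finset.prod_nonneg fun k _ => pow_nonneg (rho_nonneg _ _ _ _) _)
    (rho_mono_le (K := K) f hx s.2)

theorem loc_one {K : Type} [Field K] [NumberField K] {n m R M D : ℕ} (hD : 1 ≤ D)
    (I : Ideal (MvPolynomial (Fin n) K)) (G : Fin m → MvPolynomial (Fin n) K)
    (hI : I = Ideal.span (Set.range G)) (y : Fin R → MvPolynomial (Fin n) K)
    (E : Finset (Fin n →₀ ℕ))
    (sec : VM I M →ₗ[K] MvPolynomial (Fin n) K)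
    (hsec : ∀ v, (sec v).IsHomogeneous M ∧ Ideal.Quotient.mkₐ K I (sec v) = v)
    (u : {s // s ∈ Sm D E R M} → VM I M)
    (hu : ∀ s, (u s : MvPolynomial (Fin n) K ⧸ I) = Ideal.Quotient.mkₐ K I (ym y s.1))
    (A : Finset {s // s ∈ Sm D E R M}) (g : VM I M)
    (hg : g ∈ Submodule.span K (u '' (A : Set {s // s ∈ Sm D E R M}))) :
    ∃ C : ℝ, 0 ≤ C ∧ ∀ (L : Type) [Field L] [NumberField L] [Algebra K L] (w : Pl L)
      (x : Fin n → L), x ≠ 0 → (∀ k, aeval x (G k) = 0) → (∀ k, aeval x (y k) ≠ 0) →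
      aeval x (sec g) ≠ 0 → ∀ τ : ℝ,
      (∀ s ∈ A, τ ≤ wt w * ∑ k, (s.1.1 k : ℝ) * lam (av w) D (bc L (y k)) x) →
      wt w * Real.log (av w (aeval x (sec g))) ≤
        M * (wt w * Real.log (nrm (av w) x)) - τ + C * finrank ℚ L := by
  classical
  have h1 : ∃ c : {s // s ∈ Sm D E R M} → K, (∀ s, c s ≠ 0 → s ∈ A) ∧ g = ∑ s, c s • u s := by
    rw [Finsupp.mem_span_image_iff_linearCombination] at hg
    obtain ⟨l, hl, hl2⟩ := hg
    refine ⟨l, fun j hj => ?_, ?_⟩
    · have := (Finsupp.mem_supported K l).1 hl (Finsupp.mem_support_iff.2 hj)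
      exact this
    · rw [← hl2, Finsupp.linearCombination_apply, Finsupp.sum_fintype]
      intro i
      rw [zero_smul]
  obtain ⟨c, hc, hgc⟩ := h1
  obtain ⟨C, hC0, hC⟩ := comb_le (m := M) (fun s => sec (u s)) (sec g) c (by
    rw [hgc, map_sum]
    exact Finset.sum_congr rfl fun s _ => by rw [map_smul])
  refine ⟨C, hC0, fun L _ _ _ w x hx hGx hyx hgx τ hτ => ?_⟩
  obtain ⟨Rr, hR, h2⟩ := hC L w
  have hw := wt_pos w
  have hval : ∀ s : {s // s ∈ Sm D E R M}, aeval x (sec (u s)) = aeval x (ym y s.1) := by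
    intro s
    have h1 : sec (u s) - ym y s.1 ∈ I := by
      rw [← Ideal.Quotient.eq_zero_iff_mem, ← Ideal.Quotient.mkₐ_eq_mk K, map_sub,
        (hsec (u s)).2, hu]
      exact sub_self _
    have h2 := aeval_ideal hGx (hI.le h1)
    rw [map_sub, sub_eq_zero] at h2
    exact h2
  have h3 := h2 x (Real.exp (-(τ / wt w))) hx (Real.exp_pos _).le fun s hs => by
    have hsA := hc s hs
    have h4 : rho (av w) M (sec (u s)) x = rho (av w) (dg D s.1) (ym y s.1) x := by
      unfold rho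
      rw [hval s, ((mem_Sm hD E M s.1).1 s.2).2]
    rw [h4]
    refine (rho_ym (av w) y hx s.1).trans ?_
    have h5 : ∏ k, rho (av w) D (y k) x ^ s.1.1 k =
        Real.exp (-(∑ k, (s.1.1 k : ℝ) * lam (av w) D (bc L (y k)) x)) := by
      rw [← Finset.sum_neg_distrib, Real.exp_sum]
      refine Finset.prod_congr rfl fun k _ => ?_
      have h6 := rho_pos (av w) D (y k) hx (hyx k)
      rw [lam_rho, mul_neg, neg_neg, ← Real.log_pow, Real.exp_log (pow_pos h6 _)]
    rw [h5, Real.exp_le_exp, neg_le_neg_iff, div_le_iff₀ hw, mul_comm]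
    exact hτ s hsA
  have h4 := rho_pos (av w) M (sec g) hx hgx
  have hR0 : 0 < Rr := by linarith [hR.1]
  have h6 := Real.log_le_log h4 h3
  rw [Real.log_mul hR0.ne' (Real.exp_pos _).ne', Real.log_exp] at h6
  have h7 : Real.log (rho (av w) M (sec g) x) = Real.log (av w (aeval x (sec g))) -
      M * Real.log (nrm (av w) x) := by
    unfold rho
    rw [Real.log_div ((av w).pos_iff.2 hgx).ne' (pow_pos (nrm_pos _ hx) _).ne', Real.log_pow]
  rw [h7] at h6
  have h8 := mul_le_mul_of_nonneg_left h6 hw.le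
  have h9 : wt w * (Real.log Rr + -(τ / wt w)) = wt w * Real.log Rr - τ := by
    field_simp
    ring
  rw [h9] at h8
  have h10 := hR.2
  linarith

/-- the crude bound -/
theorem loc_crude {K : Type} [Field K] [NumberField K] {n M : ℕ} (F : MvPolynomial (Fin n) K)
    (hF : F.IsHomogeneous M) :
    ∃ C : ℝ, 0 ≤ C ∧ ∀ (L : Type) [Field L] [NumberField L] [Algebra K L] (w : Pl L)
      (x : Fin n → L), x ≠ 0 → aeval x F ≠ 0 →
      wt w * Real.log (av w (aeval x F)) ≤
        M * (wt w * Real.log (nrm (av w) x)) + C * finrank ℚ L := by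
  obtain ⟨C, hC0, hC⟩ := form_ub F hF
  refine ⟨C, hC0, fun L _ _ _ w x hx hFx => ?_⟩
  have h1 := hC L w x hx hFx
  rw [lam_eq _ _ _ hx (by rw [eval_bc]; exact hFx), eval_bc] at h1
  linarith

end Pool.Agent.NH28
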