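import Pool.Agent.NH28.Glob2
import Pool.Agent.TH875.Cm7

/-!
The proximity function for several systems of forms.
-/

set_option autoImplicit false

namespace Pool.Agent.NH28

open MvPolynomial Finset NumberField IsDedekindDomain Height Module
open Pool.Agent.W180.OP Pool.Agent.W180.TP
open Pool.Agent.TH875 (VM VM_finite Sm mem_Sm Ind ind_ne exists_sec module_main alg_ind ym ym_hom dg)

theorem main_core {K : Type} [Field K] [NumberField K] {n m ν r D : ℕ} (hν : 1 ≤ ν) (hr : 1 ≤ r)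
    (hD : 1 ≤ D) (G : Fin m → MvPolynomial (Fin n) K) (g : Fin m → ℕ)
    (hG : ∀ k, (G k).IsHomogeneous (g k))
    (hprime : (Ideal.span (Set.range G)).IsPrime)
    (htr : Algebra.trdeg K (MvPolynomial (Fin n) K ⧸ Ideal.span (Set.range G)) = (ν + 1 : ℕ))
    {Sy : Type} [Fintype Sy] [Nonempty Sy] (y : Sy → Fin (ν + 1) → MvPolynomial (Fin n) K)
    (hyh : ∀ e k, (y e k).IsHomogeneous D)
    (h0y : ∀ e, ∀ (L : Type) [Field L] [Algebra K L] (x : Fin n → L),
      (∀ k, aeval x (G k) = 0) → (∀ k, aeval x (y e k) = 0) → x = 0)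
    (ε : ℝ) (hε : 0 < ε) :
    ∃ Z : MvPolynomial (Fin n) K, Z ∉ Ideal.span (Set.range G) ∧ (∃ t, Z.IsHomogeneous t) ∧
      ∀ S : Finset (Pl K), ∃ C : ℝ, 0 ≤ C ∧ ∀ (L : Type) [Field L] [NumberField L] [Algebra K L],
        finrank K L ≤ r → ∀ x : Fin n → L, x ≠ 0 → (∀ k, aeval x (G k) = 0) →
        IntermediateField.adjoin K {z | ∃ i j, z = x i / x j} = ⊤ → aeval x Z ≠ 0 →
        ∀ e : Pl L → Sy, (∀ w k, aeval x (y (e w) k) ≠ 0) →
        ∀ A : Pl K → Finset (Pl L), (∀ v, A v ⊆ ab L v) →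
        ∑ v ∈ S, ∑ w ∈ A v, ∑ k, wt w * lam (av w) D (bc L (y (e w) k)) x ≤
          (cst ν r + ε) * D * logHeight x + C := by
  classical
  obtain ⟨I, hI⟩ : ∃ I, I = Ideal.span (Set.range G) := ⟨_, rfl⟩
  have halg : ∀ e, AlgebraicIndependent K (fun k => Ideal.Quotient.mkₐ K I (y e k)) := by
    intro e
    subst hI
    exact alg_ind G g hG D hD (y e) (hyh e) (h0y e) hprime htr
  have hmod : ∀ e, ∃ (E : Finset (Fin n →₀ ℕ)) (t0 : ℕ), Ind I (y e) E ∧ ∀ t, t0 ≤ t →
      ∀ M, Module.finrank K (VM I M) ≤ (Sm D E (ν + 1) (M + D * t)).card := by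
    intro e
    have halge := halg e
    subst hI
    exact module_main G g hG D hD (y e) (hyh e) 0 (h0y e) hprime halge
  choose E t0 hE hcount using hmod
  have hprime' : I.IsPrime := by rw [hI]; exact hprime
  -- the numbers
  set t1 : ℕ := ∑ e, t0 e with ht1
  have htle : ∀ e, t0 e ≤ t1 := fun e =>
    Finset.single_le_sum (f := t0) (fun _ _ => Nat.zero_le _) (Finset.mem_univ e)
  set B : ℕ := ∑ e, ∑ β ∈ E e, β.degree with hBd
  have hB : ∀ e, ∀ β ∈ E e, β.degree ≤ D * B := by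
    intro e β hβ
    refine (Finset.single_le_sum (f := fun β : Fin n →₀ ℕ => β.degree) (fun _ _ => Nat.zero_le _)
      hβ).trans ?_
    refine (Finset.single_le_sum (f := fun e => ∑ β ∈ E e, β.degree) (fun _ _ => Nat.zero_le _)
      (Finset.mem_univ e)).trans ?_
    exact Nat.le_mul_of_pos_left _ hD
  obtain ⟨C1, hC10, hC1⟩ := exists_theta K n r
  obtain ⟨T, J, hT1, hJB, hκ, hchoice⟩ := choose_deg hν hr D B t1 hD C1 ε hε
  set M : ℕ := D * T with hM
  obtain ⟨e0⟩ : Nonempty Sy := inferInstance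
  have hfin : FiniteDimensional K (VM I M) := VM_finite I M
  obtain ⟨N, hN⟩ : ∃ N, N = Module.finrank K (VM I M) := ⟨_, rfl⟩
  have hN1 : 1 ≤ N := by
    set a := Ideal.Quotient.mkₐ K I (y e0 0) with ha
    have ha0 : a ≠ 0 := (halg e0).ne_zero 0
    have hmem : a ^ T ∈ VM I M := by
      refine ⟨y e0 0 ^ T, ?_, ?_⟩
      · exact (hyh e0 0).pow T
      · show Ideal.Quotient.mkₐ K I (y e0 0 ^ T) = _
        rw [map_pow]
    rw [Nat.one_le_iff_ne_zero]
    intro h0
    rw [hN, Submodule.finrank_eq_zero] at h0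
    rw [h0] at hmem
    exact pow_ne_zero _ ha0 ((Submodule.mem_bot K).1 hmem)
  obtain ⟨sec, hsec⟩ := exists_sec I M
  set b0 : Module.Basis (Fin N) K (VM I M) := Module.finBasisOfFinrankEq K (VM I M) hN.symm with hb0
  have hmemV : ∀ e, ∀ s : {s // s ∈ Sm D (E e) (ν + 1) M},
      Ideal.Quotient.mkₐ K I (ym (y e) s.1) ∈ VM I M := by
    intro e s
    have h1 := ym_hom (hyh e) s.1
    rw [((mem_Sm hD (E e) M s.1).1 s.2).2] at h1
    exact ⟨_, h1, rfl⟩
  set u : ∀ e, {s // s ∈ Sm D (E e) (ν + 1) M} → VM I M := fun e s =>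
    ⟨Ideal.Quotient.mkₐ K I (ym (y e) s.1), hmemV e s⟩ with hu
  set H : ℝ := HH ν B t1 T J with hH
  have hHpos : 0 < H := by
    have h1 : (1 : ℝ) ≤ r := by exact_mod_cast hr
    have h2 : (J : ℝ) * (1 - r) ≤ 0 :=
      mul_nonpos_of_nonneg_of_nonpos (Nat.cast_nonneg _) (by linarith)
    have h3 : 0 < (r : ℝ) * H := by linarith
    by_contra hcon
    push Not at hcon
    have := mul_nonpos_of_nonneg_of_nonpos (by linarith : (0 : ℝ) ≤ r) hcon
    linarith
  have hGs : ∀ e, N * H ≤ Gs D (E e) (ν + 1) M J 0 := by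
    intro e
    have h1 := Gs_lower (ν := ν) hD (E e) T J B t1 (hB e) hJB 0
    refine le_trans ?_ h1
    refine mul_le_mul_of_nonneg_right ?_ hHpos.le
    have h2 := hcount e t1 (htle e) M
    rw [← hN] at h2
    have e1 : M + D * t1 = D * (T + t1) := by rw [hM]; ring
    rw [e1] at h2
    exact_mod_cast h2
  obtain ⟨Z, hZI, hZh, hmain⟩ := glob hD hN1 I hprime' G hI y hyh E hE sec hsec u (fun _ _ => rfl)
    hN.symm b0 r hr C1 ⟨hC10, hC1⟩ 0 J H hGs
  refine ⟨Z, by rw [← hI]; exact hZI, hZh, fun S => ?_⟩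
  -- enlarge `S`
  choose Tb hTb using fun j => exists_bad (sec (b0 j))
  set S' : Finset (Pl K) := S ∪ (Finset.univ.image Sum.inl ∪
    Finset.univ.biUnion fun j => (Tb j).image Sum.inr) with hS'
  obtain ⟨C, c0, hC0, hc00, hC⟩ := hmain S' (fun v => by
    rw [hS']
    exact Finset.mem_union_right _ (Finset.mem_union_left _
      (Finset.mem_image_of_mem _ (Finset.mem_univ v)))) (fun v hv j => by
    refine hTb j v fun hvT => hv ?_
    rw [hS']
    refine Finset.mem_union_right _ (Finset.mem_union_right _ ?_)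
    exact Finset.mem_biUnion.2 ⟨j, Finset.mem_univ j, Finset.mem_image_of_mem _ hvT⟩)
  set κ : ℝ := (J : ℝ) * (1 - r) + r * H with hκd
  refine ⟨C / κ, by positivity, ?_⟩
  intro L _ _ _ hrL x hx hGx hadj hZx e hyx A hA
  obtain ⟨hpos, h1⟩ := hC L hrL x hx hGx hadj hZx e hyx
  have hh := logHeight_nonneg x
  have h2 : ∑ v ∈ S, ∑ w ∈ A v, ∑ k, wt w * lam (av w) D (bc L (y (e w) k)) x ≤
      ∑ v ∈ S', ∑ w ∈ ab L v, ∑ k, (wt w * lam (av w) D (bc L (y (e w) k)) x + c0) := by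
    have h3 : ∑ v ∈ S, ∑ w ∈ A v, ∑ k, wt w * lam (av w) D (bc L (y (e w) k)) x ≤
        ∑ v ∈ S, ∑ w ∈ ab L v, ∑ k, (wt w * lam (av w) D (bc L (y (e w) k)) x + c0) := by
      refine Finset.sum_le_sum fun v _ => ?_
      refine le_trans (Finset.sum_le_sum fun w _ => ?_)
        (Finset.sum_le_sum_of_subset_of_nonneg (hA v) fun w _ _ =>
          Finset.sum_nonneg fun k _ => hpos w k)
      exact Finset.sum_le_sum fun k _ => by linarith
    refine h3.trans ?_
    exact Finset.sum_le_sum_of_subset_of_nonneg Finset.subset_union_left fun v _ _ =>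
      Finset.sum_nonneg fun w _ => Finset.sum_nonneg fun k _ => hpos w k
  refine h2.trans ?_
  have h3 : ((M : ℝ) + C1 + 1) * logHeight x ≤ ((cst ν r + ε) * (D * κ)) * logHeight x := by
    refine mul_le_mul_of_nonneg_right ?_ hh
    rw [hM]
    push_cast
    exact hchoice
  have h4 : κ * ∑ v ∈ S', ∑ w ∈ ab L v, ∑ k,
      (wt w * lam (av w) D (bc L (y (e w) k)) x + c0) ≤
      κ * ((cst ν r + ε) * D * logHeight x + C / κ) := by
    have e1 : κ * ((cst ν r + ε) * D * logHeight x + C / κ) =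
        ((cst ν r + ε) * (D * κ)) * logHeight x + C := by
      field_simp
    rw [e1]
    linarith
  exact le_of_mul_le_mul_left h4 hκ

end Pool.Agent.NH28
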