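import Pool.Agent.NH28.GlobW
import Pool.Agent.TH875.Cm7

/-!
The general inequality for several systems of forms, with the local degrees.
-/

set_option autoImplicit false

namespace Pool.Agent.NH28

open MvPolynomial Finset NumberField IsDedekindDomain Height Module
open Pool.Agent.W180.OP Pool.Agent.W180.TP
open Pool.Agent.TH875 (VM VM_finite Sm mem_Sm Ind ind_ne exists_sec module_main alg_ind ym ym_hom dg)

/-- the possible values of the quotient of the degree by the local degree -/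
def RR (r : ℕ) : Set ℝ := {ρ | ∃ a b : ℕ, 1 ≤ b ∧ b ≤ a ∧ a ≤ r ∧ ρ = a / b}

lemma nn_nat {K L : Type} [Field K] [NumberField K] [Field L] [NumberField L] [Algebra K L]
    {v : Pl K} {w : Pl L} (h : w ∈ ab L v) : ∃ b : ℕ, nn v w = b ∧ 1 ≤ b ∧ b ≤ finrank K L := by
  have h1 := one_le_nn (mem_ab.1 h)
  have h2 : nn v w ≤ finrank K L := by
    rw [← sum_nn L v]
    exact Finset.single_le_sum (f := fun w => nn v w) (fun w _ => nn_nonneg v w) h
  have h3 : ∃ b : ℕ, nn v w = b := by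
    have hov := mem_ab.1 h
    cases v with
    | inl v =>
      cases w with
      | inl w =>
        have hw : w.comap (algebraMap K L) = v := hov
        have h4 : (nn (Sum.inl v : Pl K) (Sum.inl w : Pl L) : ℝ) = (w.mult : ℝ) / v.mult := rfl
        have h5 : w.mult = 1 ∨ w.mult = 2 := by
          unfold InfinitePlace.mult
          split_ifs <;> simp
        have h6 : v.mult = 1 ∨ v.mult = 2 := by
          unfold InfinitePlace.mult
          split_ifs <;> simp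
        have h7 : v.mult ≤ w.mult := by
          rw [← hw]
          exact InfinitePlace.mult_comap_le _ _
        rcases h5 with h5 | h5 <;> rcases h6 with h6 | h6
        · exact ⟨1, by rw [h4, h5, h6]; norm_num⟩
        · omega
        · exact ⟨2, by rw [h4, h5, h6]; norm_num⟩
        · exact ⟨1, by rw [h4, h5, h6]; norm_num⟩
      | inr w => exact hov.elim
    | inr v =>
      cases w with
      | inl w => exact hov.elim
      | inr w => exact ⟨ldeg v w, rfl⟩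
  obtain ⟨b, hb⟩ := h3
  refine ⟨b, hb, ?_, ?_⟩
  · rw [hb] at h1
    exact_mod_cast h1
  · rw [hb] at h2
    exact_mod_cast h2

lemma rho_mem {K L : Type} [Field K] [NumberField K] [Field L] [NumberField L] [Algebra K L]
    {r : ℕ} (hr : finrank K L ≤ r) {v : Pl K} {w : Pl L} (h : w ∈ ab L v) :
    (finrank K L : ℝ) / nn v w ∈ RR r := by
  obtain ⟨b, hb, hb1, hb2⟩ := nn_nat h
  exact ⟨finrank K L, b, hb1, hb2, hr, by rw [hb]⟩

lemma RR_finite (r : ℕ) : (RR r).Finite := by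
  refine ((Set.finite_Iic r).prod (Set.finite_Iic r)).image (fun p : ℕ × ℕ => (p.1 : ℝ) / p.2)
    |>.subset ?_
  rintro ρ ⟨a, b, h1, h2, h3, rfl⟩
  exact ⟨(a, b), ⟨h3, h2.trans h3⟩, rfl⟩

lemma RR_one_le {r : ℕ} {ρ : ℝ} (h : ρ ∈ RR r) : 1 ≤ ρ := by
  obtain ⟨a, b, h1, h2, h3, rfl⟩ := h
  have hb : (0 : ℝ) < b := by exact_mod_cast h1
  rw [le_div_iff₀ hb, one_mul]
  exact_mod_cast h2

theorem main_w {K : Type} [Field K] [NumberField K] {n m ν r D : ℕ} (hr : 1 ≤ r)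
    (hD : 1 ≤ D) (G : Fin m → MvPolynomial (Fin n) K) (g : Fin m → ℕ)
    (hG : ∀ k, (G k).IsHomogeneous (g k))
    (hprime : (Ideal.span (Set.range G)).IsPrime)
    (htr : Algebra.trdeg K (MvPolynomial (Fin n) K ⧸ Ideal.span (Set.range G)) = (ν + 1 : ℕ))
    {Sy : Type} [Fintype Sy] [Nonempty Sy] (y : Sy → Fin (ν + 1) → MvPolynomial (Fin n) K)
    (hyh : ∀ e k, (y e k).IsHomogeneous D)
    (h0y : ∀ e, ∀ (L : Type) [Field L] [Algebra K L] (x : Fin n → L),
      (∀ k, aeval x (G k) = 0) → (∀ k, aeval x (y e k) = 0) → x = 0)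
    (Γ : Sy → (Fin (ν + 1) → ℝ) → ℝ → ℝ)
    (hΓ0 : ∀ e Λ ρ, (∀ k, 0 ≤ Λ k) → 0 ≤ ρ → 0 ≤ Γ e Λ ρ)
    (hΓ : ∀ (E : Sy → Finset (Fin n →₀ ℕ)) (B t1 : ℕ) (C1 : ℝ), 0 ≤ C1 →
      (∀ e, ∀ β ∈ E e, β.degree ≤ D * B) → ∃ T : ℕ, 1 ≤ T ∧
      ∃ (bb : Sy → (Fin (ν + 1) → ℝ) → ℝ → ℝ) (Jb : ℝ), 0 ≤ Jb ∧
        (∀ e Λ ρ, (∀ k, 0 ≤ Λ k) → 0 ≤ bb e Λ ρ) ∧
        (∀ e Λ ρ, (∀ k, 0 ≤ Λ k) → bb e Λ ρ ≤ Jb * ∑ k, Λ k) ∧
        ∀ N : ℕ, 1 ≤ N → ∀ e, (Sm D (E e) (ν + 1) (D * T)).card ≤ N →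
          N ≤ (Sm D (E e) (ν + 1) (D * (T + t1))).card → ∀ Λ, (∀ k, 0 ≤ Λ k) → ∀ ρ ∈ RR r,
            (D * T + C1 + 1) * Γ e Λ ρ ≤
              Ga D (E e) (ν + 1) (D * T) N (bb e Λ ρ) Λ ρ) :
    ∃ Z : MvPolynomial (Fin n) K, Z ∉ Ideal.span (Set.range G) ∧ (∃ t, Z.IsHomogeneous t) ∧
      ∀ S : Finset (Pl K), ∃ C c0 : ℝ, 0 ≤ C ∧ 0 ≤ c0 ∧
        ∀ (L : Type) [Field L] [NumberField L] [Algebra K L],
        finrank K L ≤ r → ∀ x : Fin n → L, x ≠ 0 → (∀ k, aeval x (G k) = 0) →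
        IntermediateField.adjoin K {z | ∃ i j, z = x i / x j} = ⊤ → aeval x Z ≠ 0 →
        ∀ e : Pl L → Sy, (∀ w k, aeval x (y (e w) k) ≠ 0) →
        (∀ w k, 0 ≤ wt w * lam (av w) D (bc L (y (e w) k)) x + c0) ∧
        ∀ A : Pl K → Finset (Pl L), (∀ v, A v ⊆ ab L v) →
        ∑ v ∈ S, ∑ w ∈ A v, nn v w * Γ (e w) (fun k => LL v w c0 D (y (e w) k) x)
          (finrank K L / nn v w) ≤ logHeight x + C := by
  classical
  obtain ⟨I, hI⟩ : ∃ I, I = Ideal.span (Set.range G) := ⟨_, rfl⟩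
  have halg : ∀ e, AlgebraicIndependent K (fun k => Ideal.Quotient.mkₐ K I (y e k)) := by
    intro e
    subst hI
    exact alg_ind G g hG D hD (y e) (hyh e) (h0y e) hprime htr
  have hmod : ∀ e, ∃ (E : Finset (Fin n →₀ ℕ)) (t0 : ℕ), Ind I (y e) E ∧ ∀ t, t0 ≤ t →
      ∀ M, Module.finrank K (VM I M) ≤ (Sm D E (ν + 1) (M + D * t)).card := by
    intro e
    have halge := halg e
    subst hI
    exact module_main G g hG D hD (y e) (hyh e) 0 (h0y e) hprime halge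
  choose E t0 hE hcount using hmod
  have hprime' : I.IsPrime := by rw [hI]; exact hprime
  -- the numbers
  set t1 : ℕ := ∑ e, t0 e with ht1
  have htle : ∀ e, t0 e ≤ t1 := fun e =>
    Finset.single_le_sum (f := t0) (fun _ _ => Nat.zero_le _) (Finset.mem_univ e)
  set B : ℕ := ∑ e, ∑ β ∈ E e, β.degree with hBd
  have hB : ∀ e, ∀ β ∈ E e, β.degree ≤ D * B := by
    intro e β hβ
    refine (Finset.single_le_sum (f := fun β : Fin n →₀ ℕ => β.degree) (fun _ _ => Nat.zero_le _)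
      hβ).trans ?_
    refine (Finset.single_le_sum (f := fun e => ∑ β ∈ E e, β.degree) (fun _ _ => Nat.zero_le _)
      (Finset.mem_univ e)).trans ?_
    exact Nat.le_mul_of_pos_left _ hD
  obtain ⟨C1, hC10, hC1⟩ := exists_theta K n r
  obtain ⟨T, hT1, bb, Jb, hJb, hbb0, hbb1, hgain⟩ := hΓ E B t1 C1 hC10 hB
  set M : ℕ := D * T with hM
  obtain ⟨e0⟩ : Nonempty Sy := inferInstance
  have hfin : FiniteDimensional K (VM I M) := VM_finite I M
  obtain ⟨N, hN⟩ : ∃ N, N = Module.finrank K (VM I M) := ⟨_, rfl⟩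
  have hN1 : 1 ≤ N := by
    set a := Ideal.Quotient.mkₐ K I (y e0 0) with ha
    have ha0 : a ≠ 0 := (halg e0).ne_zero 0
    have hmem : a ^ T ∈ VM I M := by
      refine ⟨y e0 0 ^ T, ?_, ?_⟩
      · exact (hyh e0 0).pow T
      · show Ideal.Quotient.mkₐ K I (y e0 0 ^ T) = _
        rw [map_pow]
    rw [Nat.one_le_iff_ne_zero]
    intro h0
    rw [hN, Submodule.finrank_eq_zero] at h0
    rw [h0] at hmem
    exact pow_ne_zero _ ha0 ((Submodule.mem_bot K).1 hmem)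
  obtain ⟨sec, hsec⟩ := exists_sec I M
  set b0 : Module.Basis (Fin N) K (VM I M) := Module.finBasisOfFinrankEq K (VM I M) hN.symm with hb0
  have hmemV : ∀ e, ∀ s : {s // s ∈ Sm D (E e) (ν + 1) M},
      Ideal.Quotient.mkₐ K I (ym (y e) s.1) ∈ VM I M := by
    intro e s
    have h1 := ym_hom (hyh e) s.1
    rw [((mem_Sm hD (E e) M s.1).1 s.2).2] at h1
    exact ⟨_, h1, rfl⟩
  set u : ∀ e, {s // s ∈ Sm D (E e) (ν + 1) M} → VM I M := fun e s =>
    ⟨Ideal.Quotient.mkₐ K I (ym (y e) s.1), hmemV e s⟩ with hu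
  have hSmN : ∀ e, (Sm D (E e) (ν + 1) M).card ≤ N := by
    intro e
    have h2 := (indep_u hD I (y e) (E e) (hE e) (u e) (fun _ => rfl)).fintype_card_le_finrank
    rwa [← hN, Fintype.card_coe] at h2
  have hNSm : ∀ e, N ≤ (Sm D (E e) (ν + 1) (D * (T + t1))).card := by
    intro e
    have h2 := hcount e t1 (htle e) M
    rw [← hN] at h2
    have e1 : M + D * t1 = D * (T + t1) := by rw [hM]; ring
    rwa [e1] at h2
  obtain ⟨Z, hZI, hZh, hmain⟩ := glob_w hD hN1 I hprime' G hI y hyh E hE sec hsec u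
    (fun _ _ => rfl) hN.symm b0 r hr C1 ⟨hC10, hC1⟩ bb Jb hJb hbb0 hbb1
  refine ⟨Z, by rw [← hI]; exact hZI, hZh, fun S => ?_⟩
  -- enlarge `S`
  choose Tb hTb using fun j => exists_bad (sec (b0 j))
  set S' : Finset (Pl K) := S ∪ (Finset.univ.image Sum.inl ∪
    Finset.univ.biUnion fun j => (Tb j).image Sum.inr) with hS'
  obtain ⟨C, c0, hC0, hc00, hC⟩ := hmain S' (fun v => by
    rw [hS']
    exact Finset.mem_union_right _ (Finset.mem_union_left _
      (Finset.mem_image_of_mem _ (Finset.mem_univ v)))) (fun v hv j => by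
    refine hTb j v fun hvT => hv ?_
    rw [hS']
    refine Finset.mem_union_right _ (Finset.mem_union_right _ ?_)
    exact Finset.mem_biUnion.2 ⟨j, Finset.mem_univ j, Finset.mem_image_of_mem _ hvT⟩)
  have hMC : (0 : ℝ) < M + C1 + 1 := by positivity
  refine ⟨C / (M + C1 + 1), c0, by positivity, hc00, ?_⟩
  intro L _ _ _ hrL x hx hGx hadj hZx e hyx
  obtain ⟨hpos, h1⟩ := hC L hrL x hx hGx hadj hZx e hyx
  refine ⟨hpos, fun A hA => ?_⟩
  have hLL0 : ∀ v w k, 0 ≤ LL v w c0 D (y (e w) k) x := fun v w k =>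
    div_nonneg (hpos w k) (nn_nonneg v w)
  have hΓw : ∀ v w, 0 ≤ nn v w * Γ (e w) (fun k => LL v w c0 D (y (e w) k) x)
      (finrank K L / nn v w) := fun v w =>
    mul_nonneg (nn_nonneg v w) (hΓ0 _ _ _ (hLL0 v w)
      (div_nonneg (Nat.cast_nonneg _) (nn_nonneg v w)))
  have h2 : ∑ v ∈ S, ∑ w ∈ A v, nn v w * Γ (e w) (fun k => LL v w c0 D (y (e w) k) x)
      (finrank K L / nn v w) ≤
      ∑ v ∈ S', ∑ w ∈ ab L v, nn v w * Γ (e w) (fun k => LL v w c0 D (y (e w) k) x)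
      (finrank K L / nn v w) := by
    refine le_trans (Finset.sum_le_sum fun v _ => Finset.sum_le_sum_of_subset_of_nonneg (hA v)
      fun w _ _ => hΓw v w) ?_
    exact Finset.sum_le_sum_of_subset_of_nonneg Finset.subset_union_left fun v _ _ =>
      Finset.sum_nonneg fun w _ => hΓw v w
  refine h2.trans ?_
  have h3 : (M + C1 + 1) * ∑ v ∈ S', ∑ w ∈ ab L v, nn v w *
      Γ (e w) (fun k => LL v w c0 D (y (e w) k) x) (finrank K L / nn v w) ≤
      ∑ v ∈ S', ∑ w ∈ ab L v, nn v w * Ga D (E (e w)) (ν + 1) M N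
          (bb (e w) (fun k => LL v w c0 D (y (e w) k) x) (finrank K L / nn v w))
          (fun k => LL v w c0 D (y (e w) k) x) (finrank K L / nn v w) := by
    rw [Finset.mul_sum]
    refine Finset.sum_le_sum fun v _ => ?_
    rw [Finset.mul_sum]
    refine Finset.sum_le_sum fun w hw => ?_
    have h4 := hgain N hN1 (e w) (hSmN (e w)) (hNSm (e w))
      (fun k => LL v w c0 D (y (e w) k) x) (hLL0 v w) _ (rho_mem hrL hw)
    have h5 := mul_le_mul_of_nonneg_left h4 (nn_nonneg v w)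
    have h6 : ((D : ℝ) * T + C1 + 1) = M + C1 + 1 := by rw [hM]; push_cast; ring
    rw [h6] at h5
    linarith
  have h4 := h3.trans h1
  have h5 : (M + C1 + 1) * ∑ v ∈ S', ∑ w ∈ ab L v, nn v w *
      Γ (e w) (fun k => LL v w c0 D (y (e w) k) x) (finrank K L / nn v w) ≤
      (M + C1 + 1) * (logHeight x + C / (M + C1 + 1)) := by
    rw [mul_add, mul_div_cancel₀ _ hMC.ne']
    exact h4
  exact le_of_mul_le_mul_left h5 hMC

end Pool.Agent.NH28
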