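import Pool.Agent.NH28.Ord

/-!
Minkowski's theorem with conditions at primes.
-/

set_option autoImplicit false

namespace Pool.Agent.NH28

open NumberField IsDedekindDomain Finset Module
open Pool.Agent.W180.OP (Pl av wt fv fv_apply wt_nonneg fv_support_finite)
open Pool.Agent.W180.TP (wt_pos)

variable {L : Type} [Field L] [NumberField L]

/-- Minkowski's theorem with conditions at primes -/
theorem mink (T : Finset (HeightOneSpectrum (𝓞 L))) (e : HeightOneSpectrum (𝓞 L) → ℤ)
    (g : InfinitePlace L → ℝ) (h : Real.log |(discr L : ℝ)| / 2 <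
      ∑ w : InfinitePlace L, (w.mult : ℝ) * g w + ∑ v ∈ T, (e v : ℝ) * lN v) :
    ∃ θ : L, θ ≠ 0 ∧ (∀ w : InfinitePlace L, Real.log (w θ) ≤ g w) ∧
      (∀ v ∈ T, Real.log (fv v θ) ≤ e v * lN v) ∧ ∀ v, v ∉ T → fv v θ ≤ 1 := by
  classical
  set c : ℕ := ∏ v ∈ T, Ideal.absNorm v.asIdeal ^ (e v).natAbs with hc
  have hN1 : ∀ v : HeightOneSpectrum (𝓞 L), 1 < Ideal.absNorm v.asIdeal := fun v =>
    HeightOneSpectrum.one_lt_absNorm v
  have hc1 : 0 < c := Finset.prod_pos fun v _ => pow_pos (by have := hN1 v; omega) _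
  have hcO : (c : 𝓞 L) ≠ 0 := by exact_mod_cast hc1.ne'
  have hcL : (c : L) ≠ 0 := by exact_mod_cast hc1.ne'
  have hcmem : ∀ v ∈ T, (c : 𝓞 L) ∈ v.asIdeal ^ (e v).natAbs := by
    intro v hv
    rw [hc, ← Finset.mul_prod_erase _ _ hv, Nat.cast_mul]
    refine Ideal.mul_mem_right _ _ ?_
    rw [Nat.cast_pow]
    exact Ideal.pow_mem_pow (Ideal.absNorm_mem _) _
  have hom : ∀ v ∈ T, (e v).natAbs ≤ om v (c : 𝓞 L) := fun v hv => le_om hcO (hcmem v hv)
  set T1 : Finset (HeightOneSpectrum (𝓞 L)) := T ∪ (fv_support_finite hcL).toFinset with hT1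
  have hT1c : ∀ v, fv v (c : L) ≠ 1 → v ∈ T1 := fun v hv => by
    rw [hT1, Finset.mem_union]
    right
    rw [Set.Finite.mem_toFinset]
    exact hv
  set e' : HeightOneSpectrum (𝓞 L) → ℤ := fun v => if v ∈ T then e v else 0 with he'
  have he'le : ∀ v, e' v ≤ om v (c : 𝓞 L) := by
    intro v
    rw [he']
    dsimp only
    split_ifs with hv
    · have := hom v hv
      have h2 := Int.le_natAbs (a := e v)
      have h3 : ((e v).natAbs : ℤ) ≤ om v (c : 𝓞 L) := by exact_mod_cast this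
      exact h2.trans h3
    · exact_mod_cast Nat.zero_le _
  set a : HeightOneSpectrum (𝓞 L) → ℕ := fun v => ((om v (c : 𝓞 L) : ℤ) - e' v).toNat with ha
  have haZ : ∀ v, (a v : ℤ) = (om v (c : 𝓞 L) : ℤ) - e' v := fun v =>
    Int.toNat_of_nonneg (by have := he'le v; linarith)
  have haR : ∀ v, (a v : ℝ) = (om v (c : 𝓞 L) : ℝ) - e' v := fun v => by exact_mod_cast haZ v
  have hcc : ((c : 𝓞 L) : L) = (c : L) := by push_cast; rfl
  have hlogc : ∀ v : HeightOneSpectrum (𝓞 L),
      Real.log (fv v (c : L)) = -(om v (c : 𝓞 L) : ℝ) * lN v := by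
    intro v
    rw [← hcc]
    exact log_fv_int v hcO
  set I : Ideal (𝓞 L) := ∏ v ∈ T1, v.asIdeal ^ a v with hI
  have hI0 : I ≠ ⊥ := by
    rw [← Ideal.zero_eq_bot, hI]
    exact Finset.prod_ne_zero_iff.2 fun v _ => pow_ne_zero _ v.ne_bot
  have hIN : ((Ideal.absNorm I : ℕ) : ℝ) = ∏ v ∈ T1, ((Ideal.absNorm v.asIdeal : ℕ) : ℝ) ^ a v := by
    rw [hI, map_prod]
    push_cast
    exact Finset.prod_congr rfl fun v _ => by rw [map_pow]; push_cast; rfl
  have hwc : ∀ w : InfinitePlace L, w (c : L) = c := fun w => by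
    rw [← InfinitePlace.norm_embedding_eq, map_natCast, Complex.norm_natCast]
  have hpf := prod_formula hcL T1 hT1c
  have hsumT : ∑ v ∈ T1, (e' v : ℝ) * lN v = ∑ v ∈ T, (e v : ℝ) * lN v := by
    rw [← Finset.sum_subset (Finset.subset_union_left (s₁ := T)
      (s₂ := (fv_support_finite hcL).toFinset))]
    · refine Finset.sum_congr rfl fun v hv => ?_
      rw [he']
      simp only [hv, if_true]
    · intro v _ hv
      rw [he']
      simp only [hv, if_false, Int.cast_zero, zero_mul]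
  have hlogI : Real.log (Ideal.absNorm I : ℝ) =
      ∑ w : InfinitePlace L, (w.mult : ℝ) * Real.log c - ∑ v ∈ T, (e v : ℝ) * lN v := by
    rw [hIN, Real.log_prod]
    · have h1 : ∀ v ∈ T1, Real.log (((Ideal.absNorm v.asIdeal : ℕ) : ℝ) ^ a v) =
          -Real.log (fv v (c : L)) - (e' v : ℝ) * lN v := by
        intro v _
        rw [Real.log_pow, hlogc, haR]
        show _ * lN v = _
        ring
      rw [Finset.sum_congr rfl h1, Finset.sum_sub_distrib, hsumT, Finset.sum_neg_distrib]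
      have h2 : ∑ w : InfinitePlace L, (w.mult : ℝ) * Real.log (w (c : L)) =
          ∑ w : InfinitePlace L, (w.mult : ℝ) * Real.log c :=
        Finset.sum_congr rfl fun w _ => by rw [hwc]
      rw [h2] at hpf
      linarith
    · intro v _
      have := hN1 v
      have h3 : (0 : ℝ) < (Ideal.absNorm v.asIdeal : ℕ) := by exact_mod_cast (by omega)
      exact (pow_pos h3 _).ne'
  have hcR : (0 : ℝ) < c := by exact_mod_cast hc1
  have hD0 : (0 : ℝ) < |(discr L : ℝ)| := abs_pos.2 (by exact_mod_cast NumberField.discr_ne_zero L)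
  obtain ⟨x, hxI, hx0, hxw⟩ := mink_ideal I hI0 (fun w => ⟨Real.exp (g w) * c, by positivity⟩) (by
    have hI1 : (0 : ℝ) < (Ideal.absNorm I : ℕ) := by
      have : Ideal.absNorm I ≠ 0 := by rwa [Ne, Ideal.absNorm_eq_zero_iff]
      exact_mod_cast Nat.pos_of_ne_zero this
    have h1 : (0 : ℝ) < (Ideal.absNorm I : ℝ) * √|(discr L : ℝ)| :=
      mul_pos hI1 (Real.sqrt_pos.2 hD0)
    have h2 : (0 : ℝ) < ∏ w : InfinitePlace L, (Real.exp (g w) * c) ^ w.mult :=
      Finset.prod_pos fun w _ => by positivity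
    show (Ideal.absNorm I : ℝ) * √|(discr L : ℝ)| <
      ∏ w : InfinitePlace L, (Real.exp (g w) * c) ^ w.mult
    rw [← Real.log_lt_log_iff h1 h2, Real.log_mul hI1.ne' (Real.sqrt_pos.2 hD0).ne', hlogI,
      Real.log_sqrt hD0.le, Real.log_prod (fun w _ => (by positivity))]
    have h3 : ∀ w ∈ (Finset.univ : Finset (InfinitePlace L)),
        Real.log ((Real.exp (g w) * c) ^ w.mult) = (w.mult : ℝ) * g w + w.mult * Real.log c := by
      intro w _
      rw [Real.log_pow, Real.log_mul (Real.exp_pos _).ne' hcR.ne', Real.log_exp]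
      ring
    rw [Finset.sum_congr rfl h3, Finset.sum_add_distrib]
    linarith)
  have hxL : (x : L) ≠ 0 := by simpa using hx0
  have hxmem : ∀ v ∈ T1, x ∈ v.asIdeal ^ a v := fun v hv =>
    Ideal.le_of_dvd (Finset.dvd_prod_of_mem (fun v : HeightOneSpectrum (𝓞 L) => v.asIdeal ^ a v) hv)
      hxI
  have hfin : ∀ v ∈ T1, Real.log (fv v ((x : L) / c)) ≤ (e' v : ℝ) * lN v := by
    intro v hv
    rw [map_div₀, Real.log_div ((fv v).pos hxL).ne' ((fv v).pos hcL).ne', hlogc]
    have h1 := log_fv_le_of_mem hx0 (hxmem v hv)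
    rw [haR] at h1
    linarith
  refine ⟨(x : L) / c, div_ne_zero hxL hcL, ?_, ?_, ?_⟩
  · intro w
    have h1 : w (x : L) < Real.exp (g w) * c := hxw w
    have h2 : 0 < w (x : L) := InfinitePlace.pos_iff.mpr hxL
    have h3 := Real.log_le_log h2 h1.le
    rw [Real.log_mul (Real.exp_pos _).ne' hcR.ne', Real.log_exp] at h3
    rw [map_div₀, Real.log_div h2.ne' (by rw [hwc]; exact hcR.ne'), hwc]
    linarith
  · intro v hv
    have h1 := hfin v (Finset.mem_union_left _ hv)
    rw [he'] at h1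
    simpa only [hv, if_true] using h1
  · intro v hv
    have hpos : 0 < fv v ((x : L) / c) := (fv v).pos (div_ne_zero hxL hcL)
    by_cases hv1 : v ∈ T1
    · have h1 := hfin v hv1
      rw [he'] at h1
      simp only [hv, if_false, Int.cast_zero, zero_mul] at h1
      exact (Real.log_nonpos_iff hpos.le).1 h1
    · have h2 : fv v (c : L) = 1 := by
        by_contra hne
        exact hv1 (hT1c v hne)
      rw [map_div₀, h2, div_one, fv_le_one_iff]
      exact v.valuation_le_one x

end Pool.Agent.NH28
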