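import Pool.Agent.NH28.QD10

/-!
Nonvanishing of the resultant.
-/

set_option autoImplicit false

namespace Pool.Agent.NH28

open Polynomial

/-- a root of `f` outside the support of `D` has nonzero resultant -/
theorem resultant_ne (f G : ℤ[X]) (q : ℕ) (hGq : G.natDegree ≤ q) (hf : Irreducible f)
    (hd : 1 ≤ f.natDegree) (x : ℂ) (hx : aeval x f = 0) (hG : aeval x G ≠ 0) :
    resultant f G f.natDegree q ≠ 0 := by
  intro h0
  have h1 := Pool.Agent.H990R4.VJ.res_eq f G q hGq
  rw [h0, Int.cast_zero, eq_comm, mul_eq_zero] at h1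
  rcases h1 with h1 | h1
  · have h2 : (f.leadingCoeff : ℂ) = 0 := by
      by_contra hne
      exact (pow_ne_zero q hne) h1
    exact hf.ne_zero (leadingCoeff_eq_zero.1 (by exact_mod_cast h2))
  · obtain ⟨z, hz, hz0⟩ := Multiset.mem_map.1 (Multiset.prod_eq_zero_iff.1 h1)
    rw [mem_roots'] at hz
    have hzf : aeval z f = 0 := by
      have := hz.2
      rw [IsRoot.def, eval_map] at this
      rw [aeval_def]; exact this
    have hzG : aeval z G = 0 := by
      rw [eval_map] at hz0
      rw [aeval_def]; exact hz0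
    have hprim : f.IsPrimitive := hf.isPrimitive (by omega)
    have hirr : Irreducible (f.map (algebraMap ℤ ℚ)) :=
      (hprim.irreducible_iff_irreducible_map_fraction_map).1 hf
    have hzf' : aeval z (f.map (algebraMap ℤ ℚ)) = 0 := by rw [aeval_map_algebraMap]; exact hzf
    have hzG' : aeval z (G.map (algebraMap ℤ ℚ)) = 0 := by rw [aeval_map_algebraMap]; exact hzG
    have hm1 : minpoly ℚ z ∣ f.map (algebraMap ℤ ℚ) := minpoly.dvd ℚ z hzf'
    have hm2 : minpoly ℚ z ∣ G.map (algebraMap ℤ ℚ) := minpoly.dvd ℚ z hzG'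
    have hint : IsIntegral ℚ z := by
      rw [← isAlgebraic_iff_isIntegral]
      exact ⟨f.map (algebraMap ℤ ℚ), hirr.ne_zero, hzf'⟩
    have hass : Associated (minpoly ℚ z) (f.map (algebraMap ℤ ℚ)) :=
      (minpoly.irreducible hint).associated_of_dvd hirr hm1
    have hdvd : f.map (algebraMap ℤ ℚ) ∣ G.map (algebraMap ℤ ℚ) := hass.symm.dvd.trans hm2
    obtain ⟨k, hk⟩ := hdvd
    apply hG
    have h5 : aeval x (G.map (algebraMap ℤ ℚ)) = 0 := by
      rw [hk, map_mul, aeval_map_algebraMap, hx, zero_mul]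
    rwa [aeval_map_algebraMap] at h5

end Pool.Agent.NH28
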