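import Pool.Agent.NH28.QC6
import Pool.Agent.NH28.QD11

/-!
The inequality with the discriminant for algebraic numbers of degree `r`.
-/

set_option autoImplicit false

namespace Pool.Agent.NH28

open Finset NumberField IsDedekindDomain Height Module Polynomial
open Pool.Agent.W180.OP (Pl av wt nrm le_nrm nrm_pos exists_nrm nrm_nonneg nrm_le)
open Pool.Agent.R405.AQ (fin_int_le inf_int T0 wt_one)
open Pool.Agent.H990R4.VJ (mm one_le_mm coeff_le)

theorem prim_zf {r : ℕ} (hr : 1 ≤ r) {f : ℤ[X]} (hf : Irreducible f) (hd : f.natDegree = r)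
    (v : HeightOneSpectrum (𝓞 ℚ)) : nrm (av (Sum.inr v : Pl ℚ)) (zf r f) = 1 := by
  have hle : nrm (av (Sum.inr v : Pl ℚ)) (zf r f) ≤ 1 := nrm_le zero_le_one fun j => fin_int_le v _
  refine le_antisymm hle ?_
  by_contra hlt
  push Not at hlt
  have hprim : f.IsPrimitive := hf.isPrimitive (by omega)
  set I : Ideal ℤ := v.asIdeal.comap (Int.castRingHom (𝓞 ℚ)) with hI
  have hmem : ∀ k : ℕ, f.coeff k ∈ I := by
    intro k
    rw [hI, Ideal.mem_comap]
    rcases Nat.lt_or_ge k (r + 1) with hk | hk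
    · have h1 := le_nrm (av (Sum.inr v : Pl ℚ)) (zf r f) ⟨k, hk⟩
      have h2 : av (Sum.inr v : Pl ℚ) ((f.coeff k : ℤ) : ℚ) < 1 := lt_of_le_of_lt h1 hlt
      exact (fin_lt_iff v _).1 h2
    · rw [coeff_eq_zero_of_natDegree_lt (by omega), map_zero]
      exact Ideal.zero_mem _
  obtain ⟨d, hdI⟩ : Submodule.IsPrincipal I := IsPrincipalIdealRing.principal _
  have hdu : IsUnit d := by
    refine hprim d ?_
    rw [C_dvd_iff_dvd_coeff]
    intro k
    rw [← Ideal.mem_span_singleton, ← Ideal.submodule_span_eq, ← hdI]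
    exact hmem k
  have h1 : (1 : ℤ) ∈ I := by
    rw [hdI, Ideal.submodule_span_eq, Ideal.mem_span_singleton]
    exact hdu.dvd
  rw [hI, Ideal.mem_comap, map_one] at h1
  exact v.isPrime.ne_top ((Ideal.eq_top_iff_one _).2 h1)

theorem nrm_zf_le {r : ℕ} {f : ℤ[X]} (hd : f.natDegree = r) :
    nrm (av (Sum.inl default : Pl ℚ)) (zf r f) ≤ 2 ^ r * mm f := by
  refine nrm_le (mul_nonneg (by positivity) (mahlerMeasure_nonneg _)) fun j => ?_
  have h6 : av (Sum.inl default : Pl ℚ) (zf r f j) = |((f.coeff j : ℤ) : ℝ)| := inf_int default _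
  rw [h6]
  have := coeff_le f j
  rwa [hd] at this

theorem mm_le_zf {r : ℕ} {f : ℤ[X]} (hd : f.natDegree = r) :
    mm f ≤ (r + 1) * nrm (av (Sum.inl default : Pl ℚ)) (zf r f) := by
  have hinj : Function.Injective (Int.castRingHom ℂ) := RingHom.injective_int _
  have h1 := mahlerMeasure_le_sum_norm_coeff (f.map (Int.castRingHom ℂ))
  rw [sum_over_range' _ (fun n => norm_zero) (r + 1) (by
    rw [natDegree_map_eq_of_injective hinj]; omega)] at h1
  refine h1.trans ?_
  have h2 : ∀ a ∈ range (r + 1), ‖(f.map (Int.castRingHom ℂ)).coeff a‖ ≤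
      nrm (av (Sum.inl default : Pl ℚ)) (zf r f) := by
    intro a ha
    rw [Finset.mem_range] at ha
    have h3 := le_nrm (av (Sum.inl default : Pl ℚ)) (zf r f) ⟨a, ha⟩
    have h4 : av (Sum.inl default : Pl ℚ) (zf r f ⟨a, ha⟩) = |((f.coeff a : ℤ) : ℝ)| :=
      inf_int default _
    rw [h4] at h3
    rw [coeff_map, eq_intCast, Complex.norm_intCast]
    exact h3
  refine (Finset.sum_le_sum h2).trans ?_
  rw [Finset.sum_const, Finset.card_range, nsmul_eq_mul]
  push_cast
  exact le_rfl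

theorem discr_ne {f : ℤ[X]} (hf : Irreducible f) (hd : 1 ≤ f.natDegree) : f.discr ≠ 0 := by
  intro h0
  have hprim : f.IsPrimitive := hf.isPrimitive (by omega)
  have hirr : Irreducible (f.map (algebraMap ℤ ℚ)) :=
    (hprim.irreducible_iff_irreducible_map_fraction_map).1 hf
  have hinj : Function.Injective (algebraMap ℤ ℚ) := RingHom.injective_int _
  have h1 := resultant_deriv (f := f) (by
    rw [← natDegree_pos_iff_degree_pos]
    omega)
  rw [h0, mul_zero] at h1
  have h2 : resultant (f.map (algebraMap ℤ ℚ)) (derivative (f.map (algebraMap ℤ ℚ)))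
      f.natDegree (f.natDegree - 1) = 0 := by
    rw [derivative_map, resultant_map_map, h1, map_zero]
  have hsep : (f.map (algebraMap ℤ ℚ)).Separable := hirr.separable
  have h3 : resultant (f.map (algebraMap ℤ ℚ)) (derivative (f.map (algebraMap ℤ ℚ))) = 0 := by
    rw [natDegree_derivative, natDegree_map_eq_of_injective hinj]
    exact h2
  exact (resultant_eq_zero_iff.1 h3).2 hsep

/-- the prime-to-`S` part of an integer is at least one -/
theorem sum_padic_le (S : Finset ℕ) (hS : ∀ p ∈ S, p.Prime) (n : ℤ) (hn : n ≠ 0) :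
    ∑ p ∈ S, (padicValInt p n : ℝ) * Real.log p ≤ Real.log |(n : ℝ)| := by
  obtain ⟨vp, hvp, hvT, hsum⟩ := sum_places S hS
  have h1 := Pool.Agent.R405.AQ.prod_int (T0 S hS).toRight default n hn
  have h2 := hsum (fun v => Real.log (av v (n : ℚ)))
  rw [Pool.Agent.R405.AQ.sum_T0] at h2
  have h3 : ∑ p ∈ S, Real.log (av (Sum.inr (vp p) : Pl ℚ) (n : ℚ)) =
      -∑ p ∈ S, (padicValInt p n : ℝ) * Real.log p := by
    rw [← Finset.sum_neg_distrib]
    exact Finset.sum_congr rfl fun p hp => pl_log (hS p hp) (hvp p hp) n hn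
  have h4 : Real.log (av (Sum.inl default : Pl ℚ) (n : ℚ)) = Real.log |(n : ℝ)| := by
    rw [inf_int]
  linarith

/-- the inequality -/
theorem disc_real (G : ℤ[X]) (hG : Squarefree (G.map (Int.castRingHom ℚ))) (q r : ℕ)
    (hr : 2 ≤ r) (hqG : q = G.natDegree ∨ q = G.natDegree + 1) (ε : ℝ) (hε : 0 < ε) :
    ∃ F : MvPolynomial (Fin (r + 1)) ℚ, F ≠ 0 ∧ (∃ t, F.IsHomogeneous t) ∧
      ∀ (S : Finset ℕ) (_ : ∀ p ∈ S, p.Prime), ∃ C : ℝ, 0 ≤ C ∧ ∀ f : ℤ[X], Irreducible f →
        f.natDegree = r → resultant f G r q ≠ 0 → MvPolynomial.eval (zf r f) F ≠ 0 →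
        ∀ (h lI δ : ℝ) (lP : ℕ → ℝ), h = Real.log (mm f) / r →
        lI = (q * Real.log (mm f) - Real.log |((resultant f G r q : ℤ) : ℝ)|) / r →
        (∀ p, lP p = (padicValInt p (resultant f G r q) : ℝ) * Real.log p / r) →
        δ = (Real.log |((f.discr : ℤ) : ℝ)| -
          ∑ p ∈ S, (padicValInt p f.discr : ℝ) * Real.log p) / r →
        lI + ∑ p ∈ S, lP p ≤ (r + ε) * h + δ / (2 * r - 2) + C := by
  classical
  have hr0 : (0 : ℝ) < r := by exact_mod_cast (by omega : 0 < r)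
  have hr2 : (2 : ℝ) ≤ r := by exact_mod_cast hr
  have hd0 : (0 : ℝ) < 2 * r - 2 := by linarith
  have hδ0 : ∀ (S : Finset ℕ), (∀ p ∈ S, p.Prime) → ∀ f : ℤ[X], f.discr ≠ 0 →
      0 ≤ Real.log |((f.discr : ℤ) : ℝ)| - ∑ p ∈ S, (padicValInt p f.discr : ℝ) * Real.log p := by
    intro S hS f hdf
    have := sum_padic_le S hS f.discr hdf
    linarith
  rcases Nat.lt_or_ge q r with hq | hq
  · -- few points
    refine ⟨1, one_ne_zero, ⟨0, MvPolynomial.isHomogeneous_one _ _⟩, fun S hS => ⟨0, le_rfl, ?_⟩⟩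
    intro f hf hd hR _ h lI δ lP hh hlI hlP hδ
    have hdf := discr_ne hf (by omega)
    have hmm1 : 1 ≤ mm f := one_le_mm hf.ne_zero
    have hL : 0 ≤ Real.log (mm f) := Real.log_nonneg hmm1
    have h1 := sum_padic_le S hS _ hR
    have h2 := hδ0 S hS f hdf
    have hδ1 : 0 ≤ δ / (2 * r - 2) := by
      rw [hδ]
      exact div_nonneg (div_nonneg h2 hr0.le) hd0.le
    have h3 : lI + ∑ p ∈ S, lP p ≤ q * h := by
      have e1 : ∑ p ∈ S, lP p = (∑ p ∈ S, (padicValInt p (resultant f G r q) : ℝ) *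
          Real.log p) / r := by
        rw [Finset.sum_div]
        exact Finset.sum_congr rfl fun p _ => hlP p
      rw [e1, hlI, hh, ← add_div, mul_div_assoc']
      refine div_le_div_of_nonneg_right ?_ hr0.le
      linarith
    have hh0 : 0 ≤ h := by
      rw [hh]
      exact div_nonneg hL hr0.le
    have h4 : (q : ℝ) ≤ r := by exact_mod_cast hq.le
    have h5 := mul_le_mul_of_nonneg_right h4 hh0
    have h6 : 0 ≤ ε * h := mul_nonneg hε.le hh0
    linarith
  obtain ⟨F, hF, hFh, hmain⟩ := disc_poly G hG q r hr hq hqG (ε / (r + 1)) (by positivity)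
  refine ⟨F, hF, hFh, fun S hS => ?_⟩
  obtain ⟨C, hC0, hC⟩ := hmain S hS
  obtain ⟨vp, hvp, hvT, hsum⟩ := sum_places S hS
  have hl2 : 0 < Real.log 2 := Real.log_pos (by norm_num)
  have hlr : 0 ≤ Real.log (r + 1) := Real.log_nonneg (by linarith)
  have hq0 : (0 : ℝ) ≤ q := Nat.cast_nonneg q
  refine ⟨(C + (r + 1 + ε) * (r * Real.log 2) + (q + 1) * Real.log (r + 1)) / r, by positivity, ?_⟩
  intro f hf hd hR hFf h lI δ lP hh hlI hlP hδ
  have hdf := discr_ne hf (by omega)
  have h1 := hC f hd hR hdf hFf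
  set L := Real.log (nrm (av (Sum.inl default : Pl ℚ)) (zf r f)) with hL
  have hmm1 : 1 ≤ mm f := one_le_mm hf.ne_zero
  have hn : 0 < nrm (av (Sum.inl default : Pl ℚ)) (zf r f) := nrm_pos _ (zf_ne (by omega) hd)
  have hrh : r * h = Real.log (mm f) := by
    rw [hh]
    field_simp
  have k1 : L ≤ r * h + r * Real.log 2 := by
    have h2 := Real.log_le_log hn (nrm_zf_le hd)
    rw [Real.log_mul (by positivity) (by linarith), Real.log_pow] at h2
    rw [hrh]
    linarith
  have k2 : r * h ≤ L + Real.log (r + 1) := by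
    have h2 := Real.log_le_log (by linarith) (mm_le_zf hd)
    rw [Real.log_mul (by positivity) hn.ne'] at h2
    rw [hrh]
    linarith
  have hdc : ((2 * (r - 1) : ℕ) : ℝ) = 2 * r - 2 := by
    rw [Nat.cast_mul, Nat.cast_sub (by omega)]
    push_cast
    ring
  rw [hsum] at h1
  have e1 : Ev r q G f (Sum.inl default : Pl ℚ) = (q + 1) * L -
      Real.log |((resultant f G r q : ℤ) : ℝ)| - Real.log |((f.discr : ℤ) : ℝ)| / (2 * r - 2) := by
    unfold Ev
    rw [inf_int, inf_int, hdc]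
  have e2 : ∑ p ∈ S, Ev r q G f (Sum.inr (vp p) : Pl ℚ) =
      ∑ p ∈ S, (padicValInt p (resultant f G r q) : ℝ) * Real.log p +
      (∑ p ∈ S, (padicValInt p f.discr : ℝ) * Real.log p) / (2 * r - 2) := by
    rw [Finset.sum_div, ← Finset.sum_add_distrib]
    refine Finset.sum_congr rfl fun p hp => ?_
    unfold Ev
    rw [prim_zf (by omega) hf hd (vp p), Real.log_one, pl_log (hS p hp) (hvp p hp) _ hR,
      pl_log (hS p hp) (hvp p hp) _ hdf, hdc]
    ring
  rw [e1, e2] at h1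
  have e3 : ∑ p ∈ S, lP p = (∑ p ∈ S, (padicValInt p (resultant f G r q) : ℝ) *
      Real.log p) / r := by
    rw [Finset.sum_div]
    exact Finset.sum_congr rfl fun p _ => hlP p
  have e4 : r * (lI + ∑ p ∈ S, lP p) = q * (r * h) - Real.log |((resultant f G r q : ℤ) : ℝ)| +
      ∑ p ∈ S, (padicValInt p (resultant f G r q) : ℝ) * Real.log p := by
    rw [e3, hlI, hrh]
    field_simp
  have e5 : r * (δ / (2 * r - 2)) = Real.log |((f.discr : ℤ) : ℝ)| / (2 * r - 2) -
      (∑ p ∈ S, (padicValInt p f.discr : ℝ) * Real.log p) / (2 * r - 2) := by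
    rw [hδ]
    field_simp
  have e6 : ((r : ℝ) + 1) * (1 + ε / (r + 1)) = r + 1 + ε := by
    field_simp
  rw [e6] at h1
  have h2 : (q + 1) * (r * h) ≤ (q + 1) * (L + Real.log (r + 1)) :=
    mul_le_mul_of_nonneg_left k2 (by positivity)
  have h3 : (r + 1 + ε) * L ≤ (r + 1 + ε) * (r * h + r * Real.log 2) :=
    mul_le_mul_of_nonneg_left k1 (by positivity)
  have h4 : r * (lI + ∑ p ∈ S, lP p) ≤ r * ((r + ε) * h + δ / (2 * r - 2) +
      (C + (r + 1 + ε) * (r * Real.log 2) + (q + 1) * Real.log (r + 1)) / r) := by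
    have e7 : r * ((r + ε) * h + δ / (2 * r - 2) +
        (C + (r + 1 + ε) * (r * Real.log 2) + (q + 1) * Real.log (r + 1)) / r) =
        (r + ε) * (r * h) + r * (δ / (2 * r - 2)) +
        (C + (r + 1 + ε) * (r * Real.log 2) + (q + 1) * Real.log (r + 1)) := by
      field_simp
    rw [e7, e4, e5]
    linarith
  exact le_of_mul_le_mul_left h4 hr0

end Pool.Agent.NH28
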