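import Pool.Agent.NH28.Core

/-!
Families of vectors adapted to intersections of spans.
-/

set_option autoImplicit false

namespace Pool.Agent.NH28

open Finset Module

variable {K V Sy : Type} [Field K] [AddCommGroup V] [Module K V] {κ : Sy → Type}

/-- the intersection of the spans of a pattern -/
noncomputable def Uu (K : Type) {V Sy : Type} [Field K] [AddCommGroup V] [Module K V]
    {κ : Sy → Type} (u : ∀ e, κ e → V) (p : Finset (Σ e : Sy, Finset (κ e))) : Submodule K V :=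
  p.inf fun a => Submodule.span K (u a.1 '' (a.2 : Set (κ a.1)))

/-- the indices of the family -/
def Ix (K : Type) {V Sy : Type} [Field K] [AddCommGroup V] [Module K V]
    {κ : Sy → Type} (u : ∀ e, κ e → V) : Type :=
  Σ p : Finset (Σ e : Sy, Finset (κ e)), Fin (finrank K (Uu K u p))

noncomputable instance [Fintype Sy] [∀ e, Fintype (κ e)] (u : ∀ e, κ e → V) :
    Fintype (Ix K u) := by
  classical
  unfold Ix
  infer_instance

/-- the family -/
noncomputable def ph [FiniteDimensional K V] (u : ∀ e, κ e → V) (i : Ix K u) : V :=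
  (Module.finBasis K (Uu K u i.1) i.2 : V)

lemma ph_mem [FiniteDimensional K V] (u : ∀ e, κ e → V) (i : Ix K u) : ph u i ∈ Uu K u i.1 :=
  Subtype.property _

lemma ph_ne [FiniteDimensional K V] (u : ∀ e, κ e → V) (i : Ix K u) : ph u i ≠ 0 := by
  intro h
  exact (Module.finBasis K (Uu K u i.1)).ne_zero i.2 (Subtype.ext h)

lemma Uu_le [FiniteDimensional K V] (u : ∀ e, κ e → V) (p : Finset (Σ e : Sy, Finset (κ e))) :
    Uu K u p ≤ Submodule.span K (Set.range fun j => ph u (⟨p, j⟩ : Ix K u)) := by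
  have h1 := (Module.finBasis K (Uu K u p)).span_eq
  have h2 : (Set.range fun j => ph u (⟨p, j⟩ : Ix K u)) =
      (Uu K u p).subtype '' (Set.range (Module.finBasis K (Uu K u p))) := by
    rw [← Set.range_comp]
    rfl
  rw [h2, Submodule.span_image, h1, Submodule.map_top, Submodule.range_subtype]

lemma mem_span_of_mem (u : ∀ e, κ e → V) (p : Finset (Σ e : Sy, Finset (κ e)))
    (a : Σ e : Sy, Finset (κ e)) (ha : a ∈ p) (g : V) (hg : g ∈ Uu K u p) :
    g ∈ Submodule.span K (u a.1 '' (a.2 : Set (κ a.1))) :=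
  (Finset.inf_le ha : Uu K u p ≤ _) hg

theorem place_abs [FiniteDimensional K V] [Fintype Sy] [∀ e, Fintype (κ e)] (u : ∀ e, κ e → V)
    (hu : ∀ e, LinearIndependent K (u e)) (N : ℕ) (hN : finrank K V = N)
    {σ : Type} (W : Finset σ) (e : σ → Sy) (l : ∀ w, κ (e w) → ℝ) (hl : ∀ w s, 0 ≤ l w s)
    (b : σ → ℝ) (hb : ∀ w, 0 ≤ b w) (μ : Ix K u → ℝ)
    (h : ∀ i, ∀ t ≤ ∑ w ∈ W, b w, (∀ w ∈ W, 0 < t - (∑ w ∈ W, b w - b w) →
      ∃ A : Finset (κ (e w)), (⟨e w, A⟩ : Σ e : Sy, Finset (κ e)) ∈ i.1 ∧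
        ∀ s ∈ A, t - (∑ w ∈ W, b w - b w) ≤ l w s) → t ≤ μ i) :
    (∀ i, 0 ≤ μ i) ∧ ∃ β : Fin N → Ix K u, LinearIndependent K (fun a => ph u (β a)) ∧
      N * ∑ w ∈ W, b w - ∑ w ∈ W, (∑ s, max (b w - l w s) 0 +
        ((N : ℝ) - Fintype.card (κ (e w))) * b w) ≤ ∑ a, μ (β a) := by
  classical
  set B := ∑ w ∈ W, b w with hB
  have hB0 : 0 ≤ B := Finset.sum_nonneg fun w _ => hb w
  have hbB : ∀ w ∈ W, b w ≤ B := fun w hw =>
    Finset.single_le_sum (f := b) (fun w _ => hb w) hw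
  have hμ : ∀ i, 0 ≤ μ i := by
    intro i
    refine h i 0 hB0 fun w hw h0 => ?_
    have := hbB w hw
    linarith
  refine ⟨hμ, ?_⟩
  obtain ⟨β, hβ, hβ2⟩ := core_lin (ph u) N hN W (fun w => κ (e w)) (fun w => u (e w))
    (fun w => hu (e w)) l hl b B hB0 hbB μ hμ (by
      intro t ht
      set p : Finset (Σ e : Sy, Finset (κ e)) :=
        (W.filter fun w => 0 < t - (B - b w)).image fun w =>
          ⟨e w, Finset.univ.filter fun s => t - (B - b w) ≤ l w s⟩ with hp
      have h1 : (W.inf fun w => Fil (K := K) (u (e w)) (l w) (t - (B - b w))) ≤ Uu K u p := by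
        unfold Uu
        refine Finset.le_inf fun a ha => ?_
        obtain ⟨w, hw, rfl⟩ := Finset.mem_image.1 ha
        obtain ⟨hwW, hw0⟩ := Finset.mem_filter.1 hw
        refine (Finset.inf_le hwW).trans ?_
        unfold Fil
        rw [if_neg (by linarith)]
        refine Submodule.span_mono ?_
        refine Set.image_mono ?_
        intro s hs
        simpa using hs
      refine h1.trans ((Uu_le u p).trans (Submodule.span_mono ?_))
      rintro _ ⟨j, rfl⟩
      refine ⟨⟨p, j⟩, ?_, rfl⟩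
      show t ≤ μ ⟨p, j⟩
      refine h _ t ht fun w hw h0 => ?_
      refine ⟨Finset.univ.filter fun s => t - (B - b w) ≤ l w s, ?_, ?_⟩
      · exact Finset.mem_image.2 ⟨w, Finset.mem_filter.2 ⟨hw, h0⟩, rfl⟩
      · intro s hs
        exact (Finset.mem_filter.1 hs).2)
  refine ⟨β, hβ, le_trans (le_of_eq ?_) hβ2⟩
  congr 1
  refine Finset.sum_congr rfl fun w _ => ?_
  rw [max_eq_left (hb w)]

end Pool.Agent.NH28
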