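import Mathlib
import Pool.Agent.W180.TP.Ht

/-!
Places of an extension of number fields: local degrees and traces.
-/

set_option autoImplicit false

namespace Pool.Agent.NH28

open NumberField IsDedekindDomain Finset Module
open Pool.Agent.W180.OP (Pl av wt fv fv_apply wt_nonneg)

section fin

variable {K L : Type} [Field K] [NumberField K] [Field L] [NumberField L] [Algebra K L]

/-- the local degree at a prime -/
noncomputable def ldeg (v : HeightOneSpectrum (𝓞 K)) (w : HeightOneSpectrum (𝓞 L)) : ℕ :=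
  v.asIdeal.ramificationIdx' w.asIdeal * v.asIdeal.inertiaDeg' w.asIdeal

lemma toNNReal_pow {e e' : NNReal} (he : e ≠ 0) (he' : e' ≠ 0) (f : ℕ) (h : e' = e ^ f)
    (x : WithZero (Multiplicative ℤ)) :
    WithZeroMulInt.toNNReal he' x = WithZeroMulInt.toNNReal he x ^ (f : ℤ) ∨ x = 0 := by
  by_cases hx : x = 0
  · exact Or.inr hx
  · left
    rw [WithZeroMulInt.toNNReal_neg_apply he' hx, WithZeroMulInt.toNNReal_neg_apply he hx, h,
      ← zpow_natCast, ← zpow_mul, ← zpow_mul, mul_comm]

lemma ldeg_pos (v : HeightOneSpectrum (𝓞 K)) (w : HeightOneSpectrum (𝓞 L))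
    (hw : w.asIdeal.LiesOver v.asIdeal) : 0 < ldeg v w := by
  have hmax : v.asIdeal.IsMaximal := v.isMaximal
  refine Nat.mul_pos (Nat.pos_of_ne_zero
    (Ideal.IsDedekindDomain.ramificationIdx'_ne_zero_of_liesOver w.asIdeal v.ne_bot)) ?_
  have hN := Ideal.absNorm_eq_pow_inertiaDeg'_of_liesOver w.asIdeal v.asIdeal v.isPrime v.ne_bot
  rcases Nat.eq_zero_or_pos (v.asIdeal.inertiaDeg' w.asIdeal) with h | h
  · exfalso
    rw [h, pow_zero] at hN
    have := HeightOneSpectrum.one_lt_absNorm w
    omega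
  · exact h

/-- the absolute value of an element of `K` at a prime of `L` -/
lemma fv_ext (v : HeightOneSpectrum (𝓞 K)) (w : HeightOneSpectrum (𝓞 L))
    (hw : w.asIdeal.LiesOver v.asIdeal) (z : K) :
    fv w (algebraMap K L z) = fv v z ^ (ldeg v w) := by
  by_cases hz : z = 0
  · subst hz
    rw [map_zero, map_zero, map_zero, zero_pow (ldeg_pos v w hw).ne']
  have hz' : v.valuation K z ≠ 0 := (Valuation.ne_zero_iff _).2 hz
  have hN : (Ideal.absNorm w.asIdeal : NNReal) = (Ideal.absNorm v.asIdeal : NNReal) ^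
      (v.asIdeal.inertiaDeg' w.asIdeal) := by
    have := Ideal.absNorm_eq_pow_inertiaDeg'_of_liesOver w.asIdeal v.asIdeal v.isPrime v.ne_bot
    rw [this]
    push_cast
    rfl
  have e1 : fv w (algebraMap K L z) = (WithZeroMulInt.toNNReal
      (NumberField.HeightOneSpectrum.absNorm_ne_zero w) (w.valuation L (algebraMap K L z)) : ℝ) :=
    FinitePlace.norm_embedding' (v := w) (x := algebraMap K L z)
  have e2 : fv v z = (WithZeroMulInt.toNNReal
      (NumberField.HeightOneSpectrum.absNorm_ne_zero v) (v.valuation K z) : ℝ) :=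
    FinitePlace.norm_embedding' (v := v) (x := z)
  rw [e1, e2, ← HeightOneSpectrum.valuation_liesOver L v w, map_pow]
  rcases toNNReal_pow (NumberField.HeightOneSpectrum.absNorm_ne_zero v)
    (NumberField.HeightOneSpectrum.absNorm_ne_zero w) _ hN (v.valuation K z) with h3 | h3
  · rw [h3]
    unfold ldeg
    push_cast
    rw [zpow_natCast, ← pow_mul, mul_comm]
  · exact absurd h3 hz'

variable (L) in
theorem exists_over (v : HeightOneSpectrum (𝓞 K)) : ∃ T : Finset (HeightOneSpectrum (𝓞 L)),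
      (∀ w, w ∈ T ↔ w.asIdeal.LiesOver v.asIdeal) ∧ ∑ w ∈ T, ldeg v w = finrank K L := by
  classical
  have hmax : v.asIdeal.IsMaximal := v.isMaximal
  have hinj : Function.Injective (HeightOneSpectrum.asIdeal : HeightOneSpectrum (𝓞 L) → _) := by
    intro a b hab
    exact HeightOneSpectrum.ext hab
  have hfin : {w : HeightOneSpectrum (𝓞 L) | w.asIdeal.LiesOver v.asIdeal}.Finite := by
    apply Set.Finite.of_finite_image _ hinj.injOn
    apply (IsDedekindDomain.primesOverFinset v.asIdeal (𝓞 L)).finite_toSet.subset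
    rintro P ⟨w, hw, rfl⟩
    rw [Finset.mem_coe, IsDedekindDomain.mem_primesOverFinset_iff v.ne_bot]
    exact ⟨w.isPrime, hw⟩
  refine ⟨hfin.toFinset, fun w => by simp, ?_⟩
  rw [← Ideal.sum_ramification_inertia (𝓞 L) K L v.ne_bot]
  have himage : IsDedekindDomain.primesOverFinset v.asIdeal (𝓞 L) =
      hfin.toFinset.image HeightOneSpectrum.asIdeal := by
    ext P
    rw [IsDedekindDomain.mem_primesOverFinset_iff v.ne_bot, Finset.mem_image]
    constructor
    · rintro ⟨h1, h2⟩
      have hP : P ≠ ⊥ := by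
        rintro rfl
        apply v.ne_bot
        rw [h2.over]
        exact Ideal.comap_bot_of_injective _ (FaithfulSMul.algebraMap_injective _ _)
      exact ⟨⟨P, h1, hP⟩, by simpa using h2, rfl⟩
    · rintro ⟨w, hw, rfl⟩
      exact ⟨w.isPrime, by simpa using hw⟩
  rw [himage, Finset.sum_image hinj.injOn]
  rfl

lemma fv_le_one_iff (v : HeightOneSpectrum (𝓞 K)) (z : K) : fv v z ≤ 1 ↔ v.valuation K z ≤ 1 := by
  have e2 : fv v z = (WithZeroMulInt.toNNReal
      (NumberField.HeightOneSpectrum.absNorm_ne_zero v) (v.valuation K z) : ℝ) :=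
    FinitePlace.norm_embedding' (v := v) (x := z)
  rw [e2]
  have hmono := (WithZeroMulInt.toNNReal_strictMono (e := (Ideal.absNorm v.asIdeal : NNReal))
    (by exact_mod_cast HeightOneSpectrum.one_lt_absNorm v))
  have h1 : (1 : ℝ) = ((WithZeroMulInt.toNNReal
      (NumberField.HeightOneSpectrum.absNorm_ne_zero v) 1 : NNReal) : ℝ) := by
    rw [map_one]; rfl
  rw [h1, NNReal.coe_le_coe]
  exact hmono.le_iff_le

/-- an element of `L` integral above `v` has a multiple in `𝓞 L` by an integer prime to `v` -/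
theorem exists_den (v : HeightOneSpectrum (𝓞 K)) (a : L)
    (ha : ∀ w : HeightOneSpectrum (𝓞 L), w.asIdeal.LiesOver v.asIdeal → fv w a ≤ 1) :
    ∃ d : 𝓞 K, d ∉ v.asIdeal ∧ IsIntegral ℤ (algebraMap K L (d : K) * a) := by
  classical
  set D : Ideal (𝓞 L) := {
    carrier := {y : 𝓞 L | IsIntegral ℤ ((y : L) * a)}
    add_mem' := by
      intro y z hy hz
      have : ((y + z : 𝓞 L) : L) * a = y * a + z * a := by push_cast; ring
      show IsIntegral ℤ (((y + z : 𝓞 L) : L) * a)
      rw [this]
      exact hy.add hz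
    zero_mem' := by
      show IsIntegral ℤ (((0 : 𝓞 L) : L) * a)
      rw [show ((0 : 𝓞 L) : L) = 0 from rfl, zero_mul]
      exact isIntegral_zero
    smul_mem' := by
      intro c y hy
      have : ((c • y : 𝓞 L) : L) * a = c * (y * a) := by
        rw [smul_eq_mul]; push_cast; ring
      show IsIntegral ℤ (((c • y : 𝓞 L) : L) * a)
      rw [this]
      exact (NumberField.RingOfIntegers.isIntegral_coe c).mul hy } with hD
  by_contra hcon
  push Not at hcon
  have hle : D.comap (algebraMap (𝓞 K) (𝓞 L)) ≤ v.asIdeal := by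
    intro d hd
    by_contra hdv
    exact hcon d hdv hd
  have := v.isPrime
  obtain ⟨Q, hQ1, hQ2, hQ3⟩ := Ideal.exists_ideal_over_prime_of_isIntegral v.asIdeal D hle
  have hQ0 : Q ≠ ⊥ := by
    rintro rfl
    apply v.ne_bot
    rw [← hQ3]
    exact Ideal.comap_bot_of_injective _ (FaithfulSMul.algebraMap_injective _ _)
  set w : HeightOneSpectrum (𝓞 L) := ⟨Q, hQ2, hQ0⟩ with hw
  have hwl : w.asIdeal.LiesOver v.asIdeal := ⟨hQ3.symm⟩
  have h1 := (fv_le_one_iff w a).1 (ha w hwl)
  obtain ⟨n, d, hnd⟩ := HeightOneSpectrum.exists_primeCompl_mul_eq_of_integer w a h1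
  have h2 : (d : 𝓞 L) ∈ D := by
    show IsIntegral ℤ (((d : 𝓞 L) : L) * a)
    rw [mul_comm]
    have : a * ((d : 𝓞 L) : L) = ((n : 𝓞 L) : L) := hnd
    rw [this]
    exact NumberField.RingOfIntegers.isIntegral_coe n
  exact d.2 (hQ1 h2)

/-- the trace of an element integral above `v` is integral at `v` -/
theorem trace_fin (v : HeightOneSpectrum (𝓞 K)) (a : L)
    (ha : ∀ w : HeightOneSpectrum (𝓞 L), w.asIdeal.LiesOver v.asIdeal → fv w a ≤ 1) :
    fv v (Algebra.trace K L a) ≤ 1 := by
  obtain ⟨d, hd, hda⟩ := exists_den v a ha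
  have h1 : IsIntegral ℤ (Algebra.trace K L (algebraMap K L (d : K) * a)) :=
    Algebra.isIntegral_trace hda
  have h2 : Algebra.trace K L (algebraMap K L (d : K) * a) = d * Algebra.trace K L a := by
    rw [← Algebra.smul_def, map_smul, smul_eq_mul]
  rw [h2] at h1
  have h3 : fv v ((d : K) * Algebra.trace K L a) ≤ 1 := by
    rw [fv_le_one_iff]
    exact v.valuation_le_one (⟨_, h1⟩ : 𝓞 K)
  have h4 : fv v (d : K) = 1 := by
    have h5 : v.valuation K (d : K) = 1 := by
      rw [show ((d : K)) = algebraMap (𝓞 K) K d from rfl, HeightOneSpectrum.valuation_of_algebraMap]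
      exact (HeightOneSpectrum.intValuation_eq_one_iff_mem_primeCompl v d).2 hd
    have e2 : fv v (d : K) = (WithZeroMulInt.toNNReal
        (NumberField.HeightOneSpectrum.absNorm_ne_zero v) (v.valuation K (d : K)) : ℝ) :=
      FinitePlace.norm_embedding' (v := v) (x := (d : K))
    rw [e2, h5, map_one]
    rfl
  rwa [map_mul, h4, one_mul] at h3

end fin

end Pool.Agent.NH28
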