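import Pool.Agent.NH28.Pla

/-!
Places of an extension of number fields: infinite places, and all places together.
-/

set_option autoImplicit false

namespace Pool.Agent.NH28

open NumberField IsDedekindDomain Finset Module
open Pool.Agent.W180.OP (Pl av wt fv fv_apply wt_nonneg)
open Pool.Agent.W180.TP (wt_pos)

section inf

variable {K L : Type} [Field K] [NumberField K] [Field L] [NumberField L] [Algebra K L]

open scoped Classical in
/-- extensions of an embedding -/
theorem card_ext (ψ : K →+* ℂ) :
    ((Finset.univ : Finset (L →+* ℂ)).filter fun φ => φ.comp (algebraMap K L) = ψ).card =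
      finrank K L := by
  let _ : Algebra K ℂ := ψ.toAlgebra
  have h : Fintype.card (L →ₐ[K] ℂ) = finrank K L := AlgHom.card K L ℂ
  rw [← h, ← Finset.card_univ]
  refine Finset.card_bij' (fun φ hφ => ({ φ with
      commutes' := fun x => by
        have := (Finset.mem_filter.1 hφ).2
        exact congrArg (fun g : K →+* ℂ => g x) this } : L →ₐ[K] ℂ))
    (fun σ _ => σ.toRingHom) ?_ ?_ ?_ ?_
  · intro a _
    exact Finset.mem_univ _
  · intro σ _
    rw [Finset.mem_filter]
    refine ⟨Finset.mem_univ _, ?_⟩
    ext x
    exact σ.commutes x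
  · intro φ _
    rfl
  · intro σ _
    rfl

open scoped Classical in
/-- the local degrees above an infinite place -/
theorem sum_inf (v : InfinitePlace K) :
    ∑ w ∈ (Finset.univ : Finset (InfinitePlace L)).filter fun w =>
      w.comap (algebraMap K L) = v, w.mult = finrank K L * v.mult := by
  have h1 : ∀ w : InfinitePlace L, w.mult =
      ((Finset.univ : Finset (L →+* ℂ)).filter fun φ => InfinitePlace.mk φ = w).card := fun w =>
    (InfinitePlace.card_filter_mk_eq w).symm
  rw [Finset.sum_congr rfl fun w _ => h1 w]
  have h2 : ∑ w ∈ (Finset.univ : Finset (InfinitePlace L)).filter fun w =>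
      w.comap (algebraMap K L) = v, ((Finset.univ : Finset (L →+* ℂ)).filter fun φ =>
        InfinitePlace.mk φ = w).card = ((Finset.univ : Finset (L →+* ℂ)).filter fun φ =>
        InfinitePlace.mk (φ.comp (algebraMap K L)) = v).card := by
    rw [Finset.card_eq_sum_card_fiberwise (f := fun φ : L →+* ℂ => InfinitePlace.mk φ)
      (t := (Finset.univ : Finset (InfinitePlace L)).filter fun w =>
      w.comap (algebraMap K L) = v)]
    · refine Finset.sum_congr rfl fun w hw => ?_
      congr 1
      ext φ
      simp only [Finset.mem_filter, Finset.mem_univ, true_and]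
      constructor
      · intro h
        refine ⟨?_, h⟩
        rw [← InfinitePlace.comap_mk, h]
        exact (Finset.mem_filter.1 hw).2
      · exact fun h => h.2
    · intro φ hφ
      have := (Finset.mem_filter.1 hφ).2
      rw [Finset.mem_coe, Finset.mem_filter]
      exact ⟨Finset.mem_univ _, by rw [InfinitePlace.comap_mk]; exact this⟩
  rw [h2, Finset.card_eq_sum_card_fiberwise (f := fun φ : L →+* ℂ => φ.comp (algebraMap K L))
    (t := (Finset.univ : Finset (K →+* ℂ)).filter fun ψ => InfinitePlace.mk ψ = v)]
  · have h3 : ∀ ψ ∈ (Finset.univ : Finset (K →+* ℂ)).filter fun ψ => InfinitePlace.mk ψ = v,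
        (((Finset.univ : Finset (L →+* ℂ)).filter fun φ =>
          InfinitePlace.mk (φ.comp (algebraMap K L)) = v).filter fun φ =>
            φ.comp (algebraMap K L) = ψ).card = finrank K L := by
      intro ψ hψ
      rw [← card_ext (L := L) ψ]
      congr 1
      ext φ
      simp only [Finset.mem_filter, Finset.mem_univ, true_and]
      constructor
      · exact fun h => h.2
      · intro h
        refine ⟨?_, h⟩
        rw [h]
        exact (Finset.mem_filter.1 hψ).2
    rw [Finset.sum_congr rfl h3, Finset.sum_const, InfinitePlace.card_filter_mk_eq, smul_eq_mul,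
      mul_comm]
  · intro φ hφ
    have := (Finset.mem_filter.1 hφ).2
    rw [Finset.mem_coe, Finset.mem_filter]
    exact ⟨Finset.mem_univ _, this⟩

/-- the trace at an infinite place -/
theorem trace_inf (v : InfinitePlace K) (a : L) (R : ℝ)
    (h : ∀ w : InfinitePlace L, w.comap (algebraMap K L) = v → w a ≤ R) :
    v (Algebra.trace K L a) ≤ finrank K L * R := by
  classical
  let _ : Algebra K ℂ := v.embedding.toAlgebra
  have h1 : algebraMap K ℂ (Algebra.trace K L a) = ∑ σ : L →ₐ[K] ℂ, σ a :=
    trace_eq_sum_embeddings ℂ
  have h2 : v (Algebra.trace K L a) = ‖∑ σ : L →ₐ[K] ℂ, σ a‖ := by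
    rw [← h1, ← InfinitePlace.norm_embedding_eq]
    rfl
  rw [h2]
  refine (norm_sum_le _ _).trans ?_
  have h3 : ∀ σ ∈ (Finset.univ : Finset (L →ₐ[K] ℂ)), ‖σ a‖ ≤ R := by
    intro σ _
    have h4 := h (InfinitePlace.mk σ.toRingHom) (by
      rw [InfinitePlace.comap_mk]
      have : (σ.toRingHom).comp (algebraMap K L) = v.embedding := by
        ext x
        exact σ.commutes x
      rw [this, InfinitePlace.mk_embedding])
    rw [InfinitePlace.apply] at h4
    exact h4
  refine (Finset.sum_le_card_nsmul _ _ _ h3).trans ?_
  rw [Finset.card_univ, AlgHom.card K L ℂ, nsmul_eq_mul]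

end inf

section all

variable {K L : Type} [Field K] [NumberField K] [Field L] [NumberField L] [Algebra K L]

/-- `w` lies over `v` -/
def Ov (v : Pl K) (w : Pl L) : Prop :=
  match v, w with
  | Sum.inl v, Sum.inl w => w.comap (algebraMap K L) = v
  | Sum.inr v, Sum.inr w => w.asIdeal.LiesOver v.asIdeal
  | _, _ => False

/-- the local degree -/
noncomputable def nn (v : Pl K) (w : Pl L) : ℝ :=
  match v, w with
  | Sum.inl v, Sum.inl w => w.mult / v.mult
  | Sum.inr v, Sum.inr w => ldeg v w
  | _, _ => 0

theorem ov_unique {v v' : Pl K} {w : Pl L} (h : Ov v w) (h' : Ov v' w) : v = v' := by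
  cases v with
  | inl v =>
    cases v' with
    | inl v' =>
      cases w with
      | inl w => exact congrArg _ (Eq.trans (Eq.symm h) h')
      | inr w => exact h.elim
    | inr v' =>
      cases w with
      | inl w => exact h'.elim
      | inr w => exact h.elim
  | inr v =>
    cases v' with
    | inl v' =>
      cases w with
      | inl w => exact h.elim
      | inr w => exact h'.elim
    | inr v' =>
      cases w with
      | inl w => exact h.elim
      | inr w =>
        have h1 : v.asIdeal = v'.asIdeal := by
          have e1 := (show w.asIdeal.LiesOver v.asIdeal from h).over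
          have e2 := (show w.asIdeal.LiesOver v'.asIdeal from h').over
          exact e1.trans e2.symm
        exact congrArg _ (HeightOneSpectrum.ext h1)

variable (K) in
theorem exists_below (w : Pl L) : ∃ v : Pl K, Ov v w := by
  cases w with
  | inl w => exact ⟨Sum.inl (w.comap (algebraMap K L)), rfl⟩
  | inr w =>
    have hne : w.asIdeal.comap (algebraMap (𝓞 K) (𝓞 L)) ≠ ⊥ := by
      obtain ⟨x, hx, hx0⟩ := Submodule.exists_mem_ne_zero_of_ne_bot w.ne_bot
      exact Ideal.comap_ne_bot_of_integral_mem hx0 hx (Algebra.IsIntegral.isIntegral x)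
    exact ⟨Sum.inr ⟨w.asIdeal.comap (algebraMap (𝓞 K) (𝓞 L)),
      Ideal.IsPrime.comap _ (hK := w.isPrime), hne⟩, ⟨rfl⟩⟩

theorem one_le_nn {v : Pl K} {w : Pl L} (h : Ov v w) : 1 ≤ nn v w := by
  cases v with
  | inl v =>
    cases w with
    | inl w =>
      have h1 := InfinitePlace.mult_comap_le (algebraMap K L) w
      rw [show w.comap (algebraMap K L) = v from h] at h1
      have h2 : 0 < v.mult := InfinitePlace.mult_pos
      show (1 : ℝ) ≤ w.mult / v.mult
      rw [le_div_iff₀ (by exact_mod_cast h2), one_mul]
      exact_mod_cast h1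
    | inr w => exact h.elim
  | inr v =>
    cases w with
    | inl w => exact h.elim
    | inr w =>
      show (1 : ℝ) ≤ ldeg v w
      exact_mod_cast ldeg_pos v w h

theorem nn_ext {v : Pl K} {w : Pl L} (h : Ov v w) (a : K) :
    wt w * Real.log (av w (algebraMap K L a)) = nn v w * (wt v * Real.log (av v a)) := by
  cases v with
  | inl v =>
    cases w with
    | inl w =>
      have h1 : w (algebraMap K L a) = v a := InfinitePlace.comp_of_comap_eq h a
      have h2 : 0 < v.mult := InfinitePlace.mult_pos
      have h3 : (v.mult : ℝ) ≠ 0 := by exact_mod_cast h2.ne'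
      show (w.mult : ℝ) * Real.log (w (algebraMap K L a)) =
        (w.mult / v.mult : ℝ) * (v.mult * Real.log (v a))
      rw [h1]
      field_simp
    | inr w => exact h.elim
  | inr v =>
    cases w with
    | inl w => exact h.elim
    | inr w =>
      show (1 : ℝ) * Real.log (fv w (algebraMap K L a)) = (ldeg v w : ℝ) * (1 * Real.log (fv v a))
      rw [fv_ext v w h, Real.log_pow, one_mul, one_mul]

variable (L) in
theorem exists_ab (v : Pl K) : ∃ T : Finset (Pl L), (∀ w, w ∈ T ↔ Ov v w) ∧
    ∑ w ∈ T, nn v w = finrank K L := by
  classical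
  cases v with
  | inl v =>
    refine ⟨((Finset.univ : Finset (InfinitePlace L)).filter fun w =>
      w.comap (algebraMap K L) = v).map ⟨Sum.inl, Sum.inl_injective⟩, ?_, ?_⟩
    · intro w
      cases w with
      | inl w =>
        simp only [Finset.mem_map, Finset.mem_filter, Finset.mem_univ, true_and,
          Function.Embedding.coeFn_mk, Sum.inl.injEq, exists_eq_right]
        exact Iff.rfl
      | inr w =>
        simp only [Finset.mem_map, Finset.mem_filter, Finset.mem_univ, true_and,
          Function.Embedding.coeFn_mk, reduceCtorEq, and_false, exists_false, false_iff]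
        exact fun h => h
    · rw [Finset.sum_map]
      have h1 := sum_inf (L := L) v
      have h2 : 0 < v.mult := InfinitePlace.mult_pos
      have h3 : (v.mult : ℝ) ≠ 0 := by exact_mod_cast h2.ne'
      show ∑ w ∈ (Finset.univ : Finset (InfinitePlace L)).filter fun w =>
        w.comap (algebraMap K L) = v, ((w.mult : ℝ) / v.mult) = finrank K L
      rw [← Finset.sum_div, div_eq_iff h3]
      exact_mod_cast h1
  | inr v =>
    obtain ⟨T, hT, hs⟩ := exists_over L v
    refine ⟨T.map ⟨Sum.inr, Sum.inr_injective⟩, ?_, ?_⟩
    · intro w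
      cases w with
      | inl w =>
        simp only [Finset.mem_map, Function.Embedding.coeFn_mk, reduceCtorEq, and_false,
          exists_false, false_iff]
        exact fun h => h
      | inr w =>
        simp only [Finset.mem_map, Function.Embedding.coeFn_mk, Sum.inr.injEq, exists_eq_right]
        exact hT w
    · rw [Finset.sum_map]
      show ∑ w ∈ T, (ldeg v w : ℝ) = finrank K L
      exact_mod_cast hs

variable (L) in
/-- the places above `v` -/
noncomputable def ab (v : Pl K) : Finset (Pl L) := (exists_ab L v).choose

theorem mem_ab {v : Pl K} {w : Pl L} : w ∈ ab L v ↔ Ov v w := (exists_ab L v).choose_spec.1 w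

variable (L) in
theorem sum_nn (v : Pl K) : ∑ w ∈ ab L v, nn v w = finrank K L := (exists_ab L v).choose_spec.2

variable (L) in
theorem ab_nonempty (v : Pl K) : (ab L v).Nonempty := by
  by_contra h
  rw [Finset.not_nonempty_iff_eq_empty] at h
  have h1 := sum_nn L v
  rw [h, Finset.sum_empty] at h1
  have h2 : 0 < finrank K L := finrank_pos
  have h3 : (0 : ℝ) < finrank K L := by exact_mod_cast h2
  linarith

variable (L) in
theorem card_ab_le (v : Pl K) : (ab L v).card ≤ finrank K L := by
  have h1 := sum_nn L v
  have h2 : ((ab L v).card : ℝ) ≤ ∑ w ∈ ab L v, nn v w := by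
    rw [Finset.card_eq_sum_ones]
    push_cast
    exact Finset.sum_le_sum fun w hw => one_le_nn (mem_ab.1 hw)
  rw [h1] at h2
  exact_mod_cast h2

end all

end Pool.Agent.NH28
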