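import Pool.Agent.NH28.PlaInf

/-!
The trace at a place.
-/

set_option autoImplicit false

namespace Pool.Agent.NH28

open NumberField IsDedekindDomain Finset Module
open Pool.Agent.W180.OP (Pl av wt fv fv_apply wt_nonneg)
open Pool.Agent.W180.TP (wt_pos)

variable {K : Type} [Field K] [NumberField K]

lemma exists_small_fv (v : HeightOneSpectrum (𝓞 K)) : ∃ π : K, π ≠ 0 ∧ fv v π < 1 := by
  obtain ⟨x, hx, hx0⟩ := Submodule.exists_mem_ne_zero_of_ne_bot v.ne_bot
  refine ⟨(x : K), by simpa using hx0, ?_⟩
  have h1 : v.valuation K (x : K) < 1 := by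
    rw [show ((x : K)) = algebraMap (𝓞 K) K x from rfl]
    exact (v.valuation_lt_one_iff_mem (K := K) x).2 hx
  rw [← not_le]
  intro h
  have h2 : fv v ((x : K))⁻¹ ≤ 1 := by
    rw [map_inv₀]
    exact inv_le_one_of_one_le₀ h
  rw [fv_le_one_iff, map_inv₀] at h2
  have h3 : v.valuation K (x : K) ≠ 0 := (Valuation.ne_zero_iff _).2 (by simpa using hx0)
  have h4 : (v.valuation K (x : K)) * (v.valuation K (x : K))⁻¹ = 1 := mul_inv_cancel₀ h3
  have h5 : (v.valuation K (x : K)) * (v.valuation K (x : K))⁻¹ < 1 := by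
    calc (v.valuation K (x : K)) * (v.valuation K (x : K))⁻¹ ≤ (v.valuation K (x : K)) * 1 := by
          gcongr
      _ < 1 := by rwa [mul_one]
  exact absurd h4 h5.ne

/-- the trace at a place -/
theorem trace_pl (v : Pl K) (r : ℕ) : ∃ c : ℝ, 0 ≤ c ∧ ∀ (L : Type) [Field L] [NumberField L]
    [Algebra K L], finrank K L ≤ r → ∀ (a : L) (t : ℝ),
      (∀ w ∈ ab L v, wt w * Real.log (av w a) ≤ nn v w * t) → Algebra.trace K L a ≠ 0 →
        wt v * Real.log (av v (Algebra.trace K L a)) ≤ t + c := by
  cases v with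
  | inl v =>
    have hv : (0 : ℝ) < v.mult := by exact_mod_cast InfinitePlace.mult_pos
    refine ⟨v.mult * Real.log (r + 1), mul_nonneg hv.le (Real.log_nonneg (by
      have : (0 : ℝ) ≤ r := Nat.cast_nonneg r
      linarith)), ?_⟩
    intro L _ _ _ hr a t h htr
    have ha : a ≠ 0 := by
      rintro rfl
      exact htr (map_zero _)
    have h1 : ∀ w : InfinitePlace L, w.comap (algebraMap K L) = v → w a ≤ Real.exp (t / v.mult) := by
      intro w hw
      have h2 := h (Sum.inl w) (mem_ab.2 hw)
      have hw0 : (0 : ℝ) < w.mult := by exact_mod_cast InfinitePlace.mult_pos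
      have h3 : (w.mult : ℝ) * Real.log (w a) ≤ w.mult / v.mult * t := h2
      have h4 : Real.log (w a) ≤ t / v.mult := by
        have h5 : (w.mult : ℝ) / v.mult * t = w.mult * (t / v.mult) := by ring
        rw [h5] at h3
        exact le_of_mul_le_mul_left h3 hw0
      have hwa : 0 < w a := InfinitePlace.pos_iff.mpr ha
      exact (Real.log_le_iff_le_exp hwa).1 h4
    have h2 := trace_inf v a _ h1
    have h3 : v (Algebra.trace K L a) ≤ (r + 1) * Real.exp (t / v.mult) := by
      refine h2.trans (mul_le_mul_of_nonneg_right ?_ (Real.exp_pos _).le)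
      have : (finrank K L : ℝ) ≤ r := by exact_mod_cast hr
      linarith
    have h4 : 0 < v (Algebra.trace K L a) := InfinitePlace.pos_iff.mpr htr
    have h5 := Real.log_le_log h4 h3
    have hr1 : (0 : ℝ) < (r : ℝ) + 1 := by positivity
    rw [Real.log_mul hr1.ne' (Real.exp_pos _).ne', Real.log_exp] at h5
    show (v.mult : ℝ) * Real.log (v (Algebra.trace K L a)) ≤ _
    have h6 := mul_le_mul_of_nonneg_left h5 hv.le
    rw [mul_add, mul_div_cancel₀ _ hv.ne'] at h6
    linarith
  | inr v =>
    obtain ⟨π, hπ0, hπ⟩ := exists_small_fv v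
    have hπp : 0 < fv v π := (fv v).pos hπ0
    set q : ℝ := - Real.log (fv v π) with hq
    have hq0 : 0 < q := by
      have := Real.log_neg hπp hπ
      linarith
    refine ⟨q, hq0.le, ?_⟩
    intro L _ _ _ hr a t h htr
    have ha : a ≠ 0 := by
      rintro rfl
      exact htr (map_zero _)
    set m : ℤ := ⌈t / q⌉ with hm
    have hm1 : t ≤ m * q := by
      have := Int.le_ceil (t / q)
      rw [div_le_iff₀ hq0] at this
      exact this
    have hm2 : m * q ≤ t + q := by
      have := (Int.ceil_lt_add_one (t / q)).le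
      have h1 : (m : ℝ) * q ≤ (t / q + 1) * q := mul_le_mul_of_nonneg_right this hq0.le
      rwa [add_mul, one_mul, div_mul_cancel₀ _ hq0.ne'] at h1
    have h1 : fv v (Algebra.trace K L (π ^ m • a)) ≤ 1 := by
      refine trace_fin v _ fun w hw => ?_
      have h2 := h (Sum.inr w) (mem_ab.2 hw)
      have h3 : (1 : ℝ) * Real.log (fv w a) ≤ (ldeg v w : ℝ) * t := h2
      rw [Algebra.smul_def, map_mul, map_zpow₀, map_zpow₀, fv_ext v w hw]
      have hwa : 0 < fv w a := (fv w).pos ha
      have h4 : 0 < (fv v π ^ ldeg v w) ^ m * fv w a := by positivity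
      rw [← Real.log_le_log_iff h4 one_pos, Real.log_one, Real.log_mul (by positivity) hwa.ne',
        Real.log_zpow, Real.log_pow]
      have h5 : Real.log (fv v π) = -q := by rw [hq]; ring
      rw [h5]
      have h6 : (0 : ℝ) ≤ ldeg v w := Nat.cast_nonneg _
      have h7 := mul_le_mul_of_nonneg_left hm1 h6
      nlinarith
    rw [map_smul, smul_eq_mul, map_mul, map_zpow₀] at h1
    have htp : 0 < fv v (Algebra.trace K L a) := (fv v).pos htr
    have h2 : 0 < fv v π ^ m * fv v (Algebra.trace K L a) := by positivity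
    rw [← Real.log_le_log_iff h2 one_pos, Real.log_one, Real.log_mul (by positivity) htp.ne',
      Real.log_zpow] at h1
    have h5 : Real.log (fv v π) = -q := by rw [hq]; ring
    rw [h5] at h1
    show (1 : ℝ) * Real.log (fv v (Algebra.trace K L a)) ≤ _
    linarith

end Pool.Agent.NH28
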