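import Pool.Agent.NH28.Den

/-!
Small integral generators of the residue field of a point.
-/

set_option autoImplicit false

namespace Pool.Agent.NH28

open NumberField IsDedekindDomain Finset Module Height
open Pool.Agent.W180.OP (Pl av wt fv fv_apply wt_nonneg fv_support_finite nrm le_nrm nrm_pos
  exists_nrm nrm_nonneg partial_le)
open Pool.Agent.W180.TP (wt_pos one_term)

variable {L : Type} [Field L] [NumberField L]

/-- a combination of generators with small coefficients which separates the embeddings -/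
theorem exists_sep {m : ℕ} (b : Fin m → L)
    (hb : ∀ σ τ : L →+* ℂ, (∀ i, σ (b i) = τ (b i)) → σ = τ) (R : ℕ)
    (hR : finrank ℚ L ≤ R) :
    ∃ c : ℕ, c ≤ R ^ 2 * m ∧ ∀ σ τ : L →+* ℂ,
      σ (∑ i : Fin m, (c : L) ^ (i : ℕ) * b i) = τ (∑ i : Fin m, (c : L) ^ (i : ℕ) * b i) →
        σ = τ := by
  classical
  set P : (L →+* ℂ) × (L →+* ℂ) → Polynomial ℂ := fun p =>
    ∑ i : Fin m, Polynomial.C (p.1 (b i) - p.2 (b i)) * Polynomial.X ^ (i : ℕ) with hP
  have hcoeff : ∀ p (i : Fin m), (P p).coeff (i : ℕ) = p.1 (b i) - p.2 (b i) := by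
    intro p i
    rw [hP]
    simp only [Polynomial.finsetSum_coeff, Polynomial.coeff_C_mul, Polynomial.coeff_X_pow]
    rw [Finset.sum_eq_single i]
    · simp
    · intro j _ hji
      have : (i : ℕ) ≠ j := fun h => hji (Fin.ext h.symm)
      simp [this]
    · simp
  have hP0 : ∀ p : (L →+* ℂ) × (L →+* ℂ), p.1 ≠ p.2 → P p ≠ 0 := by
    intro p hp h0
    apply hp
    refine hb _ _ fun i => ?_
    have := hcoeff p i
    rw [h0, Polynomial.coeff_zero] at this
    exact (sub_eq_zero.1 this.symm)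
  have hdeg : ∀ p, (P p).natDegree ≤ m := by
    intro p
    refine Polynomial.natDegree_sum_le_of_forall_le _ _ fun i _ => ?_
    refine (Polynomial.natDegree_C_mul_X_pow_le _ _).trans i.2.le
  set Q : Finset ((L →+* ℂ) × (L →+* ℂ)) := Finset.univ.filter fun p => p.1 ≠ p.2 with hQ
  set Bad : Finset ℂ := Q.biUnion fun p => (P p).roots.toFinset with hBad
  have hcardE : Fintype.card (L →+* ℂ) = finrank ℚ L := Embeddings.card L ℂ
  have hBadc : Bad.card ≤ R ^ 2 * m := by
    refine (Finset.card_biUnion_le_card_mul _ _ m fun p hp => ?_).trans ?_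
    · exact (Multiset.toFinset_card_le _).trans ((Polynomial.card_roots' _).trans (hdeg p))
    · refine Nat.mul_le_mul_right _ ?_
      refine (Finset.card_le_univ _).trans ?_
      rw [Fintype.card_prod, hcardE, sq]
      exact Nat.mul_le_mul hR hR
  set Cs : Finset ℂ := (Finset.range (R ^ 2 * m + 1)).image (fun c : ℕ => (c : ℂ)) with hCs
  have hCsc : Cs.card = R ^ 2 * m + 1 := by
    rw [hCs, Finset.card_image_of_injective _ Nat.cast_injective, Finset.card_range]
  obtain ⟨z, hz, hzB⟩ := Finset.exists_mem_notMem_of_card_lt_card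
    (show Bad.card < Cs.card by rw [hCsc]; omega)
  obtain ⟨c, hc, rfl⟩ := Finset.mem_image.1 hz
  refine ⟨c, by have := Finset.mem_range.1 hc; omega, fun σ τ h => ?_⟩
  by_contra hne
  apply hzB
  rw [hBad, Finset.mem_biUnion]
  refine ⟨(σ, τ), by rw [hQ]; simp [hne], ?_⟩
  rw [Multiset.mem_toFinset, Polynomial.mem_roots (hP0 (σ, τ) hne), Polynomial.IsRoot, hP]
  simp only [Polynomial.eval_finsetSum, Polynomial.eval_mul, Polynomial.eval_C,
    Polynomial.eval_pow, Polynomial.eval_X]
  have h1 : ∀ ρ : L →+* ℂ, ρ (∑ i : Fin m, (c : L) ^ (i : ℕ) * b i) =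
      ∑ i : Fin m, ρ (b i) * (c : ℂ) ^ (i : ℕ) := by
    intro ρ
    rw [map_sum]
    refine Finset.sum_congr rfl fun i _ => ?_
    rw [map_mul, map_pow, map_natCast, mul_comm]
  rw [h1, h1] at h
  simp only [sub_mul, Finset.sum_sub_distrib]
  exact sub_eq_zero.2 h

lemma adjoin_of_sep (a : L) (h : ∀ σ τ : L →+* ℂ, σ a = τ a → σ = τ) :
    IntermediateField.adjoin ℚ {a} = ⊤ := by
  rw [Field.primitive_element_iff_algHom_eq_of_eval' ℚ ℂ (fun x => IsAlgClosed.splits _) a]
  intro σ τ hst
  have := h σ.toRingHom τ.toRingHom hst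
  ext x
  exact congrArg (fun g : L →+* ℂ => g x) this

variable {K : Type} [Field K] [NumberField K]

variable (K) in
/-- an integral generator of `K` -/
lemma exists_gen_int : ∃ α : 𝓞 K, ∀ σ τ : K →+* ℂ, σ (α : K) = τ (α : K) → σ = τ := by
  obtain ⟨α, hα⟩ := Field.exists_primitive_element ℚ K
  have halg : IsAlgebraic ℤ α :=
    (IsFractionRing.isAlgebraic_iff ℤ ℚ K).2 (Algebra.IsAlgebraic.isAlgebraic α)
  obtain ⟨y, hy, hint⟩ := halg.exists_integral_multiple
  refine ⟨⟨y • α, hint⟩, fun σ τ h => ?_⟩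
  have hyC : (y : ℂ) ≠ 0 := by exact_mod_cast hy
  have h1 : ∀ ρ : K →+* ℂ, ρ (((⟨y • α, hint⟩ : 𝓞 K) : K)) = (y : ℂ) * ρ α := by
    intro ρ
    show ρ (y • α) = _
    rw [zsmul_eq_mul, map_mul, map_intCast]
  have h' : (y : ℂ) * σ α = (y : ℂ) * τ α := (h1 σ).symm.trans (h.trans (h1 τ))
  have h2 : σ α = τ α := mul_left_cancel₀ hyC h'
  have h3 := (Field.primitive_element_iff_algHom_eq_of_eval' ℚ ℂ
    (fun x => IsAlgClosed.splits _) α).1 hα (a₁ := σ.toRatAlgHom) (a₂ := τ.toRatAlgHom) h2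
  ext x
  exact congrArg (fun g : K →ₐ[ℚ] ℂ => g x) h3

/-- small integral generators of the residue field of a point, and its discriminant -/
theorem exists_prim (K : Type) [Field K] [NumberField K] (n r : ℕ) :
    ∃ C : ℝ, 0 ≤ C ∧ ∀ (L : Type) [Field L] [NumberField L] [Algebra K L], finrank K L ≤ r →
      ∀ x : Fin n → L, x ≠ 0 →
        IntermediateField.adjoin K {z | ∃ i j, z = x i / x j} = ⊤ →
        ∃ a : 𝓞 L, IntermediateField.adjoin ℚ {(a : L)} = ⊤ ∧
          (∀ w : InfinitePlace L, Real.log (w (a : L)) ≤ C * (logHeight x + 1)) ∧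
          Real.log |(discr L : ℝ)| ≤ C * (logHeight x + 1) := by
  classical
  obtain ⟨α, hα⟩ := exists_gen_int K
  -- a bound for the conjugates of `α`
  obtain ⟨A, hA1, hA⟩ : ∃ A : ℝ, 1 ≤ A ∧ ∀ v : InfinitePlace K, v (α : K) ≤ A := by
    refine ⟨1 + ∑ v : InfinitePlace K, v (α : K), ?_, fun v => ?_⟩
    · have : 0 ≤ ∑ v : InfinitePlace K, v (α : K) := Finset.sum_nonneg fun v _ => apply_nonneg v _
      linarith
    · have := Finset.single_le_sum (f := fun v : InfinitePlace K => v (α : K))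
        (fun v _ => apply_nonneg v _) (Finset.mem_univ v)
      have h2 : v (α : K) ≤ ∑ v : InfinitePlace K, v (α : K) := this
      linarith
  set R : ℕ := finrank ℚ K * r with hR
  set B : ℕ := R ^ 2 * (n + 1) with hB
  set C1 : ℝ := Real.log ((n + 1) * ((B : ℝ) + 1) ^ (n + 1) * A) + 2 with hC1
  have hBR : (1 : ℝ) ≤ (B : ℝ) + 1 := by
    have : (0 : ℝ) ≤ B := Nat.cast_nonneg _
    linarith
  have hC1p : (1 : ℝ) ≤ (n + 1) * ((B : ℝ) + 1) ^ (n + 1) * A := by
    have h1 : (1 : ℝ) ≤ ((B : ℝ) + 1) ^ (n + 1) := one_le_pow₀ hBR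
    have h2 : (1 : ℝ) ≤ (n : ℝ) + 1 := by
      have : (0 : ℝ) ≤ n := Nat.cast_nonneg _
      linarith
    exact one_le_mul_of_one_le_of_one_le (one_le_mul_of_one_le_of_one_le h2 h1) hA1
  have hC1' : 0 ≤ C1 := by
    have := Real.log_nonneg hC1p
    linarith
  set C2 : ℝ := 2 * Real.log (R.factorial) + 2 * (R : ℝ) ^ 2 * C1 with hC2
  have hRf : (1 : ℝ) ≤ (R.factorial : ℝ) := by exact_mod_cast Nat.factorial_pos R
  have hC2' : 0 ≤ C2 := by
    have h1 := Real.log_nonneg hRf
    positivity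
  refine ⟨C1 + C2, by linarith, ?_⟩
  intro L _ _ _ hr x hx hadj
  have hfin : finrank ℚ L ≤ R := by
    rw [← finrank_mul_finrank ℚ K L, hR]
    exact Nat.mul_le_mul_left _ hr
  obtain ⟨j, hj⟩ : ∃ j, x j ≠ 0 := by
    by_contra h
    push Not at h
    exact hx (funext h)
  set y : Fin n → L := (x j)⁻¹ • x with hy
  have hyj : y j = 1 := by
    rw [hy, Pi.smul_apply, smul_eq_mul, inv_mul_cancel₀ hj]
  have hhy : logHeight y = logHeight x := logHeight_smul_eq_logHeight x (inv_ne_zero hj)
  set h := logHeight x with hh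
  have hh0 : 0 ≤ h := logHeight_nonneg x
  obtain ⟨u, hu1, hul, huint⟩ := exists_denom y j hyj
  rw [hhy] at hul
  have huL : (u : L) ≠ 0 := by exact_mod_cast (by omega : u ≠ 0)
  have huR : (0 : ℝ) < u := by exact_mod_cast hu1
  -- the generators
  set b : Fin (n + 1) → L := Fin.snoc (fun i => (u : L) * y i) (algebraMap K L (α : K)) with hb
  have hbl : b (Fin.last n) = algebraMap K L (α : K) := by rw [hb, Fin.snoc_last]
  have hbc : ∀ i : Fin n, b i.castSucc = (u : L) * y i := fun i => by rw [hb, Fin.snoc_castSucc]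
  have hsep : ∀ σ τ : L →+* ℂ, (∀ i, σ (b i) = τ (b i)) → σ = τ := by
    intro σ τ hst
    have hK : σ.comp (algebraMap K L) = τ.comp (algebraMap K L) := by
      apply hα
      have := hst (Fin.last n)
      rw [hbl] at this
      exact this
    have hy' : ∀ i, σ (y i) = τ (y i) := by
      intro i
      have h1 := hst i.castSucc
      rw [hbc, map_mul, map_mul, map_natCast, map_natCast] at h1
      exact mul_left_cancel₀ (by exact_mod_cast (by omega : u ≠ 0)) h1
    have hq : ∀ i k, x i / x k = y i / y k := by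
      intro i k
      rw [hy, Pi.smul_apply, Pi.smul_apply, smul_eq_mul, smul_eq_mul,
        mul_div_mul_left _ _ (inv_ne_zero hj)]
    have h2 : ∀ z ∈ IntermediateField.adjoin K {z | ∃ i j, z = x i / x j}, σ z = τ z := by
      intro z hz
      induction hz using IntermediateField.adjoin_induction with
      | mem z hz =>
        obtain ⟨i, k, rfl⟩ := hz
        rw [hq, map_div₀, map_div₀, hy', hy']
      | algebraMap z => exact congrArg (fun g : K →+* ℂ => g z) hK
      | add a b _ _ ha hb => rw [map_add, map_add, ha, hb]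
      | inv a _ ha => rw [map_inv₀, map_inv₀, ha]
      | mul a b _ _ ha hb => rw [map_mul, map_mul, ha, hb]
    ext z
    exact h2 z (by rw [hadj]; exact IntermediateField.mem_top)
  -- bounds for the generators
  have hwb : ∀ (w : InfinitePlace L) (i : Fin (n + 1)), w (b i) ≤ A * Real.exp (2 * h) := by
    intro w i
    have hexp : 1 ≤ Real.exp (2 * h) := Real.one_le_exp (by linarith)
    refine Fin.lastCases ?_ (fun i => ?_) i
    · rw [hbl]
      have h1 : w (algebraMap K L (α : K)) ≤ A := hA (w.comap (algebraMap K L))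
      calc w (algebraMap K L (α : K)) ≤ A := h1
        _ = A * 1 := (mul_one _).symm
        _ ≤ A * Real.exp (2 * h) := mul_le_mul_of_nonneg_left hexp (by linarith)
    · rw [hbc, map_mul]
      have h1 : w (u : L) = u := by
        rw [← InfinitePlace.norm_embedding_eq, map_natCast, Complex.norm_natCast]
      have h2 : (u : ℝ) ≤ Real.exp h := (Real.log_le_iff_le_exp huR).1 hul
      have h3 : w (y i) ≤ Real.exp h := by
        have h4 := one_term y j hyj (Sum.inl w)
        rw [hhy] at h4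
        have h5 : (w.mult : ℝ) * Real.log (nrm w.1 y) ≤ h := h4
        have h6 : 1 ≤ nrm w.1 y := by
          have := le_nrm w.1 y j
          rwa [hyj, map_one] at this
        have h7 : (1 : ℝ) ≤ w.mult := InfinitePlace.one_le_mult
        have h8 : Real.log (nrm w.1 y) ≤ h := by
          have := Real.log_nonneg h6
          nlinarith
        have h9 : nrm w.1 y ≤ Real.exp h := (Real.log_le_iff_le_exp (by linarith)).1 h8
        exact (le_nrm w.1 y i).trans h9
      rw [h1]
      calc (u : ℝ) * w (y i) ≤ Real.exp h * Real.exp h :=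
            mul_le_mul h2 h3 (apply_nonneg w _) (Real.exp_pos _).le
        _ = 1 * Real.exp (2 * h) := by rw [← Real.exp_add]; ring_nf
        _ ≤ A * Real.exp (2 * h) := mul_le_mul_of_nonneg_right hA1 (Real.exp_pos _).le
  obtain ⟨c, hcB, hc⟩ := exists_sep b hsep R hfin
  have hint : ∀ i, IsIntegral ℤ (b i) := by
    intro i
    refine Fin.lastCases ?_ (fun i => ?_) i
    · rw [hbl]
      exact (NumberField.RingOfIntegers.isIntegral_coe α).map
        (IsScalarTower.toAlgHom ℤ K L)
    · rw [hbc]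
      exact huint i
  have hcint : IsIntegral ℤ (∑ i : Fin (n + 1), (c : L) ^ (i : ℕ) * b i) := by
    refine IsIntegral.sum _ fun i _ => IsIntegral.mul (IsIntegral.pow ?_ _) (hint i)
    have := isIntegral_algebraMap (R := ℤ) (A := L) (x := (c : ℤ))
    simpa using this
  set a : 𝓞 L := ⟨∑ i : Fin (n + 1), (c : L) ^ (i : ℕ) * b i, hcint⟩ with ha
  have haL : (a : L) = ∑ i : Fin (n + 1), (c : L) ^ (i : ℕ) * b i := rfl
  have hadj' : IntermediateField.adjoin ℚ {(a : L)} = ⊤ := adjoin_of_sep _ (by rw [haL]; exact hc)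
  have hwa : ∀ w : InfinitePlace L, w (a : L) ≤ Real.exp (C1 * (h + 1)) := by
    intro w
    have h1 : w (a : L) ≤ (n + 1) * ((B : ℝ) + 1) ^ (n + 1) * A * Real.exp (2 * h) := by
      rw [haL]
      have h2 : w (∑ i : Fin (n + 1), (c : L) ^ (i : ℕ) * b i) ≤
          ∑ i : Fin (n + 1), w ((c : L) ^ (i : ℕ) * b i) := w.1.sum_le _ _
      refine h2.trans ?_
      have h3 : ∀ i ∈ (Finset.univ : Finset (Fin (n + 1))), w ((c : L) ^ (i : ℕ) * b i) ≤
          ((B : ℝ) + 1) ^ (n + 1) * (A * Real.exp (2 * h)) := by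
        intro i _
        rw [map_mul, map_pow]
        have h4 : w (c : L) = c := by
          rw [← InfinitePlace.norm_embedding_eq, map_natCast, Complex.norm_natCast]
        rw [h4]
        have h5 : (c : ℝ) ≤ (B : ℝ) + 1 := by
          have : (c : ℝ) ≤ B := by exact_mod_cast hcB
          linarith
        have h6 : (c : ℝ) ^ (i : ℕ) ≤ ((B : ℝ) + 1) ^ (n + 1) :=
          (pow_le_pow_left₀ (Nat.cast_nonneg _) h5 _).trans
            (pow_le_pow_right₀ hBR i.2.le)
        exact mul_le_mul h6 (hwb w i) (apply_nonneg w _) (by positivity)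
      refine (Finset.sum_le_card_nsmul _ _ _ h3).trans (le_of_eq ?_)
      rw [Finset.card_univ, Fintype.card_fin, nsmul_eq_mul]
      push_cast
      ring
    refine h1.trans ?_
    have hlog : Real.exp (Real.log ((n + 1) * ((B : ℝ) + 1) ^ (n + 1) * A)) =
        (n + 1) * ((B : ℝ) + 1) ^ (n + 1) * A := Real.exp_log (by linarith)
    rw [← hlog, ← Real.exp_add, Real.exp_le_exp, hC1]
    have := Real.log_nonneg hC1p
    nlinarith
  have hC1h : 0 ≤ C1 * (h + 1) := by positivity
  refine ⟨a, hadj', fun w => ?_, ?_⟩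
  · have h1 := hwa w
    by_cases hw0 : w (a : L) = 0
    · rw [hw0, Real.log_zero]
      positivity
    · have hpos : 0 < w (a : L) := lt_of_le_of_ne (apply_nonneg w _) (Ne.symm hw0)
      have h2 := (Real.log_le_iff_le_exp hpos).2 h1
      refine h2.trans ?_
      nlinarith
  · have h1 := disc_le a hadj' (Real.exp (C1 * (h + 1))) (Real.one_le_exp hC1h) hwa
    rw [Real.log_exp] at h1
    refine h1.trans ?_
    have h2 : (((finrank ℚ L).factorial : ℕ) : ℝ) ≤ (R.factorial : ℕ) := by
      exact_mod_cast Nat.factorial_le hfin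
    have h3 : (0 : ℝ) < ((finrank ℚ L).factorial : ℕ) := by exact_mod_cast Nat.factorial_pos _
    have h4 := Real.log_le_log h3 h2
    have h5 : (finrank ℚ L : ℝ) ≤ R := by exact_mod_cast hfin
    have h6 : (finrank ℚ L : ℝ) ^ 2 ≤ (R : ℝ) ^ 2 :=
      pow_le_pow_left₀ (Nat.cast_nonneg _) h5 2
    have h7 := Real.log_nonneg hRf
    have h8 : 2 * (finrank ℚ L : ℝ) ^ 2 * (C1 * (h + 1)) ≤ 2 * (R : ℝ) ^ 2 * (C1 * (h + 1)) := by
      gcongr
    have h9 : 2 * Real.log (R.factorial) ≤ 2 * Real.log (R.factorial) * (h + 1) := by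
      have : 0 ≤ 2 * Real.log (R.factorial : ℝ) * h := by positivity
      nlinarith
    have h10 : (C1 + C2) * (h + 1) = C1 * (h + 1) + 2 * Real.log (R.factorial) * (h + 1) +
        2 * (R : ℝ) ^ 2 * (C1 * (h + 1)) := by rw [hC2]; ring
    rw [h10]
    linarith

end Pool.Agent.NH28
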