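import Mathlib
import Pool.Agent.R405.AQ3

/-!
The discriminant form of degree `2 r - 2` of a binary form of degree `r`.
-/

set_option autoImplicit false

namespace Pool.Agent.NH28

open Finset Polynomial
open Pool.Agent.R405.AQ (hm hm_mul hm_lin hm_C_mul)

section ring

variable {R R' : Type} [CommRing R] [CommRing R']

/-- the polynomial with given coefficients -/
noncomputable def pol {r : ℕ} (x : Fin (r + 1) → R) : R[X] := ∑ k : Fin (r + 1), monomial k (x k)

/-- the first partial derivative -/
noncomputable def fX {r : ℕ} (x : Fin (r + 1) → R) : R[X] :=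
  ∑ k : Fin r, monomial k (((k : ℕ) + 1 : R) * x k.succ)

/-- the second partial derivative -/
noncomputable def fY {r : ℕ} (x : Fin (r + 1) → R) : R[X] :=
  ∑ k : Fin r, monomial k (((r - k : ℕ) : R) * x k.castSucc)

/-- the discriminant form -/
noncomputable def dl {r : ℕ} (x : Fin (r + 1) → R) : R :=
  resultant (fX x) (fY x) (r - 1) (r - 1)

theorem coeff_sum_fin {n : ℕ} (g : Fin n → R) (j : ℕ) :
    (∑ k : Fin n, monomial (k : ℕ) (g k)).coeff j = if h : j < n then g ⟨j, h⟩ else 0 := by
  rw [finsetSum_coeff]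
  simp only [coeff_monomial]
  split_ifs with h
  · rw [Finset.sum_eq_single ⟨j, h⟩]
    · simp
    · intro b _ hb
      rw [if_neg]
      intro h1
      exact hb (Fin.ext h1)
    · intro h1
      exact absurd (Finset.mem_univ _) h1
  · refine Finset.sum_eq_zero fun k _ => if_neg ?_
    intro h1
    exact h (h1 ▸ k.2)

theorem coeff_pol {r : ℕ} (x : Fin (r + 1) → R) (j : ℕ) :
    (pol x).coeff j = if h : j < r + 1 then x ⟨j, h⟩ else 0 := coeff_sum_fin _ _

theorem natDegree_sum_fin {n : ℕ} (g : Fin n → R) :
    (∑ k : Fin n, monomial (k : ℕ) (g k)).natDegree ≤ n - 1 := by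
  refine natDegree_le_iff_coeff_eq_zero.2 fun j hj => ?_
  rw [coeff_sum_fin, dif_neg]
  omega

theorem natDegree_pol {r : ℕ} (x : Fin (r + 1) → R) : (pol x).natDegree ≤ r :=
  natDegree_sum_fin _

theorem natDegree_fX {r : ℕ} (x : Fin (r + 1) → R) : (fX x).natDegree ≤ r - 1 :=
  natDegree_sum_fin _

theorem natDegree_fY {r : ℕ} (x : Fin (r + 1) → R) : (fY x).natDegree ≤ r - 1 :=
  natDegree_sum_fin _

theorem map_fX {r : ℕ} (φ : R →+* R') (x : Fin (r + 1) → R) :
    (fX x).map φ = fX (fun k => φ (x k)) := by
  unfold fX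
  rw [Polynomial.map_sum]
  refine Finset.sum_congr rfl fun k _ => ?_
  rw [Polynomial.map_monomial]
  simp

theorem map_fY {r : ℕ} (φ : R →+* R') (x : Fin (r + 1) → R) :
    (fY x).map φ = fY (fun k => φ (x k)) := by
  unfold fY
  rw [Polynomial.map_sum]
  refine Finset.sum_congr rfl fun k _ => ?_
  rw [Polynomial.map_monomial]
  simp

theorem map_dl {r : ℕ} (φ : R →+* R') (x : Fin (r + 1) → R) :
    φ (dl x) = dl (fun k => φ (x k)) := by
  unfold dl
  rw [← map_fX, ← map_fY, resultant_map_map]

theorem fX_eq {r : ℕ} (x : Fin (r + 1) → R) : fX x = derivative (pol x) := by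
  ext j
  rw [coeff_derivative, coeff_pol]
  unfold fX
  rw [coeff_sum_fin]
  by_cases h : j < r
  · rw [dif_pos h, dif_pos (by omega : j + 1 < r + 1), mul_comm]
    rfl
  · rw [dif_neg h, dif_neg (by omega), zero_mul]

theorem fY_eq {r : ℕ} (x : Fin (r + 1) → R) : C (r : R) * pol x = fY x + derivative (pol x) * X := by
  ext j
  rw [coeff_C_mul, coeff_add, coeff_pol]
  unfold fY
  rw [coeff_sum_fin]
  rcases j with _ | j
  · rw [mul_coeff_zero, coeff_X_zero, mul_zero, add_zero, dif_pos (by omega : 0 < r + 1)]
    rcases Nat.eq_zero_or_pos r with h | h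
    · subst h
      simp
    · rw [dif_pos h]
      simp
  · rw [coeff_mul_X, coeff_derivative, coeff_pol]
    by_cases h : j + 1 < r
    · rw [dif_pos h, dif_pos (by omega : j + 1 < r + 1)]
      have e1 : (Fin.castSucc (⟨j + 1, h⟩ : Fin r)) = ⟨j + 1, by omega⟩ := rfl
      rw [e1]
      have e2 : ((r - (j + 1) : ℕ) : R) = (r : R) - ((j : R) + 1) := by
        rw [Nat.cast_sub (by omega)]
        push_cast
        ring
      show _ = ((r - (j + 1) : ℕ) : R) * _ + _
      rw [e2]
      ring
    · rw [dif_neg h]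
      by_cases h2 : j + 1 < r + 1
      · rw [dif_pos h2]
        have e2 : (r : R) = (j : R) + 1 := by
          have : r = j + 1 := by omega
          rw [this]
          push_cast
          ring
        rw [e2]
        ring
      · rw [dif_neg h2]
        ring

end ring

/-- the relation with the discriminant -/
theorem dl_discr {r : ℕ} (hr : 2 ≤ r) (f : ℤ[X]) (hf : f.natDegree = r) :
    |dl (fun k : Fin (r + 1) => f.coeff k)| = r ^ (r - 2) * |f.discr| := by
  set x : Fin (r + 1) → ℤ := fun k => f.coeff k with hx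
  have hpol : pol x = f := by
    ext j
    rw [coeff_pol]
    split_ifs with h
    · rfl
    · rw [coeff_eq_zero_of_natDegree_lt (by omega)]
  have hf0 : f ≠ 0 := by
    rintro rfl
    simp at hf
    omega
  have hlc : f.leadingCoeff ≠ 0 := leadingCoeff_ne_zero.2 hf0
  have hlc' : f.coeff r ≠ 0 := by rw [← hf]; exact hlc
  have h1 := resultant_deriv (f := f) (by
    rw [← natDegree_pos_iff_degree_pos]
    omega)
  have hY := fY_eq x
  rw [hpol] at hY
  have hnd : (derivative f).natDegree ≤ r - 1 := by
    rw [← hf]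
    exact natDegree_derivative_le f
  have h2 : resultant (C (r : ℤ) * f) (derivative f) r (r - 1) =
      (r : ℤ) ^ (r - 1) * resultant f (derivative f) r (r - 1) := resultant_C_mul_left _ _ _ _ _
  have h3 : resultant (fY x + derivative f * X) (derivative f) r (r - 1) =
      resultant (fY x) (derivative f) r (r - 1) :=
    resultant_add_mul_left _ _ _ _ _ (by rw [natDegree_X]; omega) hnd
  have h4 : resultant (fY x) (derivative f) ((r - 1) + 1) (r - 1) =
      (-1) ^ (r - 1) * (derivative f).coeff (r - 1) *
        resultant (fY x) (derivative f) (r - 1) (r - 1) :=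
    resultant_succ_left_deg _ _ _ _ (natDegree_fY x)
  have hr1 : r - 1 + 1 = r := by omega
  rw [hr1] at h4
  have h5 : (derivative f).coeff (r - 1) = r * f.coeff r := by
    rw [coeff_derivative, hr1]
    have : ((r - 1 : ℕ) : ℤ) + 1 = r := by exact_mod_cast hr1
    rw [this]
    ring
  have h6 : resultant (fY x) (derivative f) (r - 1) (r - 1) = (-1) ^ ((r - 1) * (r - 1)) *
      dl x := by
    unfold dl
    rw [fX_eq, hpol]
    exact resultant_comm _ _ _ _
  rw [hf] at h1
  rw [hY, h3, h4, h5, h6, h1] at h2
  have h7 := congrArg abs h2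
  simp only [abs_mul, abs_pow, abs_neg, abs_one, one_pow, one_mul, Nat.abs_cast] at h7
  have h8 : f.leadingCoeff = f.coeff r := by rw [← hf]; rfl
  rw [h8] at h7
  have h9 : (0 : ℤ) < r * |f.coeff r| := by
    have : 0 < |f.coeff r| := abs_pos.2 hlc'
    positivity
  have h10 : (r : ℤ) ^ (r - 1) = r * r ^ (r - 2) := by
    rw [← pow_succ']
    congr 1
    omega
  rw [h10] at h7
  have h11 : ((r : ℤ) * |f.coeff r|) * |dl x| = (r * |f.coeff r|) * (r ^ (r - 2) * |f.discr|) := by
    linear_combination h7
  exact mul_left_cancel₀ h9.ne' h11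

/-- the discriminant form as a polynomial -/
noncomputable def Dl (r : ℕ) (K : Type) [Field K] : MvPolynomial (Fin (r + 1)) K :=
  dl (fun k => MvPolynomial.X k)

theorem aeval_Dl {r : ℕ} {K L : Type} [Field K] [Field L] [Algebra K L] (x : Fin (r + 1) → L) :
    MvPolynomial.aeval x (Dl r K) = dl x := by
  unfold Dl
  have h1 := map_dl (MvPolynomial.aeval x : MvPolynomial (Fin (r + 1)) K →ₐ[K] L).toRingHom
    (fun k : Fin (r + 1) => (MvPolynomial.X k : MvPolynomial (Fin (r + 1)) K))
  simp only [AlgHom.toRingHom_eq_coe, RingHom.coe_coe, MvPolynomial.aeval_X] at h1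
  exact h1

theorem isHom_det {n m : ℕ} {σ K : Type} [Field K] (A : Matrix (Fin n) (Fin n) (MvPolynomial σ K))
    (hA : ∀ i j, (A i j).IsHomogeneous m) : A.det.IsHomogeneous (n * m) := by
  rw [Matrix.det_apply']
  refine MvPolynomial.IsHomogeneous.sum _ _ _ fun s _ => ?_
  have h1 : (∏ i, A (s i) i).IsHomogeneous (n * m) := by
    have := MvPolynomial.IsHomogeneous.prod Finset.univ (fun i => A (s i) i) (fun _ => m)
      (fun i _ => hA _ _)
    rwa [Finset.sum_const, Finset.card_univ, Fintype.card_fin, smul_eq_mul] at this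
  have h2 : (((Equiv.Perm.sign s : ℤˣ) : ℤ) : MvPolynomial σ K) =
      MvPolynomial.C (((Equiv.Perm.sign s : ℤˣ) : ℤ) : K) := by simp
  rw [h2]
  have h3 := (MvPolynomial.isHomogeneous_C σ (((Equiv.Perm.sign s : ℤˣ) : ℤ) : K)).mul h1
  rwa [zero_add] at h3

theorem Dl_hom (r : ℕ) (K : Type) [Field K] : (Dl r K).IsHomogeneous (2 * (r - 1)) := by
  unfold Dl dl resultant
  have h1 := isHom_det (m := 1) (sylvester (fX fun k : Fin (r + 1) =>
    (MvPolynomial.X k : MvPolynomial (Fin (r + 1)) K)) (fY fun k => MvPolynomial.X k)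
    (r - 1) (r - 1)) (by
      have hX : ∀ j, ((fX fun k : Fin (r + 1) =>
          (MvPolynomial.X k : MvPolynomial (Fin (r + 1)) K)).coeff j).IsHomogeneous 1 := by
        intro j
        unfold fX
        rw [coeff_sum_fin]
        split_ifs with h
        · have e1 : ((j : MvPolynomial (Fin (r + 1)) K) + 1) = MvPolynomial.C ((j : K) + 1) := by
            simp
          show (((j : MvPolynomial (Fin (r + 1)) K) + 1) * _).IsHomogeneous 1
          rw [e1]
          have := (MvPolynomial.isHomogeneous_C (Fin (r + 1)) ((j : K) + 1)).mul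
            (MvPolynomial.isHomogeneous_X K (⟨j, h⟩ : Fin r).succ)
          rwa [zero_add] at this
        · exact MvPolynomial.isHomogeneous_zero _ _ _
      have hY : ∀ j, ((fY fun k : Fin (r + 1) =>
          (MvPolynomial.X k : MvPolynomial (Fin (r + 1)) K)).coeff j).IsHomogeneous 1 := by
        intro j
        unfold fY
        rw [coeff_sum_fin]
        split_ifs with h
        · have e1 : ((r - j : ℕ) : MvPolynomial (Fin (r + 1)) K) =
              MvPolynomial.C (((r - j : ℕ) : K)) := by simp
          show (((r - j : ℕ) : MvPolynomial (Fin (r + 1)) K) * _).IsHomogeneous 1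
          rw [e1]
          have := (MvPolynomial.isHomogeneous_C (Fin (r + 1)) (((r - j : ℕ) : K))).mul
            (MvPolynomial.isHomogeneous_X K (⟨j, h⟩ : Fin r).castSucc)
          rwa [zero_add] at this
        · exact MvPolynomial.isHomogeneous_zero _ _ _
      intro i j
      unfold sylvester
      rw [Matrix.of_apply]
      refine Fin.addCases (fun j => ?_) (fun j => ?_) j
      · rw [Fin.addCases_left]
        split_ifs
        · exact hY _
        · exact MvPolynomial.isHomogeneous_zero _ _ _
      · rw [Fin.addCases_right]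
        split_ifs
        · exact hX _
        · exact MvPolynomial.isHomogeneous_zero _ _ _)
  have e : (r - 1 + (r - 1)) * 1 = 2 * (r - 1) := by ring
  rwa [e] at h1

end Pool.Agent.NH28
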