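import Pool.Agent.NH28.QC1

/-!
The hyperplanes of the forms which vanish at given points and the discriminant hypersurface are in
general position.
-/

set_option autoImplicit false

namespace Pool.Agent.NH28

open Finset Polynomial
open Pool.Agent.R405.AQ (hm hm_mul hm_lin hm_C_mul gen_pos)

variable {L : Type} [Field L]

/-- the value of a form at a point, as a function of the coefficients -/
def hv {r : ℕ} (x : Fin (r + 1) → L) (P : L × L) : L :=
  ∑ k : Fin (r + 1), x k * (P.1 ^ (k : ℕ) * P.2 ^ (r - k))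

theorem hm_pol {r : ℕ} (x : Fin (r + 1) → L) (P : L × L) : hm r (pol x) P = hv x P := by
  unfold hm hv
  rw [Finset.sum_range]
  refine Finset.sum_congr rfl fun k _ => ?_
  rw [coeff_pol, dif_pos k.2]

theorem hm_add (n : ℕ) (p q : L[X]) (P : L × L) : hm n (p + q) P = hm n p P + hm n q P := by
  unfold hm
  rw [← Finset.sum_add_distrib]
  refine Finset.sum_congr rfl fun k _ => ?_
  rw [coeff_add]
  ring

theorem hm_succ (n : ℕ) (p : L[X]) (hp : p.natDegree ≤ n) (P : L × L) :
    hm (n + 1) p P = P.2 * hm n p P := by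
  unfold hm
  rw [Finset.sum_range_succ, coeff_eq_zero_of_natDegree_lt (by omega), zero_mul, add_zero,
    Finset.mul_sum]
  refine Finset.sum_congr rfl fun k hk => ?_
  rw [Finset.mem_range] at hk
  have : n + 1 - k = (n - k) + 1 := by omega
  rw [this, pow_succ]
  ring

theorem hm_mul_X (n : ℕ) (p : L[X]) (hp : p.natDegree ≤ n) (P : L × L) :
    hm (n + 1) (p * X) P = P.1 * hm n p P := by
  rw [hm_mul n 1 p X hp natDegree_X_le]
  have h1 := hm_lin (1 : L) 0 P
  simp only [C_1, one_mul, C_0, sub_zero, zero_mul] at h1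
  rw [h1]
  ring

theorem hm_smul (n : ℕ) (p : L[X]) (c : L) (P : L × L) :
    hm n p (c * P.1, c * P.2) = c ^ n * hm n p P := by
  unfold hm
  rw [Finset.mul_sum]
  refine Finset.sum_congr rfl fun k hk => ?_
  rw [Finset.mem_range] at hk
  simp only
  have h1 : c ^ n = c ^ k * c ^ (n - k) := by rw [← pow_add]; congr 1; omega
  rw [h1, mul_pow, mul_pow]
  ring

/-- Euler's identity -/
theorem euler {r : ℕ} (hr : 1 ≤ r) (x : Fin (r + 1) → L) (P : L × L) :
    (r : L) * hv x P = P.1 * hm (r - 1) (fX x) P + P.2 * hm (r - 1) (fY x) P := by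
  have h1 := fY_eq x
  have h2 := congrArg (fun p => hm r p P) h1
  simp only [hm_C_mul, hm_add, hm_pol] at h2
  have hr1 : (r - 1) + 1 = r := by omega
  have h3 : hm r (fY x) P = P.2 * hm (r - 1) (fY x) P := by
    have h5 := hm_succ _ _ (natDegree_fY x) P
    rwa [hr1] at h5
  have h4 : hm r (derivative (pol x) * X) P = P.1 * hm (r - 1) (fX x) P := by
    rw [← fX_eq]
    have h5 := hm_mul_X _ _ (natDegree_fX x) P
    rwa [hr1] at h5
  rw [h3, h4] at h2
  rw [h2]
  ring

/-- a form which vanishes at too many points -/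
theorem zero_of_pts {r : ℕ} (x : Fin (r + 1) → L) (P : Fin (r + 1) → L × L) (hne : ∀ j, P j ≠ 0)
    (hpw : ∀ i j, i ≠ j → (P i).1 * (P j).2 ≠ (P j).1 * (P i).2) (hx : ∀ j, hv x (P j) = 0) :
    x = 0 := by
  classical
  have h1 := gen_pos P hne hpw r Finset.univ (by simp)
  have h2 : LinearIndependent L (fun i : Fin (r + 1) => fun k : Fin (r + 1) =>
      (P i).1 ^ (k : ℕ) * (P i).2 ^ (r - k)) := by
    have h3 := h1.comp (fun a : Fin (r + 1) => (⟨a, Finset.mem_univ a⟩ :
      {x // x ∈ (Finset.univ : Finset (Fin (r + 1)))})) (by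
        intro a b hab
        exact congrArg Subtype.val hab)
    exact h3
  have h4 := (Matrix.linearIndependent_rows_iff_isUnit (A := Matrix.of fun i : Fin (r + 1) =>
    fun k : Fin (r + 1) => (P i).1 ^ (k : ℕ) * (P i).2 ^ (r - k))).1 h2
  rw [Matrix.isUnit_iff_isUnit_det] at h4
  refine Matrix.eq_zero_of_mulVec_eq_zero h4.ne_zero ?_
  funext i
  have h5 := hx i
  unfold hv at h5
  simp only [Matrix.mulVec, dotProduct, Matrix.of_apply, Pi.zero_apply]
  rw [← h5]
  exact Finset.sum_congr rfl fun k _ => by ring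

/-- a common zero -/
theorem common_zero [IsAlgClosed L] {n : ℕ} (a b : L[X]) (ha : a.natDegree ≤ n)
    (hb : b.natDegree ≤ n) (h : resultant a b n n = 0) :
    ∃ P : L × L, P ≠ 0 ∧ hm n a P = 0 ∧ hm n b P = 0 := by
  have hinf : ∀ p : L[X], hm n p (1, 0) = p.coeff n := by
    intro p
    unfold hm
    rw [Finset.sum_eq_single n]
    · simp
    · intro k hk hkn
      rw [Finset.mem_range] at hk
      have : n - k ≠ 0 := by omega
      simp [this]
    · intro h1
      exact absurd (Finset.mem_range.2 (by omega)) h1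
  have hfin : ∀ p : L[X], p.natDegree ≤ n → ∀ t : L, hm n p (t, 1) = p.eval t := by
    intro p hp t
    unfold hm
    rw [eval_eq_sum_range' (by omega : p.natDegree < n + 1)]
    exact Finset.sum_congr rfl fun k _ => by simp
  have key : ∀ a b : L[X], a.natDegree ≤ n → b.natDegree ≤ n → a.coeff n ≠ 0 →
      resultant a b n n = 0 → ∃ t : L, a.eval t = 0 ∧ b.eval t = 0 := by
    intro a b ha hb hc h
    have hda : a.natDegree = n := le_antisymm ha (le_natDegree_of_ne_zero hc)
    have h1 : resultant a b n (b.natDegree + (n - b.natDegree)) =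
        a.coeff n ^ (n - b.natDegree) * resultant a b n b.natDegree :=
      resultant_add_right_deg _ _ _ _ _ le_rfl
    rw [Nat.add_sub_cancel' hb, h] at h1
    have h2 : resultant a b n b.natDegree = 0 := by
      rcases mul_eq_zero.1 h1.symm with h3 | h3
      · exact absurd h3 (pow_ne_zero _ hc)
      · exact h3
    have h3 : resultant a b = 0 := by
      show resultant a b a.natDegree b.natDegree = 0
      rw [hda]
      exact h2
    have h4 := (resultant_eq_zero_iff.1 h3).2
    rw [isCoprime_iff_aeval_ne_zero_of_isAlgClosed L L] at h4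
    push Not at h4
    obtain ⟨t, ht1, ht2⟩ := h4
    exact ⟨t, by simpa using ht1, by simpa using ht2⟩
  by_cases h1 : a.coeff n = 0
  · by_cases h2 : b.coeff n = 0
    · refine ⟨(1, 0), ?_, ?_, ?_⟩
      · intro h3
        have := congrArg Prod.fst h3
        simp at this
      · rw [hinf, h1]
      · rw [hinf, h2]
    · have h3 : resultant b a n n = 0 := by
        rw [resultant_comm, h, mul_zero]
      obtain ⟨t, ht1, ht2⟩ := key b a hb ha h2 h3
      refine ⟨(t, 1), ?_, ?_, ?_⟩
      · intro h3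
        have := congrArg Prod.snd h3
        simp at this
      · rw [hfin a ha, ht2]
      · rw [hfin b hb, ht1]
  · obtain ⟨t, ht1, ht2⟩ := key a b ha hb h1 h
    refine ⟨(t, 1), ?_, ?_, ?_⟩
    · intro h3
      have := congrArg Prod.snd h3
      simp at this
    · rw [hfin a ha, ht1]
    · rw [hfin b hb, ht2]

/-- restriction to the line through two points -/
noncomputable def phi {r : ℕ} (x : Fin (r + 1) → L) (P R : L × L) : L[X] :=
  ∑ k : Fin (r + 1), C (x k) * ((C P.1 + C R.1 * X) ^ (k : ℕ) * (C P.2 + C R.2 * X) ^ (r - k))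

theorem natDegree_lin' (a b : L) : (C a + C b * X).natDegree ≤ 1 := by
  refine (natDegree_add_le _ _).trans (max_le (by simp) ?_)
  exact (natDegree_C_mul_le _ _).trans natDegree_X_le

theorem coeff_lin' (a b : L) : (C a + C b * X).coeff 1 = b := by
  rw [coeff_add, coeff_C_mul, coeff_X_one, coeff_C]
  simp

theorem ph_natDegree {r : ℕ} (x : Fin (r + 1) → L) (P R : L × L) : (phi x P R).natDegree ≤ r := by
  unfold phi
  refine natDegree_sum_le_of_forall_le _ _ fun k _ => ?_
  refine (natDegree_C_mul_le _ _).trans (natDegree_mul_le.trans ?_)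
  have h1 : ((C P.1 + C R.1 * X) ^ (k : ℕ)).natDegree ≤ (k : ℕ) := by
    refine natDegree_pow_le.trans ?_
    have := Nat.mul_le_mul_left (k : ℕ) (natDegree_lin' P.1 R.1)
    omega
  have h2 : ((C P.2 + C R.2 * X) ^ (r - (k : ℕ))).natDegree ≤ r - (k : ℕ) := by
    refine natDegree_pow_le.trans ?_
    have := Nat.mul_le_mul_left (r - (k : ℕ)) (natDegree_lin' P.2 R.2)
    omega
  have := k.2
  omega

theorem ph_coeff {r : ℕ} (x : Fin (r + 1) → L) (P R : L × L) : (phi x P R).coeff r = hv x R := by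
  unfold phi hv
  rw [finsetSum_coeff]
  refine Finset.sum_congr rfl fun k _ => ?_
  rw [coeff_C_mul]
  congr 1
  have h1 : ((C P.1 + C R.1 * X) ^ (k : ℕ)).natDegree ≤ (k : ℕ) := by
    refine natDegree_pow_le.trans ?_
    have := Nat.mul_le_mul_left (k : ℕ) (natDegree_lin' P.1 R.1)
    omega
  have h2 : ((C P.2 + C R.2 * X) ^ (r - (k : ℕ))).natDegree ≤ r - (k : ℕ) := by
    refine natDegree_pow_le.trans ?_
    have := Nat.mul_le_mul_left (r - (k : ℕ)) (natDegree_lin' P.2 R.2)
    omega
  have h3 := coeff_mul_add_eq_of_natDegree_le h1 h2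
  have h4 : (k : ℕ) + (r - k) = r := by
    have := k.2
    omega
  rw [h4] at h3
  rw [h3]
  have h5 := coeff_pow_of_natDegree_le (m := (k : ℕ)) (natDegree_lin' P.1 R.1)
  have h6 := coeff_pow_of_natDegree_le (m := r - (k : ℕ)) (natDegree_lin' P.2 R.2)
  rw [mul_one, coeff_lin'] at h5 h6
  rw [h5, h6]

theorem ph_eval {r : ℕ} (x : Fin (r + 1) → L) (P R : L × L) (t : L) :
    (phi x P R).eval t = hv x (P.1 + R.1 * t, P.2 + R.2 * t) := by
  unfold phi hv
  rw [eval_finsetSum]
  refine Finset.sum_congr rfl fun k _ => ?_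
  simp

theorem ph_deriv {r : ℕ} (hr : 1 ≤ r) (x : Fin (r + 1) → L) (P R : L × L) :
    (derivative (phi x P R)).eval 0 = R.1 * hm (r - 1) (fX x) P + R.2 * hm (r - 1) (fY x) P := by
  have e1 : hm (r - 1) (fX x) P = ∑ k : Fin (r + 1), x k * ((k : L) * P.1 ^ ((k : ℕ) - 1) *
      P.2 ^ (r - k)) := by
    unfold hm fX
    rw [Fin.sum_univ_succ]
    simp only [coeff_sum_fin]
    have hr1 : r - 1 + 1 = r := by omega
    rw [hr1, Finset.sum_range]
    simp only [Fin.is_lt, dif_pos, Fin.val_zero, Nat.cast_zero, zero_mul, mul_zero, zero_add,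
      Fin.eta]
    refine Finset.sum_congr rfl fun k _ => ?_
    have h1 : r - 1 - (k : ℕ) = r - ((k : ℕ) + 1) := by omega
    rw [Fin.val_succ, h1, Nat.add_sub_cancel]
    push_cast
    ring
  have e2 : hm (r - 1) (fY x) P = ∑ k : Fin (r + 1), x k * (P.1 ^ (k : ℕ) *
      (((r - k : ℕ) : L) * P.2 ^ (r - k - 1))) := by
    unfold hm fY
    rw [Fin.sum_univ_castSucc]
    simp only [coeff_sum_fin]
    have hr1 : r - 1 + 1 = r := by omega
    rw [hr1, Finset.sum_range]
    simp only [Fin.is_lt, dif_pos, Fin.val_last, Nat.sub_self, Nat.cast_zero, zero_mul, mul_zero,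
      add_zero, Fin.eta]
    refine Finset.sum_congr rfl fun k _ => ?_
    have h1 : r - 1 - (k : ℕ) = r - (k : ℕ) - 1 := by omega
    rw [Fin.val_castSucc, h1]
    ring
  rw [e1, e2, Finset.mul_sum, Finset.mul_sum, ← Finset.sum_add_distrib]
  unfold phi
  rw [derivative_sum, eval_finsetSum]
  refine Finset.sum_congr rfl fun k _ => ?_
  rw [derivative_C_mul, derivative_mul, derivative_pow, derivative_pow]
  simp
  ring

end Pool.Agent.NH28
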