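import Pool.Agent.NH28.QC2

/-!
General position of the discriminant hypersurface.
-/

set_option autoImplicit false

namespace Pool.Agent.NH28

open Finset Polynomial
open Pool.Agent.R405.AQ (hm hm_mul hm_lin hm_C_mul gen_pos)

variable {L : Type} [Field L]

theorem parallel {A B : L × L} (hA : A ≠ 0) (h : A.1 * B.2 = B.1 * A.2) :
    ∃ c : L, B = (c * A.1, c * A.2) := by
  by_cases h1 : A.1 = 0
  · have h2 : A.2 ≠ 0 := fun h2 => hA (Prod.ext h1 h2)
    refine ⟨B.2 / A.2, Prod.ext ?_ ?_⟩
    · rw [h1, zero_mul] at h
      rcases mul_eq_zero.1 h.symm with h3 | h3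
      · simp [h1, h3]
      · exact absurd h3 h2
    · simp only
      field_simp
  · refine ⟨B.1 / A.1, Prod.ext ?_ ?_⟩
    · simp only
      field_simp
    · simp only
      field_simp
      linear_combination h

theorem hv_smul {r : ℕ} (x : Fin (r + 1) → L) (c : L) (P : L × L) :
    hv x (c * P.1, c * P.2) = c ^ r * hv x P := by
  rw [← hm_pol, ← hm_pol, hm_smul]

/-- the discriminant of a form with simple zeros does not vanish -/
theorem dl_pts [IsAlgClosed L] [CharZero L] {r : ℕ} (hr : 2 ≤ r) (x : Fin (r + 1) → L)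
    (P : Fin r → L × L) (hne : ∀ j, P j ≠ 0)
    (hpw : ∀ i j, i ≠ j → (P i).1 * (P j).2 ≠ (P j).1 * (P i).2) (hx : ∀ j, hv x (P j) = 0)
    (hd : dl x = 0) : x = 0 := by
  classical
  obtain ⟨Q, hQ, h1, h2⟩ := common_zero (fX x) (fY x) (natDegree_fX x) (natDegree_fY x) hd
  have hvQ : hv x Q = 0 := by
    have h3 := euler (by omega : 1 ≤ r) x Q
    rw [h1, h2, mul_zero, mul_zero, add_zero] at h3
    rcases mul_eq_zero.1 h3 with h4 | h4
    · exact absurd (by exact_mod_cast h4) (by omega : ¬ r = 0)
    · exact h4
  by_cases hc : ∀ j, (P j).1 * Q.2 ≠ Q.1 * (P j).2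
  · refine zero_of_pts x (Fin.cons Q P) ?_ ?_ ?_
    · intro j
      refine Fin.cases ?_ (fun j => ?_) j
      · exact hQ
      · exact hne j
    · intro i j
      refine Fin.cases ?_ (fun i => ?_) i <;> refine Fin.cases ?_ (fun j => ?_) j
      · intro h
        exact absurd rfl h
      · intro _ h
        exact hc j (by simpa using h.symm)
      · intro _ h
        exact hc i (by simpa using h)
      · intro hij h
        exact hpw i j (fun h3 => hij (by rw [h3])) (by simpa using h)
    · intro j
      refine Fin.cases ?_ (fun j => ?_) j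
      · exact hvQ
      · exact hx j
  · push Not at hc
    obtain ⟨j0, hj0⟩ := hc
    obtain ⟨c, hcQ⟩ := parallel (hne j0) hj0
    have hc0 : c ≠ 0 := by
      rintro rfl
      apply hQ
      rw [hcQ]
      simp
    rw [hcQ, hm_smul] at h1 h2
    have h1' : hm (r - 1) (fX x) (P j0) = 0 :=
      (mul_eq_zero.1 h1).resolve_left (pow_ne_zero _ hc0)
    have h2' : hm (r - 1) (fY x) (P j0) = 0 :=
      (mul_eq_zero.1 h2).resolve_left (pow_ne_zero _ hc0)
    obtain ⟨j1, hj1⟩ : ∃ j1 : Fin r, j1 ≠ j0 := by
      have : Nontrivial (Fin r) := Fin.nontrivial_iff_two_le.2 hr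
      exact exists_ne j0
    set φ := phi x (P j0) (P j1) with hφ
    have hdet : (P j0).1 * (P j1).2 - (P j1).1 * (P j0).2 ≠ 0 :=
      sub_ne_zero.2 (hpw j0 j1 (Ne.symm hj1))
    -- the polynomial on the line vanishes
    have hφ0 : φ = 0 := by
      have hnd : φ.natDegree ≤ r - 1 := by
        refine natDegree_le_iff_coeff_eq_zero.2 fun N hN => ?_
        rcases Nat.lt_or_ge r N with h3 | h3
        · exact coeff_eq_zero_of_natDegree_lt (lt_of_le_of_lt (ph_natDegree _ _ _) h3)
        · have : N = r := by omega
          rw [this, hφ, ph_coeff, hx]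
      have hc0 : φ.coeff 0 = 0 := by
        rw [coeff_zero_eq_eval_zero, hφ, ph_eval]
        simp only [mul_zero, add_zero]
        exact hx j0
      have hc1 : φ.coeff 1 = 0 := by
        have h3 := ph_deriv (by omega : 1 ≤ r) x (P j0) (P j1)
        rw [h1', h2', mul_zero, mul_zero, add_zero, ← coeff_zero_eq_eval_zero,
          coeff_derivative] at h3
        simpa using h3
      have hdvd : (X : L[X]) ^ 2 ∣ φ := by
        rw [X_pow_dvd_iff]
        intro d hd
        interval_cases d
        · exact hc0
        · exact hc1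
      obtain ⟨ψ, hψ⟩ := hdvd
      by_contra hne0
      have hψ0 : ψ ≠ 0 := by
        rintro rfl
        exact hne0 (by rw [hψ, mul_zero])
      have hψd : ψ.natDegree + 2 ≤ r - 1 := by
        have h3 : φ.natDegree = 2 + ψ.natDegree := by
          rw [hψ, natDegree_mul (pow_ne_zero _ X_ne_zero) hψ0, natDegree_X_pow]
        omega
      have ht : ∀ j : {j : Fin r // j ≠ j0 ∧ j ≠ j1}, ∃ t : L, t ≠ 0 ∧
          (P j).1 * ((P j0).2 + (P j1).2 * t) = ((P j0).1 + (P j1).1 * t) * (P j).2 := by
        rintro ⟨j, hja, hjb⟩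
        have d1 : (P j).1 * (P j1).2 - (P j1).1 * (P j).2 ≠ 0 := sub_ne_zero.2 (hpw j j1 hjb)
        have d0 : (P j).1 * (P j0).2 - (P j0).1 * (P j).2 ≠ 0 := sub_ne_zero.2 (hpw j j0 hja)
        refine ⟨-((P j).1 * (P j0).2 - (P j0).1 * (P j).2) /
          ((P j).1 * (P j1).2 - (P j1).1 * (P j).2), div_ne_zero (neg_ne_zero.2 d0) d1, ?_⟩
        have he := div_mul_cancel₀ (-((P j).1 * (P j0).2 - (P j0).1 * (P j).2)) d1
        linear_combination he
      choose t ht0 ht using ht
      have hnz : ∀ s : L, ((P j0).1 + (P j1).1 * s, (P j0).2 + (P j1).2 * s) ≠ (0 : L × L) := by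
        intro s h3
        apply hdet
        have e1 := congrArg Prod.fst h3
        have e2 := congrArg Prod.snd h3
        simp only [Prod.fst_zero, Prod.snd_zero] at e1 e2
        linear_combination (P j1).2 * e1 - (P j1).1 * e2
      refine hψ0 (eq_zero_of_natDegree_lt_card_of_eval_eq_zero ψ (f := t) ?_ ?_ ?_)
      · intro a b hab
        by_contra hne'
        have h3 := ht a
        have h4 := ht b
        rw [← hab] at h4
        have hab' : (a : Fin r) ≠ b := fun h => hne' (Subtype.ext h)
        apply hpw a b hab'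
        by_contra h5
        have h6 : (P a).1 * (P b).2 - (P b).1 * (P a).2 ≠ 0 := sub_ne_zero.2 h5
        apply hnz (t a)
        refine Prod.ext ?_ ?_
        · show (P j0).1 + (P j1).1 * t a = 0
          have : ((P a).1 * (P b).2 - (P b).1 * (P a).2) * ((P j0).1 + (P j1).1 * t a) = 0 := by
            linear_combination (P b).1 * h3 - (P a).1 * h4
          exact (mul_eq_zero.1 this).resolve_left h6
        · show (P j0).2 + (P j1).2 * t a = 0
          have : ((P a).1 * (P b).2 - (P b).1 * (P a).2) * ((P j0).2 + (P j1).2 * t a) = 0 := by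
            linear_combination (P b).2 * h3 - (P a).2 * h4
          exact (mul_eq_zero.1 this).resolve_left h6
      · intro j
        have h3 : φ.eval (t j) = 0 := by
          rw [hφ, ph_eval]
          obtain ⟨c', hc'⟩ := parallel (hne j) (B := ((P j0).1 + (P j1).1 * t j,
            (P j0).2 + (P j1).2 * t j)) (ht j)
          rw [hc', hv_smul, hx, mul_zero]
        rw [hψ, eval_mul, eval_pow, eval_X] at h3
        exact (mul_eq_zero.1 h3).resolve_left (pow_ne_zero _ (ht0 j))
      · have hcard : Fintype.card {j : Fin r // j ≠ j0 ∧ j ≠ j1} = r - 2 := by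
          rw [Fintype.card_subtype]
          have : (Finset.univ.filter fun j : Fin r => j ≠ j0 ∧ j ≠ j1) =
              (Finset.univ.erase j0).erase j1 := by
            ext j
            simp only [Finset.mem_filter, Finset.mem_univ, true_and, Finset.mem_erase, and_true]
            exact and_comm
          rw [this, Finset.card_erase_of_mem (Finset.mem_erase.2 ⟨hj1, Finset.mem_univ _⟩),
            Finset.card_erase_of_mem (Finset.mem_univ _), Finset.card_univ, Fintype.card_fin]
          omega
        rw [hcard]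
        omega
    -- the form vanishes
    refine zero_of_pts x (fun i : Fin (r + 1) => ((P j0).1 + (P j1).1 * ((i : ℕ) : L),
      (P j0).2 + (P j1).2 * ((i : ℕ) : L))) ?_ ?_ ?_
    · intro i h3
      apply hdet
      have e1 := congrArg Prod.fst h3
      have e2 := congrArg Prod.snd h3
      simp only [Prod.fst_zero, Prod.snd_zero] at e1 e2
      linear_combination (P j1).2 * e1 - (P j1).1 * e2
    · intro i j hij h3
      simp only at h3
      have h4 : ((P j0).1 * (P j1).2 - (P j1).1 * (P j0).2) * (((j : ℕ) : L) - ((i : ℕ) : L)) =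
          0 := by
        linear_combination h3
      rcases mul_eq_zero.1 h4 with h5 | h5
      · exact hdet h5
      · apply hij
        apply Fin.ext
        exact_mod_cast (sub_eq_zero.1 h5).symm
    · intro i
      have h3 := ph_eval x (P j0) (P j1) ((i : ℕ) : L)
      rw [← hφ, hφ0, eval_zero] at h3
      exact h3.symm

/-- the version over any field of characteristic zero -/
theorem dl_pts' [CharZero L] {r : ℕ} (hr : 2 ≤ r) (x : Fin (r + 1) → L)
    (P : Fin r → L × L) (hne : ∀ j, P j ≠ 0)
    (hpw : ∀ i j, i ≠ j → (P i).1 * (P j).2 ≠ (P j).1 * (P i).2) (hx : ∀ j, hv x (P j) = 0)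
    (hd : dl x = 0) : x = 0 := by
  set ι := algebraMap L (AlgebraicClosure L) with hι
  have h1 := dl_pts hr (fun k => ι (x k)) (fun j => (ι (P j).1, ι (P j).2)) (by
    intro j h
    apply hne j
    have h1 := congrArg Prod.fst h
    have h2 := congrArg Prod.snd h
    simp only [Prod.fst_zero, Prod.snd_zero, map_eq_zero] at h1 h2
    exact Prod.ext h1 h2) (by
    intro i j hij h
    apply hpw i j hij
    simp only at h
    rw [← map_mul, ← map_mul] at h
    exact ι.injective h) (by
    intro j
    have h2 : hv (fun k => ι (x k)) (ι (P j).1, ι (P j).2) = ι (hv x (P j)) := by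
      unfold hv
      rw [map_sum]
      refine Finset.sum_congr rfl fun k _ => ?_
      rw [map_mul, map_mul, map_pow, map_pow]
    rw [h2, hx, map_zero]) (by
    rw [← map_dl, hd, map_zero])
  funext k
  have h2 := congrFun h1 k
  simp only [Pi.zero_apply] at h2
  exact (map_eq_zero ι).1 h2

end Pool.Agent.NH28
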