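import Pool.Agent.NH28.Main

/-!
Hypersurface sections in general position: points of bounded degree.
-/

set_option autoImplicit false

namespace Pool.Agent.NH28

open MvPolynomial Finset NumberField IsDedekindDomain Height Module
open Pool.Agent.W180.OP Pool.Agent.W180.TP
open Pool.Agent.TH875 (top_members not_all form_ub)

lemma one_le_cst {ν r : ℕ} (hν : 1 ≤ ν) (hr : 1 ≤ r) : (ν : ℝ) + 1 ≤ cst ν r := by
  have h1 := cst_pos hν hr
  unfold cst
  rw [le_div_iff₀ h1]
  have hr1 : (1 : ℝ) ≤ r := by exact_mod_cast hr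
  have hx0 : 0 ≤ 1 - 1 / (r : ℝ) := by
    rw [sub_nonneg, div_le_one (by linarith)]
    exact hr1
  have hx1 : 1 - 1 / (r : ℝ) ≤ 1 := by
    have : 0 ≤ 1 / (r : ℝ) := by positivity
    linarith
  have h2 : (1 - 1 / (r : ℝ)) ^ (1 / (ν : ℝ)) ≤ 1 := Real.rpow_le_one hx0 hx1 (by positivity)
  have h3 : 0 ≤ (ν : ℝ) * (r - 1) * (1 - (1 - 1 / (r : ℝ)) ^ (1 / (ν : ℝ))) :=
    mul_nonneg (mul_nonneg (Nat.cast_nonneg _) (by linarith)) (by linarith)
  have h4 : (0 : ℝ) ≤ (ν : ℝ) + 1 := by positivity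
  nlinarith

theorem t2 {K : Type} [Field K] [NumberField K] {n m q ν r : ℕ} (hν : 1 ≤ ν) (hr : 1 ≤ r)
    (hq : ν + 1 ≤ q) (G : Fin m → MvPolynomial (Fin n) K) (g : Fin m → ℕ)
    (hG : ∀ k, (G k).IsHomogeneous (g k))
    (hprime : (Ideal.span (Set.range G)).IsPrime)
    (htr : Algebra.trdeg K (MvPolynomial (Fin n) K ⧸ Ideal.span (Set.range G)) = (ν + 1 : ℕ))
    (F : Fin q → MvPolynomial (Fin n) K) (d : Fin q → ℕ) (hd : ∀ i, 1 ≤ d i)
    (hF : ∀ i, (F i).IsHomogeneous (d i))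
    (hgp : ∀ e : Fin (ν + 1) ↪ Fin q, ∀ (L : Type) [Field L] [Algebra K L] (x : Fin n → L),
      (∀ k, aeval x (G k) = 0) → (∀ k, aeval x (F (e k)) = 0) → x = 0)
    (ε : ℝ) (hε : 0 < ε) :
    ∃ Z : MvPolynomial (Fin n) K, Z ∉ Ideal.span (Set.range G) ∧ (∃ t, Z.IsHomogeneous t) ∧
      ∀ S : Finset (Pl K), ∃ C : ℝ, 0 ≤ C ∧ ∀ (L : Type) [Field L] [NumberField L] [Algebra K L],
        finrank K L ≤ r → ∀ x : Fin n → L, x ≠ 0 → (∀ k, aeval x (G k) = 0) →
        IntermediateField.adjoin K {z | ∃ i j, z = x i / x j} = ⊤ → aeval x Z ≠ 0 →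
        (∀ i, aeval x (F i) ≠ 0) →
        ∀ T : Finset (Pl L), (∀ w ∈ T, ∃ v ∈ S, Ov v w) →
        ∑ w ∈ T, wt w * ∑ i, lam (av w) (d i) (bc L (F i)) x / d i ≤
          (cst ν r + ε) * logHeight x + C := by
  classical
  set D : ℕ := ∏ i, d i with hDd
  have hD : 1 ≤ D := Nat.one_le_iff_ne_zero.2
    (Finset.prod_ne_zero_iff.2 fun i _ => (Nat.one_le_iff_ne_zero.1 (hd i)))
  have hdD : ∀ i, d i ∣ D := fun i => Finset.dvd_prod_of_mem d (Finset.mem_univ i)
  set y : (Fin (ν + 1) ↪ Fin q) → Fin (ν + 1) → MvPolynomial (Fin n) K := fun e k =>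
    F (e k) ^ (D / d (e k)) with hy
  have hyh : ∀ e k, (y e k).IsHomogeneous D := by
    intro e k
    have := (hF (e k)).pow (D / d (e k))
    rwa [Nat.mul_div_cancel' (hdD (e k))] at this
  have h0y : ∀ e, ∀ (L : Type) [Field L] [Algebra K L] (x : Fin n → L),
      (∀ k, aeval x (G k) = 0) → (∀ k, aeval x (y e k) = 0) → x = 0 := by
    intro e L _ _ x hx hxy
    refine hgp e L x hx fun k => ?_
    have h1 := hxy k
    simp only [hy, map_pow] at h1
    exact eq_zero_of_pow_eq_zero h1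
  have : Nonempty (Fin (ν + 1) ↪ Fin q) := ⟨Fin.castLEEmb hq⟩
  obtain ⟨Z, hZ, hZh, hmain⟩ := main_core hν hr hD G g hG hprime htr y hyh h0y ε hε
  refine ⟨Z, hZ, hZh, fun S => ?_⟩
  obtain ⟨C, hC0, hC⟩ := hmain S
  choose Ca hCa0 hCa using fun e => not_all (Nat.succ_pos ν) G g hG (y e) (hyh e) (h0y e)
  choose Cb hCb0 hCb using fun i : Fin q => form_ub (F i) (hF i)
  have hCas : 0 ≤ ∑ e, Ca e := Finset.sum_nonneg fun e _ => hCa0 e
  have hCbs : 0 ≤ ∑ i, Cb i := Finset.sum_nonneg fun e _ => hCb0 e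
  set Q : ℝ := (finrank ℚ K : ℝ) * r with hQ
  have hQ0 : 0 ≤ Q := by positivity
  refine ⟨C + S.card * (r * (q * (∑ e, Ca e) * Q)), by positivity, ?_⟩
  intro L _ _ _ hrL x hx hGx hadj hZx hFx T hT
  have hfq : (finrank ℚ L : ℝ) ≤ Q := by
    have h1 : finrank ℚ K * finrank K L = finrank ℚ L := finrank_mul_finrank ℚ K L
    rw [hQ, ← h1]
    push_cast
    exact mul_le_mul_of_nonneg_left (by exact_mod_cast hrL) (Nat.cast_nonneg _)
  have hfq0 : (0 : ℝ) ≤ finrank ℚ L := Nat.cast_nonneg _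
  have hyx : ∀ e k, aeval x (y e k) ≠ 0 := by
    intro e k
    simp only [hy, map_pow]
    exact pow_ne_zero _ (hFx _)
  have hd0 : ∀ i, (1 : ℝ) ≤ d i := fun i => by exact_mod_cast hd i
  have hD1 : (1 : ℝ) ≤ D := by exact_mod_cast hD
  choose e he using fun w : Pl L => top_members hq
    (fun i => lam (av w) (d i) (bc L (F i)) x / d i)
  -- one place
  have hplace : ∀ w : Pl L, wt w * ∑ i, lam (av w) (d i) (bc L (F i)) x / d i ≤
      (∑ k, wt w * lam (av w) D (bc L (y (e w) k)) x) / D + q * (∑ e, Ca e) * Q := by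
    intro w
    set f := av w with hf
    set u : Fin q → ℝ := fun i => lam f (d i) (bc L (F i)) x / d i with hu
    have hwt := wt_nonneg w
    have hlamy : ∀ k, lam f D (bc L (y (e w) k)) x = D * u (e w k) := by
      intro k
      have hdk : (d (e w k) : ℝ) ≠ 0 := by
        have := hd0 (e w k)
        linarith
      have e1 : (D : ℝ) = d (e w k) * ((D / d (e w k) : ℕ) : ℝ) := by
        exact_mod_cast (Nat.mul_div_cancel' (hdD (e w k))).symm
      have e2 : rho f D (y (e w) k) x = rho f (d (e w k)) (F (e w k)) x ^ (D / d (e w k)) := by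
        have h1 := rho_pow (K := K) f (d (e w k)) (D / d (e w k)) (F (e w k)) x
        rw [Nat.mul_div_cancel' (hdD (e w k))] at h1
        exact h1
      rw [lam_rho, e2, Real.log_pow]
      simp only [hu]
      rw [lam_rho]
      conv_rhs => rw [e1]
      field_simp
    obtain ⟨k1, hk1⟩ := hCa (e w) L w x hx hGx (hyx (e w))
    have hCaw : Ca (e w) * finrank ℚ L ≤ (∑ e, Ca e) * Q :=
      mul_le_mul (Finset.single_le_sum (f := Ca) (fun e _ => hCa0 e) (Finset.mem_univ _)) hfq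
        hfq0 hCas
    have huk1 : wt w * u (e w k1) ≤ (∑ e, Ca e) * Q := by
      rw [hlamy] at hk1
      have hCN : 0 ≤ (∑ e, Ca e) * Q := by positivity
      rcases le_total (wt w * u (e w k1)) 0 with h | h
      · linarith
      · have : wt w * u (e w k1) ≤ D * (wt w * u (e w k1)) := le_mul_of_one_le_left h hD1
        linarith
    have hrest : ∀ j, j ∉ Set.range (e w) → wt w * u j ≤ (∑ e, Ca e) * Q := by
      intro j hj
      exact (mul_le_mul_of_nonneg_left (he w j hj k1) hwt).trans huk1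
    have e1 : ∑ i, u i = ∑ i ∈ Finset.univ.map (e w), u i +
        ∑ i ∈ Finset.univ.filter (fun i => i ∉ Finset.univ.map (e w)), u i := by
      rw [← Finset.sum_filter_add_sum_filter_not Finset.univ (fun i => i ∈ Finset.univ.map (e w))]
      congr 1
      refine Finset.sum_congr ?_ fun _ _ => rfl
      ext i
      simp
    rw [e1, Finset.sum_map, mul_add]
    have h2 : wt w * ∑ k, u (e w k) = (∑ k, wt w * lam f D (bc L (y (e w) k)) x) / D := by
      rw [Finset.mul_sum, Finset.sum_div]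
      refine Finset.sum_congr rfl fun k _ => ?_
      rw [hlamy]
      field_simp
    rw [h2]
    refine add_le_add le_rfl ?_
    rw [Finset.mul_sum]
    have h1 : ∑ i ∈ Finset.univ.filter (fun i => i ∉ Finset.univ.map (e w)), wt w * u i ≤
        ∑ _i ∈ Finset.univ.filter (fun i : Fin q => i ∉ Finset.univ.map (e w)),
          (∑ e, Ca e) * Q := by
      refine Finset.sum_le_sum fun i hi => hrest i ?_
      have h2 := (Finset.mem_filter.1 hi).2
      simpa using h2
    refine h1.trans ?_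
    rw [Finset.sum_const, nsmul_eq_mul, mul_assoc]
    refine mul_le_mul_of_nonneg_right ?_ (by positivity)
    have h3 := Finset.card_le_univ (Finset.univ.filter fun i : Fin q => i ∉ Finset.univ.map (e w))
    rw [Fintype.card_fin] at h3
    exact_mod_cast h3
  -- all places
  set A : Pl K → Finset (Pl L) := fun v => (ab L v).filter fun w => w ∈ T with hA
  have h1 := hC L hrL x hx hGx hadj hZx e (fun w k => hyx (e w) k) A
    (fun v => Finset.filter_subset _ _)
  have hTS : T = S.biUnion A := by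
    ext w
    rw [Finset.mem_biUnion]
    constructor
    · intro hw
      obtain ⟨v, hv, hvw⟩ := hT w hw
      exact ⟨v, hv, Finset.mem_filter.2 ⟨mem_ab.2 hvw, hw⟩⟩
    · rintro ⟨v, _, hw⟩
      exact (Finset.mem_filter.1 hw).2
  have hdisj : (S : Set (Pl K)).PairwiseDisjoint A := by
    intro v _ v' _ hne
    rw [Function.onFun, Finset.disjoint_left]
    intro w hw hw'
    exact hne (ov_unique (mem_ab.1 (Finset.mem_filter.1 hw).1) (mem_ab.1 (Finset.mem_filter.1 hw').1))
  have h2 : ∑ w ∈ T, wt w * ∑ i, lam (av w) (d i) (bc L (F i)) x / d i ≤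
      ∑ v ∈ S, ∑ w ∈ A v, ((∑ k, wt w * lam (av w) D (bc L (y (e w) k)) x) / D +
        q * (∑ e, Ca e) * Q) := by
    rw [hTS, Finset.sum_biUnion hdisj]
    exact Finset.sum_le_sum fun v _ => Finset.sum_le_sum fun w _ => hplace w
  refine h2.trans ?_
  have h3 : ∑ v ∈ S, ∑ w ∈ A v, ((∑ k, wt w * lam (av w) D (bc L (y (e w) k)) x) / D +
        q * (∑ e, Ca e) * Q) =
      (∑ v ∈ S, ∑ w ∈ A v, ∑ k, wt w * lam (av w) D (bc L (y (e w) k)) x) / D +
        ∑ v ∈ S, ∑ w ∈ A v, q * (∑ e, Ca e) * Q := by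
    rw [Finset.sum_div, ← Finset.sum_add_distrib]
    refine Finset.sum_congr rfl fun v _ => ?_
    rw [Finset.sum_div, ← Finset.sum_add_distrib]
  rw [h3]
  have h4 : ∑ v ∈ S, ∑ w ∈ A v, (q : ℝ) * (∑ e, Ca e) * Q ≤
      S.card * (r * (q * (∑ e, Ca e) * Q)) := by
    have h5 : ∀ v ∈ S, ∑ _w ∈ A v, (q : ℝ) * (∑ e, Ca e) * Q ≤ r * (q * (∑ e, Ca e) * Q) := by
      intro v _
      rw [Finset.sum_const, nsmul_eq_mul]
      refine mul_le_mul_of_nonneg_right ?_ (by positivity)
      exact_mod_cast (Finset.card_filter_le _ _).trans ((card_ab_le L v).trans hrL)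
    refine (Finset.sum_le_sum h5).trans (le_of_eq ?_)
    rw [Finset.sum_const, nsmul_eq_mul]
  have hD0 : (0 : ℝ) < D := by linarith
  have h5 : (∑ v ∈ S, ∑ w ∈ A v, ∑ k, wt w * lam (av w) D (bc L (y (e w) k)) x) / D ≤
      (cst ν r + ε) * logHeight x + C := by
    rw [div_le_iff₀ hD0]
    refine h1.trans ?_
    have h6 : C ≤ C * D := le_mul_of_one_le_right hC0 hD1
    linarith
  linarith

end Pool.Agent.NH28
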