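import Pool.Agent.NH28.GainD
import Pool.Agent.NH28.T2

/-!
Hypersurface sections in general position: points of bounded degree, with local degrees.
-/

set_option autoImplicit false

namespace Pool.Agent.NH28

open MvPolynomial Finset NumberField IsDedekindDomain Height Module
open Pool.Agent.W180.OP Pool.Agent.W180.TP
open Pool.Agent.TH875 (top_members not_all form_ub)

theorem t2w {K : Type} [Field K] [NumberField K] {n m q ν r : ℕ} (hν : 1 ≤ ν) (hr : 1 ≤ r)
    (hq : ν + 1 ≤ q) (G : Fin m → MvPolynomial (Fin n) K) (g : Fin m → ℕ)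
    (hG : ∀ k, (G k).IsHomogeneous (g k))
    (hprime : (Ideal.span (Set.range G)).IsPrime)
    (htr : Algebra.trdeg K (MvPolynomial (Fin n) K ⧸ Ideal.span (Set.range G)) = (ν + 1 : ℕ))
    (F : Fin q → MvPolynomial (Fin n) K) (d : Fin q → ℕ) (hd : ∀ i, 1 ≤ d i)
    (hF : ∀ i, (F i).IsHomogeneous (d i))
    (hgp : ∀ e : Fin (ν + 1) ↪ Fin q, ∀ (L : Type) [Field L] [Algebra K L] (x : Fin n → L),
      (∀ k, aeval x (G k) = 0) → (∀ k, aeval x (F (e k)) = 0) → x = 0)
    (ε : ℝ) (hε : 0 < ε) :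
    ∃ Z : MvPolynomial (Fin n) K, Z ∉ Ideal.span (Set.range G) ∧ (∃ t, Z.IsHomogeneous t) ∧
      ∀ S : Finset (Pl K), ∃ C : ℝ, 0 ≤ C ∧ ∀ (L : Type) [Field L] [NumberField L] [Algebra K L],
        finrank K L ≤ r → ∀ x : Fin n → L, x ≠ 0 → (∀ k, aeval x (G k) = 0) →
        IntermediateField.adjoin K {z | ∃ i j, z = x i / x j} = ⊤ → aeval x Z ≠ 0 →
        (∀ i, aeval x (F i) ≠ 0) →
        ∀ (T : Finset (Pl L)) (V : Pl L → Pl K), (∀ w ∈ T, V w ∈ S ∧ Ov (V w) w) →
        ∑ w ∈ T, wt w * (∑ i, lam (av w) (d i) (bc L (F i)) x / d i) /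
          cstR ν (finrank K L / nn (V w) w) ≤ (1 + ε) * logHeight x + C := by
  classical
  set D : ℕ := ∏ i, d i with hDd
  have hD : 1 ≤ D := Nat.one_le_iff_ne_zero.2
    (Finset.prod_ne_zero_iff.2 fun i _ => (Nat.one_le_iff_ne_zero.1 (hd i)))
  have hdD : ∀ i, d i ∣ D := fun i => Finset.dvd_prod_of_mem d (Finset.mem_univ i)
  set y : (Fin (ν + 1) ↪ Fin q) → Fin (ν + 1) → MvPolynomial (Fin n) K := fun e k =>
    F (e k) ^ (D / d (e k)) with hy
  have hyh : ∀ e k, (y e k).IsHomogeneous D := by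
    intro e k
    have := (hF (e k)).pow (D / d (e k))
    rwa [Nat.mul_div_cancel' (hdD (e k))] at this
  have h0y : ∀ e, ∀ (L : Type) [Field L] [Algebra K L] (x : Fin n → L),
      (∀ k, aeval x (G k) = 0) → (∀ k, aeval x (y e k) = 0) → x = 0 := by
    intro e L _ _ x hx hxy
    refine hgp e L x hx fun k => ?_
    have h1 := hxy k
    simp only [hy, map_pow] at h1
    exact eq_zero_of_pow_eq_zero h1
  have : Nonempty (Fin (ν + 1) ↪ Fin q) := ⟨Fin.castLEEmb hq⟩
  obtain ⟨Z, hZ, hZh, hmain⟩ := main_w hr hD G g hG hprime htr y hyh h0y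
    (fun _ Λ ρ => (∑ k, Λ k) / ((|cstR ν ρ| + ε) * D))
    (fun _ Λ ρ hΛ _ => div_nonneg (Finset.sum_nonneg fun k _ => hΛ k) (by positivity))
    (gain_div hν hD ε hε)
  refine ⟨Z, hZ, hZh, fun S => ?_⟩
  obtain ⟨C, c0, hC0, hc00, hC⟩ := hmain S
  choose Ca hCa0 hCa using fun e => not_all (Nat.succ_pos ν) G g hG (y e) (hyh e) (h0y e)
  choose Cb hCb0 hCb using fun i : Fin q => form_ub (F i) (hF i)
  have hCas : 0 ≤ ∑ e, Ca e := Finset.sum_nonneg fun e _ => hCa0 e
  have hCbs : 0 ≤ ∑ i, Cb i := Finset.sum_nonneg fun e _ => hCb0 e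
  set Q : ℝ := (finrank ℚ K : ℝ) * r with hQ
  have hQ0 : 0 ≤ Q := by positivity
  refine ⟨(1 + ε) * C + S.card * (r * (q * (∑ e, Ca e) * Q)), by positivity, ?_⟩
  intro L _ _ _ hrL x hx hGx hadj hZx hFx T V hT
  have hfq : (finrank ℚ L : ℝ) ≤ Q := by
    have h1 : finrank ℚ K * finrank K L = finrank ℚ L := finrank_mul_finrank ℚ K L
    rw [hQ, ← h1]
    push_cast
    exact mul_le_mul_of_nonneg_left (by exact_mod_cast hrL) (Nat.cast_nonneg _)
  have hfq0 : (0 : ℝ) ≤ finrank ℚ L := Nat.cast_nonneg _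
  have hyx : ∀ e k, aeval x (y e k) ≠ 0 := by
    intro e k
    simp only [hy, map_pow]
    exact pow_ne_zero _ (hFx _)
  have hd0 : ∀ i, (1 : ℝ) ≤ d i := fun i => by exact_mod_cast hd i
  have hD1 : (1 : ℝ) ≤ D := by exact_mod_cast hD
  have hD0 : (0 : ℝ) < D := by linarith
  choose e he using fun w : Pl L => top_members hq
    (fun i => lam (av w) (d i) (bc L (F i)) x / d i)
  -- one place
  have hplace : ∀ w : Pl L, wt w * ∑ i, lam (av w) (d i) (bc L (F i)) x / d i ≤
      (∑ k, wt w * lam (av w) D (bc L (y (e w) k)) x) / D + q * (∑ e, Ca e) * Q := by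
    intro w
    set f := av w with hf
    set u : Fin q → ℝ := fun i => lam f (d i) (bc L (F i)) x / d i with hu
    have hwt := wt_nonneg w
    have hlamy : ∀ k, lam f D (bc L (y (e w) k)) x = D * u (e w k) := by
      intro k
      have hdk : (d (e w k) : ℝ) ≠ 0 := by
        have := hd0 (e w k)
        linarith
      have e1 : (D : ℝ) = d (e w k) * ((D / d (e w k) : ℕ) : ℝ) := by
        exact_mod_cast (Nat.mul_div_cancel' (hdD (e w k))).symm
      have e2 : rho f D (y (e w) k) x = rho f (d (e w k)) (F (e w k)) x ^ (D / d (e w k)) := by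
        have h1 := rho_pow (K := K) f (d (e w k)) (D / d (e w k)) (F (e w k)) x
        rw [Nat.mul_div_cancel' (hdD (e w k))] at h1
        exact h1
      rw [lam_rho, e2, Real.log_pow]
      simp only [hu]
      rw [lam_rho]
      conv_rhs => rw [e1]
      field_simp
    obtain ⟨k1, hk1⟩ := hCa (e w) L w x hx hGx (hyx (e w))
    have hCaw : Ca (e w) * finrank ℚ L ≤ (∑ e, Ca e) * Q :=
      mul_le_mul (Finset.single_le_sum (f := Ca) (fun e _ => hCa0 e) (Finset.mem_univ _)) hfq
        hfq0 hCas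
    have huk1 : wt w * u (e w k1) ≤ (∑ e, Ca e) * Q := by
      rw [hlamy] at hk1
      have hCN : 0 ≤ (∑ e, Ca e) * Q := by positivity
      rcases le_total (wt w * u (e w k1)) 0 with h | h
      · linarith
      · have : wt w * u (e w k1) ≤ D * (wt w * u (e w k1)) := le_mul_of_one_le_left h hD1
        linarith
    have hrest : ∀ j, j ∉ Set.range (e w) → wt w * u j ≤ (∑ e, Ca e) * Q := by
      intro j hj
      exact (mul_le_mul_of_nonneg_left (he w j hj k1) hwt).trans huk1
    have e1 : ∑ i, u i = ∑ i ∈ Finset.univ.map (e w), u i +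
        ∑ i ∈ Finset.univ.filter (fun i => i ∉ Finset.univ.map (e w)), u i := by
      rw [← Finset.sum_filter_add_sum_filter_not Finset.univ (fun i => i ∈ Finset.univ.map (e w))]
      congr 1
      refine Finset.sum_congr ?_ fun _ _ => rfl
      ext i
      simp
    rw [e1, Finset.sum_map, mul_add]
    have h2 : wt w * ∑ k, u (e w k) = (∑ k, wt w * lam f D (bc L (y (e w) k)) x) / D := by
      rw [Finset.mul_sum, Finset.sum_div]
      refine Finset.sum_congr rfl fun k _ => ?_
      rw [hlamy]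
      field_simp
    rw [h2]
    refine add_le_add le_rfl ?_
    rw [Finset.mul_sum]
    have h1 : ∑ i ∈ Finset.univ.filter (fun i => i ∉ Finset.univ.map (e w)), wt w * u i ≤
        ∑ _i ∈ Finset.univ.filter (fun i : Fin q => i ∉ Finset.univ.map (e w)),
          (∑ e, Ca e) * Q := by
      refine Finset.sum_le_sum fun i hi => hrest i ?_
      have h2 := (Finset.mem_filter.1 hi).2
      simpa using h2
    refine h1.trans ?_
    rw [Finset.sum_const, nsmul_eq_mul, mul_assoc]
    refine mul_le_mul_of_nonneg_right ?_ (by positivity)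
    have h3 := Finset.card_le_univ (Finset.univ.filter fun i : Fin q => i ∉ Finset.univ.map (e w))
    rw [Fintype.card_fin] at h3
    exact_mod_cast h3
  -- all places
  set A : Pl K → Finset (Pl L) := fun v => (ab L v).filter fun w => w ∈ T with hA
  obtain ⟨hpos, hfin⟩ := hC L hrL x hx hGx hadj hZx e (fun w k => hyx (e w) k)
  have h1 := hfin A (fun v => Finset.filter_subset _ _)
  have hTS : T = S.biUnion A := by
    ext w
    rw [Finset.mem_biUnion]
    constructor
    · intro hw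
      obtain ⟨hv, hvw⟩ := hT w hw
      exact ⟨V w, hv, Finset.mem_filter.2 ⟨mem_ab.2 hvw, hw⟩⟩
    · rintro ⟨v, _, hw⟩
      exact (Finset.mem_filter.1 hw).2
  have hdisj : (S : Set (Pl K)).PairwiseDisjoint A := by
    intro v _ v' _ hne
    rw [Function.onFun, Finset.disjoint_left]
    intro w hw hw'
    exact hne (ov_unique (mem_ab.1 (Finset.mem_filter.1 hw).1) (mem_ab.1 (Finset.mem_filter.1 hw').1))
  have hCq : 0 ≤ q * (∑ e, Ca e) * Q := by positivity
  have hterm : ∀ v ∈ S, ∀ w ∈ A v, wt w * (∑ i, lam (av w) (d i) (bc L (F i)) x / d i) /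
      cstR ν (finrank K L / nn (V w) w) ≤
      (1 + ε) * (nn v w * ((∑ k, LL v w c0 D (y (e w) k) x) /
        ((|cstR ν (finrank K L / nn v w)| + ε) * D))) + q * (∑ e, Ca e) * Q := by
    intro v _ w hw
    have hwab := (Finset.mem_filter.1 hw).1
    have hwT := (Finset.mem_filter.1 hw).2
    have hVw : V w = v := ov_unique (hT w hwT).2 (mem_ab.1 hwab)
    have hov := mem_ab.1 hwab
    rw [hVw]
    have hρ : 1 ≤ (finrank K L : ℝ) / nn v w := RR_one_le (rho_mem hrL hwab)
    have hc := one_le_cstR hν hρ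
    have hν0 : (0 : ℝ) ≤ ν := Nat.cast_nonneg _
    set c : ℝ := cstR ν (finrank K L / nn v w) with hcd
    have hc1 : 1 ≤ c := by linarith
    have hc0 : 0 < c := by linarith
    rw [abs_of_pos hc0]
    have hnn : 0 < nn v w := by
      have := one_le_nn hov
      linarith
    have e1 : nn v w * ((∑ k, LL v w c0 D (y (e w) k) x) / ((c + ε) * D)) =
        (∑ k, (wt w * lam (av w) D (bc L (y (e w) k)) x + c0)) / ((c + ε) * D) := by
      have e2 : ∑ k, LL v w c0 D (y (e w) k) x =
          (∑ k, (wt w * lam (av w) D (bc L (y (e w) k)) x + c0)) / nn v w := by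
        rw [Finset.sum_div]
        rfl
      rw [e2]
      field_simp
    rw [e1]
    set X : ℝ := ∑ k, (wt w * lam (av w) D (bc L (y (e w) k)) x + c0) with hX
    have hX0 : 0 ≤ X := Finset.sum_nonneg fun k _ => hpos w k
    have h2 : wt w * (∑ i, lam (av w) (d i) (bc L (F i)) x / d i) ≤
        X / D + q * (∑ e, Ca e) * Q := by
      refine (hplace w).trans (add_le_add ?_ le_rfl)
      refine div_le_div_of_nonneg_right ?_ hD0.le
      exact Finset.sum_le_sum fun k _ => by linarith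
    have h3 : wt w * (∑ i, lam (av w) (d i) (bc L (F i)) x / d i) / c ≤
        (X / D) / c + q * (∑ e, Ca e) * Q := by
      refine (div_le_div_of_nonneg_right h2 hc0.le).trans ?_
      rw [add_div]
      exact add_le_add le_rfl (div_le_self hCq hc1)
    refine h3.trans (add_le_add ?_ le_rfl)
    rw [div_div, mul_div_assoc', div_le_div_iff₀ (by positivity) (by positivity)]
    have h4 : c + ε ≤ (1 + ε) * c := by nlinarith
    have h5 := mul_le_mul_of_nonneg_left h4 (mul_nonneg hX0 hD0.le)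
    nlinarith
  rw [hTS, Finset.sum_biUnion hdisj]
  refine (Finset.sum_le_sum fun v hv => Finset.sum_le_sum fun w hw => hterm v hv w hw).trans ?_
  have h3 : ∑ v ∈ S, ∑ w ∈ A v, ((1 + ε) * (nn v w * ((∑ k, LL v w c0 D (y (e w) k) x) /
        ((|cstR ν (finrank K L / nn v w)| + ε) * D))) + q * (∑ e, Ca e) * Q) =
      (1 + ε) * (∑ v ∈ S, ∑ w ∈ A v, (nn v w * ((∑ k, LL v w c0 D (y (e w) k) x) /
        ((|cstR ν (finrank K L / nn v w)| + ε) * D)))) +
        ∑ v ∈ S, ∑ w ∈ A v, q * (∑ e, Ca e) * Q := by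
    generalize (q : ℝ) * (∑ e, Ca e) * Q = W
    rw [Finset.mul_sum, ← Finset.sum_add_distrib]
    refine Finset.sum_congr rfl fun v _ => ?_
    rw [Finset.mul_sum, ← Finset.sum_add_distrib]
  rw [h3]
  have h4 : ∑ v ∈ S, ∑ w ∈ A v, (q : ℝ) * (∑ e, Ca e) * Q ≤
      S.card * (r * (q * (∑ e, Ca e) * Q)) := by
    have h5 : ∀ v ∈ S, ∑ _w ∈ A v, (q : ℝ) * (∑ e, Ca e) * Q ≤ r * (q * (∑ e, Ca e) * Q) := by
      intro v _
      rw [Finset.sum_const, nsmul_eq_mul]
      refine mul_le_mul_of_nonneg_right ?_ (by positivity)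
      exact_mod_cast (Finset.card_filter_le _ _).trans ((card_ab_le L v).trans hrL)
    refine (Finset.sum_le_sum h5).trans (le_of_eq ?_)
    rw [Finset.sum_const, nsmul_eq_mul]
  have h5 := mul_le_mul_of_nonneg_left h1 (by linarith : (0 : ℝ) ≤ 1 + ε)
  have h6 : (1 + ε) * (logHeight x + C) = (1 + ε) * logHeight x + (1 + ε) * C := by ring
  rw [h6] at h5
  linarith

end Pool.Agent.NH28
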