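import Pool.Agent.NH28.QC3
import Pool.Agent.NH28.T2W

/-!
The subspace theorem for the hyperplanes and the discriminant hypersurface.
-/

set_option autoImplicit false

namespace Pool.Agent.NH28

open Finset NumberField IsDedekindDomain Height Module
open Pool.Agent.W180.OP (Pl av wt nrm bc eval_bc lam lam_eq wt_nonneg le_nrm nrm_pos)

/-- the linear form of a point -/
noncomputable def Hl {r : ℕ} {K : Type} [Field K] (P : K × K) : MvPolynomial (Fin (r + 1)) K :=
  ∑ k : Fin (r + 1), MvPolynomial.C (P.1 ^ (k : ℕ) * P.2 ^ (r - k)) * MvPolynomial.X k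

theorem Hl_hom {r : ℕ} {K : Type} [Field K] (P : K × K) :
    (Hl P : MvPolynomial (Fin (r + 1)) K).IsHomogeneous 1 := by
  unfold Hl
  refine MvPolynomial.IsHomogeneous.sum _ _ _ fun k _ => ?_
  have := (MvPolynomial.isHomogeneous_C (Fin (r + 1)) (P.1 ^ (k : ℕ) * P.2 ^ (r - k))).mul
    (MvPolynomial.isHomogeneous_X K k)
  rwa [zero_add] at this

theorem aeval_Hl {r : ℕ} {K L : Type} [Field K] [Field L] [Algebra K L] (P : K × K)
    (x : Fin (r + 1) → L) : MvPolynomial.aeval x (Hl P : MvPolynomial (Fin (r + 1)) K) =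
      hv x (algebraMap K L P.1, algebraMap K L P.2) := by
  unfold Hl hv
  rw [map_sum]
  refine Finset.sum_congr rfl fun k _ => ?_
  rw [map_mul, MvPolynomial.aeval_C, MvPolynomial.aeval_X, map_mul, map_pow, map_pow]
  ring

theorem nn_self {M : Type} [Field M] [NumberField M] {w : Pl M} (h : Ov w w) :
    (finrank M M : ℝ) / nn w w = 1 := by
  have h1 := one_le_nn h
  have h2 : nn w w ≤ 1 := by
    have h3 := sum_nn M w
    rw [finrank_self, Nat.cast_one] at h3
    rw [← h3]
    exact Finset.single_le_sum (f := fun w' => nn w w') (fun w' hw' =>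
      zero_le_one.trans (one_le_nn (mem_ab.1 hw'))) (mem_ab.2 h)
  have h3 : nn w w = 1 := le_antisymm h2 h1
  rw [h3, finrank_self]
  norm_num

theorem ov_self {M : Type} [Field M] [NumberField M] (w : Pl M) : Ov w w := by
  rcases w with w | w
  · show w.comap (algebraMap M M) = w
    rw [Algebra.algebraMap_self, InfinitePlace.comap_id]
  · show w.asIdeal.LiesOver w.asIdeal
    refine ⟨?_⟩
    ext y
    rw [Ideal.under_def, Ideal.mem_comap]
    have : algebraMap (𝓞 M) (𝓞 M) y = y := by
      rfl
    rw [this]

theorem cstR_one {ν : ℕ} : cstR ν 1 = ν + 1 := by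
  unfold cstR
  simp

theorem disc_off {M : Type} [Field M] [NumberField M] {q r : ℕ} (hr : 2 ≤ r) (hq : r ≤ q)
    (P : Fin q → M × M) (hne : ∀ j, P j ≠ 0)
    (hpw : ∀ i j, i ≠ j → (P i).1 * (P j).2 ≠ (P j).1 * (P i).2) (ε : ℝ) (hε : 0 < ε) :
    ∃ Z : MvPolynomial (Fin (r + 1)) M, Z ≠ 0 ∧ (∃ t, Z.IsHomogeneous t) ∧
      ∀ S : Finset (Pl M), ∃ C : ℝ, 0 ≤ C ∧ ∀ x : Fin (r + 1) → M, x ≠ 0 →
        MvPolynomial.eval x Z ≠ 0 → (∀ l, hv x (P l) ≠ 0) → dl x ≠ 0 →
        ∑ w ∈ S, wt w * (∑ l, (Real.log (nrm (av w) x) - Real.log (av w (hv x (P l)))) +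
          (((2 * (r - 1) : ℕ) : ℝ) * Real.log (nrm (av w) x) - Real.log (av w (dl x))) /
            ((2 * (r - 1) : ℕ) : ℝ)) ≤ (r + 1) * ((1 + ε) * logHeight x + C) := by
  classical
  set G : Fin 0 → MvPolynomial (Fin (r + 1)) M := Fin.elim0 with hG
  have hspan : Ideal.span (Set.range G) = ⊥ := by
    have : Set.range G = ∅ := Set.range_eq_empty _
    rw [this, Ideal.span_empty]
  set F : Fin (q + 1) → MvPolynomial (Fin (r + 1)) M := Fin.cons (Dl r M) fun l => Hl (P l)
    with hF
  set d : Fin (q + 1) → ℕ := Fin.cons (2 * (r - 1)) fun _ => 1 with hd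
  obtain ⟨Z, hZ, hZh, hmain⟩ := t2w (K := M) (n := r + 1) (m := 0) (q := q + 1) (ν := r) (r := 1)
    (by omega) le_rfl (by omega) G Fin.elim0 (fun k => k.elim0) (by
      rw [hspan]
      exact Ideal.isPrime_bot) (by
      rw [hspan]
      have e := (AlgEquiv.quotientBot M (MvPolynomial (Fin (r + 1)) M))
      rw [e.trdeg_eq, MvPolynomial.trdeg_of_isDomain]
      simp) F d (by
      intro i
      refine Fin.cases ?_ (fun i => ?_) i
      · simp only [hd, Fin.cons_zero]
        omega
      · simp only [hd, Fin.cons_succ]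
        exact le_rfl) (by
      intro i
      refine Fin.cases ?_ (fun i => ?_) i
      · simp only [hd, hF, Fin.cons_zero]
        exact Dl_hom r M
      · simp only [hd, hF, Fin.cons_succ]
        exact Hl_hom _) (by
      intro e L _ _ x _ hx
      have : CharZero L := charZero_of_injective_algebraMap (algebraMap M L).injective
      set P' : Fin q → L × L := fun l => (algebraMap M L (P l).1, algebraMap M L (P l).2) with hP'
      have hne' : ∀ j, P' j ≠ 0 := by
        intro j h
        apply hne j
        have h1 := congrArg Prod.fst h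
        have h2 := congrArg Prod.snd h
        simp only [hP', Prod.fst_zero, Prod.snd_zero, map_eq_zero] at h1 h2
        exact Prod.ext h1 h2
      have hpw' : ∀ i j, i ≠ j → (P' i).1 * (P' j).2 ≠ (P' j).1 * (P' i).2 := by
        intro i j hij h
        apply hpw i j hij
        simp only [hP'] at h
        rw [← map_mul, ← map_mul] at h
        exact (algebraMap M L).injective h
      by_cases h0 : ∃ k0, e k0 = 0
      · obtain ⟨k0, hk0⟩ := h0
        have hs : ∀ i : Fin r, ∃ j : Fin q, e (k0.succAbove i) = j.succ := by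
          intro i
          have h1 : e (k0.succAbove i) ≠ 0 := by
            rw [← hk0]
            intro h2
            exact Fin.succAbove_ne k0 i (e.injective h2)
          obtain ⟨j, hj⟩ := Fin.exists_succ_eq.2 h1
          exact ⟨j, hj.symm⟩
        choose j hj using hs
        have hji : Function.Injective j := by
          intro a b hab
          have h1 : e (k0.succAbove a) = e (k0.succAbove b) := by rw [hj, hj, hab]
          exact Fin.succAbove_right_injective (e.injective h1)
        refine dl_pts' hr x (fun i => P' (j i)) (fun i => hne' _)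
          (fun a b hab => hpw' _ _ fun h => hab (hji h)) ?_ ?_
        · intro i
          have h1 := hx (k0.succAbove i)
          rw [hj, hF, Fin.cons_succ, aeval_Hl] at h1
          exact h1
        · have h1 := hx k0
          rw [hk0, hF, Fin.cons_zero, aeval_Dl] at h1
          exact h1
      · push Not at h0
        have hs : ∀ i : Fin (r + 1), ∃ j : Fin q, e i = j.succ := by
          intro i
          obtain ⟨j, hj⟩ := Fin.exists_succ_eq.2 (h0 i)
          exact ⟨j, hj.symm⟩
        choose j hj using hs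
        have hji : Function.Injective j := by
          intro a b hab
          have h1 : e a = e b := by rw [hj, hj, hab]
          exact e.injective h1
        refine zero_of_pts x (fun i => P' (j i)) (fun i => hne' _)
          (fun a b hab => hpw' _ _ fun h => hab (hji h)) ?_
        intro i
        have h1 := hx i
        rw [hj, hF, Fin.cons_succ, aeval_Hl] at h1
        exact h1) ε hε
  refine ⟨Z, ?_, hZh, fun S => ?_⟩
  · intro h
    apply hZ
    rw [h]
    exact Ideal.zero_mem _
  obtain ⟨C, hC0, hC⟩ := hmain S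
  refine ⟨C, hC0, fun x hx hZx hv0 hd0 => ?_⟩
  have hFx : ∀ i, MvPolynomial.aeval x (F i) ≠ 0 := by
    intro i
    refine Fin.cases ?_ (fun l => ?_) i
    · rw [hF, Fin.cons_zero, aeval_Dl]
      exact hd0
    · rw [hF, Fin.cons_succ, aeval_Hl]
      exact hv0 l
  have h1 := hC M (by rw [finrank_self]) x hx (fun k => k.elim0) (by
    rw [eq_top_iff]
    intro y _
    exact (IntermediateField.adjoin M _).algebraMap_mem y) (by
    rw [MvPolynomial.aeval_eq_eval]
    exact hZx) hFx S id (fun w hw => ⟨hw, ov_self w⟩)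
  have h2 : ∀ w : Pl M, wt w * (∑ i, lam (av w) (d i) (bc M (F i)) x / d i) /
      cstR r (finrank M M / nn (id w) w) = wt w * (∑ l, (Real.log (nrm (av w) x) -
        Real.log (av w (hv x (P l)))) +
          (((2 * (r - 1) : ℕ) : ℝ) * Real.log (nrm (av w) x) - Real.log (av w (dl x))) /
            ((2 * (r - 1) : ℕ) : ℝ)) / (r + 1) := by
    intro w
    rw [id, nn_self (ov_self w), cstR_one, Fin.sum_univ_succ]
    congr 2
    rw [add_comm]
    congr 1
    · refine Finset.sum_congr rfl fun l _ => ?_
      have h3 : MvPolynomial.eval x (bc M (F l.succ)) = hv x (P l) := by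
        rw [eval_bc, hF, Fin.cons_succ, aeval_Hl]
        rfl
      rw [lam_eq _ _ _ hx (by rw [h3]; exact hv0 l), h3, hd, Fin.cons_succ]
      simp
    · have h3 : MvPolynomial.eval x (bc M (F 0)) = dl x := by
        rw [eval_bc, hF, Fin.cons_zero, aeval_Dl]
      rw [lam_eq _ _ _ hx (by rw [h3]; exact hd0), h3, hd, Fin.cons_zero]
  rw [Finset.sum_congr rfl fun w _ => h2 w, ← Finset.sum_div, div_le_iff₀ (by positivity)] at h1
  linarith

end Pool.Agent.NH28
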