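import Pool.Agent.NH28.QD7

/-!
The finite places of `ℚ` and the exponents of the primes.
-/

set_option autoImplicit false

namespace Pool.Agent.NH28

open Finset NumberField IsDedekindDomain Height Module Polynomial
open Pool.Agent.W180.OP (Pl av wt nrm le_nrm nrm_pos nrm_nonneg exists_nrm wt_nonneg nrm_le)
open Pool.Agent.R405.AQ (T0 mem_T0 mem_Pls_inr sum_T0 fin_int_le inf_int wt_rat)

theorem fin_lt_iff (v : HeightOneSpectrum (𝓞 ℚ)) (n : ℤ) :
    av (Sum.inr v : Pl ℚ) (n : ℚ) < 1 ↔ (n : 𝓞 ℚ) ∈ v.asIdeal := by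
  have h1 := FinitePlace.norm_lt_one_iff_mem ℚ v (n : 𝓞 ℚ)
  rw [map_intCast] at h1
  exact h1

theorem fin_one_iff (v : HeightOneSpectrum (𝓞 ℚ)) (n : ℤ) :
    av (Sum.inr v : Pl ℚ) (n : ℚ) = 1 ↔ (n : 𝓞 ℚ) ∉ v.asIdeal := by
  rw [← fin_lt_iff, not_lt]
  exact ⟨fun h => h.ge, fun h => le_antisymm (fin_int_le v n) h⟩

theorem coprime_one (v : HeightOneSpectrum (𝓞 ℚ)) {a b : ℤ} (h : IsCoprime a b)
    (ha : (a : 𝓞 ℚ) ∈ v.asIdeal) : (b : 𝓞 ℚ) ∉ v.asIdeal := by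
  intro hb
  obtain ⟨x, y, hxy⟩ := h
  have h1 : (1 : 𝓞 ℚ) ∈ v.asIdeal := by
    have h2 : (1 : 𝓞 ℚ) = (x : 𝓞 ℚ) * (a : 𝓞 ℚ) + (y : 𝓞 ℚ) * (b : 𝓞 ℚ) := by
      exact_mod_cast congrArg (Int.cast : ℤ → 𝓞 ℚ) hxy.symm
    rw [h2]
    exact v.asIdeal.add_mem (v.asIdeal.mul_mem_left _ ha) (v.asIdeal.mul_mem_left _ hb)
  exact v.isPrime.ne_top ((Ideal.eq_top_iff_one _).2 h1)

theorem place_unique {p : ℕ} (hp : p.Prime) {v w : HeightOneSpectrum (𝓞 ℚ)}
    (hv : (p : 𝓞 ℚ) ∈ v.asIdeal) (hw : (p : 𝓞 ℚ) ∈ w.asIdeal) : w = v := by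
  obtain ⟨h1, h2⟩ := Pool.Agent.TH876.QR.places2_over_le (K := ℚ) p hp
  rw [finrank_self] at h2
  exact (Set.ncard_le_one h1).1 h2 w hw v hv

theorem log_p {p : ℕ} (hp : p.Prime) {v : HeightOneSpectrum (𝓞 ℚ)}
    (hv : (p : 𝓞 ℚ) ∈ v.asIdeal) :
    Real.log (av (Sum.inr v : Pl ℚ) (p : ℚ)) = -Real.log p := by
  have hp0 : (p : ℚ) ≠ 0 := by exact_mod_cast hp.ne_zero
  have h1 := Pool.Agent.H691R3.log_product_formula (K := ℚ) hp0
  have huniv : (Finset.univ : Finset (InfinitePlace ℚ)) = {default} := by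
    ext w'
    simp only [Finset.mem_univ, Finset.mem_singleton, true_iff]
    exact Subsingleton.elim _ _
  have hm : ((default : InfinitePlace ℚ).mult : ℝ) = 1 := wt_rat default
  rw [huniv, Finset.sum_singleton, hm, one_mul] at h1
  have h2 : (default : InfinitePlace ℚ) (p : ℚ) = (p : ℝ) := by
    have h3 : av (Sum.inl default : Pl ℚ) ((p : ℤ) : ℚ) = |((p : ℤ) : ℝ)| := inf_int default p
    rw [Int.cast_natCast, Int.cast_natCast, abs_of_nonneg (Nat.cast_nonneg _)] at h3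
    exact h3
  rw [h2, finsum_eq_single _ v] at h1
  · have h4 : Real.log (av (Sum.inr v : Pl ℚ) (p : ℚ)) =
        Real.log (Pool.Agent.H691R3.fv v (p : ℚ)) := rfl
    rw [h4]
    linarith
  · intro w hw
    have h3 : ((p : ℤ) : 𝓞 ℚ) ∉ w.asIdeal := by
      intro h
      rw [Int.cast_natCast] at h
      exact hw (place_unique hp hv h)
    have h4 := (fin_one_iff w p).2 h3
    rw [Int.cast_natCast] at h4
    have h5 : Pool.Agent.H691R3.fv w (p : ℚ) = 1 := h4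
    rw [h5, Real.log_one]

theorem pl_log {p : ℕ} (hp : p.Prime) {v : HeightOneSpectrum (𝓞 ℚ)}
    (hv : (p : 𝓞 ℚ) ∈ v.asIdeal) (n : ℤ) (hn : n ≠ 0) :
    Real.log (av (Sum.inr v : Pl ℚ) (n : ℚ)) = -((padicValInt p n : ℝ) * Real.log p) := by
  have : Fact p.Prime := ⟨hp⟩
  have hfin : FiniteMultiplicity (p : ℤ) n := Int.finiteMultiplicity_iff.2
    ⟨by simpa using hp.one_lt.ne', hn⟩
  obtain ⟨m, hm, hmd⟩ := hfin.exists_eq_pow_mul_and_not_dvd
  have ha : multiplicity (p : ℤ) n = padicValInt p n := by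
    rw [padicValInt.of_ne_one_ne_zero hp.ne_one hn]
  rw [ha] at hm
  have hcop : IsCoprime (p : ℤ) m :=
    (Nat.prime_iff_prime_int.1 hp).irreducible.coprime_iff_not_dvd.2 hmd
  have h1 := (fin_one_iff v m).2 (coprime_one v hcop (by rwa [Int.cast_natCast]))
  have hp0 : 0 < av (Sum.inr v : Pl ℚ) (p : ℚ) :=
    (av _).pos_iff.2 (by exact_mod_cast hp.ne_zero)
  have h2 : av (Sum.inr v : Pl ℚ) (n : ℚ) = av (Sum.inr v : Pl ℚ) (p : ℚ) ^ padicValInt p n := by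
    have h3 : (n : ℚ) = (p : ℚ) ^ padicValInt p n * (m : ℚ) := by
      have := congrArg (Int.cast : ℤ → ℚ) hm
      push_cast at this
      exact this
    rw [h3, map_mul, map_pow, h1, mul_one]
  rw [h2, Real.log_pow, log_p hp hv]
  ring

theorem exists_place {p : ℕ} (hp : p.Prime) : ∃ v : HeightOneSpectrum (𝓞 ℚ),
    (p : 𝓞 ℚ) ∈ v.asIdeal := by
  by_contra hcon
  push Not at hcon
  have hp0 : (p : ℚ) ≠ 0 := by exact_mod_cast hp.ne_zero
  have h1 := Pool.Agent.H691R3.log_product_formula (K := ℚ) hp0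
  have huniv : (Finset.univ : Finset (InfinitePlace ℚ)) = {default} := by
    ext w'
    simp only [Finset.mem_univ, Finset.mem_singleton, true_iff]
    exact Subsingleton.elim _ _
  have hm : ((default : InfinitePlace ℚ).mult : ℝ) = 1 := wt_rat default
  rw [huniv, Finset.sum_singleton, hm, one_mul] at h1
  have h2 : (default : InfinitePlace ℚ) (p : ℚ) = (p : ℝ) := by
    have h3 : av (Sum.inl default : Pl ℚ) ((p : ℤ) : ℚ) = |((p : ℤ) : ℝ)| := inf_int default p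
    rw [Int.cast_natCast, Int.cast_natCast, abs_of_nonneg (Nat.cast_nonneg _)] at h3
    exact h3
  have h3 : ∀ w : HeightOneSpectrum (𝓞 ℚ), Real.log (Pool.Agent.H691R3.fv w (p : ℚ)) = 0 := by
    intro w
    have h4 := (fin_one_iff w p).2 (by rw [Int.cast_natCast]; exact hcon w)
    rw [Int.cast_natCast] at h4
    have h5 : Pool.Agent.H691R3.fv w (p : ℚ) = 1 := h4
    rw [h5, Real.log_one]
  rw [h2, finsum_congr h3, finsum_zero, add_zero] at h1
  have h4 : 0 < Real.log p := Real.log_pos (by exact_mod_cast hp.one_lt)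
  linarith

/-- sums over the places in `S` -/
theorem sum_places (S : Finset ℕ) (hS : ∀ p ∈ S, p.Prime) :
    ∃ vp : ℕ → HeightOneSpectrum (𝓞 ℚ), (∀ p ∈ S, (p : 𝓞 ℚ) ∈ (vp p).asIdeal) ∧
      (∀ p ∈ S, (Sum.inr (vp p) : Pl ℚ) ∈ T0 S hS) ∧
      ∀ g : Pl ℚ → ℝ, ∑ v ∈ T0 S hS, g v = g (Sum.inl default) + ∑ p ∈ S, g (Sum.inr (vp p)) := by
  classical
  obtain ⟨v2, -⟩ := exists_place Nat.prime_two
  have h0 : ∀ p : ℕ, ∃ v : HeightOneSpectrum (𝓞 ℚ), p.Prime → (p : 𝓞 ℚ) ∈ v.asIdeal := by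
    intro p
    by_cases hp : p.Prime
    · obtain ⟨v, hv⟩ := exists_place hp
      exact ⟨v, fun _ => hv⟩
    · exact ⟨v2, fun h => absurd h hp⟩
  choose vp hvp using h0
  refine ⟨vp, fun p hp => hvp p (hS p hp), fun p hp => ?_, fun g => ?_⟩
  · rw [mem_T0, mem_Pls_inr]
    exact ⟨p, hp, hvp p (hS p hp)⟩
  · rw [sum_T0]
    congr 1
    symm
    refine Finset.sum_nbij vp ?_ ?_ ?_ (fun p _ => rfl)
    · intro p hp
      rw [Finset.mem_toRight, mem_T0, mem_Pls_inr]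
      exact ⟨p, hp, hvp p (hS p hp)⟩
    · intro p hp p' hp' hpp
      have hp := Finset.mem_coe.1 hp
      have hp' := Finset.mem_coe.1 hp'
      by_contra hne
      have hcop : IsCoprime (p : ℤ) (p' : ℤ) := by
        rw [Nat.isCoprime_iff_coprime]
        exact (Nat.coprime_primes (hS p hp) (hS p' hp')).2 hne
      have h1 := hvp p (hS p hp)
      have h2 := hvp p' (hS p' hp')
      rw [← hpp] at h2
      exact coprime_one (vp p) hcop (by rwa [Int.cast_natCast]) (by rwa [Int.cast_natCast])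
    · intro v hv
      rw [Finset.mem_coe, Finset.mem_toRight, mem_T0, mem_Pls_inr] at hv
      obtain ⟨p, hp, hpv⟩ := hv
      exact ⟨p, Finset.mem_coe.2 hp, (place_unique (hS p hp) (hvp p (hS p hp)) hpv).symm⟩

end Pool.Agent.NH28
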