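import Pool.Agent.NH28.QC4
import Pool.Agent.NH28.QD8

/-!
Rational points: descent of the exceptional form and sums over the places above a place.
-/

set_option autoImplicit false

namespace Pool.Agent.NH28

open Finset NumberField IsDedekindDomain Height Module
open Pool.Agent.W180.OP (Pl av wt nrm bc eval_bc lam lam_eq wt_nonneg le_nrm nrm_pos exists_nrm
  nrm_nonneg nrm_le)
open Pool.Agent.R405 (exv exv_ne)
open Pool.Agent.R405.AQ (Div fin_int_le inf_int)

/-- a form over a number field which does not vanish at rational points where a form over `ℚ` does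
not vanish -/
theorem descend_form {σ M : Type} [Field M] [NumberField M] (Z : MvPolynomial σ M) (hZ : Z ≠ 0)
    (hh : ∃ t, Z.IsHomogeneous t) :
    ∃ F : MvPolynomial σ ℚ, F ≠ 0 ∧ (∃ t, F.IsHomogeneous t) ∧ ∀ z : σ → ℚ,
      MvPolynomial.eval z F ≠ 0 → MvPolynomial.eval (fun j => algebraMap ℚ M (z j)) Z ≠ 0 := by
  classical
  obtain ⟨m0, hm0⟩ := MvPolynomial.ne_zero_iff.1 hZ
  obtain ⟨ℓ, hℓ⟩ : ∃ ℓ : M →ₗ[ℚ] ℚ, ℓ (MvPolynomial.coeff m0 Z) ≠ 0 := by
    let b := Module.finBasis ℚ M
    have h1 : b.repr (MvPolynomial.coeff m0 Z) ≠ 0 := by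
      intro h
      exact hm0 (b.repr.map_eq_zero_iff.1 h)
    obtain ⟨i, hi⟩ := Finsupp.ne_iff.1 h1
    exact ⟨b.coord i, hi⟩
  set F : MvPolynomial σ ℚ := ∑ m ∈ Z.support, MvPolynomial.monomial m
    (ℓ (MvPolynomial.coeff m Z)) with hF
  have hcoeff : ∀ m, MvPolynomial.coeff m F = ℓ (MvPolynomial.coeff m Z) := by
    intro m
    rw [hF, MvPolynomial.coeff_sum]
    by_cases hm : m ∈ Z.support
    · rw [Finset.sum_eq_single m]
      · rw [MvPolynomial.coeff_monomial, if_pos rfl]
      · intro m' _ hne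
        rw [MvPolynomial.coeff_monomial, if_neg hne]
      · intro h
        exact absurd hm h
    · rw [MvPolynomial.notMem_support_iff.1 hm, map_zero]
      refine Finset.sum_eq_zero fun m' hm' => ?_
      rw [MvPolynomial.coeff_monomial, if_neg]
      rintro rfl
      exact hm hm'
  obtain ⟨t, ht⟩ := hh
  refine ⟨F, ?_, ⟨t, ?_⟩, ?_⟩
  · intro h
    apply hℓ
    rw [← hcoeff, h, MvPolynomial.coeff_zero]
  · rw [hF]
    refine MvPolynomial.IsHomogeneous.sum _ _ _ fun m hm => ?_
    refine MvPolynomial.isHomogeneous_monomial _ ?_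
    have := ht (MvPolynomial.mem_support_iff.1 hm)
    rw [← this]
    rw [Finsupp.weight_apply, Finsupp.sum, Finsupp.degree_apply]
    simp
  · intro z hz h0
    apply hz
    have h1 : MvPolynomial.eval z F = ℓ (MvPolynomial.eval (fun j => algebraMap ℚ M (z j)) Z) := by
      rw [MvPolynomial.eval_eq, MvPolynomial.eval_eq, hF, map_sum]
      have h2 : ∑ d ∈ F.support, MvPolynomial.coeff d F * ∏ i ∈ d.support, z i ^ d i =
          ∑ d ∈ Z.support, MvPolynomial.coeff d F * ∏ i ∈ d.support, z i ^ d i := by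
        refine Finset.sum_subset ?_ ?_
        · intro d hd
          rw [MvPolynomial.mem_support_iff, hcoeff] at hd
          rw [MvPolynomial.mem_support_iff]
          intro h
          apply hd
          rw [h, map_zero]
        · intro d _ hd
          rw [MvPolynomial.notMem_support_iff.1 hd, zero_mul]
      rw [← hF, h2]
      refine Finset.sum_congr rfl fun d _ => ?_
      rw [hcoeff]
      have h3 : MvPolynomial.coeff d Z * ∏ i ∈ d.support, (algebraMap ℚ M (z i)) ^ d i =
          (∏ i ∈ d.support, z i ^ d i) • MvPolynomial.coeff d Z := by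
        rw [Algebra.smul_def, map_prod, mul_comm]
        congr 1
        exact Finset.prod_congr rfl fun i _ => by rw [map_pow]
      rw [h3, map_smul, smul_eq_mul, mul_comm]
    rw [h1, h0, map_zero]

variable {M : Type} [Field M] [NumberField M]

/-- the norms of a rational vector -/
theorem nrm_nn {n : ℕ} (hn : 1 ≤ n) {v : Pl ℚ} {w : Pl M} (h : Ov v w) (z : Fin n → ℚ)
    (hz : z ≠ 0) : wt w * Real.log (nrm (av w) (exv M z)) =
      nn v w * (wt v * Real.log (nrm (av v) z)) := by
  have hnn : 0 ≤ nn v w := zero_le_one.trans (one_le_nn h)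
  have hne : exv M z ≠ 0 := exv_ne hz
  refine le_antisymm ?_ ?_
  · obtain ⟨j, hj⟩ := exists_nrm (av w) hn (exv M z)
    rw [← hj]
    have e1 : exv M z j = algebraMap ℚ M (z j) := rfl
    have hp : 0 < av w (exv M z j) := by rw [hj]; exact nrm_pos _ hne
    rw [e1, nn_ext h]
    have hzj : z j ≠ 0 := by
      intro h0
      have : exv M z j = 0 := by
        show algebraMap ℚ M (z j) = 0
        rw [h0, map_zero]
      rw [this, map_zero] at hp
      exact lt_irrefl _ hp
    refine mul_le_mul_of_nonneg_left (mul_le_mul_of_nonneg_left ?_ (wt_nonneg v)) hnn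
    exact Real.log_le_log ((av v).pos_iff.2 hzj) (le_nrm _ _ _)
  · obtain ⟨j, hj⟩ := exists_nrm (av v) hn z
    have hp : 0 < av v (z j) := by rw [hj]; exact nrm_pos _ hz
    rw [← hj, ← nn_ext h]
    have hzj : z j ≠ 0 := (av v).pos_iff.1 hp
    refine mul_le_mul_of_nonneg_left ?_ (wt_nonneg w)
    refine Real.log_le_log ((av w).pos_iff.2 ((map_ne_zero _).2 hzj)) ?_
    exact le_nrm (av w) (exv M z) j

/-- the height over `M` of an integral vector -/
theorem height_int_le {N : ℕ} (e : Fin N → ℤ) (he : e ≠ 0) :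
    logHeight (exv M fun j => (e j : ℚ)) ≤
      finrank ℚ M * Real.log (nrm (av (Sum.inl default : Pl ℚ)) fun j => (e j : ℚ)) := by
  classical
  have hz : (fun j => (e j : ℚ)) ≠ 0 := by
    intro h
    apply he
    funext j
    have h1 := congrFun h j
    simp only [Pi.zero_apply] at h1
    exact_mod_cast h1
  have hx : exv M (fun j => (e j : ℚ)) ≠ 0 := exv_ne hz
  rw [Pool.Agent.R405.logHeight_sum _ hx (Pool.Agent.R405.nrm_finite _ hx).toFinset (by
    intro v hv
    by_contra hc
    apply hv
    simp only [Set.Finite.mem_toFinset, Set.mem_ofPred_eq]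
    exact hc)]
  have h1 : ∑ v ∈ (Pool.Agent.R405.nrm_finite _ hx).toFinset,
      Real.log (nrm (Pool.Agent.W180.OP.fv v) (exv M fun j => (e j : ℚ))) ≤ 0 := by
    refine Finset.sum_nonpos fun v _ => Real.log_nonpos (nrm_nonneg _ _) ?_
    refine nrm_le zero_le_one fun j => ?_
    have hna : IsNonarchimedean (Pool.Agent.W180.OP.fv v) := by
      intro a b
      exact FinitePlace.add_le (FinitePlace.mk v) a b
    have h2 : exv M (fun j => (e j : ℚ)) j = ((e j : ℤ) : M) := by
      show algebraMap ℚ M ((e j : ℤ) : ℚ) = _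
      simp
    rw [h2]
    exact IsNonarchimedean.apply_intCast_le_one hna
  have h2 : ∀ w : InfinitePlace M, nrm w.1 (exv M fun j => (e j : ℚ)) =
      nrm (av (Sum.inl default : Pl ℚ)) fun j => (e j : ℚ) := by
    intro w
    unfold nrm
    refine iSup_congr fun j => ?_
    rw [inf_int]
    show w (algebraMap ℚ M ((e j : ℤ) : ℚ)) = _
    rw [← InfinitePlace.norm_embedding_eq]
    simp
  have h3 : ∑ w : InfinitePlace M, (w.mult : ℝ) * Real.log (nrm w.1 (exv M fun j => (e j : ℚ))) =
      finrank ℚ M * Real.log (nrm (av (Sum.inl default : Pl ℚ)) fun j => (e j : ℚ)) := by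
    rw [Finset.sum_congr rfl fun w _ => by rw [h2 w], ← Finset.sum_mul]
    congr 1
    exact_mod_cast InfinitePlace.sum_mult_eq (K := M)
  linarith

end Pool.Agent.NH28
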