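import Pool.Agent.NH28.QC5

/-!
The inequality with the discriminant for polynomials outside a closed set.
-/

set_option autoImplicit false

namespace Pool.Agent.NH28

open Finset NumberField IsDedekindDomain Height Module
open Pool.Agent.W180.OP (Pl av wt nrm bc eval_bc lam lam_eq wt_nonneg le_nrm nrm_pos exists_nrm
  nrm_nonneg nrm_le)
open Pool.Agent.R405 (exv exv_ne)
open Pool.Agent.R405.AQ (Div exists_div fin_int_le inf_int T0 wt_one hm)

/-- the coefficient vector -/
def zf (r : ℕ) (f : Polynomial ℤ) : Fin (r + 1) → ℚ := fun k => ((f.coeff k : ℤ) : ℚ)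

/-- the place-wise expression -/
noncomputable def Ev (r q : ℕ) (G f : Polynomial ℤ) (v : Pl ℚ) : ℝ :=
  (q + 1) * Real.log (nrm (av v) (zf r f)) -
    Real.log (av v ((Polynomial.resultant f G r q : ℤ) : ℚ)) -
    Real.log (av v ((f.discr : ℤ) : ℚ)) / ((2 * (r - 1) : ℕ) : ℝ)

theorem zf_ne {r : ℕ} {f : Polynomial ℤ} (hr : 1 ≤ r) (hf : f.natDegree = r) : zf r f ≠ 0 := by
  intro h
  have h1 := congrFun h (Fin.last r)
  simp only [zf, Fin.val_last, Pi.zero_apply] at h1
  have h2 : f.coeff r = 0 := by exact_mod_cast h1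
  rw [← hf] at h2
  have h3 : f = 0 := Polynomial.leadingCoeff_eq_zero.1 h2
  rw [h3] at hf
  simp at hf
  omega

theorem dl_zf (r : ℕ) (f : Polynomial ℤ) :
    dl (zf r f) = ((dl fun k : Fin (r + 1) => f.coeff k : ℤ) : ℚ) := by
  have h1 := map_dl (Int.castRingHom ℚ) (fun k : Fin (r + 1) => f.coeff k)
  exact h1.symm

theorem av_abs (v : Pl ℚ) (n : ℤ) : av v ((|n| : ℤ) : ℚ) = av v (n : ℚ) := by
  rcases abs_choice n with h | h
  · rw [h]
  · rw [h, Int.cast_neg, AbsoluteValue.map_neg]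

theorem log_dl {r : ℕ} (hr : 2 ≤ r) (f : Polynomial ℤ) (hf : f.natDegree = r)
    (hd : f.discr ≠ 0) (v : Pl ℚ) :
    Real.log (av v (dl (zf r f))) = ((r - 2 : ℕ) : ℝ) * Real.log (av v (r : ℚ)) +
      Real.log (av v ((f.discr : ℤ) : ℚ)) := by
  have h1 := dl_discr hr f hf
  rw [dl_zf, ← av_abs, h1]
  have h2 : (((r : ℤ) ^ (r - 2) * |f.discr| : ℤ) : ℚ) = (r : ℚ) ^ (r - 2) * ((|f.discr| : ℤ) : ℚ) := by
    push_cast
    rfl
  rw [h2, map_mul, map_pow, av_abs, Real.log_mul, Real.log_pow]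
  · refine pow_ne_zero _ ((av v).pos_iff.2 ?_).ne'
    have : (r : ℚ) ≠ 0 := by
      have : r ≠ 0 := by omega
      exact_mod_cast this
    exact this
  · exact ((av v).pos_iff.2 (Int.cast_ne_zero.2 hd)).ne'

theorem disc_poly (G : Polynomial ℤ) (hG : Squarefree (G.map (Int.castRingHom ℚ))) (q r : ℕ)
    (hr : 2 ≤ r) (hq : r ≤ q) (hqG : q = G.natDegree ∨ q = G.natDegree + 1) (ε : ℝ)
    (hε : 0 < ε) :
    ∃ F : MvPolynomial (Fin (r + 1)) ℚ, F ≠ 0 ∧ (∃ t, F.IsHomogeneous t) ∧
      ∀ (S : Finset ℕ) (hS : ∀ p ∈ S, p.Prime), ∃ C : ℝ, 0 ≤ C ∧ ∀ f : Polynomial ℤ,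
        f.natDegree = r → Polynomial.resultant f G r q ≠ 0 → f.discr ≠ 0 →
        MvPolynomial.eval (zf r f) F ≠ 0 →
        ∑ v ∈ T0 S hS, Ev r q G f v ≤
          (r + 1) * (1 + ε) * Real.log (nrm (av (Sum.inl default : Pl ℚ)) (zf r f)) + C := by
  classical
  obtain ⟨M, _, _, hi, D, rfl⟩ := exists_div G hG q hqG
  obtain ⟨Z, hZ, hZh, hmain⟩ := disc_off hr hq D.P D.ne D.pw ε hε
  obtain ⟨F, hF, hFh, hFz⟩ := descend_form Z hZ hZh
  refine ⟨F, hF, hFh, fun S hS => ?_⟩
  set U : Finset (Pl M) := (T0 S hS).biUnion fun v => ab M v with hU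
  obtain ⟨C, hC0, hC⟩ := hmain U
  have hfr : (1 : ℝ) ≤ finrank ℚ M := by
    exact_mod_cast (Module.finrank_pos : 0 < finrank ℚ M)
  have hr0 : (0 : ℝ) ≤ r := Nat.cast_nonneg r
  set d : ℝ := ((2 * (r - 1) : ℕ) : ℝ) with hd
  have hd1 : 0 < d := by
    rw [hd]
    have : 0 < 2 * (r - 1) := by omega
    exact_mod_cast this
  set c1 : ℝ := ∑ v ∈ T0 S hS, ∑ w ∈ ab M v, r * |wt w * Real.log (av w D.γ)| with hc1
  set c2 : ℝ := ∑ v ∈ T0 S hS, |((r - 2 : ℕ) : ℝ) * Real.log (av v (r : ℚ)) / d| with hc2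
  have hc10 : 0 ≤ c1 := Finset.sum_nonneg fun v _ => Finset.sum_nonneg fun w _ => by positivity
  have hc20 : 0 ≤ c2 := Finset.sum_nonneg fun v _ => abs_nonneg _
  refine ⟨(r + 1) * C + c1 + c2, by positivity, fun f hf hR hdf hFf => ?_⟩
  set z := zf r f with hz
  have hz0 : z ≠ 0 := zf_ne (by omega) hf
  set x := exv M z with hx
  have hx0 : x ≠ 0 := exv_ne hz0
  -- the values
  have hxk : ∀ k : Fin (r + 1), x k = ((f.coeff k : ℤ) : M) := by
    intro k
    show algebraMap ℚ M ((f.coeff k : ℤ) : ℚ) = _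
    simp
  have hhv : ∀ l, hv x (D.P l) = hm r (f.map (Int.castRingHom M)) (D.P l) := by
    intro l
    unfold hv hm
    rw [Finset.sum_range]
    refine Finset.sum_congr rfl fun k _ => ?_
    rw [Polynomial.coeff_map, hxk]
    rfl
  have hres : ((Polynomial.resultant f D.g r q : ℤ) : M) = D.γ ^ r * ∏ l, hv x (D.P l) := by
    have h1 := res_hm D f
    rw [hf] at h1
    rw [h1]
    congr 1
    exact Finset.prod_congr rfl fun l _ => (hhv l).symm
  have hv0 : ∀ l, hv x (D.P l) ≠ 0 := by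
    intro l h0
    rw [Finset.prod_eq_zero (Finset.mem_univ l) h0, mul_zero] at hres
    exact hR (by exact_mod_cast hres)
  have hdl : dl x = algebraMap ℚ M (dl z) := (map_dl (algebraMap ℚ M) z).symm
  have hdz0 : dl z ≠ 0 := by
    intro h0
    have h1 := dl_discr hr f hf
    rw [hz, dl_zf] at h0
    have h2 : (dl fun k : Fin (r + 1) => f.coeff k : ℤ) = 0 := by exact_mod_cast h0
    rw [h2, abs_zero] at h1
    have h3 : (0 : ℤ) < r ^ (r - 2) * |f.discr| := by
      have : 0 < |f.discr| := abs_pos.2 hdf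
      have : (0 : ℤ) < r := by omega
      positivity
    omega
  have hdx0 : dl x ≠ 0 := by
    rw [hdl]
    exact (map_ne_zero _).2 hdz0
  have h1 := hC x hx0 (hFz z hFf) hv0 hdx0
  -- the places
  have hdisj : ((T0 S hS : Finset (Pl ℚ)) : Set (Pl ℚ)).PairwiseDisjoint (fun v => ab M v) := by
    intro v _ v' _ hne
    rw [Function.onFun, Finset.disjoint_left]
    intro w hw hw'
    exact hne (ov_unique (mem_ab.1 hw) (mem_ab.1 hw'))
  rw [hU, Finset.sum_biUnion hdisj] at h1
  set A : Pl ℚ → ℝ := fun v => (q + 1) * Real.log (nrm (av v) z) -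
    Real.log (av v ((Polynomial.resultant f D.g r q : ℤ) : ℚ)) - Real.log (av v (dl z)) / d
    with hA
  have hterm : ∀ v, ∀ w ∈ ab M v, nn v w * A v - r * |wt w * Real.log (av w D.γ)| ≤
      wt w * (∑ l, (Real.log (nrm (av w) x) - Real.log (av w (hv x (D.P l)))) +
          (d * Real.log (nrm (av w) x) - Real.log (av w (dl x))) / d) := by
    intro v w hw
    have how := mem_ab.1 hw
    have e1 : wt w * Real.log (nrm (av w) x) = nn v w * Real.log (nrm (av v) z) := by
      rw [hx, nrm_nn (by omega) how z hz0, wt_one, one_mul]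
    have e2 : wt w * Real.log (av w ((Polynomial.resultant f D.g r q : ℤ) : M)) =
        nn v w * Real.log (av v ((Polynomial.resultant f D.g r q : ℤ) : ℚ)) := by
      have h2 := nn_ext how ((Polynomial.resultant f D.g r q : ℤ) : ℚ)
      rw [wt_one, one_mul] at h2
      rw [← h2]
      congr 3
    have e3 : wt w * Real.log (av w (dl x)) = nn v w * Real.log (av v (dl z)) := by
      have h2 := nn_ext how (dl z)
      rw [wt_one, one_mul] at h2
      rw [hdl, h2]
    have e4 : Real.log (av w ((Polynomial.resultant f D.g r q : ℤ) : M)) =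
        r * Real.log (av w D.γ) + ∑ l, Real.log (av w (hv x (D.P l))) := by
      rw [hres, map_mul, map_pow, map_prod, Real.log_mul (pow_ne_zero _
        ((av w).pos_iff.2 D.γ0).ne') (Finset.prod_ne_zero_iff.2 fun l _ =>
        ((av w).pos_iff.2 (hv0 l)).ne'), Real.log_pow,
        Real.log_prod fun l _ => ((av w).pos_iff.2 (hv0 l)).ne']
    have e5 : (d * Real.log (nrm (av w) x) - Real.log (av w (dl x))) / d =
        Real.log (nrm (av w) x) - Real.log (av w (dl x)) / d := by
      field_simp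
    rw [Finset.sum_sub_distrib, Finset.sum_const, Finset.card_univ, Fintype.card_fin,
      nsmul_eq_mul, e5]
    have e6 : wt w * ((q : ℝ) * Real.log (nrm (av w) x) - ∑ l, Real.log (av w (hv x (D.P l))) +
        (Real.log (nrm (av w) x) - Real.log (av w (dl x)) / d)) =
        nn v w * A v + r * (wt w * Real.log (av w D.γ)) := by
      have e7 : ∑ l, Real.log (av w (hv x (D.P l))) =
          Real.log (av w ((Polynomial.resultant f D.g r q : ℤ) : M)) -
            r * Real.log (av w D.γ) := by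
        rw [e4]; ring
      have e8 : wt w * ((q : ℝ) * Real.log (nrm (av w) x) -
          (Real.log (av w ((Polynomial.resultant f D.g r q : ℤ) : M)) -
            r * Real.log (av w D.γ)) +
          (Real.log (nrm (av w) x) - Real.log (av w (dl x)) / d)) =
          ((q : ℝ) + 1) * (wt w * Real.log (nrm (av w) x)) -
          wt w * Real.log (av w ((Polynomial.resultant f D.g r q : ℤ) : M)) -
          wt w * Real.log (av w (dl x)) / d + r * (wt w * Real.log (av w D.γ)) := by ring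
      rw [e7, e8, e1, e2, e3]
      simp only [hA]
      ring
    rw [e6]
    have h2 := neg_abs_le (wt w * Real.log (av w D.γ))
    have h3 := mul_le_mul_of_nonneg_left h2 hr0
    linarith
  have h2 : finrank ℚ M * ∑ v ∈ T0 S hS, A v - c1 ≤ ∑ v ∈ T0 S hS, ∑ w ∈ ab M v,
      wt w * (∑ l, (Real.log (nrm (av w) x) - Real.log (av w (hv x (D.P l)))) +
          (d * Real.log (nrm (av w) x) - Real.log (av w (dl x))) / d) := by
    refine le_trans (le_of_eq ?_) (Finset.sum_le_sum fun v _ =>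
      Finset.sum_le_sum fun w hw => hterm v w hw)
    rw [hc1, Finset.mul_sum, ← Finset.sum_sub_distrib]
    refine Finset.sum_congr rfl fun v _ => ?_
    rw [Finset.sum_sub_distrib, ← Finset.sum_mul, sum_nn M v]
  have h3 : logHeight x ≤ finrank ℚ M * Real.log (nrm (av (Sum.inl default : Pl ℚ)) z) :=
    height_int_le (fun k : Fin (r + 1) => f.coeff k) (by
      intro h
      apply hz0
      funext k
      have h4 := congrFun h k
      simp only [Pi.zero_apply] at h4
      show ((f.coeff k : ℤ) : ℚ) = 0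
      rw [h4, Int.cast_zero])
  set L := Real.log (nrm (av (Sum.inl default : Pl ℚ)) z) with hL
  have h4 : finrank ℚ M * ∑ v ∈ T0 S hS, A v ≤
      finrank ℚ M * ((r + 1) * (1 + ε) * L + ((r + 1) * C + c1)) := by
    have h5 : ((r : ℝ) + 1) * ((1 + ε) * logHeight x + C) ≤
        (r + 1) * ((1 + ε) * (finrank ℚ M * L) + C) := by
      refine mul_le_mul_of_nonneg_left ?_ (by positivity)
      have := mul_le_mul_of_nonneg_left h3 (by linarith : (0 : ℝ) ≤ 1 + ε)
      linarith
    have h6 : (r + 1) * C + c1 ≤ finrank ℚ M * ((r + 1) * C + c1) :=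
      le_mul_of_one_le_left (by positivity) hfr
    have h7 : finrank ℚ M * ((r + 1) * (1 + ε) * L + ((r + 1) * C + c1)) =
        (r + 1) * ((1 + ε) * (finrank ℚ M * L)) + finrank ℚ M * ((r + 1) * C + c1) := by ring
    rw [h7]
    linarith
  have h5 := le_of_mul_le_mul_left h4 (by linarith : (0 : ℝ) < finrank ℚ M)
  have h6 : ∑ v ∈ T0 S hS, Ev r q D.g f v ≤ ∑ v ∈ T0 S hS, A v + c2 := by
    rw [hc2, ← Finset.sum_add_distrib]
    refine Finset.sum_le_sum fun v _ => ?_
    unfold Ev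
    simp only [hA]
    rw [hz, log_dl hr f hf hdf v, add_div]
    have := neg_abs_le (((r - 2 : ℕ) : ℝ) * Real.log (av v (r : ℚ)) / d)
    have := le_abs_self (((r - 2 : ℕ) : ℝ) * Real.log (av v (r : ℚ)) / d)
    linarith
  linarith

end Pool.Agent.NH28
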