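import Pool.Agent.R405.AQ5

/-!
The subspace theorem for rational points and linear forms with algebraic coefficients: a version
with a gain function. Linear forms in two variables with multiplicities.
-/

set_option autoImplicit false

namespace Pool.Agent.NH28

open Finset NumberField IsDedekindDomain Height Module
open Pool.Agent.W180.OP (Pl av wt nrm le_nrm nrm_pos nrm_nonneg exists_nrm wt_nonneg)
open Pool.Agent.R405 (exv exv_ne dot schV Good exists_good descend)
open Pool.Agent.R405.IQ (wc inv_bound)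

/-- the subspace theorem with a gain function -/
theorem sch_gen {N : ℕ} (hN : 1 ≤ N) {M : Type} [Field M] [NumberField M] [IsGalois ℚ M]
    (hi : ∃ z : M, z ^ 2 = -1) {ι : Type} [Fintype ι] (L : ι → Fin N → M) (hL : ∀ l, L l ≠ 0) :
    ∃ Z : Finset (Fin N → ℚ), (∀ m ∈ Z, m ≠ 0) ∧
      (∀ z : Fin N → ℚ, (∀ m ∈ Z, ∑ j, m j * z j ≠ 0) → ∀ l, dot (L l) (exv M z) ≠ 0) ∧
      ∀ (S : Finset (Pl ℚ)) (f : Pl ℚ → AbsoluteValue M ℝ), (∀ v ∈ S, Good v (f v)) →
      ∀ (P : (Fin N → ℚ) → Prop) (Gn : Pl ℚ → (Fin N → ℚ) → ℝ) (c : ℝ),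
      (∀ v ∈ S, ∀ z : Fin N → ℚ, z ≠ 0 → P z → (∀ l, dot (L l) (exv M z) ≠ 0) →
        ∃ β : Fin N → ι, (Matrix.of fun a => L (β a)).det ≠ 0 ∧ Gn v z ≤
          ∑ a, (Real.log (nrm (f v) (exv M z)) - Real.log (f v (dot (L (β a)) (exv M z)))) + c) →
      ∀ ε : ℝ, 0 < ε → ∃ C : ℝ, 0 ≤ C ∧
      ∀ z : Fin N → ℚ, z ≠ 0 → P z → (∀ m ∈ Z, ∑ j, m j * z j ≠ 0) →
        ∑ v ∈ S, wt v * Gn v z ≤ (N + ε) * logHeight z + C := by
  classical
  obtain ⟨Z0, hZ0, hmain⟩ := schV (k := ℚ) hi hN L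
  have hdes : ∀ l, ∃ g : Fin N → ℚ, g ≠ 0 ∧ ∀ x : Fin N → ℚ,
      ∑ j, g j * x j ≠ 0 → ∑ j, L l j * algebraMap ℚ M (x j) ≠ 0 := fun l =>
    descend (k := ℚ) (L l) (hL l)
  choose g hg0 hg using hdes
  have hZL : ∀ z : Fin N → ℚ, (∀ m ∈ Z0 ∪ Finset.univ.image g, ∑ j, m j * z j ≠ 0) → ∀ l,
      dot (L l) (exv M z) ≠ 0 := fun z hz l =>
    hg l z (hz _ (Finset.mem_union_right _ (Finset.mem_image_of_mem _ (Finset.mem_univ _))))
  refine ⟨Z0 ∪ Finset.univ.image g, ?_, hZL, fun S f hf P Gn c hG ε hε => ?_⟩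
  · intro m hm
    rcases Finset.mem_union.1 hm with hm | hm
    · exact hZ0 m hm
    · obtain ⟨l, -, rfl⟩ := Finset.mem_image.1 hm
      exact hg0 l
  obtain ⟨C0, hC0, hsch⟩ := hmain S f hf ε hε
  have hc0 : 0 ≤ ∑ v ∈ S, wt v * |c| := Finset.sum_nonneg fun v _ =>
    mul_nonneg (wt_nonneg v) (abs_nonneg _)
  refine ⟨C0 + ∑ v ∈ S, wt v * |c|, add_nonneg hC0 hc0, fun z hz hP hzZ => ?_⟩
  have hzL := hZL z hzZ
  have hne : ∀ v ∈ S, ∃ β : Fin N → ι, (Matrix.of fun a => L (β a)).det ≠ 0 ∧ Gn v z ≤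
      ∑ a, (Real.log (nrm (f v) (exv M z)) - Real.log (f v (dot (L (β a)) (exv M z)))) + c :=
    fun v hv => hG v hv z hz hP hzL
  rcases S.eq_empty_or_nonempty with rfl | ⟨v1, hv1⟩
  · simp only [Finset.sum_empty, add_zero]
    have := logHeight_nonneg z
    positivity
  obtain ⟨β1, -, -⟩ := hne v1 hv1
  have hne' : ∀ v, ∃ β : Fin N → ι, v ∈ S → ((Matrix.of fun a => L (β a)).det ≠ 0 ∧ Gn v z ≤
      ∑ a, (Real.log (nrm (f v) (exv M z)) - Real.log (f v (dot (L (β a)) (exv M z)))) + c) := by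
    intro v
    by_cases hv : v ∈ S
    · obtain ⟨β, h⟩ := hne v hv
      exact ⟨β, fun _ => h⟩
    · exact ⟨β1, fun h => absurd h hv⟩
  choose β hβ using hne'
  have h1 := hsch z hz (fun m hm => hzZ m (Finset.mem_union_left _ hm)) hzL β
    (fun v hv => (hβ v hv).1)
  have h2 : ∑ v ∈ S, wt v * Gn v z ≤
      ∑ v ∈ S, wt v * (∑ a, (Real.log (nrm (av v) z) -
        Real.log (f v (dot (L (β v a)) (exv M z)))) + |c|) := by
    refine Finset.sum_le_sum fun v hv => mul_le_mul_of_nonneg_left ?_ (wt_nonneg v)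
    have h3 := (hβ v hv).2
    have h4 : nrm (f v) (exv M z) = nrm (av v) z := (hf v hv).nrm_ext z
    rw [h4] at h3
    have h5 := le_abs_self c
    linarith
  simp only [mul_add, Finset.sum_add_distrib] at h2
  linarith

/-- the value of a form is bounded by the norm -/
theorem form_le {M : Type} [Field M] {N : ℕ} (f : AbsoluteValue M ℝ) (a : Fin N → M) :
    ∃ C : ℝ, 1 ≤ C ∧ ∀ z : Fin N → M, f (dot a z) ≤ C * nrm f z := by
  refine ⟨1 + ∑ j, f (a j), ?_, fun z => ?_⟩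
  · have : 0 ≤ ∑ j, f (a j) := Finset.sum_nonneg fun _ _ => f.nonneg _
    linarith
  · exact Pool.Agent.R405.abs_dot f a z

theorem log_form_le {M : Type} [Field M] {N : ℕ} (f : AbsoluteValue M ℝ) (a : Fin N → M) :
    ∃ c : ℝ, 0 ≤ c ∧ ∀ z : Fin N → M, z ≠ 0 → dot a z ≠ 0 →
      0 ≤ Real.log (nrm f z) - Real.log (f (dot a z)) + c := by
  obtain ⟨C, hC, h⟩ := form_le f a
  refine ⟨Real.log C, Real.log_nonneg hC, fun z hz ha => ?_⟩
  have h1 := h z
  have h2 := nrm_pos f hz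
  have h3 : 0 < f (dot a z) := f.pos_iff.2 ha
  have h4 := Real.log_le_log h3 h1
  rw [Real.log_mul (by linarith) h2.ne'] at h4
  linarith

/-- two independent forms in two variables -/
theorem two_forms {M : Type} [Field M] (f : AbsoluteValue M ℝ) (a b : Fin 2 → M)
    (hab : a 0 * b 1 - a 1 * b 0 ≠ 0) :
    ∃ c : ℝ, 0 ≤ c ∧ ∀ z : Fin 2 → M, z ≠ 0 → dot a z ≠ 0 → dot b z ≠ 0 →
      min (Real.log (nrm f z) - Real.log (f (dot a z)))
        (Real.log (nrm f z) - Real.log (f (dot b z))) ≤ c := by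
  set δ := a 0 * b 1 - a 1 * b 0 with hδ
  set K : ℝ := 1 + (f (b 1) + f (a 1) + f (b 0) + f (a 0)) / f δ with hK
  have hδ0 : 0 < f δ := f.pos_iff.2 hab
  have n0 := f.nonneg (a 0)
  have n1 := f.nonneg (a 1)
  have n2 := f.nonneg (b 0)
  have n3 := f.nonneg (b 1)
  have hK1 : 1 ≤ K := by
    rw [hK]
    have : 0 ≤ (f (b 1) + f (a 1) + f (b 0) + f (a 0)) / f δ := by positivity
    linarith
  refine ⟨Real.log K, Real.log_nonneg hK1, fun z hz ha hb => ?_⟩
  have hn := nrm_pos f hz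
  set m := max (f (dot a z)) (f (dot b z)) with hm
  have hfa : 0 < f (dot a z) := f.pos_iff.2 ha
  have hfb : 0 < f (dot b z) := f.pos_iff.2 hb
  have hm0 : 0 < m := lt_of_lt_of_le hfa (le_max_left _ _)
  have hda : dot a z = a 0 * z 0 + a 1 * z 1 := by
    unfold dot
    rw [Fin.sum_univ_two]
  have hdb : dot b z = b 0 * z 0 + b 1 * z 1 := by
    unfold dot
    rw [Fin.sum_univ_two]
  have e0 : δ * z 0 = b 1 * dot a z - a 1 * dot b z := by
    rw [hda, hdb, hδ]; ring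
  have e1 : δ * z 1 = a 0 * dot b z - b 0 * dot a z := by
    rw [hda, hdb, hδ]; ring
  have hle : ∀ j, f (z j) ≤ K * m := by
    have key : ∀ (u w : M) (y : M), δ * y = u * dot a z - w * dot b z →
        f (u) + f (w) ≤ f (b 1) + f (a 1) + f (b 0) + f (a 0) → f y ≤ K * m := by
      intro u w y h1 h2
      have h3 : f δ * f y ≤ (f u + f w) * m := by
        rw [← map_mul, h1]
        have h4 : f (u * dot a z - w * dot b z) ≤ f (u * dot a z) + f (w * dot b z) := by
          rw [sub_eq_add_neg]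
          refine (f.add_le _ _).trans ?_
          rw [f.map_neg]
        refine h4.trans ?_
        rw [map_mul, map_mul, add_mul]
        exact add_le_add (mul_le_mul_of_nonneg_left (le_max_left _ _) (f.nonneg _))
          (mul_le_mul_of_nonneg_left (le_max_right _ _) (f.nonneg _))
      have h5 : f δ * f y ≤ (f (b 1) + f (a 1) + f (b 0) + f (a 0)) * m :=
        h3.trans (mul_le_mul_of_nonneg_right h2 hm0.le)
      have h6 : f y ≤ (f (b 1) + f (a 1) + f (b 0) + f (a 0)) / f δ * m := by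
        rw [div_mul_eq_mul_div, le_div_iff₀ hδ0]
        linarith
      rw [hK, add_mul, one_mul]
      linarith
    intro j
    fin_cases j
    · exact key _ _ _ e0 (by linarith)
    · refine key (-(b 0)) (-(a 0)) _ (by
        rw [show z (⟨1, by norm_num⟩ : Fin 2) = z 1 from rfl, e1]
        ring) ?_
      rw [f.map_neg, f.map_neg]
      linarith
  have h1 : nrm f z ≤ K * m := Pool.Agent.W180.OP.nrm_le (by positivity) hle
  have h2 : Real.log (nrm f z) ≤ Real.log K + Real.log m := by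
    rw [← Real.log_mul (by linarith) hm0.ne']
    exact Real.log_le_log hn h1
  rcases max_choice (f (dot a z)) (f (dot b z)) with h | h
  · rw [← hm] at h
    rw [h] at h2
    exact (min_le_left _ _).trans (by linarith)
  · rw [← hm] at h
    rw [h] at h2
    exact (min_le_right _ _).trans (by linarith)

end Pool.Agent.NH28
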