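import Pool.Agent.NH28.QD9
import Pool.Agent.W226.VQ.Main

/-!
Quadratic points: the inequality with the discriminant of the order.
-/

set_option autoImplicit false

namespace Pool.Agent.NH28

open Finset NumberField IsDedekindDomain Height Module Polynomial
open Pool.Agent.W180.OP (Pl av wt nrm le_nrm nrm_pos nrm_nonneg exists_nrm wt_nonneg nrm_le)
open Pool.Agent.R405.AQ (T0 mem_T0 sum_T0 fin_int_le inf_int wt_one hm Div exists_div ev cz
  ev_ne prim_ev nrm_ge_one nrm_le_mahler mahler_le_nrm)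
open Pool.Agent.H990R4.VJ (mm one_le_mm)

theorem dz_eq {f : ℤ[X]} (hd : f.natDegree = 2) : dz f = f.discr := by
  have hdeg : f.degree = 2 := by
    have hf0 : f ≠ 0 := by
      rintro rfl
      simp at hd
    rw [degree_eq_natDegree hf0, hd]
    rfl
  rw [discr_of_degree_eq_two hdeg]
  unfold dz
  ring

theorem dz_ne {f : ℤ[X]} (hf : Irreducible f) (hd : f.natDegree = 2) : dz f ≠ 0 := by
  intro h
  apply Pool.Agent.W226.VQ.dsc_ne hf hd
  have h1 : f.coeff 1 ^ 2 - 4 * f.coeff 0 * f.coeff 2 = 0 := by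
    unfold dz at h
    linarith
  exact h1

theorem min_eq_sub (b a : ℝ) : min b a = b - max 0 (b - a) := by
  rcases le_total b a with h | h
  · rw [min_eq_left h, max_eq_left (by linarith)]
    ring
  · rw [min_eq_right h, max_eq_right (by linarith)]
    ring

theorem min_eq_sub' (b a : ℝ) : min b a = a - max 0 (a - b) := by
  rw [min_comm, min_eq_sub]

/-- the inequality -/
theorem quad_real (G : ℤ[X]) (hG : Squarefree (G.map (Int.castRingHom ℚ))) (q : ℕ) (hq : 1 ≤ q)
    (hqG : q = G.natDegree ∨ q = G.natDegree + 1) (S : Finset ℕ) (hS : ∀ p ∈ S, p.Prime)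
    (ε : ℝ) (hε : 0 < ε) :
    ∃ C : ℝ, 0 ≤ C ∧ ∀ f : ℤ[X], Irreducible f → f.natDegree = 2 → resultant f G 2 q ≠ 0 →
      ∀ (h lI eI : ℝ) (lP eP : ℕ → ℝ), h = Real.log (mm f) / 2 →
      lI = (q * Real.log (mm f) - Real.log |((resultant f G 2 q : ℤ) : ℝ)|) / 2 →
      eI = (2 * Real.log (mm f) - Real.log |((f.discr : ℤ) : ℝ)|) / 2 →
      (∀ p, lP p = (padicValInt p (resultant f G 2 q) : ℝ) * Real.log p / 2) →
      (∀ p, eP p = (padicValInt p f.discr : ℝ) * Real.log p / 2) →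
      (lI + ∑ p ∈ S, lP p) + (eI + ∑ p ∈ S, eP p) ≤ (4 + ε) * h +
        min ((max 0 (eI - lI) + ∑ p ∈ S, max 0 (eP p - lP p)) / 2)
          ((max 0 (lI - eI) + ∑ p ∈ S, max 0 (lP p - eP p)) / 3) + C := by
  classical
  obtain ⟨C, hC0, hC⟩ := quad_two G hG q hq hqG S hS ε hε
  obtain ⟨vp, hvp, hvT, hsum⟩ := sum_places S hS
  have hl2 : 0 < Real.log 2 := Real.log_pos (by norm_num)
  have hl3 : 0 < Real.log 3 := Real.log_pos (by norm_num)
  have hq0 : (0 : ℝ) ≤ q := Nat.cast_nonneg q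
  refine ⟨C + (2 * q + 6) * Real.log 3 + (4 + ε) * Real.log 2, by positivity, ?_⟩
  intro f hf hd hR h lI eI lP eP hh hlI heI hlP heP
  have hz := dz_ne hf hd
  have hz' : f.discr ≠ 0 := by rw [← dz_eq hd]; exact hz
  set L := Lf f with hL
  -- comparison of the heights
  have hmm1 : 1 ≤ mm f := one_le_mm hf.ne_zero
  have hn1 : 1 ≤ nrm (av (Sum.inl default : Pl ℚ)) (cz (ev f)) := nrm_ge_one (ev_ne hd)
  have k1 : L ≤ 2 * h + Real.log 2 := by
    have h1 : nrm (av (Sum.inl default : Pl ℚ)) (cz (ev f)) ≤ 2 * mm f := nrm_le_mahler hd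
    have h2 := Real.log_le_log (by linarith) h1
    rw [Real.log_mul (by norm_num) (by linarith)] at h2
    rw [hh]
    have : Real.log (nrm (av (Sum.inl default : Pl ℚ)) (cz (ev f))) = L := rfl
    linarith
  have k2 : 2 * h ≤ L + Real.log 3 := by
    have h1 : mm f ≤ 3 * nrm (av (Sum.inl default : Pl ℚ)) (cz (ev f)) := mahler_le_nrm hd
    have h2 := Real.log_le_log (by linarith) h1
    rw [Real.log_mul (by norm_num) (by linarith)] at h2
    rw [hh]
    have : Real.log (nrm (av (Sum.inl default : Pl ℚ)) (cz (ev f))) = L := rfl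
    linarith
  have hh0 : 0 ≤ h := by
    rw [hh]
    exact div_nonneg (Real.log_nonneg hmm1) (by norm_num)
  -- the infinite place
  have a1 : Av q G f (Sum.inl default : Pl ℚ) =
      q * L - Real.log |((resultant f G 2 q : ℤ) : ℝ)| := by
    unfold Av
    rw [inf_int]
    rfl
  have b1 : Bv f (Sum.inl default : Pl ℚ) = 2 * L - Real.log |((f.discr : ℤ) : ℝ)| := by
    unfold Bv
    rw [inf_int, dz_eq hd]
    rfl
  have a2 : 2 * lI - q * Real.log 3 ≤ Av q G f (Sum.inl default : Pl ℚ) := by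
    rw [a1, hlI]
    have h1 : 2 * h = Real.log (mm f) := by rw [hh]; ring
    have h2 : (q : ℝ) * (2 * h) ≤ q * (L + Real.log 3) := mul_le_mul_of_nonneg_left k2 hq0
    rw [h1] at h2
    linarith
  have b2 : 2 * eI - 2 * Real.log 3 ≤ Bv f (Sum.inl default : Pl ℚ) := by
    rw [b1, heI]
    have h1 : 2 * h = Real.log (mm f) := by rw [hh]; ring
    linarith
  -- the finite places
  have a3 : ∀ p ∈ S, Av q G f (Sum.inr (vp p) : Pl ℚ) = 2 * lP p := by
    intro p hp
    unfold Av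
    rw [prim_ev hf hd (vp p), Real.log_one, pl_log (hS p hp) (hvp p hp) _ hR, hlP]
    ring
  have b3 : ∀ p ∈ S, Bv f (Sum.inr (vp p) : Pl ℚ) = 2 * eP p := by
    intro p hp
    unfold Bv
    rw [prim_ev hf hd (vp p), Real.log_one, pl_log (hS p hp) (hvp p hp) _ hz, heP, dz_eq hd]
    ring
  -- sums
  set X : ℝ := lI + ∑ p ∈ S, lP p with hX
  set Y : ℝ := eI + ∑ p ∈ S, eP p with hY
  set P : ℝ := max 0 (eI - lI) + ∑ p ∈ S, max 0 (eP p - lP p) with hP
  set N : ℝ := max 0 (lI - eI) + ∑ p ∈ S, max 0 (lP p - eP p) with hN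
  have hP0 : 0 ≤ P := add_nonneg (le_max_left _ _) (Finset.sum_nonneg fun p _ => le_max_left _ _)
  have hN0 : 0 ≤ N := add_nonneg (le_max_left _ _) (Finset.sum_nonneg fun p _ => le_max_left _ _)
  -- the trivial bound
  have hYle : Y ≤ 2 * h + Real.log 3 + Real.log 2 := by
    have h1 := sum_B f hf hd hz S hS
    rw [hsum, Finset.sum_congr rfl b3, ← Finset.mul_sum] at h1
    have h2 : Lf f = L := rfl
    rw [h2] at h1
    rw [hY]
    linarith
  have hmin : min eI lI + ∑ p ∈ S, min (eP p) (lP p) = Y - P := by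
    rw [min_eq_sub, Finset.sum_congr rfl fun p _ => min_eq_sub (eP p) (lP p),
      Finset.sum_sub_distrib, hY, hP]
    ring
  have hmin' : min eI lI + ∑ p ∈ S, min (eP p) (lP p) = X - N := by
    rw [min_eq_sub', Finset.sum_congr rfl fun p _ => min_eq_sub' (eP p) (lP p),
      Finset.sum_sub_distrib, hX, hN]
    ring
  have hqL : 0 ≤ (q : ℝ) * Real.log 3 := mul_nonneg hq0 hl3.le
  have hε2 : 0 ≤ ε * Real.log 2 := mul_nonneg hε.le hl2.le
  have hεh : 0 ≤ ε * h := mul_nonneg hε.le hh0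
  rcases hC f hf hd hR hz with h1 | h1
  · -- outside the lines
    rw [hsum] at h1
    have h2 : ∑ p ∈ S, (Av q G f (Sum.inr (vp p) : Pl ℚ) + min (Bv f (Sum.inr (vp p) : Pl ℚ))
        (Av q G f (Sum.inr (vp p) : Pl ℚ)) / 2) = 2 * ∑ p ∈ S, lP p +
        ∑ p ∈ S, min (eP p) (lP p) := by
      rw [Finset.mul_sum, ← Finset.sum_add_distrib]
      refine Finset.sum_congr rfl fun p hp => ?_
      rw [a3 p hp, b3 p hp, ← mul_min_of_nonneg _ _ (by norm_num : (0 : ℝ) ≤ 2)]
      ring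
    rw [h2] at h1
    have h3 : 2 * min eI lI - (q + 2) * Real.log 3 ≤ min (Bv f (Sum.inl default : Pl ℚ))
        (Av q G f (Sum.inl default : Pl ℚ)) := by
      refine le_min ?_ ?_
      · have := min_le_left eI lI
        nlinarith
      · have := min_le_right eI lI
        nlinarith
    have h4 : (3 + ε) * Lf f ≤ (3 + ε) * (2 * h + Real.log 2) :=
      mul_le_mul_of_nonneg_left k1 (by linarith)
    have h5 : 2 * X + (min eI lI + ∑ p ∈ S, min (eP p) (lP p)) ≤
        (3 + ε) * (2 * h + Real.log 2) + C + (2 * q + 2) * Real.log 3 := by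
      rw [hX]
      nlinarith
    have e1 : (3 + ε) * (2 * h + Real.log 2) =
        (6 + 2 * ε) * h + (3 + ε) * Real.log 2 := by ring
    rw [e1] at h5
    have h6 : X + Y ≤ (4 + ε) * h + P / 2 + (C + (2 * q + 6) * Real.log 3 +
        (4 + ε) * Real.log 2) := by
      rw [hmin] at h5
      linarith
    have h7 : X + Y ≤ (4 + ε) * h + N / 3 + (C + (2 * q + 6) * Real.log 3 +
        (4 + ε) * Real.log 2) := by
      rw [hmin'] at h5
      linarith
    rcases le_total (P / 2) (N / 3) with h8 | h8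
    · rw [min_eq_left h8]
      exact h6
    · rw [min_eq_right h8]
      exact h7
  · -- on the lines
    rw [hsum] at h1
    have h2 : ∑ p ∈ S, (Av q G f (Sum.inr (vp p) : Pl ℚ) + Bv f (Sum.inr (vp p) : Pl ℚ)) =
        2 * ∑ p ∈ S, lP p + 2 * ∑ p ∈ S, eP p := by
      rw [Finset.mul_sum, Finset.mul_sum, ← Finset.sum_add_distrib]
      refine Finset.sum_congr rfl fun p hp => ?_
      rw [a3 p hp, b3 p hp]
    rw [h2] at h1
    have h4 : (4 + ε) * Lf f ≤ (4 + ε) * (2 * h + Real.log 2) :=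
      mul_le_mul_of_nonneg_left k1 (by linarith)
    have h9 : 0 ≤ min (P / 2) (N / 3) := le_min (by positivity) (by positivity)
    have e1 : (4 + ε) * (2 * h + Real.log 2) =
        (8 + 2 * ε) * h + (4 + ε) * Real.log 2 := by ring
    rw [e1] at h4
    rw [hX, hY]
    linarith

end Pool.Agent.NH28
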