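import Pool.Agent.NH28.QD1

/-!
Roth's theorem with multiplicities.
-/

set_option autoImplicit false

namespace Pool.Agent.NH28

open Finset NumberField IsDedekindDomain Height Module
open Pool.Agent.W180.OP (Pl av wt nrm le_nrm nrm_pos nrm_nonneg exists_nrm wt_nonneg)
open Pool.Agent.R405 (exv exv_ne dot schV Good exists_good descend dot_smul)
open Pool.Agent.R405.IQ (wc inv_bound)

/-- the sum of the local terms of linear forms -/
noncomputable def Ts {M : Type} [Field M] {n N : ℕ} (φ : Fin n → Fin N → M)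
    (f : AbsoluteValue M ℝ) (z : Fin N → M) : ℝ :=
  ∑ i, (Real.log (nrm f z) - Real.log (f (dot (φ i) z)))

theorem nrm_smul {M : Type} [Field M] {N : ℕ} (hN : 1 ≤ N) (f : AbsoluteValue M ℝ) (c : M)
    (z : Fin N → M) : nrm f (c • z) = f c * nrm f z := by
  refine le_antisymm ?_ ?_
  · refine Pool.Agent.W180.OP.nrm_le (mul_nonneg (f.nonneg _) (nrm_nonneg _ _)) fun j => ?_
    rw [Pi.smul_apply, smul_eq_mul, map_mul]
    exact mul_le_mul_of_nonneg_left (le_nrm f z j) (f.nonneg _)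
  · obtain ⟨j, hj⟩ := exists_nrm f hN z
    rw [← hj, ← map_mul]
    exact le_nrm f (c • z) j

theorem dot_smul_right {M : Type} [Field M] {N : ℕ} (a z : Fin N → M) (c : M) :
    dot a (c • z) = c * dot a z := by
  unfold dot
  rw [Finset.mul_sum]
  refine Finset.sum_congr rfl fun j _ => ?_
  rw [Pi.smul_apply, smul_eq_mul]
  ring

theorem Ts_smul {M : Type} [Field M] {n N : ℕ} (hN : 1 ≤ N) (φ : Fin n → Fin N → M)
    (f : AbsoluteValue M ℝ) {z : Fin N → M} (hz : z ≠ 0) (hφ : ∀ i, dot (φ i) z ≠ 0) {c : M}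
    (hc : c ≠ 0) : Ts φ f (c • z) = Ts φ f z := by
  unfold Ts
  refine Finset.sum_congr rfl fun i _ => ?_
  have h1 : 0 < f c := f.pos_iff.2 hc
  rw [nrm_smul hN, dot_smul_right, map_mul, Real.log_mul h1.ne' (nrm_pos f hz).ne',
    Real.log_mul h1.ne' (f.pos_iff.2 (hφ i)).ne']
  ring

theorem exv_smulQ {M : Type} [Field M] [NumberField M] {N : ℕ} (c : ℚ) (z : Fin N → ℚ) :
    exv M (c • z) = (algebraMap ℚ M c) • exv M z := by
  funext j
  show algebraMap ℚ M (c • z j) = _
  rw [smul_eq_mul, map_mul]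
  rfl

theorem roth_local {M : Type} [Field M] {n : ℕ} (φ : Fin n → Fin 2 → M)
    (hφ : ∀ i, φ i ≠ 0) (μ : ℕ) (hμ1 : 1 ≤ μ) (hn : 1 ≤ n)
    (hμ : ∀ (i : Fin n) (s : Finset (Fin n)),
      (∀ j ∈ s, φ i 0 * φ j 1 - φ i 1 * φ j 0 = 0) → s.card ≤ μ)
    (f : AbsoluteValue M ℝ) :
    ∃ c : ℝ, ∀ z : Fin 2 → M, z ≠ 0 → (∀ l, dot (wc φ l) z ≠ 0) →
      ∃ β : Fin 2 → Fin n ⊕ Fin 2, (Matrix.of fun a => wc φ (β a)).det ≠ 0 ∧ Ts φ f z / μ ≤
        ∑ a, (Real.log (nrm f z) - Real.log (f (dot (wc φ (β a)) z))) + c := by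
  classical
  choose c0 hc00 hc0 using fun i => log_form_le f (φ i)
  have h2 : ∀ i j, ∃ c : ℝ, 0 ≤ c ∧ (φ i 0 * φ j 1 - φ i 1 * φ j 0 ≠ 0 →
      ∀ z : Fin 2 → M, z ≠ 0 → dot (φ i) z ≠ 0 → dot (φ j) z ≠ 0 →
      min (Real.log (nrm f z) - Real.log (f (dot (φ i) z)))
        (Real.log (nrm f z) - Real.log (f (dot (φ j) z))) ≤ c) := by
    intro i j
    by_cases h : φ i 0 * φ j 1 - φ i 1 * φ j 0 = 0
    · exact ⟨0, le_rfl, fun h' => absurd h h'⟩
    · obtain ⟨c, h1, h2⟩ := two_forms f (φ i) (φ j) h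
      exact ⟨c, h1, fun _ => h2⟩
  choose c1 hc10 hc1 using h2
  have : Nonempty (Fin n) := ⟨⟨0, hn⟩⟩
  set C0 : ℝ := ∑ i, c0 i with hC0
  set C1 : ℝ := ∑ i, ∑ j, c1 i j with hC1
  have hC00 : 0 ≤ C0 := Finset.sum_nonneg fun i _ => hc00 i
  have hC10 : 0 ≤ C1 := Finset.sum_nonneg fun i _ => Finset.sum_nonneg fun j _ => hc10 i j
  refine ⟨C0 + n * C1, fun z hz hl => ?_⟩
  have hφz : ∀ i, dot (φ i) z ≠ 0 := fun i => hl (Sum.inl i)
  set lm : Fin n → ℝ := fun i => Real.log (nrm f z) - Real.log (f (dot (φ i) z)) with hlm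
  obtain ⟨i, hi⟩ := Finite.exists_max lm
  -- the second form
  have hk : ∃ k : Fin 2, (Matrix.of fun a => wc φ ((![Sum.inl i, Sum.inr k] :
      Fin 2 → Fin n ⊕ Fin 2) a)).det ≠ 0 := by
    by_cases h0 : φ i 0 = 0
    · refine ⟨0, ?_⟩
      have h1 : φ i 1 ≠ 0 := by
        intro h1
        apply hφ i
        funext j
        fin_cases j
        · exact h0
        · exact h1
      rw [Matrix.det_fin_two]
      simp [wc, h1]
    · refine ⟨1, ?_⟩
      rw [Matrix.det_fin_two]
      simp [wc, h0]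
  obtain ⟨k, hk⟩ := hk
  refine ⟨![Sum.inl i, Sum.inr k], hk, ?_⟩
  rw [Fin.sum_univ_two]
  have hcoord : dot (wc φ (Sum.inr k)) z = z k := by
    unfold dot
    rw [Finset.sum_eq_single k]
    · simp [wc]
    · intro j _ hj
      simp [wc, Pi.single_eq_of_ne hj]
    · intro h
      exact absurd (Finset.mem_univ _) h
  have hzk : z k ≠ 0 := by
    rw [← hcoord]
    exact hl _
  have h3 : 0 ≤ Real.log (nrm f z) - Real.log (f (dot (wc φ (Sum.inr k)) z)) := by
    rw [hcoord]
    have h4 := Real.log_le_log (f.pos_iff.2 hzk) (le_nrm f z k)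
    linarith
  have h4 : (![Sum.inl i, Sum.inr k] : Fin 2 → Fin n ⊕ Fin 2) 0 = Sum.inl i := rfl
  have h5 : (![Sum.inl i, Sum.inr k] : Fin 2 → Fin n ⊕ Fin 2) 1 = Sum.inr k := rfl
  rw [h4, h5]
  have h6 : wc φ (Sum.inl i) = φ i := rfl
  rw [h6]
  -- the main estimate
  have hlow : 0 ≤ lm i + C0 := by
    have h7 := hc0 i z hz (hφz i)
    have h8 := Finset.single_le_sum (f := c0) (fun i _ => hc00 i) (Finset.mem_univ i)
    simp only [hlm]
    linarith
  have hmain : Ts φ f z ≤ μ * (lm i + C0) + n * C1 := by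
    have h7 : Ts φ f z = ∑ j ∈ Finset.univ.filter (fun j => φ i 0 * φ j 1 - φ i 1 * φ j 0 = 0),
        lm j + ∑ j ∈ Finset.univ.filter (fun j => ¬ (φ i 0 * φ j 1 - φ i 1 * φ j 0 = 0)), lm j := by
      rw [Finset.sum_filter_add_sum_filter_not]
      rfl
    have h8 : ∑ j ∈ Finset.univ.filter (fun j => φ i 0 * φ j 1 - φ i 1 * φ j 0 = 0), lm j ≤
        μ * (lm i + C0) := by
      have h9 : ∑ j ∈ Finset.univ.filter (fun j => φ i 0 * φ j 1 - φ i 1 * φ j 0 = 0), lm j ≤
          ∑ _j ∈ Finset.univ.filter (fun j => φ i 0 * φ j 1 - φ i 1 * φ j 0 = 0),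
            (lm i + C0) :=
        Finset.sum_le_sum fun j _ => (hi j).trans (by linarith)
      refine h9.trans ?_
      rw [Finset.sum_const, nsmul_eq_mul]
      exact mul_le_mul_of_nonneg_right (by exact_mod_cast hμ i _ fun j hj =>
        (Finset.mem_filter.1 hj).2) hlow
    have h10 : ∑ j ∈ Finset.univ.filter (fun j => ¬ (φ i 0 * φ j 1 - φ i 1 * φ j 0 = 0)), lm j ≤
        n * C1 := by
      have h9 : ∑ j ∈ Finset.univ.filter (fun j => ¬ (φ i 0 * φ j 1 - φ i 1 * φ j 0 = 0)),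
          lm j ≤ ∑ _j ∈ Finset.univ.filter
            (fun j => ¬ (φ i 0 * φ j 1 - φ i 1 * φ j 0 = 0)), C1 := by
        refine Finset.sum_le_sum fun j hj => ?_
        have h11 := hc1 i j (Finset.mem_filter.1 hj).2 z hz (hφz i) (hφz j)
        have h12 : min (lm i) (lm j) = lm j := min_eq_right (hi j)
        have h13 : c1 i j ≤ C1 := by
          have h14 := Finset.single_le_sum (f := fun i => ∑ j, c1 i j)
            (fun i _ => Finset.sum_nonneg fun j _ => hc10 i j) (Finset.mem_univ i)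
          have h15 := Finset.single_le_sum (f := fun j => c1 i j) (fun j _ => hc10 i j)
            (Finset.mem_univ j)
          exact h15.trans h14
        rw [← h12]
        exact h11.trans h13
      refine h9.trans ?_
      rw [Finset.sum_const, nsmul_eq_mul]
      refine mul_le_mul_of_nonneg_right ?_ hC10
      have h16 := Finset.card_le_univ (Finset.univ.filter
        (fun j : Fin n => ¬ (φ i 0 * φ j 1 - φ i 1 * φ j 0 = 0)))
      rw [Fintype.card_fin] at h16
      exact_mod_cast h16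
    rw [h7]
    linarith
  have hμ0 : (1 : ℝ) ≤ μ := by exact_mod_cast hμ1
  have h17 : Ts φ f z / μ ≤ lm i + C0 + n * C1 := by
    rw [div_le_iff₀ (by linarith)]
    have h18 : (n : ℝ) * C1 ≤ n * C1 * μ := le_mul_of_one_le_right (by positivity) hμ0
    have e1 : (lm i + C0 + n * C1) * μ = μ * (lm i + C0) + n * C1 * μ := by ring
    rw [e1]
    linarith
  have h19 : lm i = Real.log (nrm f z) - Real.log (f (dot (φ i) z)) := rfl
  linarith

/-- **Roth's theorem with multiplicities**: at most `μ` of the forms are proportional to one form. -/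
theorem roth_mult {M : Type} [Field M] [NumberField M] [IsGalois ℚ M]
    (hi : ∃ z : M, z ^ 2 = -1) {n : ℕ} (φ : Fin n → Fin 2 → M)
    (hφ : ∀ i, φ i ≠ 0) (μ : ℕ)
    (hμ : ∀ (i : Fin n) (s : Finset (Fin n)),
      (∀ j ∈ s, φ i 0 * φ j 1 - φ i 1 * φ j 0 = 0) → s.card ≤ μ)
    (S : Finset (Pl ℚ)) (f : Pl ℚ → AbsoluteValue M ℝ) (hf : ∀ v, Good v (f v))
    (ε : ℝ) (hε : 0 < ε) :
    ∃ C : ℝ, 0 ≤ C ∧ ∀ x : Fin 2 → ℚ, x ≠ 0 → (∀ i, dot (φ i) (exv M x) ≠ 0) →
      ∑ v ∈ S, wt v * Ts φ (f v) (exv M x) ≤ (2 * μ + ε) * logHeight x + C := by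
  classical
  rcases Nat.eq_zero_or_pos n with hn | hn
  · subst hn
    refine ⟨0, le_rfl, fun x hx _ => ?_⟩
    have h1 : ∑ v ∈ S, wt v * Ts φ (f v) (exv M x) = 0 := by
      refine Finset.sum_eq_zero fun v _ => ?_
      unfold Ts
      rw [Finset.sum_eq_zero (fun i _ => i.elim0), mul_zero]
    rw [h1]
    have := logHeight_nonneg x
    positivity
  have hμ1 : 1 ≤ μ := by
    have h1 := hμ ⟨0, hn⟩ {⟨0, hn⟩} (by
      intro j hj
      rw [Finset.mem_singleton.1 hj]
      ring)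
    rwa [Finset.card_singleton] at h1
  have hμ0 : (1 : ℝ) ≤ μ := by exact_mod_cast hμ1
  have hwc0 : ∀ l, wc φ l ≠ 0 := by
    intro l
    rcases l with l | i
    · exact hφ l
    · intro h
      have := congrFun h i
      simp [wc] at this
  obtain ⟨Z, hZ0, -, hmain⟩ := sch_gen (by norm_num : 1 ≤ 2) hi (wc φ) hwc0
  choose c hc using fun v => roth_local φ hφ μ hμ1 hn hμ (f v)
  have hexv : ∀ u : Fin 2 → M, exv M u = u := fun u => rfl
  obtain ⟨C, hC0, hC⟩ := hmain S f (fun v _ => hf v) (fun _ => True)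
    (fun v z => Ts φ (f v) (exv M z) / μ) (∑ v ∈ S, |c v|) (by
      intro v hv z hz _ hl
      obtain ⟨β, h1, h2⟩ := hc v (exv M z) (exv_ne hz) hl
      refine ⟨β, h1, h2.trans ?_⟩
      have h3 := Finset.single_le_sum (f := fun v => |c v|) (fun v _ => abs_nonneg _) hv
      have h4 := le_abs_self (c v)
      linarith) (ε / μ) (by positivity)
  -- the exceptional points
  set x0 : (Fin 2 → ℚ) → Fin 2 → ℚ := fun m => ![-(m 1), m 0] with hx0
  set Cz : ℝ := ∑ m ∈ Z, |∑ v ∈ S, wt v * Ts φ (f v) (exv M (x0 m))| with hCz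
  have hCz0 : 0 ≤ Cz := Finset.sum_nonneg fun _ _ => abs_nonneg _
  refine ⟨μ * C + Cz, by positivity, fun x hx hφx => ?_⟩
  have hh := logHeight_nonneg x
  by_cases hZx : ∀ m ∈ Z, ∑ j, m j * x j ≠ 0
  · have h1 := hC x hx trivial hZx
    have h2 : ∑ v ∈ S, wt v * (Ts φ (f v) (exv M x) / μ) =
        (∑ v ∈ S, wt v * Ts φ (f v) (exv M x)) / μ := by
      rw [Finset.sum_div]
      exact Finset.sum_congr rfl fun v _ => by rw [mul_div_assoc]
    rw [h2, div_le_iff₀ (by linarith)] at h1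
    refine h1.trans ?_
    have e1 : (((2 : ℕ) : ℝ) + ε / μ) * logHeight x * μ = (2 * μ + ε) * logHeight x := by
      push_cast
      field_simp
    rw [add_mul, e1]
    linarith
  · push Not at hZx
    obtain ⟨m, hm, hmx⟩ := hZx
    have hm0 := hZ0 m hm
    rw [Fin.sum_univ_two] at hmx
    -- `x` is a multiple of `x0 m`
    have hprop : ∃ t : ℚ, t ≠ 0 ∧ x0 m = t • x := by
      by_cases h0 : x 0 = 0
      · have h1 : x 1 ≠ 0 := by
          intro h1
          apply hx
          funext j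
          fin_cases j
          · exact h0
          · exact h1
        have h2 : m 1 = 0 := by
          rw [h0, mul_zero, zero_add] at hmx
          exact (mul_eq_zero.1 hmx).resolve_right h1
        have h3 : m 0 ≠ 0 := by
          intro h3
          apply hm0
          funext j
          fin_cases j
          · exact h3
          · exact h2
        refine ⟨m 0 / x 1, div_ne_zero h3 h1, ?_⟩
        funext j
        fin_cases j
        · simp [hx0, h2, h0]
        · simp [hx0, h1]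
      · have h4 : m 0 = -(m 1 * x 1) / x 0 := by
          field_simp
          linarith
        have h5 : m 1 ≠ 0 := by
          intro h5
          apply hm0
          funext j
          fin_cases j
          · show m 0 = 0
            rw [h4, h5]
            simp
          · exact h5
        refine ⟨-(m 1) / x 0, div_ne_zero (neg_ne_zero.2 h5) h0, ?_⟩
        funext j
        fin_cases j
        · simp [hx0, h0]
        · simp only [hx0, Fin.mk_one, Matrix.cons_val_one, Matrix.cons_val_fin_one, Pi.smul_apply,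
            smul_eq_mul]
          rw [h4]
          ring
    obtain ⟨t, ht, hxt⟩ := hprop
    have h1 : ∑ v ∈ S, wt v * Ts φ (f v) (exv M x) =
        ∑ v ∈ S, wt v * Ts φ (f v) (exv M (x0 m)) := by
      refine Finset.sum_congr rfl fun v _ => ?_
      rw [hxt, exv_smulQ, Ts_smul (by norm_num) φ (f v) (exv_ne hx) hφx
        ((map_ne_zero _).2 ht)]
    rw [h1]
    have h2 := le_abs_self (∑ v ∈ S, wt v * Ts φ (f v) (exv M (x0 m)))
    have h3 := Finset.single_le_sum
      (f := fun m => |∑ v ∈ S, wt v * Ts φ (f v) (exv M (x0 m))|) (fun _ _ => abs_nonneg _) hm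
    have h4 : 0 ≤ (2 * (μ : ℝ) + ε) * logHeight x := by positivity
    have h5 : 0 ≤ (μ : ℝ) * C := by positivity
    linarith

end Pool.Agent.NH28
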