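import Pool.Agent.NH28.QD2
import Pool.Agent.R405.AQ3

/-!
Quadratic forms: values, polar forms, discriminant, and the local inequality.
-/

set_option autoImplicit false

namespace Pool.Agent.NH28

open Finset NumberField IsDedekindDomain Height Module
open Pool.Agent.W180.OP (Pl av wt nrm le_nrm nrm_pos nrm_nonneg exists_nrm wt_nonneg nrm_le)
open Pool.Agent.R405 (exv exv_ne dot schV Good exists_good descend dot_smul)
open Pool.Agent.R405.IQ (wc inv_bound)

variable {M : Type} [Field M]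

/-- the value of a quadratic form at a point, as a linear form in the coefficients -/
def Qe (P : M × M) : Fin 3 → M := fun k => P.1 ^ (k : ℕ) * P.2 ^ (2 - (k : ℕ))

/-- the polar form -/
def Bl (P R : M × M) : Fin 3 → M := ![2 * (P.2 * R.2), P.1 * R.2 + P.2 * R.1, 2 * (P.1 * R.1)]

/-- the discriminant -/
def dsc (z : Fin 3 → M) : M := z 1 ^ 2 - 4 * (z 0 * z 2)

theorem dot_Qe (P : M × M) (z : Fin 3 → M) :
    dot (Qe P) z = P.2 ^ 2 * z 0 + P.1 * P.2 * z 1 + P.1 ^ 2 * z 2 := by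
  unfold dot Qe
  rw [Fin.sum_univ_three]
  simp

theorem dot_Bl (P R : M × M) (z : Fin 3 → M) :
    dot (Bl P R) z = 2 * (P.2 * R.2) * z 0 + (P.1 * R.2 + P.2 * R.1) * z 1 +
      2 * (P.1 * R.1) * z 2 := by
  unfold dot Bl
  rw [Fin.sum_univ_three]
  simp

theorem polar_id (P R : M × M) (z : Fin 3 → M) :
    dot (Bl P R) z ^ 2 = dsc z * (P.1 * R.2 - P.2 * R.1) ^ 2 +
      4 * (dot (Qe P) z * dot (Qe R) z) := by
  rw [dot_Bl, dot_Qe, dot_Qe]
  unfold dsc
  ring

/-- the system of a pair of points -/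
def sy (p : (M × M) × (M × M)) : Fin 3 → Fin 3 → M := ![Qe p.1, Bl p.1 p.2, Qe p.2]

theorem det_sy (p : (M × M) × (M × M)) :
    (Matrix.of fun a => sy p a).det = (p.2.1 * p.1.2 - p.2.2 * p.1.1) ^ 3 := by
  rw [Matrix.det_fin_three]
  simp only [sy, Qe, Bl, Matrix.of_apply, Matrix.cons_val_zero, Matrix.cons_val_one,
    Matrix.cons_val]
  simp
  ring

theorem Qe_ne {P : M × M} (hP : P ≠ 0) : Qe P ≠ 0 := by
  intro h
  have h0 := congrFun h 0
  have h2 := congrFun h 2
  simp only [Qe, Pi.zero_apply] at h0 h2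
  simp at h0 h2
  exact hP (Prod.ext h2 h0)

theorem Bl_ne [CharZero M] {P R : M × M} (hP : P ≠ 0) (hR : R ≠ 0) : Bl P R ≠ 0 := by
  intro h
  have h0 := congrFun h 0
  have h1 := congrFun h 1
  have h2 := congrFun h 2
  simp only [Bl, Pi.zero_apply, Matrix.cons_val_zero, Matrix.cons_val_one, Matrix.cons_val] at h0 h1 h2
  have h0' : P.2 * R.2 = 0 := by
    rcases mul_eq_zero.1 h0 with h | h
    · norm_num at h
    · exact h
  have h2' : P.1 * R.1 = 0 := by
    rcases mul_eq_zero.1 h2 with h | h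
    · norm_num at h
    · exact h
  rcases mul_eq_zero.1 h0' with h3 | h3 <;> rcases mul_eq_zero.1 h2' with h4 | h4
  · exact hP (Prod.ext h4 h3)
  · rw [h3, h4] at h1
    simp only [mul_zero, zero_mul, add_zero] at h1
    rcases mul_eq_zero.1 h1 with h5 | h5
    · exact hP (Prod.ext h5 h3)
    · exact hR (Prod.ext h4 h5)
  · rw [h3, h4] at h1
    simp only [mul_zero, zero_mul, zero_add] at h1
    rcases mul_eq_zero.1 h1 with h5 | h5
    · exact hP (Prod.ext h4 h5)
    · exact hR (Prod.ext h5 h3)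
  · exact hR (Prod.ext h4 h3)

theorem sy_ne [CharZero M] {p : (M × M) × (M × M)} (h1 : p.1 ≠ 0) (h2 : p.2 ≠ 0) (a : Fin 3) :
    sy p a ≠ 0 := by
  fin_cases a
  · exact Qe_ne h1
  · exact Bl_ne h1 h2
  · exact Qe_ne h2

/-- the norm is bounded by the values of three independent forms -/
theorem inv3 (f : AbsoluteValue M ℝ) (L : Fin 3 → Fin 3 → M)
    (h : (Matrix.of fun a => L a).det ≠ 0) :
    ∃ κ : ℝ, 1 ≤ κ ∧ ∀ (z : Fin 3 → M) (t : ℝ), 0 ≤ t → (∀ a, f (dot (L a) z) ≤ t) →
      nrm f z ≤ κ * t := by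
  obtain ⟨κ, h1, h2⟩ := inv_bound (F := M) f L (fun a => Sum.inl a) h
  exact ⟨κ, h1, h2⟩

/-- three points -/
theorem three_pts (f : AbsoluteValue M ℝ) (L : Fin 3 → Fin 3 → M)
    (h : (Matrix.of fun a => L a).det ≠ 0) :
    ∃ c : ℝ, 0 ≤ c ∧ ∀ z : Fin 3 → M, z ≠ 0 → (∀ a, dot (L a) z ≠ 0) → ∃ a,
      Real.log (nrm f z) - Real.log (f (dot (L a) z)) ≤ c := by
  obtain ⟨κ, hκ, h1⟩ := inv3 f L h
  refine ⟨Real.log κ, Real.log_nonneg hκ, fun z hz hL => ?_⟩
  by_contra hcon
  push Not at hcon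
  have hn := nrm_pos f hz
  obtain ⟨a, ha⟩ := Finite.exists_max fun a => f (dot (L a) z)
  have h2 := h1 z (f (dot (L a) z)) (f.nonneg _) ha
  have h3 : 0 < f (dot (L a) z) := f.pos_iff.2 (hL a)
  have h4 := Real.log_le_log hn h2
  rw [Real.log_mul (by linarith) h3.ne'] at h4
  have h5 := hcon a
  linarith

/-- the discriminant is not small near a product of two different factors -/
theorem pair_disc (f : AbsoluteValue M ℝ) (P R : M × M) (hPR : P.1 * R.2 - P.2 * R.1 ≠ 0) :
    ∃ c : ℝ, 0 ≤ c ∧ ∀ z : Fin 3 → M, z ≠ 0 → dsc z ≠ 0 → dot (Qe P) z ≠ 0 → dot (Qe R) z ≠ 0 →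
      min (min (Real.log (nrm f z) - Real.log (f (dot (Qe P) z)))
        (Real.log (nrm f z) - Real.log (f (dot (Qe R) z))))
        (2 * Real.log (nrm f z) - Real.log (f (dsc z))) ≤ c := by
  have hdet : (Matrix.of fun a => sy (P, R) a).det ≠ 0 := by
    rw [det_sy]
    refine pow_ne_zero _ fun h => hPR ?_
    simp only at h
    linear_combination -h
  obtain ⟨κ, hκ, h1⟩ := inv3 f (sy (P, R)) hdet
  set δ := P.1 * R.2 - P.2 * R.1 with hδ
  have hδ0 : 0 < f δ := f.pos_iff.2 hPR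
  set K : ℝ := 1 + Real.sqrt (f δ ^ 2 + f 4) with hK
  have hs0 := Real.sqrt_nonneg (f δ ^ 2 + f 4)
  have hK1 : 1 ≤ K := by linarith
  refine ⟨2 * Real.log (κ * K), mul_nonneg (by norm_num) (Real.log_nonneg (by nlinarith)),
    fun z hz hd hP hR => ?_⟩
  have hn := nrm_pos f hz
  set n := nrm f z with hn'
  set t := min (min (Real.log n - Real.log (f (dot (Qe P) z)))
        (Real.log n - Real.log (f (dot (Qe R) z)))) (2 * Real.log n - Real.log (f (dsc z))) with ht
  rcases le_total t 0 with ht0 | ht0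
  · exact ht0.trans (mul_nonneg (by norm_num) (Real.log_nonneg (by nlinarith)))
  have hfP : 0 < f (dot (Qe P) z) := f.pos_iff.2 hP
  have hfR : 0 < f (dot (Qe R) z) := f.pos_iff.2 hR
  have hfd : 0 < f (dsc z) := f.pos_iff.2 hd
  have e1 : f (dot (Qe P) z) ≤ n * Real.exp (-t) := by
    rw [← Real.log_le_log_iff hfP (by positivity), Real.log_mul hn.ne' (Real.exp_pos _).ne',
      Real.log_exp]
    have : t ≤ Real.log n - Real.log (f (dot (Qe P) z)) := (min_le_left _ _).trans (min_le_left _ _)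
    linarith
  have e2 : f (dot (Qe R) z) ≤ n * Real.exp (-t) := by
    rw [← Real.log_le_log_iff hfR (by positivity), Real.log_mul hn.ne' (Real.exp_pos _).ne',
      Real.log_exp]
    have : t ≤ Real.log n - Real.log (f (dot (Qe R) z)) := (min_le_left _ _).trans (min_le_right _ _)
    linarith
  have e3 : f (dsc z) ≤ n ^ 2 * Real.exp (-t) := by
    rw [← Real.log_le_log_iff hfd (by positivity), Real.log_mul (by positivity)
      (Real.exp_pos _).ne', Real.log_exp, Real.log_pow]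
    have : t ≤ 2 * Real.log n - Real.log (f (dsc z)) := min_le_right _ _
    push_cast
    linarith
  set E := Real.exp (-(t / 2)) with hE
  have hE0 : 0 < E := Real.exp_pos _
  have hE1 : E ≤ 1 := Real.exp_le_one_iff.2 (by linarith)
  have hEt : Real.exp (-t) = E ^ 2 := by
    rw [hE, ← Real.exp_nat_mul]
    congr 1
    push_cast
    ring
  rw [hEt] at e1 e2 e3
  have hEE : E ^ 2 ≤ E := by nlinarith
  have e4 : f (dot (Bl P R) z) ^ 2 ≤ (n * E) ^ 2 * (f δ ^ 2 + f 4) := by
    have h2 : f (dot (Bl P R) z) ^ 2 ≤ f (dsc z) * f δ ^ 2 +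
        f 4 * (f (dot (Qe P) z) * f (dot (Qe R) z)) := by
      rw [← map_pow, polar_id]
      refine (f.add_le _ _).trans (le_of_eq ?_)
      rw [map_mul, map_pow, map_mul, map_mul]
    have h3 : f (dsc z) * f δ ^ 2 ≤ n ^ 2 * E ^ 2 * f δ ^ 2 :=
      mul_le_mul_of_nonneg_right e3 (by positivity)
    have h4 : f (dot (Qe P) z) * f (dot (Qe R) z) ≤ (n * E ^ 2) * (n * E ^ 2) :=
      mul_le_mul e1 e2 hfR.le (by positivity)
    have h5 : (n * E ^ 2) * (n * E ^ 2) ≤ n ^ 2 * E ^ 2 := by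
      have h6 : E ^ 2 * E ^ 2 ≤ E ^ 2 := by nlinarith [sq_nonneg E]
      have h7 := mul_le_mul_of_nonneg_left h6 (sq_nonneg n)
      linarith
    have h6 : f 4 * (f (dot (Qe P) z) * f (dot (Qe R) z)) ≤ f 4 * (n ^ 2 * E ^ 2) :=
      mul_le_mul_of_nonneg_left (h4.trans h5) (f.nonneg _)
    have h7 : (n * E) ^ 2 * (f δ ^ 2 + f 4) = n ^ 2 * E ^ 2 * f δ ^ 2 + f 4 * (n ^ 2 * E ^ 2) := by
      ring
    rw [h7]
    linarith
  have e5 : f (dot (Bl P R) z) ≤ n * E * K := by
    have h2 : f (dot (Bl P R) z) ≤ n * E * Real.sqrt (f δ ^ 2 + f 4) := by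
      refine le_of_sq_le_sq ?_ (by positivity)
      rw [mul_pow, Real.sq_sqrt (by have := f.nonneg 4; positivity)]
      exact e4
    refine h2.trans (mul_le_mul_of_nonneg_left (by linarith) (by positivity))
  have h2 := h1 z (n * E * K) (by positivity) (by
    intro a
    have h3 : n * E ^ 2 ≤ n * E * K := by
      have h4 : E ^ 2 ≤ E * K := by nlinarith
      have h5 := mul_le_mul_of_nonneg_left h4 hn.le
      linarith
    fin_cases a
    · exact e1.trans h3
    · exact e5
    · exact e2.trans h3)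
  rw [← hn'] at h2
  have h3 : 1 ≤ κ * K * E := by
    have h4 : n * 1 ≤ n * (κ * K * E) := by linarith
    exact le_of_mul_le_mul_left h4 hn
  have h5 := Real.log_nonneg h3
  rw [Real.log_mul (by positivity) hE0.ne', hE, Real.log_exp] at h5
  linarith

/-- the polar form is small when the value and the discriminant are -/
theorem polar_small (f : AbsoluteValue M ℝ) (P R : M × M) :
    ∃ c : ℝ, 0 ≤ c ∧ ∀ z : Fin 3 → M, z ≠ 0 → dsc z ≠ 0 → dot (Qe P) z ≠ 0 →
      dot (Bl P R) z ≠ 0 →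
      min (Real.log (nrm f z) - Real.log (f (dot (Qe P) z)))
        (2 * Real.log (nrm f z) - Real.log (f (dsc z))) ≤
        2 * (Real.log (nrm f z) - Real.log (f (dot (Bl P R) z))) + c := by
  obtain ⟨C, hC, hCR⟩ := form_le f (Qe R)
  set δ := P.1 * R.2 - P.2 * R.1 with hδ
  set K : ℝ := 1 + f δ ^ 2 + f 4 * C with hK
  have hf4 := f.nonneg 4
  have hK1 : 1 ≤ K := by
    have : 0 ≤ f δ ^ 2 + f 4 * C := by positivity
    linarith
  refine ⟨Real.log K, Real.log_nonneg hK1, fun z hz hd hP hB => ?_⟩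
  have hn := nrm_pos f hz
  set n := nrm f z with hn'
  set t := min (Real.log n - Real.log (f (dot (Qe P) z)))
    (2 * Real.log n - Real.log (f (dsc z))) with ht
  have hfP : 0 < f (dot (Qe P) z) := f.pos_iff.2 hP
  have hfB : 0 < f (dot (Bl P R) z) := f.pos_iff.2 hB
  have hfd : 0 < f (dsc z) := f.pos_iff.2 hd
  have e1 : f (dot (Qe P) z) ≤ n * Real.exp (-t) := by
    rw [← Real.log_le_log_iff hfP (by positivity), Real.log_mul hn.ne' (Real.exp_pos _).ne',
      Real.log_exp]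
    have : t ≤ Real.log n - Real.log (f (dot (Qe P) z)) := min_le_left _ _
    linarith
  have e3 : f (dsc z) ≤ n ^ 2 * Real.exp (-t) := by
    rw [← Real.log_le_log_iff hfd (by positivity), Real.log_mul (by positivity)
      (Real.exp_pos _).ne', Real.log_exp, Real.log_pow]
    have : t ≤ 2 * Real.log n - Real.log (f (dsc z)) := min_le_right _ _
    push_cast
    linarith
  have e4 : f (dot (Bl P R) z) ^ 2 ≤ n ^ 2 * Real.exp (-t) * K := by
    have h2 : f (dot (Bl P R) z) ^ 2 ≤ f (dsc z) * f δ ^ 2 +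
        f 4 * (f (dot (Qe P) z) * f (dot (Qe R) z)) := by
      rw [← map_pow, polar_id]
      refine (f.add_le _ _).trans (le_of_eq ?_)
      rw [map_mul, map_pow, map_mul, map_mul]
    have h3 : f (dsc z) * f δ ^ 2 ≤ n ^ 2 * Real.exp (-t) * f δ ^ 2 :=
      mul_le_mul_of_nonneg_right e3 (by positivity)
    have h4 : f (dot (Qe P) z) * f (dot (Qe R) z) ≤ (n * Real.exp (-t)) * (C * n) :=
      mul_le_mul e1 (hCR z) (f.nonneg _) (by positivity)
    have h5 := mul_le_mul_of_nonneg_left h4 hf4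
    have h6 : n ^ 2 * Real.exp (-t) * K = n ^ 2 * Real.exp (-t) * f δ ^ 2 +
        f 4 * ((n * Real.exp (-t)) * (C * n)) + n ^ 2 * Real.exp (-t) := by
      rw [hK]; ring
    have h7 : 0 < n ^ 2 * Real.exp (-t) := by positivity
    rw [h6]
    linarith
  have h8 := Real.log_le_log (by positivity) e4
  rw [Real.log_pow, Real.log_mul (by positivity) (by linarith), Real.log_mul (by positivity)
    (Real.exp_pos _).ne', Real.log_exp, Real.log_pow] at h8
  push_cast at h8
  linarith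

end Pool.Agent.NH28
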