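import Pool.Agent.NH28.QD3

/-!
Quadratic forms: the local inequality, and the inequality outside finitely many lines.
-/

set_option autoImplicit false

namespace Pool.Agent.NH28

open Finset NumberField IsDedekindDomain Height Module
open Pool.Agent.W180.OP (Pl av wt nrm le_nrm nrm_pos nrm_nonneg exists_nrm wt_nonneg nrm_le)
open Pool.Agent.R405 (exv exv_ne dot schV Good exists_good descend dot_smul)
open Pool.Agent.R405.IQ (wc inv_bound)

variable {M : Type} [Field M]

open Classical in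
/-- a point different from `P` -/
noncomputable def Rr (P : M × M) : M × M := if P.2 = 0 then (0, 1) else (1, 0)

theorem Rr_ne (P : M × M) : Rr P ≠ 0 := by
  unfold Rr
  split_ifs
  · intro h
    have := congrArg Prod.snd h
    simp at this
  · intro h
    have := congrArg Prod.fst h
    simp at this

theorem Rr_det {P : M × M} (hP : P ≠ 0) : P.1 * (Rr P).2 - P.2 * (Rr P).1 ≠ 0 := by
  unfold Rr
  split_ifs with h
  · intro h1
    simp only [mul_one, mul_zero, sub_zero] at h1
    exact hP (Prod.ext h1 h)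
  · intro h1
    simp only [mul_one, mul_zero, zero_sub, neg_eq_zero] at h1
    exact h h1

/-- the pairs of points -/
noncomputable def pr {q : ℕ} (P : Fin q → M × M) : Fin q ⊕ Fin q × Fin q → (M × M) × (M × M) :=
  Sum.elim (fun l => (P l, Rr (P l))) (fun ij => (P ij.1, P ij.2))

/-- all the linear forms -/
noncomputable def LQ {q : ℕ} (P : Fin q → M × M) : (Fin q ⊕ Fin q × Fin q) × Fin 3 → Fin 3 → M :=
  fun s => sy (pr P s.1) s.2

theorem LQ_ne [CharZero M] {q : ℕ} (P : Fin q → M × M) (hne : ∀ j, P j ≠ 0) (s) :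
    LQ P s ≠ 0 := by
  obtain ⟨s1, s2⟩ := s
  unfold LQ
  refine sy_ne ?_ ?_ _
  · rcases s1 with l | ij
    · exact hne l
    · exact hne ij.1
  · rcases s1 with l | ij
    · exact Rr_ne _
    · exact hne ij.2

/-- the logarithm of the normalised discriminant, with a minus sign -/
noncomputable def Dd (f : AbsoluteValue M ℝ) (z : Fin 3 → M) : ℝ :=
  2 * Real.log (nrm f z) - Real.log (f (dsc z))

theorem sum_sy (f : AbsoluteValue M ℝ) {q : ℕ} (P : Fin q → M × M)
    (s : Fin q ⊕ Fin q × Fin q) (z : Fin 3 → M) :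
    ∑ a, (Real.log (nrm f z) - Real.log (f (dot (LQ P (s, a)) z))) =
      (Real.log (nrm f z) - Real.log (f (dot (Qe (pr P s).1) z))) +
      (Real.log (nrm f z) - Real.log (f (dot (Bl (pr P s).1 (pr P s).2) z))) +
      (Real.log (nrm f z) - Real.log (f (dot (Qe (pr P s).2) z))) := by
  rw [Fin.sum_univ_three]
  rfl

theorem quad_local [CharZero M] {q : ℕ} (hq : 1 ≤ q) (P : Fin q → M × M) (hne : ∀ j, P j ≠ 0)
    (hpw : ∀ i j, i ≠ j → (P i).1 * (P j).2 ≠ (P j).1 * (P i).2) (f : AbsoluteValue M ℝ) :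
    ∃ c : ℝ, ∀ z : Fin 3 → M, z ≠ 0 → dsc z ≠ 0 → (∀ s, dot (LQ P s) z ≠ 0) →
      ∃ s : Fin q ⊕ Fin q × Fin q, (Matrix.of fun a => LQ P (s, a)).det ≠ 0 ∧
        Ts (fun l => Qe (P l)) f z + min (Dd f z) (Ts (fun l => Qe (P l)) f z) / 2 ≤
        ∑ a, (Real.log (nrm f z) - Real.log (f (dot (LQ P (s, a)) z))) + c := by
  classical
  have hpw' : ∀ i j, i ≠ j → (P i).1 * (P j).2 - (P i).2 * (P j).1 ≠ 0 := fun i j hij h =>
    hpw i j hij (by linear_combination h)
  -- constants
  choose c1 hc10 hc1 using fun l => log_form_le f (Qe (P l))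
  choose c2 hc20 hc2 using fun s : Fin q ⊕ Fin q × Fin q =>
    log_form_le f (Bl (pr P s).1 (pr P s).2)
  choose c3 hc30 hc3 using fun l => log_form_le f (Qe (Rr (P l)))
  choose c4 hc40 hc4 using fun l => polar_small f (P l) (Rr (P l))
  have h5 : ∀ i j, ∃ c : ℝ, 0 ≤ c ∧ (i ≠ j → ∀ z : Fin 3 → M, z ≠ 0 → dsc z ≠ 0 →
      dot (Qe (P i)) z ≠ 0 → dot (Qe (P j)) z ≠ 0 →
      min (min (Real.log (nrm f z) - Real.log (f (dot (Qe (P i)) z)))
        (Real.log (nrm f z) - Real.log (f (dot (Qe (P j)) z))))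
        (2 * Real.log (nrm f z) - Real.log (f (dsc z))) ≤ c) := by
    intro i j
    by_cases hij : i = j
    · exact ⟨0, le_rfl, fun h => absurd hij h⟩
    · obtain ⟨c, h1, h2⟩ := pair_disc f (P i) (P j) (hpw' i j hij)
      exact ⟨c, h1, fun _ => h2⟩
  choose c5 hc50 hc5 using h5
  have h6 : ∀ i j k, ∃ c : ℝ, 0 ≤ c ∧ (i ≠ j → i ≠ k → j ≠ k → ∀ z : Fin 3 → M, z ≠ 0 →
      dot (Qe (P i)) z ≠ 0 → dot (Qe (P j)) z ≠ 0 → dot (Qe (P k)) z ≠ 0 →
      Real.log (nrm f z) - Real.log (f (dot (Qe (P i)) z)) ≤ c ∨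
      Real.log (nrm f z) - Real.log (f (dot (Qe (P j)) z)) ≤ c ∨
      Real.log (nrm f z) - Real.log (f (dot (Qe (P k)) z)) ≤ c) := by
    intro i j k
    by_cases hij : i = j ∨ i = k ∨ j = k
    · refine ⟨0, le_rfl, fun a b c => ?_⟩
      rcases hij with h | h | h
      · exact absurd h a
      · exact absurd h b
      · exact absurd h c
    · push Not at hij
      obtain ⟨n1, n2, n3⟩ := hij
      have hdet : (Matrix.of fun a => (![Qe (P i), Qe (P j), Qe (P k)] : Fin 3 → Fin 3 → M)
          a).det ≠ 0 := by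
        have e1 : (Matrix.of fun a => (![Qe (P i), Qe (P j), Qe (P k)] : Fin 3 → Fin 3 → M)
          a).det = ((P i).1 * (P j).2 - (P i).2 * (P j).1) *
            ((P i).1 * (P k).2 - (P i).2 * (P k).1) *
            ((P j).1 * (P k).2 - (P j).2 * (P k).1) * (-1) := by
          rw [Matrix.det_fin_three]
          simp only [Qe, Matrix.of_apply, Matrix.cons_val_zero, Matrix.cons_val_one,
            Matrix.cons_val]
          simp
          ring
        rw [e1]
        exact mul_ne_zero (mul_ne_zero (mul_ne_zero (hpw' _ _ n1) (hpw' _ _ n2)) (hpw' _ _ n3))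
          (by norm_num)
      obtain ⟨c, h1, h2⟩ := three_pts f _ hdet
      refine ⟨c, h1, fun _ _ _ z hz a1 a2 a3 => ?_⟩
      obtain ⟨a, ha⟩ := h2 z hz (by
        intro a
        fin_cases a
        · exact a1
        · exact a2
        · exact a3)
      fin_cases a
      · exact Or.inl ha
      · exact Or.inr (Or.inl ha)
      · exact Or.inr (Or.inr ha)
  choose c6 hc60 hc6 using h6
  set C1 : ℝ := ∑ l, c1 l with hC1
  set C2 : ℝ := ∑ s, c2 s with hC2
  set C3 : ℝ := ∑ l, c3 l with hC3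
  set C4 : ℝ := ∑ l, c4 l with hC4
  set C5 : ℝ := ∑ i, ∑ j, c5 i j with hC5
  set C6 : ℝ := ∑ i, ∑ j, ∑ k, c6 i j k with hC6
  have b1 : ∀ l, c1 l ≤ C1 := fun l =>
    Finset.single_le_sum (f := c1) (fun l _ => hc10 l) (Finset.mem_univ l)
  have b2 : ∀ l, c2 l ≤ C2 := fun l =>
    Finset.single_le_sum (f := c2) (fun l _ => hc20 l) (Finset.mem_univ l)
  have b3 : ∀ l, c3 l ≤ C3 := fun l =>
    Finset.single_le_sum (f := c3) (fun l _ => hc30 l) (Finset.mem_univ l)
  have b4 : ∀ l, c4 l ≤ C4 := fun l =>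
    Finset.single_le_sum (f := c4) (fun l _ => hc40 l) (Finset.mem_univ l)
  have b5 : ∀ i j, c5 i j ≤ C5 := by
    intro i j
    have h1 := Finset.single_le_sum (f := fun i => ∑ j, c5 i j)
      (fun i _ => Finset.sum_nonneg fun j _ => hc50 i j) (Finset.mem_univ i)
    have h2 := Finset.single_le_sum (f := fun j => c5 i j) (fun j _ => hc50 i j)
      (Finset.mem_univ j)
    exact h2.trans h1
  have b6 : ∀ i j k, c6 i j k ≤ C6 := by
    intro i j k
    have h1 := Finset.single_le_sum (f := fun i => ∑ j, ∑ k, c6 i j k)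
      (fun i _ => Finset.sum_nonneg fun j _ => Finset.sum_nonneg fun k _ => hc60 i j k)
      (Finset.mem_univ i)
    have h2 := Finset.single_le_sum (f := fun j => ∑ k, c6 i j k)
      (fun j _ => Finset.sum_nonneg fun k _ => hc60 i j k) (Finset.mem_univ j)
    have h3 := Finset.single_le_sum (f := fun k => c6 i j k) (fun k _ => hc60 i j k)
      (Finset.mem_univ k)
    exact h3.trans (h2.trans h1)
  have n1 : 0 ≤ C1 := Finset.sum_nonneg fun l _ => hc10 l
  have n2 : 0 ≤ C2 := Finset.sum_nonneg fun l _ => hc20 l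
  have n3 : 0 ≤ C3 := Finset.sum_nonneg fun l _ => hc30 l
  have n4 : 0 ≤ C4 := Finset.sum_nonneg fun l _ => hc40 l
  have n5 : 0 ≤ C5 := Finset.sum_nonneg fun i _ => Finset.sum_nonneg fun j _ => hc50 i j
  have n6 : 0 ≤ C6 := Finset.sum_nonneg fun i _ => Finset.sum_nonneg fun j _ =>
    Finset.sum_nonneg fun k _ => hc60 i j k
  refine ⟨2 * (C5 + q * C6) + C2 + C3 + C4, fun z hz hd hL => ?_⟩
  have hQ : ∀ l, dot (Qe (P l)) z ≠ 0 := fun l => hL (Sum.inl l, 0)
  have hB : ∀ s, dot (Bl (pr P s).1 (pr P s).2) z ≠ 0 := fun s => hL (s, 1)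
  have hRz : ∀ l, dot (Qe (Rr (P l))) z ≠ 0 := fun l => hL (Sum.inl l, 2)
  set lm : Fin q → ℝ := fun l => Real.log (nrm f z) - Real.log (f (dot (Qe (P l)) z)) with hlm
  set m := Ts (fun l => Qe (P l)) f z with hm
  have hm' : m = ∑ l, lm l := rfl
  set D := Dd f z with hD
  have hD' : D = 2 * Real.log (nrm f z) - Real.log (f (dsc z)) := rfl
  have : Nonempty (Fin q) := ⟨⟨0, hq⟩⟩
  obtain ⟨i, hi⟩ := Finite.exists_max lm
  -- the single system
  have hsing : m ≤ lm i + (C5 + q * C6) → ∃ s : Fin q ⊕ Fin q × Fin q,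
      (Matrix.of fun a => LQ P (s, a)).det ≠ 0 ∧ m + min D m / 2 ≤
        ∑ a, (Real.log (nrm f z) - Real.log (f (dot (LQ P (s, a)) z))) +
        (2 * (C5 + q * C6) + C2 + C3 + C4) := by
    intro hmi
    refine ⟨Sum.inl i, ?_, ?_⟩
    · show (Matrix.of fun a => sy (pr P (Sum.inl i)) a).det ≠ 0
      rw [det_sy]
      refine pow_ne_zero _ fun h => Rr_det (hne i) ?_
      simp only [pr, Sum.elim_inl] at h
      linear_combination -h
    · rw [sum_sy]
      have e1 : (pr P (Sum.inl i)).1 = P i := rfl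
      have e2 : (pr P (Sum.inl i)).2 = Rr (P i) := rfl
      rw [e1, e2]
      have h1 := hc4 i z hz hd (hQ i) (hB (Sum.inl i))
      have h2 := hc3 i z hz (hRz i)
      have h3 := b3 i
      have h4 := b4 i
      have h7 : min (lm i) D ≤
        2 * (Real.log (nrm f z) - Real.log (f (dot (Bl (P i) (Rr (P i))) z))) + c4 i := h1
      have hC0 : 0 ≤ C5 + q * C6 := by positivity
      have h8 : min D m ≤ min (lm i) D + (C5 + q * C6) := by
        rcases le_total (lm i) D with h9 | h9
        · rw [min_eq_left h9]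
          exact (min_le_right _ _).trans hmi
        · rw [min_eq_right h9]
          exact (min_le_left _ _).trans (by linarith)
      have h10 : lm i = Real.log (nrm f z) - Real.log (f (dot (Qe (P i)) z)) := rfl
      linarith
  by_cases hq1 : ∀ j, j = i
  · refine hsing ?_
    have h1 : m = lm i := by
      rw [hm', Finset.sum_eq_single i]
      · intro j _ hj
        exact absurd (hq1 j) hj
      · intro h
        exact absurd (Finset.mem_univ _) h
    rw [h1]
    have : 0 ≤ C5 + q * C6 := by positivity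
    linarith
  · push Not at hq1
    obtain ⟨j0, hj0⟩ := hq1
    obtain ⟨j, hj, hjmax⟩ := Finset.exists_max_image (Finset.univ.erase i) lm
      ⟨j0, Finset.mem_erase.2 ⟨hj0, Finset.mem_univ _⟩⟩
    have hji : j ≠ i := (Finset.mem_erase.1 hj).1
    -- all other points
    have hoth : ∀ k, k ≠ i → k ≠ j → lm k ≤ C6 := by
      intro k hki hkj
      have h1 := hc6 i j k (Ne.symm hji) (Ne.symm hki) (Ne.symm hkj) z hz (hQ i) (hQ j) (hQ k)
      have h2 : lm k ≤ lm j := hjmax k (Finset.mem_erase.2 ⟨hki, Finset.mem_univ _⟩)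
      have h3 : lm k ≤ lm i := hi k
      have h4 := b6 i j k
      rcases h1 with h1 | h1 | h1
      · exact h3.trans (le_trans h1 h4)
      · exact h2.trans (le_trans h1 h4)
      · exact le_trans h1 h4
    have hmle : m ≤ lm i + lm j + q * C6 := by
      rw [hm', ← Finset.add_sum_erase _ _ (Finset.mem_univ i), ← Finset.add_sum_erase _ _ hj]
      have h1 : ∑ k ∈ (Finset.univ.erase i).erase j, lm k ≤
          ∑ _k ∈ (Finset.univ.erase i).erase j, C6 := by
        refine Finset.sum_le_sum fun k hk => ?_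
        rw [Finset.mem_erase, Finset.mem_erase] at hk
        exact hoth k hk.2.1 hk.1
      rw [Finset.sum_const, nsmul_eq_mul] at h1
      have h2 : (((Finset.univ.erase i).erase j).card : ℝ) ≤ q := by
        have := Finset.card_le_univ ((Finset.univ.erase i).erase j)
        rw [Fintype.card_fin] at this
        exact_mod_cast this
      have h3 := mul_le_mul_of_nonneg_right h2 n6
      linarith
    have h1 := hc5 i j (Ne.symm hji) z hz hd (hQ i) (hQ j)
    have h2 : min (min (lm i) (lm j)) D ≤ c5 i j := h1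
    rw [min_eq_right (hi j)] at h2
    have h3 := b5 i j
    rcases le_total (lm j) D with h4 | h4
    · rw [min_eq_left h4] at h2
      exact hsing (by linarith)
    · rw [min_eq_right h4] at h2
      refine ⟨Sum.inr (i, j), ?_, ?_⟩
      · show (Matrix.of fun a => sy (pr P (Sum.inr (i, j))) a).det ≠ 0
        rw [det_sy]
        refine pow_ne_zero _ fun h => hpw' i j (Ne.symm hji) ?_
        simp only [pr, Sum.elim_inr] at h
        linear_combination -h
      · rw [sum_sy]
        have e1 : (pr P (Sum.inr (i, j))).1 = P i := rfl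
        have e2 : (pr P (Sum.inr (i, j))).2 = P j := rfl
        rw [e1, e2]
        have h5 := hc2 (Sum.inr (i, j)) z hz (hB (Sum.inr (i, j)))
        rw [e1, e2] at h5
        have h6 := b2 (Sum.inr (i, j))
        have h7 : min D m ≤ D := min_le_left _ _
        have h8 : lm i = Real.log (nrm f z) - Real.log (f (dot (Qe (P i)) z)) := rfl
        have h9 : lm j = Real.log (nrm f z) - Real.log (f (dot (Qe (P j)) z)) := rfl
        have h10 : 0 ≤ (q : ℝ) * C6 := by positivity
        linarith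

/-- the inequality outside finitely many lines -/
theorem quad_off {M : Type} [Field M] [NumberField M] [IsGalois ℚ M]
    (hi : ∃ z : M, z ^ 2 = -1) {q : ℕ} (hq : 1 ≤ q) (P : Fin q → M × M) (hne : ∀ j, P j ≠ 0)
    (hpw : ∀ i j, i ≠ j → (P i).1 * (P j).2 ≠ (P j).1 * (P i).2) :
    ∃ Z : Finset (Fin 3 → ℚ), (∀ m ∈ Z, m ≠ 0) ∧
      ∀ (S : Finset (Pl ℚ)) (f : Pl ℚ → AbsoluteValue M ℝ), (∀ v, Good v (f v)) →
      ∀ ε : ℝ, 0 < ε → ∃ C : ℝ, 0 ≤ C ∧
      ∀ z : Fin 3 → ℚ, z ≠ 0 → dsc z ≠ 0 → (∀ m ∈ Z, ∑ j, m j * z j ≠ 0) →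
        ∑ v ∈ S, wt v * (Ts (fun l => Qe (P l)) (f v) (exv M z) +
          min (Dd (f v) (exv M z)) (Ts (fun l => Qe (P l)) (f v) (exv M z)) / 2) ≤
        (3 + ε) * logHeight z + C := by
  classical
  obtain ⟨Z, hZ, -, hmain⟩ := sch_gen (by norm_num : 1 ≤ 3) hi (LQ P) (LQ_ne P hne)
  refine ⟨Z, hZ, fun S f hf ε hε => ?_⟩
  choose c hc using fun v => quad_local hq P hne hpw (f v)
  have hdsc : ∀ z : Fin 3 → ℚ, dsc z ≠ 0 → dsc (exv M z) ≠ 0 := by
    intro z hz h
    apply hz
    have h1 : dsc (exv M z) = algebraMap ℚ M (dsc z) := by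
      unfold dsc exv
      simp
    rw [h1] at h
    exact (map_eq_zero _).1 h
  obtain ⟨C, hC0, hC⟩ := hmain S f (fun v _ => hf v) (fun z => dsc z ≠ 0)
    (fun v z => Ts (fun l => Qe (P l)) (f v) (exv M z) +
          min (Dd (f v) (exv M z)) (Ts (fun l => Qe (P l)) (f v) (exv M z)) / 2)
    (∑ v ∈ S, |c v|) (by
      intro v hv z hz hd hl
      obtain ⟨s, h1, h2⟩ := hc v (exv M z) (exv_ne hz) (hdsc z hd) hl
      refine ⟨fun a => (s, a), h1, h2.trans ?_⟩
      have h3 := Finset.single_le_sum (f := fun v => |c v|) (fun v _ => abs_nonneg _) hv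
      have h4 := le_abs_self (c v)
      linarith) ε hε
  refine ⟨C, hC0, fun z hz hd hZz => ?_⟩
  have h1 := hC z hz hd hZz
  exact_mod_cast h1

end Pool.Agent.NH28
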