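import Pool.Agent.NH28.QD4

/-!
Quadratic forms on a line.
-/

set_option autoImplicit false

namespace Pool.Agent.NH28

open Finset NumberField IsDedekindDomain Height Module
open Pool.Agent.W180.OP (Pl av wt nrm le_nrm nrm_pos nrm_nonneg exists_nrm wt_nonneg nrm_le)
open Pool.Agent.R405 (exv exv_ne dot schV Good exists_good descend dot_smul)
open Pool.Agent.R405.IQ (wc inv_bound)

variable {M : Type} [Field M]

/-- the point with coordinates `x` on a line -/
def gx (G : Fin 2 → Fin 3 → M) (x : Fin 2 → M) : Fin 3 → M := fun k => x 0 * G 0 k + x 1 * G 1 k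

/-- the restriction of a linear form -/
def rs (G : Fin 2 → Fin 3 → M) (a : Fin 3 → M) : Fin 2 → M := fun i => dot a (G i)

theorem dot_gx (G : Fin 2 → Fin 3 → M) (a : Fin 3 → M) (x : Fin 2 → M) :
    dot a (gx G x) = dot (rs G a) x := by
  unfold dot rs gx dot
  rw [Fin.sum_univ_two, Fin.sum_univ_three, Fin.sum_univ_three, Fin.sum_univ_three]
  ring

/-- coefficients of the discriminant on the line -/
def bb (G : Fin 2 → Fin 3 → M) : M :=
  2 * (G 0 1 * G 1 1) - 4 * (G 0 0 * G 1 2 + G 0 2 * G 1 0)

theorem dsc_gx (G : Fin 2 → Fin 3 → M) (x : Fin 2 → M) :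
    dsc (gx G x) = dsc (G 0) * x 0 ^ 2 + bb G * (x 0 * x 1) + dsc (G 1) * x 1 ^ 2 := by
  unfold dsc gx bb
  ring

/-- parameters on a line -/
theorem line_param (m : Fin 3 → ℚ) (hm : m ≠ 0) :
    ∃ (σ : Fin 2 → Fin 3) (G : Fin 2 → Fin 3 → ℚ),
      (∀ i, G i ∘ σ = Pi.single i 1) ∧
      ∀ z : Fin 3 → ℚ, ∑ j, m j * z j = 0 → z = gx G (z ∘ σ) := by
  obtain ⟨k, hk⟩ := Function.ne_iff.1 hm
  have hk' : m k ≠ 0 := hk
  fin_cases k
  · have h0 : m 0 ≠ 0 := hk'
    refine ⟨![1, 2], ![![-(m 1) / m 0, 1, 0], ![-(m 2) / m 0, 0, 1]], ?_, ?_⟩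
    · intro i
      funext j
      fin_cases i <;> fin_cases j <;> simp
    · intro z hz
      rw [Fin.sum_univ_three] at hz
      funext j
      fin_cases j
      · simp only [gx, Function.comp_apply]
        simp
        field_simp
        linarith
      · simp [gx]
      · simp [gx]
  · have h0 : m 1 ≠ 0 := hk'
    refine ⟨![0, 2], ![![1, -(m 0) / m 1, 0], ![0, -(m 2) / m 1, 1]], ?_, ?_⟩
    · intro i
      funext j
      fin_cases i <;> fin_cases j <;> simp
    · intro z hz
      rw [Fin.sum_univ_three] at hz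
      funext j
      fin_cases j
      · simp [gx]
      · simp only [gx, Function.comp_apply]
        simp
        field_simp
        linarith
      · simp [gx]
  · have h0 : m 2 ≠ 0 := hk'
    refine ⟨![0, 1], ![![1, 0, -(m 0) / m 2], ![0, 1, -(m 1) / m 2]], ?_, ?_⟩
    · intro i
      funext j
      fin_cases i <;> fin_cases j <;> simp
    · intro z hz
      rw [Fin.sum_univ_three] at hz
      funext j
      fin_cases j
      · simp [gx]
      · simp [gx]
      · simp only [gx, Function.comp_apply]
        simp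
        field_simp
        linarith

/-- a quadratic form in two variables is a product of linear forms -/
theorem factor2 [CharZero M] (A B C t : M) (ht : t ^ 2 = B ^ 2 - 4 * (A * C)) (h : ¬ (A = 0 ∧ B = 0 ∧ C = 0)) :
    ∃ N : Fin 2 → Fin 2 → M, (∀ i, N i ≠ 0) ∧ ∀ x : Fin 2 → M,
      dot (N 0) x * dot (N 1) x = A * x 0 ^ 2 + B * (x 0 * x 1) + C * x 1 ^ 2 := by
  by_cases hA : A = 0
  · refine ⟨![![0, 1], ![B, C]], ?_, ?_⟩
    · intro i hi
      fin_cases i
      · have := congrFun hi 1
        simp at this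
      · have h0 := congrFun hi 0
        have h1 := congrFun hi 1
        simp at h0 h1
        exact h ⟨hA, h0, h1⟩
    · intro x
      unfold dot
      rw [Fin.sum_univ_two, Fin.sum_univ_two]
      simp [hA]
      ring
  · refine ⟨![![A, (B - t) / 2], ![1, (B + t) / (2 * A)]], ?_, ?_⟩
    · intro i hi
      fin_cases i
      · have := congrFun hi 0
        simp at this
        exact hA this
      · have h0 := congrFun hi 0
        simp at h0
    · intro x
      unfold dot
      rw [Fin.sum_univ_two, Fin.sum_univ_two]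
      simp only [Matrix.cons_val_zero, Matrix.cons_val_one, Matrix.cons_val_fin_one]
      field_simp
      linear_combination (-(x 1 ^ 2)) * ht

end Pool.Agent.NH28
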