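import Pool.Agent.NH28.QD5

/-!
Quadratic forms on a line: multiplicities, and the inequality on a line.
-/

set_option autoImplicit false

namespace Pool.Agent.NH28

open Finset NumberField IsDedekindDomain Height Module
open Pool.Agent.W180.OP (Pl av wt nrm le_nrm nrm_pos nrm_nonneg exists_nrm wt_nonneg nrm_le)
open Pool.Agent.R405 (exv exv_ne dot schV Good exists_good descend dot_smul)
open Pool.Agent.R405.IQ (wc inv_bound)

variable {M : Type} [Field M]

theorem zero3 (L : Fin 3 → Fin 3 → M) (h : (Matrix.of fun a => L a).det ≠ 0) (z : Fin 3 → M)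
    (hz : ∀ a, dot (L a) z = 0) : z = 0 := by
  refine Matrix.eq_zero_of_mulVec_eq_zero h ?_
  funext a
  exact hz a

theorem gx_ne {G : Fin 2 → Fin 3 → M} {σ : Fin 2 → Fin 3} (hσ : ∀ i, G i ∘ σ = Pi.single i 1)
    {x : Fin 2 → M} (hx : x ≠ 0) : gx G x ≠ 0 := by
  intro h
  apply hx
  funext i
  have h1 := congrFun h (σ i)
  have e0 : G 0 (σ i) = (Pi.single 0 1 : Fin 2 → M) i := congrFun (hσ 0) i
  have e1 : G 1 (σ i) = (Pi.single 1 1 : Fin 2 → M) i := congrFun (hσ 1) i
  simp only [gx, e0, e1, Pi.zero_apply] at h1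
  fin_cases i
  · simpa using h1
  · simpa using h1

theorem dot_lin2 (a x y : Fin 2 → M) : dot a (x + y) = dot a x + dot a y := by
  unfold dot
  rw [Fin.sum_univ_two, Fin.sum_univ_two, Fin.sum_univ_two]
  simp only [Pi.add_apply]
  ring

theorem dot_sub2 (a x y : Fin 2 → M) : dot a (x - y) = dot a x - dot a y := by
  unfold dot
  rw [Fin.sum_univ_two, Fin.sum_univ_two, Fin.sum_univ_two]
  simp only [Pi.sub_apply]
  ring

/-- the forms on the line -/
def Ph {q : ℕ} (G : Fin 2 → Fin 3 → M) (P : Fin q → M × M) (N : Fin 2 → Fin 2 → M) :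
    Fin (q + 2) → Fin 2 → M := Fin.append (fun l => rs G (Qe (P l))) N

theorem mult2 [CharZero M] {q : ℕ} (P : Fin q → M × M) (hne : ∀ j, P j ≠ 0)
    (hpw : ∀ i j, i ≠ j → (P i).1 * (P j).2 ≠ (P j).1 * (P i).2)
    (G : Fin 2 → Fin 3 → M) (σ : Fin 2 → Fin 3) (hσ : ∀ i, G i ∘ σ = Pi.single i 1)
    (N : Fin 2 → Fin 2 → M) (hN : ∀ x : Fin 2 → M, dot (N 0) x * dot (N 1) x = dsc (gx G x))
    (hP0 : ∀ l, rs G (Qe (P l)) ≠ 0) (b : Fin 2 → M) (hb : b ≠ 0) (s : Finset (Fin (q + 2)))
    (hs : ∀ j ∈ s, dot (Ph G P N j) b = 0) : s.card ≤ 2 := by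
  classical
  have hpw' : ∀ i j, i ≠ j → (P i).1 * (P j).2 - (P i).2 * (P j).1 ≠ 0 := fun i j hij h =>
    hpw i j hij (by linear_combination h)
  by_contra hcon
  push Not at hcon
  set z := gx G b with hz
  have hz0 : z ≠ 0 := gx_ne hσ hb
  have hL : ∀ l : Fin q, dot (Ph G P N (Fin.castAdd 2 l)) b = 0 → dot (Qe (P l)) z = 0 := by
    intro l h
    rw [hz, dot_gx]
    unfold Ph at h
    rwa [Fin.append_left] at h
  have hR : ∀ k : Fin 2, dot (Ph G P N (Fin.natAdd q k)) b = 0 → dot (N k) b = 0 := by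
    intro k h
    unfold Ph at h
    rwa [Fin.append_right] at h
  have hd : ∀ k : Fin 2, dot (N k) b = 0 → dsc z = 0 := by
    intro k h
    rw [hz, ← hN]
    fin_cases k
    · have h' : dot (N 0) b = 0 := h
      rw [h', zero_mul]
    · have h' : dot (N 1) b = 0 := h
      rw [h', mul_zero]
  -- three values
  have F1 : ∀ i j k : Fin q, i ≠ j → i ≠ k → j ≠ k → dot (Qe (P i)) z = 0 →
      dot (Qe (P j)) z = 0 → dot (Qe (P k)) z = 0 → False := by
    intro i j k n1 n2 n3 h1 h2 h3
    refine hz0 (zero3 ![Qe (P i), Qe (P j), Qe (P k)] ?_ z ?_)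
    · have e1 : (Matrix.of fun a => (![Qe (P i), Qe (P j), Qe (P k)] : Fin 3 → Fin 3 → M)
          a).det = ((P i).1 * (P j).2 - (P i).2 * (P j).1) *
            ((P i).1 * (P k).2 - (P i).2 * (P k).1) *
            ((P j).1 * (P k).2 - (P j).2 * (P k).1) * (-1) := by
          rw [Matrix.det_fin_three]
          simp only [Qe, Matrix.of_apply, Matrix.cons_val_zero, Matrix.cons_val_one,
            Matrix.cons_val]
          simp
          ring
      rw [e1]
      exact mul_ne_zero (mul_ne_zero (mul_ne_zero (hpw' _ _ n1) (hpw' _ _ n2)) (hpw' _ _ n3))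
        (by norm_num)
    · intro a
      fin_cases a
      · exact h1
      · exact h2
      · exact h3
  have Fsy : ∀ (A B : M × M), A.1 * B.2 - A.2 * B.1 ≠ 0 → dot (Qe A) z = 0 →
      dot (Bl A B) z = 0 → dot (Qe B) z = 0 → False := by
    intro A B hAB h1 h2 h3
    refine hz0 (zero3 (sy (A, B)) ?_ z ?_)
    · rw [det_sy]
      refine pow_ne_zero _ fun h => hAB ?_
      simp only at h
      linear_combination -h
    · intro a
      fin_cases a
      · exact h1
      · exact h2
      · exact h3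
  have F2 : ∀ i j : Fin q, i ≠ j → dot (Qe (P i)) z = 0 → dot (Qe (P j)) z = 0 →
      dsc z = 0 → False := by
    intro i j n1 h1 h2 h3
    have h4 := polar_id (P i) (P j) z
    rw [h1, h2, h3] at h4
    have h5 : dot (Bl (P i) (P j)) z = 0 := by
      have h6 : dot (Bl (P i) (P j)) z ^ 2 = 0 := by rw [h4]; ring
      exact eq_zero_of_pow_eq_zero h6
    exact Fsy _ _ (hpw' i j n1) h1 h5 h2
  have F3 : ∀ l : Fin q, dot (Qe (P l)) z = 0 → dot (N 0) b = 0 → dot (N 1) b = 0 → False := by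
    intro l h1 h2 h3
    set R := Rr (P l) with hRdef
    have hδ : (P l).1 * R.2 - (P l).2 * R.1 ≠ 0 := Rr_det (hne l)
    have h4 := polar_id (P l) R z
    rw [h1, hd 0 h2] at h4
    have h5 : dot (Bl (P l) R) z = 0 := by
      have h6 : dot (Bl (P l) R) z ^ 2 = 0 := by rw [h4]; ring
      exact eq_zero_of_pow_eq_zero h6
    -- a point where the first form does not vanish
    obtain ⟨b', hb'⟩ : ∃ b' : Fin 2 → M, dot (rs G (Qe (P l))) b' ≠ 0 := by
      by_contra hc
      push Not at hc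
      apply hP0 l
      funext i
      have := hc (Pi.single i 1)
      unfold dot at this
      rw [Finset.sum_eq_single i] at this
      · simpa using this
      · intro j _ hj
        rw [Pi.single_eq_of_ne hj, mul_zero]
      · intro h
        exact absurd (Finset.mem_univ _) h
    have key : ∀ x : Fin 2 → M, dot (rs G (Bl (P l) R)) x ^ 2 = dot (N 0) x * dot (N 1) x *
        ((P l).1 * R.2 - (P l).2 * R.1) ^ 2 +
        4 * (dot (rs G (Qe (P l))) x * dot (rs G (Qe R)) x) := by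
      intro x
      rw [hN x, ← dot_gx, ← dot_gx, ← dot_gx]
      exact polar_id _ _ _
    have k1 := key (b + b')
    have k2 := key (b - b')
    rw [hz, dot_gx] at h1 h5
    simp only [dot_lin2, dot_sub2, h1, h5, h2, h3, zero_add, zero_sub] at k1 k2
    have h6 : 8 * (dot (rs G (Qe (P l))) b' * dot (rs G (Qe R)) b) = 0 := by
      linear_combination k2 - k1
    have h7 : dot (rs G (Qe R)) b = 0 := by
      rcases mul_eq_zero.1 h6 with h | h
      · norm_num at h
      · exact (mul_eq_zero.1 h).resolve_left hb'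
    refine Fsy (P l) R hδ ?_ ?_ ?_
    · rw [hz, dot_gx]; exact h1
    · rw [hz, dot_gx]; exact h5
    · rw [hz, dot_gx]; exact h7
  have F3' : ∀ (l : Fin q) (k k' : Fin 2), k ≠ k' → dot (Qe (P l)) z = 0 → dot (N k) b = 0 →
      dot (N k') b = 0 → False := by
    intro l k k' hk h1 h2 h3
    have hall : ∀ j, dot (N j) b = 0 := by
      intro j
      have h4 : ∀ a b c : Fin 2, a ≠ b → c = a ∨ c = b := by decide
      rcases h4 k k' j hk with rfl | rfl
      · exact h2
      · exact h3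
    exact F3 l h1 (hall 0) (hall 1)
  obtain ⟨i1, m1, i2, m2, i3, m3, n12, n13, n23⟩ := Finset.two_lt_card.1 hcon
  have hcase : ∀ j : Fin (q + 2), (∃ l : Fin q, j = Fin.castAdd 2 l) ∨
      ∃ k : Fin 2, j = Fin.natAdd q k := by
    intro j
    refine Fin.addCases (fun l => Or.inl ⟨l, rfl⟩) (fun k => Or.inr ⟨k, rfl⟩) j
  have e1 := hs i1 m1
  have e2 := hs i2 m2
  have e3 := hs i3 m3
  rcases hcase i1 with ⟨l1, rfl⟩ | ⟨k1, rfl⟩ <;> rcases hcase i2 with ⟨l2, rfl⟩ | ⟨k2, rfl⟩ <;>
    rcases hcase i3 with ⟨l3, rfl⟩ | ⟨k3, rfl⟩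
  · exact F1 l1 l2 l3 (fun h => n12 (by rw [h])) (fun h => n13 (by rw [h]))
      (fun h => n23 (by rw [h])) (hL _ e1) (hL _ e2) (hL _ e3)
  · exact F2 l1 l2 (fun h => n12 (by rw [h])) (hL _ e1) (hL _ e2) (hd _ (hR _ e3))
  · exact F2 l1 l3 (fun h => n13 (by rw [h])) (hL _ e1) (hL _ e3) (hd _ (hR _ e2))
  · exact F3' l1 k2 k3 (fun h => n23 (by rw [h])) (hL _ e1) (hR _ e2) (hR _ e3)
  · exact F2 l2 l3 (fun h => n23 (by rw [h])) (hL _ e2) (hL _ e3) (hd _ (hR _ e1))
  · exact F3' l2 k1 k3 (fun h => n13 (by rw [h])) (hL _ e2) (hR _ e1) (hR _ e3)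
  · exact F3' l3 k1 k2 (fun h => n12 (by rw [h])) (hL _ e3) (hR _ e1) (hR _ e2)
  · have h4 : ∀ a b c : Fin 2, a = b ∨ a = c ∨ b = c := by decide
    rcases h4 k1 k2 k3 with rfl | rfl | rfl
    · exact n12 rfl
    · exact n13 rfl
    · exact n23 rfl

/-- the inequality on a line -/
theorem quad_line {M : Type} [Field M] [NumberField M] [IsGalois ℚ M]
    (hi : ∃ z : M, z ^ 2 = -1) {q : ℕ} (P : Fin q → M × M) (hne : ∀ j, P j ≠ 0)
    (hpw : ∀ i j, i ≠ j → (P i).1 * (P j).2 ≠ (P j).1 * (P i).2)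
    (G : Fin 2 → Fin 3 → ℚ) (σ : Fin 2 → Fin 3) (hσ : ∀ i, G i ∘ σ = Pi.single i 1)
    (t : M) (ht : t ^ 2 = algebraMap ℚ M (bb G ^ 2 - 4 * (dsc (G 0) * dsc (G 1))))
    (S : Finset (Pl ℚ)) (f : Pl ℚ → AbsoluteValue M ℝ) (hf : ∀ v, Good v (f v))
    (ε : ℝ) (hε : 0 < ε) :
    ∃ C : ℝ, 0 ≤ C ∧ ∀ z : Fin 3 → ℚ, z ≠ 0 → dsc z ≠ 0 → z = gx G (z ∘ σ) →
      (∀ l, dot (Qe (P l)) (exv M z) ≠ 0) →
        ∑ v ∈ S, wt v * (Ts (fun l => Qe (P l)) (f v) (exv M z) + Dd (f v) (exv M z)) ≤
        (4 + ε) * logHeight z + C := by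
  classical
  set GM : Fin 2 → Fin 3 → M := fun i => exv M (G i) with hGM
  have hσM : ∀ i, GM i ∘ σ = Pi.single i 1 := by
    intro i
    funext j
    show algebraMap ℚ M (G i (σ j)) = _
    have h1 : G i (σ j) = (Pi.single i 1 : Fin 2 → ℚ) j := congrFun (hσ i) j
    rw [h1]
    by_cases h : j = i
    · subst h; simp
    · rw [Pi.single_eq_of_ne h, Pi.single_eq_of_ne h, map_zero]
  have hgxM : ∀ x : Fin 2 → ℚ, exv M (gx G x) = gx GM (exv M x) := by
    intro x
    funext k
    show algebraMap ℚ M (x 0 * G 0 k + x 1 * G 1 k) = _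
    rw [map_add, map_mul, map_mul]
    rfl
  have hdM : ∀ y : Fin 3 → ℚ, dsc (exv M y) = algebraMap ℚ M (dsc y) := by
    intro y
    unfold dsc exv
    simp
  have hbM : bb GM = algebraMap ℚ M (bb G) := by
    unfold bb
    simp only [hGM, exv]
    simp
  by_cases hbad : (∃ l, rs GM (Qe (P l)) = 0) ∨ (dsc (G 0) = 0 ∧ bb G = 0 ∧ dsc (G 1) = 0)
  · refine ⟨0, le_rfl, fun z hz hd hzG hl => ?_⟩
    exfalso
    rcases hbad with ⟨l, hl0⟩ | ⟨h0, h1, h2⟩
    · apply hl l
      rw [hzG, hgxM, dot_gx, hl0]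
      unfold dot
      simp
    · apply hd
      rw [hzG, dsc_gx, h0, h1, h2]
      ring
  push Not at hbad
  obtain ⟨hP0, hd0⟩ := hbad
  obtain ⟨N, hN0, hN⟩ := factor2 (dsc (GM 0)) (bb GM) (dsc (GM 1)) t (by
    rw [ht, hbM]
    have e0 : dsc (GM 0) = algebraMap ℚ M (dsc (G 0)) := hdM _
    have e1 : dsc (GM 1) = algebraMap ℚ M (dsc (G 1)) := hdM _
    rw [e0, e1]
    simp) (by
    rintro ⟨a, b, c⟩
    have a' : dsc (G 0) = 0 := by
      have := hdM (G 0)
      rw [show exv M (G 0) = GM 0 from rfl, a] at this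
      exact (map_eq_zero _).1 this.symm
    have c' : dsc (G 1) = 0 := by
      have := hdM (G 1)
      rw [show exv M (G 1) = GM 1 from rfl, c] at this
      exact (map_eq_zero _).1 this.symm
    rw [hbM] at b
    exact hd0 a' ((map_eq_zero _).1 b) c')
  have hN' : ∀ x : Fin 2 → M, dot (N 0) x * dot (N 1) x = dsc (gx GM x) := by
    intro x
    rw [hN, dsc_gx]
  have hφ0 : ∀ i, Ph GM P N i ≠ 0 := by
    intro i
    unfold Ph
    refine Fin.addCases (fun l => ?_) (fun k => ?_) i
    · rw [Fin.append_left]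
      exact hP0 l
    · rw [Fin.append_right]
      exact hN0 k
  obtain ⟨C, hC0, hC⟩ := roth_mult hi (Ph GM P N) hφ0 2 (by
    intro i s hs
    refine mult2 P hne hpw GM σ hσM N hN' hP0 ![-(Ph GM P N i 1), Ph GM P N i 0] ?_ s ?_
    · intro h
      have h0 := congrFun h 0
      have h1 := congrFun h 1
      simp only [Matrix.cons_val_zero, Pi.zero_apply, neg_eq_zero] at h0
      simp only [Matrix.cons_val_one, Matrix.cons_val_fin_one, Pi.zero_apply] at h1
      apply hφ0 i
      funext j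
      fin_cases j
      · exact h1
      · exact h0
    · intro j hj
      have h1 := hs j hj
      unfold dot
      rw [Fin.sum_univ_two]
      simp only [Matrix.cons_val_zero, Matrix.cons_val_one, Matrix.cons_val_fin_one]
      linear_combination h1) S f hf ε hε
  -- comparison of the norms
  have hcmp : ∀ v, ∃ c : ℝ, 0 ≤ c ∧ ∀ x : Fin 2 → M, x ≠ 0 →
      Real.log (nrm (f v) (gx GM x)) ≤ Real.log (nrm (f v) x) + c := by
    intro v
    set K : ℝ := 1 + ∑ i, ∑ k, f v (GM i k) with hK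
    have hs0 : 0 ≤ ∑ i, ∑ k, f v (GM i k) :=
      Finset.sum_nonneg fun _ _ => Finset.sum_nonneg fun _ _ => (f v).nonneg _
    have hK1 : 1 ≤ K := by linarith
    refine ⟨Real.log K, Real.log_nonneg hK1, fun x hx => ?_⟩
    have hn := nrm_pos (f v) hx
    have h1 : nrm (f v) (gx GM x) ≤ nrm (f v) x * K := by
      refine nrm_le (by positivity) fun k => ?_
      have h2 : f v (gx GM x k) ≤ f v (x 0) * f v (GM 0 k) + f v (x 1) * f v (GM 1 k) := by
        unfold gx
        refine ((f v).add_le _ _).trans (le_of_eq ?_)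
        rw [map_mul, map_mul]
      have h3 := mul_le_mul_of_nonneg_right (le_nrm (f v) x 0) ((f v).nonneg (GM 0 k))
      have h4 := mul_le_mul_of_nonneg_right (le_nrm (f v) x 1) ((f v).nonneg (GM 1 k))
      have h5 : f v (GM 0 k) + f v (GM 1 k) ≤ K := by
        have h6 := Finset.single_le_sum (f := fun k => f v (GM 0 k))
          (fun _ _ => (f v).nonneg _) (Finset.mem_univ k)
        have h7 := Finset.single_le_sum (f := fun k => f v (GM 1 k))
          (fun _ _ => (f v).nonneg _) (Finset.mem_univ k)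
        rw [hK, Fin.sum_univ_two]
        linarith
      have h6 := mul_le_mul_of_nonneg_left h5 hn.le
      linarith
    have h2 : 0 < nrm (f v) (gx GM x) := nrm_pos _ (gx_ne hσM hx)
    have h3 := Real.log_le_log h2 h1
    rwa [Real.log_mul hn.ne' (by linarith)] at h3
  choose c hc0 hc using hcmp
  refine ⟨C + ∑ v ∈ S, wt v * ((q + 2) * c v), add_nonneg hC0 (Finset.sum_nonneg fun v _ =>
    mul_nonneg (wt_nonneg v) (mul_nonneg (by positivity) (hc0 v))), fun z hz hd hzG hl => ?_⟩
  set x : Fin 2 → ℚ := z ∘ σ with hx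
  have hx0 : x ≠ 0 := by
    intro h0
    apply hz
    rw [hzG, h0]
    funext k
    simp [gx]
  have hxM : exv M x ≠ 0 := exv_ne hx0
  have hφx : ∀ i, dot (Ph GM P N i) (exv M x) ≠ 0 := by
    have hd2 : dot (N 0) (exv M x) * dot (N 1) (exv M x) ≠ 0 := by
      rw [hN', ← hgxM, ← hzG, hdM]
      exact (map_ne_zero _).2 hd
    intro i
    unfold Ph
    refine Fin.addCases (fun l => ?_) (fun k => ?_) i
    · rw [Fin.append_left, ← dot_gx, ← hgxM, ← hzG]
      exact hl l
    · rw [Fin.append_right]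
      fin_cases k
      · exact left_ne_zero_of_mul hd2
      · exact right_ne_zero_of_mul hd2
  have h1 := hC x hx0 hφx
  have h2 : logHeight x ≤ logHeight z := logHeight_comp_le σ z
  have h3 : ∑ v ∈ S, wt v * (Ts (fun l => Qe (P l)) (f v) (exv M z) + Dd (f v) (exv M z)) ≤
      ∑ v ∈ S, wt v * Ts (Ph GM P N) (f v) (exv M x) + ∑ v ∈ S, wt v * ((q + 2) * c v) := by
    rw [← Finset.sum_add_distrib]
    refine Finset.sum_le_sum fun v _ => ?_
    rw [← mul_add]
    refine mul_le_mul_of_nonneg_left ?_ (wt_nonneg v)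
    have h4 := hc v (exv M x) hxM
    have h5 : exv M z = gx GM (exv M x) := by rw [← hgxM, ← hzG]
    rw [← h5] at h4
    have h6 : Ts (Ph GM P N) (f v) (exv M x) =
        ∑ l, (Real.log (nrm (f v) (exv M x)) - Real.log (f v (dot (Qe (P l)) (exv M z)))) +
        (2 * Real.log (nrm (f v) (exv M x)) - Real.log (f v (dsc (exv M z)))) := by
      unfold Ts
      rw [Fin.sum_univ_add, Fin.sum_univ_two]
      unfold Ph
      simp only [Fin.append_left, Fin.append_right]
      congr 1
      · refine Finset.sum_congr rfl fun l _ => ?_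
        rw [← dot_gx, ← h5]
      · rw [h5, ← hN', map_mul, Real.log_mul]
        · ring
        · have := hφx (Fin.natAdd q 0)
          unfold Ph at this
          rw [Fin.append_right] at this
          exact ((f v).pos_iff.2 this).ne'
        · have := hφx (Fin.natAdd q 1)
          unfold Ph at this
          rw [Fin.append_right] at this
          exact ((f v).pos_iff.2 this).ne'
    have h7 : Ts (fun l => Qe (P l)) (f v) (exv M z) ≤
        ∑ l, (Real.log (nrm (f v) (exv M x)) - Real.log (f v (dot (Qe (P l)) (exv M z)))) +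
          q * c v := by
      unfold Ts
      have h8 : ∑ l, (Real.log (nrm (f v) (exv M z)) - Real.log (f v (dot (Qe (P l)) (exv M z)))) ≤
          ∑ l, ((Real.log (nrm (f v) (exv M x)) - Real.log (f v (dot (Qe (P l)) (exv M z)))) +
            c v) := Finset.sum_le_sum fun l _ => by linarith
      rw [Finset.sum_add_distrib, Finset.sum_const, Finset.card_univ, Fintype.card_fin,
        nsmul_eq_mul] at h8
      exact h8
    unfold Dd
    rw [h6]
    linarith
  have h4 : (2 * ((2 : ℕ) : ℝ) + ε) * logHeight x ≤ (4 + ε) * logHeight z := by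
    have h5 : (2 * ((2 : ℕ) : ℝ) + ε) = 4 + ε := by push_cast; ring
    rw [h5]
    exact mul_le_mul_of_nonneg_left h2 (by linarith)
  linarith

end Pool.Agent.NH28
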