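import Pool.Agent.NH28.QD6
import Pool.Agent.R405.AQ13
import Pool.Agent.H990R4.VJ.D

/-!
Fields with a square root, and the resultant in terms of the points of the divisor.
-/

set_option autoImplicit false

namespace Pool.Agent.NH28

open Finset NumberField IsDedekindDomain Height Module Polynomial
open Pool.Agent.R405.AQ (hm hm_eq hm_mul hm_C_mul hm_lin natDegree_lin Div)

theorem exists_big2 (K : Type) [Field K] [NumberField K] (d : ℚ) :
    ∃ M : IntermediateField ℚ ℂ, FiniteDimensional ℚ M ∧ IsGalois ℚ M ∧ (∃ z : M, z ^ 2 = -1) ∧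
      Nonempty (K →+* M) ∧ ∃ t : M, t ^ 2 = algebraMap ℚ M d := by
  classical
  obtain ⟨ψ⟩ : Nonempty (K →+* ℂ) := inferInstance
  let φ : K →ₐ[ℚ] ℂ := ψ.toRatAlgHom
  let b := Module.finBasis ℚ K
  have halg : ∀ x : K, IsAlgebraic ℚ (φ x) := fun x =>
    (Algebra.IsAlgebraic.isAlgebraic (R := ℚ) x).algHom φ
  obtain ⟨t, ht⟩ : ∃ t : ℂ, t ^ 2 = (d : ℂ) := IsAlgClosed.exists_pow_nat_eq (d : ℂ) (by norm_num)
  obtain ⟨M, hfd, hnorm, hM⟩ := Pool.Agent.TH286.GT.GrowD.exists_field
    (insert t (insert Complex.I (Finset.univ.image fun i => φ (b i)))) (by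
      intro x hx
      rcases Finset.mem_insert.1 hx with rfl | hx
      · refine ⟨Polynomial.X ^ 2 - C d, ?_, by simp [ht]⟩
        intro h
        have := congrArg (Polynomial.coeff · 2) h
        simp at this
      rcases Finset.mem_insert.1 hx with rfl | hx
      · refine ⟨Polynomial.X ^ 2 + 1, ?_, by simp⟩
        intro h
        have := congrArg (Polynomial.eval 1) h
        norm_num at this
      · obtain ⟨i, -, rfl⟩ := Finset.mem_image.1 hx
        exact halg _)
  have hmem : ∀ x : K, φ x ∈ M := by
    intro x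
    rw [← b.sum_repr x, map_sum]
    refine sum_mem fun i _ => ?_
    rw [Algebra.smul_def, map_mul, φ.commutes, ← Algebra.smul_def]
    exact M.smul_mem (hM _ (Finset.mem_insert_of_mem (Finset.mem_insert_of_mem
      (Finset.mem_image_of_mem _ (Finset.mem_univ i)))))
  refine ⟨M, hfd, ⟨⟩, ⟨⟨Complex.I, hM _ (Finset.mem_insert_of_mem
    (Finset.mem_insert_self _ _))⟩, ?_⟩,
    ⟨(φ : K →+* ℂ).codRestrict M.toSubfield hmem⟩, ⟨⟨t, hM _ (Finset.mem_insert_self _ _)⟩, ?_⟩⟩
  · apply Subtype.ext
    show Complex.I ^ 2 = -1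
    exact Complex.I_sq
  · apply Subtype.ext
    show t ^ 2 = _
    rw [ht]
    rfl

variable {F F' : Type} [Field F] [Field F']

theorem hm_map (i : F →+* F') (n : ℕ) (p : F[X]) (P : F × F) :
    hm n (p.map i) (i P.1, i P.2) = i (hm n p P) := by
  unfold hm
  rw [map_sum]
  refine Finset.sum_congr rfl fun k _ => ?_
  rw [coeff_map, map_mul, map_mul, map_pow, map_pow]

theorem natDegree_multi (s : Multiset F) :
    ((s.map fun a => X - C a).prod).natDegree ≤ Multiset.card s := by
  rw [natDegree_multiset_prod_X_sub_C_eq_card]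

theorem hm_roots (s : Multiset F) (P : F × F) :
    hm (Multiset.card s) ((s.map fun a => X - C a).prod) P =
      (s.map fun a => P.1 - a * P.2).prod := by
  induction s using Multiset.induction_on with
  | empty => simp [hm]
  | cons a s ih =>
    rw [Multiset.map_cons, Multiset.prod_cons, Multiset.map_cons, Multiset.prod_cons,
      Multiset.card_cons, add_comm, hm_mul 1 (Multiset.card s) _ _ (natDegree_X_sub_C_le a)
        (natDegree_multi s), ih]
    congr 1
    have h1 := hm_lin (1 : F) a P
    rw [C_1, one_mul, one_mul] at h1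
    exact h1

/-- the divisor over a larger field -/
def Dmap {q : ℕ} (i : F →+* F') (D : Div F q) : Div F' q where
  P j := (i (D.P j).1, i (D.P j).2)
  γ := i D.γ
  g := D.g
  ne j h := by
    apply D.ne j
    have h1 := congrArg Prod.fst h
    have h2 := congrArg Prod.snd h
    simp only [Prod.fst_zero, Prod.snd_zero, map_eq_zero] at h1 h2
    exact Prod.ext h1 h2
  pw a b hab h := by
    apply D.pw a b hab
    simp only at h
    rw [← map_mul, ← map_mul] at h
    exact i.injective h
  γ0 := (map_ne_zero i).2 D.γ0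
  fac := by
    have h1 := congrArg (Polynomial.map i) D.fac
    rw [Polynomial.map_map] at h1
    have h2 : i.comp (Int.castRingHom F) = Int.castRingHom F' := RingHom.ext_int _ _
    rw [h2, Polynomial.map_mul, Polynomial.map_prod, map_C] at h1
    rw [h1]
    congr 1
    refine Finset.prod_congr rfl fun j _ => ?_
    rw [Polynomial.map_sub, Polynomial.map_mul, map_C, map_C, Polynomial.map_X]

theorem natDegree_div [CharZero F] {q : ℕ} (D : Div F q) : D.g.natDegree ≤ q := by
  have hinj : Function.Injective (Int.castRingHom F) := RingHom.injective_int _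
  rw [← natDegree_map_eq_of_injective hinj, D.fac]
  refine (natDegree_C_mul_le _ _).trans ((natDegree_prod_le _ _).trans ?_)
  refine (Finset.sum_le_card_nsmul _ _ 1 fun j _ => ?_).trans ?_
  · refine (natDegree_sub_le _ _).trans (max_le (by simp) ?_)
    exact (natDegree_mul_C_le _ _).trans natDegree_X_le
  · simp

/-- the resultant with the polynomial of the divisor -/
theorem res_hm {M : Type} [Field M] [NumberField M] {q : ℕ} (D : Div M q) (f : ℤ[X]) :
    ((resultant f D.g f.natDegree q : ℤ) : M) =
      D.γ ^ f.natDegree * ∏ j, hm f.natDegree (f.map (Int.castRingHom M)) (D.P j) := by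
  obtain ⟨ψ⟩ : Nonempty (M →+* ℂ) := inferInstance
  apply ψ.injective
  rw [map_intCast, Pool.Agent.H990R4.VJ.res_eq f D.g q (natDegree_div D)]
  have hsp := (IsAlgClosed.splits (f.map (Int.castRingHom ℂ))).eq_prod_roots
  have hinj : Function.Injective (Int.castRingHom ℂ) := RingHom.injective_int _
  have hcard : Multiset.card (f.map (Int.castRingHom ℂ)).roots = f.natDegree := by
    rw [splits_iff_card_roots.1 (IsAlgClosed.splits _), natDegree_map_eq_of_injective hinj]
  set s := (f.map (Int.castRingHom ℂ)).roots with hs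
  rw [leadingCoeff_map_of_injective hinj] at hsp
  rw [map_mul, map_pow, map_prod]
  have h1 : ∀ j, ψ (hm f.natDegree (f.map (Int.castRingHom M)) (D.P j)) =
      (f.leadingCoeff : ℂ) * (s.map fun a => ψ (D.P j).1 - a * ψ (D.P j).2).prod := by
    intro j
    rw [← hm_map ψ, Polynomial.map_map]
    have h2 : ψ.comp (Int.castRingHom M) = Int.castRingHom ℂ := RingHom.ext_int _ _
    rw [h2, hsp, hm_C_mul, ← hcard, hm_roots]
    rfl
  rw [Finset.prod_congr rfl fun j _ => h1 j, Finset.prod_mul_distrib, Finset.prod_const,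
    Finset.card_univ, Fintype.card_fin]
  have h3 : (s.map fun z => (D.g.map (Int.castRingHom ℂ)).eval z).prod =
      ψ D.γ ^ f.natDegree * ∏ j, (s.map fun a => ψ (D.P j).1 - a * ψ (D.P j).2).prod := by
    have h4 : ∀ z : ℂ, (D.g.map (Int.castRingHom ℂ)).eval z =
        ψ D.γ * ∏ j, (ψ (D.P j).1 - z * ψ (D.P j).2) := by
      intro z
      have h5 := D.eval_eq ψ z
      rw [aeval_def] at h5
      rw [eval_map]
      exact h5
    rw [Multiset.map_congr rfl fun z _ => h4 z, Multiset.prod_map_mul, Multiset.map_const',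
      Multiset.prod_replicate, hcard, Multiset.prod_map_prod]
  rw [h3]
  ring

end Pool.Agent.NH28
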