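import Pool.Agent.NH28.QD8

/-!
The inequalities in terms of the resultant and the discriminant.
-/

set_option autoImplicit false

namespace Pool.Agent.NH28

open Finset NumberField IsDedekindDomain Height Module Polynomial
open Pool.Agent.W180.OP (Pl av wt nrm le_nrm nrm_pos nrm_nonneg exists_nrm wt_nonneg nrm_le)
open Pool.Agent.R405 (exv exv_ne dot schV Good exists_good descend dot_smul)
open Pool.Agent.R405.AQ (T0 mem_T0 sum_T0 fin_int_le inf_int wt_one hm Div exists_div ev cz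
  ev_ne prim_ev nrm_ge_one)

/-- the discriminant as an integer -/
def dz (f : ℤ[X]) : ℤ := f.coeff 1 ^ 2 - 4 * (f.coeff 0 * f.coeff 2)

/-- the local height from the resultant -/
noncomputable def Av (q : ℕ) (G f : ℤ[X]) (v : Pl ℚ) : ℝ :=
  q * Real.log (nrm (av v) (cz (ev f))) - Real.log (av v ((resultant f G 2 q : ℤ) : ℚ))

/-- the closeness of the conjugates from the discriminant -/
noncomputable def Bv (f : ℤ[X]) (v : Pl ℚ) : ℝ :=
  2 * Real.log (nrm (av v) (cz (ev f))) - Real.log (av v ((dz f : ℤ) : ℚ))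

/-- the height -/
noncomputable def Lf (f : ℤ[X]) : ℝ := Real.log (nrm (av (Sum.inl default : Pl ℚ)) (cz (ev f)))

theorem cz_ne {e : Fin 3 → ℤ} (he : e ≠ 0) : cz e ≠ 0 := by
  intro h0
  apply he
  funext j
  have := congrFun h0 j
  simpa [cz] using this

theorem dsc_exv {M : Type} [Field M] [Algebra ℚ M] (z : Fin 3 → ℚ) :
    dsc (exv M z) = algebraMap ℚ M (dsc z) := by
  unfold dsc exv
  rw [map_sub, map_pow, map_mul, map_mul, map_ofNat]

theorem dsc_cz (f : ℤ[X]) : dsc (cz (ev f)) = ((dz f : ℤ) : ℚ) := by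
  unfold dsc dz cz ev
  simp

variable {M : Type} [Field M] [NumberField M] {q : ℕ}

theorem hm_two (f : ℤ[X]) (P : M × M) : hm 2 (f.map (Int.castRingHom M)) P =
    dot (Qe P) (exv M (cz (ev f))) := by
  rw [dot_Qe]
  unfold hm exv cz ev
  rw [Finset.sum_range_succ, Finset.sum_range_succ, Finset.sum_range_one]
  simp only [coeff_map, eq_intCast]
  simp
  ring

theorem res_two (D : Div M q) (f : ℤ[X]) (hd : f.natDegree = 2) :
    ((resultant f D.g 2 q : ℤ) : M) =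
      D.γ ^ 2 * ∏ l, dot (Qe (D.P l)) (exv M (cz (ev f))) := by
  have h1 := res_hm D f
  rw [hd] at h1
  rw [h1]
  congr 1
  exact Finset.prod_congr rfl fun l _ => hm_two f _

theorem vals_ne (D : Div M q) (f : ℤ[X]) (hd : f.natDegree = 2) (hR : resultant f D.g 2 q ≠ 0)
    (l : Fin q) : dot (Qe (D.P l)) (exv M (cz (ev f))) ≠ 0 := by
  intro h0
  have h1 := res_two D f hd
  rw [Finset.prod_eq_zero (Finset.mem_univ l) h0, mul_zero] at h1
  exact hR (by exact_mod_cast h1)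

theorem link_A (D : Div M q) (f : ℤ[X]) (hd : f.natDegree = 2) (hR : resultant f D.g 2 q ≠ 0)
    {v : Pl ℚ} {g : AbsoluteValue M ℝ} (hg : Good v g) :
    Ts (fun l => Qe (D.P l)) g (exv M (cz (ev f))) = Av q D.g f v + 2 * Real.log (g D.γ) := by
  have h1 : g ((resultant f D.g 2 q : ℤ) : M) = av v ((resultant f D.g 2 q : ℤ) : ℚ) := by
    rw [← hg.ext]
    congr 1
    simp
  have h2 : nrm g (exv M (cz (ev f))) = nrm (av v) (cz (ev f)) := hg.nrm_ext (cz (ev f))
  have hγ : g D.γ ≠ 0 := (g.pos_iff.2 D.γ0).ne'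
  have h3 : Real.log (g ((resultant f D.g 2 q : ℤ) : M)) = 2 * Real.log (g D.γ) +
      ∑ l, Real.log (g (dot (Qe (D.P l)) (exv M (cz (ev f))))) := by
    rw [res_two D f hd, map_mul, map_pow, map_prod, Real.log_mul (pow_ne_zero _ hγ)
      (Finset.prod_ne_zero_iff.2 fun l _ => (g.pos_iff.2 (vals_ne D f hd hR l)).ne'),
      Real.log_pow, Real.log_prod fun l _ => (g.pos_iff.2 (vals_ne D f hd hR l)).ne']
    push_cast
    ring
  unfold Ts Av
  rw [Finset.sum_sub_distrib, Finset.sum_const, Finset.card_univ, Fintype.card_fin, nsmul_eq_mul,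
    h2, ← h1, h3]
  ring

theorem link_B (f : ℤ[X]) {v : Pl ℚ} {g : AbsoluteValue M ℝ} (hg : Good v g) :
    Dd g (exv M (cz (ev f))) = Bv f v := by
  have h2 : nrm g (exv M (cz (ev f))) = nrm (av v) (cz (ev f)) := hg.nrm_ext (cz (ev f))
  unfold Dd Bv
  rw [h2, dsc_exv, hg.ext, dsc_cz]

theorem sum_B (f : ℤ[X]) (hf : Irreducible f) (hd : f.natDegree = 2) (hz : dz f ≠ 0)
    (S : Finset ℕ) (hS : ∀ p ∈ S, p.Prime) : ∑ v ∈ T0 S hS, Bv f v ≤ 2 * Lf f := by
  rw [sum_T0]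
  have h1 : ∀ w : HeightOneSpectrum (𝓞 ℚ), Bv f (Sum.inr w : Pl ℚ) =
      -Real.log (av (Sum.inr w : Pl ℚ) ((dz f : ℤ) : ℚ)) := by
    intro w
    unfold Bv
    rw [prim_ev hf hd w, Real.log_one]
    ring
  rw [Finset.sum_congr rfl fun w _ => h1 w, Finset.sum_neg_distrib]
  have h2 := Pool.Agent.R405.AQ.prod_int (T0 S hS).toRight default _ hz
  unfold Bv Lf
  linarith

/-- quadratic polynomials: outside finitely many lines, or on one of these lines -/
theorem quad_two (G : ℤ[X]) (hG : Squarefree (G.map (Int.castRingHom ℚ))) (q : ℕ) (hq : 1 ≤ q)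
    (hqG : q = G.natDegree ∨ q = G.natDegree + 1) (S : Finset ℕ) (hS : ∀ p ∈ S, p.Prime)
    (ε : ℝ) (hε : 0 < ε) :
    ∃ C : ℝ, 0 ≤ C ∧ ∀ f : ℤ[X], Irreducible f → f.natDegree = 2 → resultant f G 2 q ≠ 0 →
      dz f ≠ 0 →
      (∑ v ∈ T0 S hS, (Av q G f v + min (Bv f v) (Av q G f v) / 2) ≤ (3 + ε) * Lf f + C) ∨
      (∑ v ∈ T0 S hS, (Av q G f v + Bv f v) ≤ (4 + ε) * Lf f + C) := by
  classical
  obtain ⟨M, _, _, hi, D, rfl⟩ := exists_div G hG q hqG
  obtain ⟨Z, hZ, hoff⟩ := quad_off hi hq D.P D.ne D.pw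
  choose g hg using fun v : Pl ℚ => exists_good (K := M) v
  obtain ⟨C1, hC1, h1⟩ := hoff (T0 S hS) g hg ε hε
  -- the lines
  have hline : ∀ m : Fin 3 → ℚ, ∃ C : ℝ, 0 ≤ C ∧ (m ∈ Z → ∀ f : ℤ[X], Irreducible f →
      f.natDegree = 2 → resultant f D.g 2 q ≠ 0 → dz f ≠ 0 → ∑ j, m j * cz (ev f) j = 0 →
      ∑ v ∈ T0 S hS, (Av q D.g f v + Bv f v) ≤ (4 + ε) * Lf f + C) := by
    intro m
    by_cases hm : m ∈ Z
    swap
    · exact ⟨0, le_rfl, fun h => absurd h hm⟩
    obtain ⟨σ, Gm, hσ, hpar⟩ := line_param m (hZ m hm)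
    obtain ⟨M', hM1, hM2, hi', ⟨φ⟩, t, ht⟩ := exists_big2 M
      (bb Gm ^ 2 - 4 * (dsc (Gm 0) * dsc (Gm 1)))
    have : NumberField M' := ⟨⟩
    set D' := Dmap φ D with hD'
    choose g' hg' using fun v : Pl ℚ => exists_good (K := M') v
    obtain ⟨C, hC0, hC⟩ := quad_line hi' D'.P D'.ne D'.pw Gm σ hσ t ht (T0 S hS) g' hg' ε hε
    have hs0 : 0 ≤ ∑ v ∈ T0 S hS, |2 * Real.log (g' v D'.γ)| :=
      Finset.sum_nonneg fun v _ => abs_nonneg _
    refine ⟨C + ∑ v ∈ T0 S hS, |2 * Real.log (g' v D'.γ)|, by linarith, fun _ f hf hd hR hz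
      hmz => ?_⟩
    have hgg : D'.g = D.g := rfl
    have hz0 : cz (ev f) ≠ 0 := cz_ne (ev_ne hd)
    have h2 := hC (cz (ev f)) hz0 (by rw [dsc_cz]; exact_mod_cast hz) (hpar _ hmz)
      (fun l => vals_ne D' f hd (by rw [hgg]; exact hR) l)
    have h3 : ∑ v ∈ T0 S hS, (Av q D.g f v + Bv f v) ≤
        ∑ v ∈ T0 S hS, wt v * (Ts (fun l => Qe (D'.P l)) (g' v) (exv M' (cz (ev f))) +
          Dd (g' v) (exv M' (cz (ev f)))) + ∑ v ∈ T0 S hS, |2 * Real.log (g' v D'.γ)| := by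
      rw [← Finset.sum_add_distrib]
      refine Finset.sum_le_sum fun v _ => ?_
      rw [wt_one, one_mul, link_A D' f hd (by rw [hgg]; exact hR) (hg' v), link_B f (hg' v), hgg]
      have := neg_abs_le (2 * Real.log (g' v D'.γ))
      linarith
    have h4 : logHeight (cz (ev f)) ≤ Lf f :=
      Pool.Agent.R405.IQ.height_int (ev f) hz0 default
    have h5 : (4 + ε) * logHeight (cz (ev f)) ≤ (4 + ε) * Lf f :=
      mul_le_mul_of_nonneg_left h4 (by linarith)
    linarith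
  choose Cm hCm0 hCm using hline
  have hs1 : 0 ≤ ∑ v ∈ T0 S hS, 2 * |2 * Real.log (g v D.γ)| :=
    Finset.sum_nonneg fun v _ => by positivity
  have hs2 : 0 ≤ ∑ m ∈ Z, Cm m := Finset.sum_nonneg fun m _ => hCm0 m
  refine ⟨C1 + ∑ v ∈ T0 S hS, 2 * |2 * Real.log (g v D.γ)| + ∑ m ∈ Z, Cm m, by linarith,
    fun f hf hd hR hz => ?_⟩
  have hz0 : cz (ev f) ≠ 0 := cz_ne (ev_ne hd)
  by_cases hmem : ∀ m ∈ Z, ∑ j, m j * cz (ev f) j ≠ 0
  · left
    have h2 := h1 (cz (ev f)) hz0 (by rw [dsc_cz]; exact_mod_cast hz) hmem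
    have h3 : ∑ v ∈ T0 S hS, (Av q D.g f v + min (Bv f v) (Av q D.g f v) / 2) ≤
        ∑ v ∈ T0 S hS, wt v * (Ts (fun l => Qe (D.P l)) (g v) (exv M (cz (ev f))) +
          min (Dd (g v) (exv M (cz (ev f)))) (Ts (fun l => Qe (D.P l)) (g v)
            (exv M (cz (ev f)))) / 2) + ∑ v ∈ T0 S hS, 2 * |2 * Real.log (g v D.γ)| := by
      rw [← Finset.sum_add_distrib]
      refine Finset.sum_le_sum fun v _ => ?_
      rw [wt_one, one_mul, link_A D f hd hR (hg v), link_B f (hg v)]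
      have h4 := neg_abs_le (2 * Real.log (g v D.γ))
      have h5 : min (Bv f v) (Av q D.g f v) ≤
          min (Bv f v) (Av q D.g f v + 2 * Real.log (g v D.γ)) + |2 * Real.log (g v D.γ)| := by
        rw [← min_add_add_right]
        refine min_le_min ?_ ?_
        · have := abs_nonneg (2 * Real.log (g v D.γ))
          linarith
        · linarith
      have := abs_nonneg (2 * Real.log (g v D.γ))
      linarith
    have h4 : logHeight (cz (ev f)) ≤ Lf f :=
      Pool.Agent.R405.IQ.height_int (ev f) hz0 default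
    have h5 : (3 + ε) * logHeight (cz (ev f)) ≤ (3 + ε) * Lf f :=
      mul_le_mul_of_nonneg_left h4 (by linarith)
    linarith
  · right
    push Not at hmem
    obtain ⟨m, hm, hm0⟩ := hmem
    have h2 := hCm m hm f hf hd hR hz hm0
    have h3 := Finset.single_le_sum (f := Cm) (fun m _ => hCm0 m) hm
    linarith

end Pool.Agent.NH28
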