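import Pool.Agent.NH28.GainP
import Pool.Agent.NH28.FewD

/-!
Finite subschemes: points of bounded degree.
-/

set_option autoImplicit false

namespace Pool.Agent.NH28

open MvPolynomial Finset NumberField IsDedekindDomain Height Module
open Pool.Agent.W180.OP Pool.Agent.W180.TP
open Pool.Agent.TH875 (top_members not_all form_ub)

/-- the local height of the subscheme `F k = 0` for all `k` -/
noncomputable def lamY {K L : Type} [Field K] [Field L] [Algebra K L] (f : AbsoluteValue L ℝ)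
    {n ν : ℕ} (d : ℕ) (F : Fin ν → MvPolynomial (Fin n) K) (x : Fin n → L) : ℝ :=
  Real.log (nrm f x ^ d / ⨆ k, f (aeval x (F k)))

lemma lamY_le {K L : Type} [Field K] [Field L] [Algebra K L] (f : AbsoluteValue L ℝ)
    {n ν : ℕ} (d : ℕ) (F : Fin ν → MvPolynomial (Fin n) K) {x : Fin n → L} (hx : x ≠ 0)
    (k : Fin ν) (hk : aeval x (F k) ≠ 0) : lamY f d F x ≤ lam f d (bc L (F k)) x := by
  unfold lamY lam
  rw [eval_bc]
  have h1 : 0 < f (aeval x (F k)) := f.pos hk
  have h2 : f (aeval x (F k)) ≤ ⨆ k, f (aeval x (F k)) :=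
    le_ciSup (f := fun k => f (aeval x (F k))) (Set.finite_range _).bddAbove k
  have h3 : 0 < nrm f x ^ d := pow_pos (nrm_pos f hx) _
  refine Real.log_le_log (div_pos h3 (h1.trans_le h2)) ?_
  exact div_le_div_of_nonneg_left h3.le h1 h2

lemma lamY_eq {K L : Type} [Field K] [Field L] [Algebra K L] (f : AbsoluteValue L ℝ)
    {n ν : ℕ} (hν : 1 ≤ ν) (d : ℕ) (F : Fin ν → MvPolynomial (Fin n) K) (x : Fin n → L) :
    ∃ k, lamY f d F x = lam f d (bc L (F k)) x := by
  have : Nonempty (Fin ν) := ⟨⟨0, hν⟩⟩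
  obtain ⟨k, hk⟩ := exists_eq_ciSup_of_finite (f := fun k => f (aeval x (F k)))
  refine ⟨k, ?_⟩
  unfold lamY lam
  rw [eval_bc, ← hk]

lemma lam_pow {K L : Type} [Field K] [Field L] [Algebra K L] (f : AbsoluteValue L ℝ)
    {n d D : ℕ} (hd : d ∣ D) (F : MvPolynomial (Fin n) K) (x : Fin n → L) :
    lam f D (bc L (F ^ (D / d))) x = ((D / d : ℕ) : ℝ) * lam f d (bc L F) x := by
  have h1 := rho_pow (K := K) f d (D / d) F x
  rw [Nat.mul_div_cancel' hd] at h1
  rw [lam_rho, h1, Real.log_pow, lam_rho]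
  ring

theorem t5w {K : Type} [Field K] [NumberField K] {n m q ν r : ℕ} (hν : 1 ≤ ν) (hr : 1 ≤ r)
    (hq : 1 ≤ q) (G : Fin m → MvPolynomial (Fin n) K) (g : Fin m → ℕ)
    (hG : ∀ k, (G k).IsHomogeneous (g k))
    (hprime : (Ideal.span (Set.range G)).IsPrime)
    (htr : Algebra.trdeg K (MvPolynomial (Fin n) K ⧸ Ideal.span (Set.range G)) = (ν + 1 : ℕ))
    (F : Fin q → Fin ν → MvPolynomial (Fin n) K) (d : Fin q → ℕ) (hd : ∀ i, 1 ≤ d i)
    (hF : ∀ i k, (F i k).IsHomogeneous (d i))
    (H : Fin q → MvPolynomial (Fin n) K) (e0 : Fin q → ℕ) (he0 : ∀ i, 1 ≤ e0 i)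
    (hH : ∀ i, (H i).IsHomogeneous (e0 i))
    (hfin : ∀ i, ∀ (L : Type) [Field L] [Algebra K L] (x : Fin n → L),
      (∀ k, aeval x (G k) = 0) → (∀ k, aeval x (F i k) = 0) → aeval x (H i) = 0 → x = 0)
    (hdisj : ∀ i j, i ≠ j → ∀ (L : Type) [Field L] [Algebra K L] (x : Fin n → L),
      (∀ k, aeval x (G k) = 0) → (∀ k, aeval x (F i k) = 0) → (∀ k, aeval x (F j k) = 0) → x = 0)
    (ε : ℝ) (hε : 0 < ε) :
    ∃ Z : MvPolynomial (Fin n) K, Z ∉ Ideal.span (Set.range G) ∧ (∃ t, Z.IsHomogeneous t) ∧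
      ∀ S : Finset (Pl K), ∃ C : ℝ, 0 ≤ C ∧ ∀ (L : Type) [Field L] [NumberField L] [Algebra K L],
        finrank K L ≤ r → ∀ x : Fin n → L, x ≠ 0 → (∀ k, aeval x (G k) = 0) →
        IntermediateField.adjoin K {z | ∃ i j, z = x i / x j} = ⊤ → aeval x Z ≠ 0 →
        (∀ i k, aeval x (F i k) ≠ 0) ∧
        ∀ (T : Finset (Pl L)) (V : Pl L → Pl K), (∀ w ∈ T, V w ∈ S ∧ Ov (V w) w) →
        ∑ w ∈ T, wt w * (∑ i, lamY (av w) (d i) (F i) x / d i) /
          cp ν (finrank K L / nn (V w) w) ≤ (1 + ε) * logHeight x + C := by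
  classical
  set D : ℕ := ∏ i, (d i * e0 i) with hDd
  have hD : 1 ≤ D := Nat.one_le_iff_ne_zero.2
    (Finset.prod_ne_zero_iff.2 fun i _ => Nat.mul_ne_zero (Nat.one_le_iff_ne_zero.1 (hd i))
      (Nat.one_le_iff_ne_zero.1 (he0 i)))
  have hdD : ∀ i, d i ∣ D := fun i => (Nat.dvd_mul_right (d i) (e0 i)).trans
    (Finset.dvd_prod_of_mem (fun i => d i * e0 i) (Finset.mem_univ i))
  have heD : ∀ i, e0 i ∣ D := fun i => (Nat.dvd_mul_left (e0 i) (d i)).trans
    (Finset.dvd_prod_of_mem (fun i => d i * e0 i) (Finset.mem_univ i))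
  set y : Fin q → Fin (ν + 1) → MvPolynomial (Fin n) K := fun i =>
    Fin.cons (H i ^ (D / e0 i)) fun k => F i k ^ (D / d i) with hy
  have hyh : ∀ i k, (y i k).IsHomogeneous D := by
    intro i k
    refine Fin.cases ?_ (fun k => ?_) k
    · have := (hH i).pow (D / e0 i)
      rwa [Nat.mul_div_cancel' (heD i)] at this
    · have := (hF i k).pow (D / d i)
      rwa [Nat.mul_div_cancel' (hdD i)] at this
  have h0y : ∀ i, ∀ (L : Type) [Field L] [Algebra K L] (x : Fin n → L),
      (∀ k, aeval x (G k) = 0) → (∀ k, aeval x (y i k) = 0) → x = 0 := by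
    intro i L _ _ x hx hxy
    refine hfin i L x hx (fun k => ?_) ?_
    · have h1 := hxy k.succ
      simp only [hy, Fin.cons_succ, map_pow] at h1
      exact eq_zero_of_pow_eq_zero h1
    · have h1 := hxy 0
      simp only [hy, Fin.cons_zero, map_pow] at h1
      exact eq_zero_of_pow_eq_zero h1
  have : Nonempty (Fin q) := ⟨⟨0, hq⟩⟩
  obtain ⟨Z0, hZ0, hZh0, hmain⟩ := main_w hr hD G g hG hprime htr y hyh h0y
    (fun _ Λ ρ => mn Λ / ((|cp ν ρ| + ε) * D))
    (fun _ Λ ρ hΛ _ => div_nonneg (mn_nonneg Λ hΛ) (by positivity))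
    (gain_pt hν hD ε hε)
  -- the exceptional form
  have hyI : ∀ i k, y i k ∉ Ideal.span (Set.range G) := by
    intro i k hk
    have hai := Pool.Agent.TH875.alg_ind G g hG D hD (y i) (hyh i) (h0y i) hprime htr
    exact hai.ne_zero k (Ideal.Quotient.eq_zero_iff_mem.2 hk)
  set P : MvPolynomial (Fin n) K := ∏ i, ∏ k, y i k with hPd
  have hPI : P ∉ Ideal.span (Set.range G) := by
    rw [hPd, hprime.prod_mem_iff]
    rintro ⟨i, -, hi⟩
    rw [hprime.prod_mem_iff] at hi
    obtain ⟨k, -, hk⟩ := hi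
    exact hyI i k hk
  have hPh : ∃ t, P.IsHomogeneous t := ⟨_, IsHomogeneous.prod _ _ _ fun i _ =>
    IsHomogeneous.prod _ _ _ fun k _ => hyh i k⟩
  refine ⟨Z0 * P, fun h => (hprime.mem_or_mem h).elim hZ0 hPI, ?_, fun S => ?_⟩
  · obtain ⟨t, ht⟩ := hZh0
    obtain ⟨t', ht'⟩ := hPh
    exact ⟨t + t', ht.mul ht'⟩
  obtain ⟨C, c0, hC0, hc00, hC⟩ := hmain S
  -- two subschemes
  have hpair : ∀ i j : Fin q, ∃ C : ℝ, 0 ≤ C ∧ ∀ (L : Type) [Field L] [NumberField L] [Algebra K L]
      (p : Pl L) (x : Fin n → L), x ≠ 0 → (∀ k, aeval x (G k) = 0) →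
      (∀ k, aeval x (F i k) ≠ 0) → (∀ k, aeval x (F j k) ≠ 0) → i ≠ j →
      wt p * (lamY (av p) (d i) (F i) x / d i) ≤ C * finrank ℚ L ∨
      wt p * (lamY (av p) (d j) (F j) x / d j) ≤ C * finrank ℚ L := by
    intro i j
    by_cases hij : i = j
    · exact ⟨0, le_rfl, fun L _ _ _ p x _ _ _ _ h => absurd hij h⟩
    obtain ⟨C, hC0, hC⟩ := not_all (D := D) (by omega : 0 < ν + ν) G g hG
      (Fin.append (fun k => F i k ^ (D / d i)) (fun k => F j k ^ (D / d j)))
      (by
        intro k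
        refine Fin.addCases (fun k => ?_) (fun k => ?_) k
        · rw [Fin.append_left]
          have := (hF i k).pow (D / d i)
          rwa [Nat.mul_div_cancel' (hdD i)] at this
        · rw [Fin.append_right]
          have := (hF j k).pow (D / d j)
          rwa [Nat.mul_div_cancel' (hdD j)] at this)
      (by
        intro L _ _ x hx hxy
        refine hdisj i j hij L x hx (fun k => ?_) (fun k => ?_)
        · have h1 := hxy (Fin.castAdd ν k)
          rw [Fin.append_left, map_pow] at h1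
          exact eq_zero_of_pow_eq_zero h1
        · have h1 := hxy (Fin.natAdd ν k)
          rw [Fin.append_right, map_pow] at h1
          exact eq_zero_of_pow_eq_zero h1)
    refine ⟨C, hC0, fun L _ _ _ p x hx hGx hi hj _ => ?_⟩
    have hD1 : (1 : ℝ) ≤ D := by exact_mod_cast hD
    have hN : (0 : ℝ) ≤ finrank ℚ L := Nat.cast_nonneg _
    have hone : ∀ (a : Fin q) (k : Fin ν), aeval x (F a k) ≠ 0 →
        wt p * lam (av p) D (bc L (F a k ^ (D / d a))) x ≤ C * finrank ℚ L →
        wt p * (lamY (av p) (d a) (F a) x / d a) ≤ C * finrank ℚ L := by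
      intro a k hk h
      rw [lam_pow (av p) (hdD a)] at h
      have h1 := lamY_le (av p) (d a) (F a) hx k hk
      have hda : (0 : ℝ) < d a := by exact_mod_cast hd a
      have e1 : (D : ℝ) = d a * ((D / d a : ℕ) : ℝ) := by
        exact_mod_cast (Nat.mul_div_cancel' (hdD a)).symm
      have hw0 := wt_nonneg p
      set u : ℝ := wt p * (lamY (av p) (d a) (F a) x / d a) with hu
      have h2 : D * u ≤ C * finrank ℚ L := by
        refine le_trans ?_ h
        have e2 : D * u = wt p * (((D / d a : ℕ) : ℝ) * lamY (av p) (d a) (F a) x) := by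
          rw [e1, hu]
          field_simp
        rw [e2]
        exact mul_le_mul_of_nonneg_left (mul_le_mul_of_nonneg_left h1 (Nat.cast_nonneg _)) hw0
      rcases le_total u 0 with h3 | h3
      · exact h3.trans (mul_nonneg hC0 hN)
      · exact (le_mul_of_one_le_left h3 hD1).trans h2
    obtain ⟨k, hk⟩ := hC L p x hx hGx (by
      intro k
      refine Fin.addCases (fun k => ?_) (fun k => ?_) k
      · rw [Fin.append_left, map_pow]
        exact pow_ne_zero _ (hi k)
      · rw [Fin.append_right, map_pow]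
        exact pow_ne_zero _ (hj k))
    revert hk
    refine Fin.addCases (fun k => ?_) (fun k => ?_) k
    · intro hk
      rw [Fin.append_left] at hk
      exact Or.inl (hone i k (hi k) hk)
    · intro hk
      rw [Fin.append_right] at hk
      exact Or.inr (hone j k (hj k) hk)
  choose Cp hCp0 hCp using hpair
  set W : ℝ := ∑ i, ∑ j, Cp i j with hWd
  have hW0 : 0 ≤ W := Finset.sum_nonneg fun i _ => Finset.sum_nonneg fun j _ => hCp0 i j
  have hCpW : ∀ i j, Cp i j ≤ W := fun i j =>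
    (Finset.single_le_sum (f := fun j => Cp i j) (fun j _ => hCp0 i j) (Finset.mem_univ j)).trans
      (Finset.single_le_sum (f := fun i => ∑ j, Cp i j)
        (fun i _ => Finset.sum_nonneg fun j _ => hCp0 i j) (Finset.mem_univ i))
  set Q : ℝ := (finrank ℚ K : ℝ) * r with hQ
  have hQ0 : 0 ≤ Q := by positivity
  refine ⟨(1 + ε) * C + S.card * (r * (q * (W * Q))), by positivity, ?_⟩
  intro L _ _ _ hrL x hx hGx hadj hZx
  rw [map_mul] at hZx
  have hZ0x : aeval x Z0 ≠ 0 := left_ne_zero_of_mul hZx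
  have hPx : aeval x P ≠ 0 := right_ne_zero_of_mul hZx
  have hyx : ∀ i k, aeval x (y i k) ≠ 0 := by
    intro i k
    rw [hPd, map_prod] at hPx
    have h1 := Finset.prod_ne_zero_iff.1 hPx i (Finset.mem_univ i)
    rw [map_prod] at h1
    exact Finset.prod_ne_zero_iff.1 h1 k (Finset.mem_univ k)
  have hFx : ∀ i k, aeval x (F i k) ≠ 0 := by
    intro i k h
    have h1 := hyx i k.succ
    simp only [hy, Fin.cons_succ, map_pow, h] at h1
    refine h1 (zero_pow ?_)
    exact (Nat.div_pos (Nat.le_of_dvd hD (hdD i)) (hd i)).ne'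
  refine ⟨hFx, fun T V hT => ?_⟩
  have hfq : (finrank ℚ L : ℝ) ≤ Q := by
    have h1 : finrank ℚ K * finrank K L = finrank ℚ L := finrank_mul_finrank ℚ K L
    rw [hQ, ← h1]
    push_cast
    exact mul_le_mul_of_nonneg_left (by exact_mod_cast hrL) (Nat.cast_nonneg _)
  have hfq0 : (0 : ℝ) ≤ finrank ℚ L := Nat.cast_nonneg _
  have hd0 : ∀ i, (1 : ℝ) ≤ d i := fun i => by exact_mod_cast hd i
  have hD1 : (1 : ℝ) ≤ D := by exact_mod_cast hD
  have hD0 : (0 : ℝ) < D := by linarith
  choose e he using fun w : Pl L => Finite.exists_max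
    (fun i => lamY (av w) (d i) (F i) x / d i)
  have hWQ : 0 ≤ q * (W * Q) := by positivity
  -- one place
  have hplace : ∀ w : Pl L, wt w * ∑ i, lamY (av w) (d i) (F i) x / d i ≤
      wt w * (lamY (av w) (d (e w)) (F (e w)) x / d (e w)) + q * (W * Q) := by
    intro w
    rw [← Finset.add_sum_erase Finset.univ _ (Finset.mem_univ (e w)), mul_add]
    refine add_le_add le_rfl ?_
    rw [Finset.mul_sum]
    have h1 : ∀ j ∈ Finset.univ.erase (e w), wt w * (lamY (av w) (d j) (F j) x / d j) ≤ W * Q := by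
      intro j hj
      have hne : j ≠ e w := (Finset.mem_erase.1 hj).1
      have h3 : Cp j (e w) * finrank ℚ L ≤ W * Q := mul_le_mul (hCpW _ _) hfq hfq0 hW0
      rcases hCp j (e w) L w x hx hGx (hFx j) (hFx (e w)) hne with h2 | h2
      · exact h2.trans h3
      · exact ((mul_le_mul_of_nonneg_left (he w j) (wt_nonneg w)).trans h2).trans h3
    refine (Finset.sum_le_sum h1).trans ?_
    rw [Finset.sum_const, nsmul_eq_mul]
    refine mul_le_mul_of_nonneg_right ?_ (by positivity)
    have h3 := Finset.card_le_univ (Finset.univ.erase (e w))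
    rw [Fintype.card_fin] at h3
    exact_mod_cast h3
  -- all places
  set A : Pl K → Finset (Pl L) := fun v => (ab L v).filter fun w => w ∈ T with hA
  obtain ⟨hpos, hfin'⟩ := hC L hrL x hx hGx hadj hZ0x e (fun w k => hyx (e w) k)
  have h1 := hfin' A (fun v => Finset.filter_subset _ _)
  have hTS : T = S.biUnion A := by
    ext w
    rw [Finset.mem_biUnion]
    constructor
    · intro hw
      obtain ⟨hv, hvw⟩ := hT w hw
      exact ⟨V w, hv, Finset.mem_filter.2 ⟨mem_ab.2 hvw, hw⟩⟩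
    · rintro ⟨v, _, hw⟩
      exact (Finset.mem_filter.1 hw).2
  have hdisj' : (S : Set (Pl K)).PairwiseDisjoint A := by
    intro v _ v' _ hne
    rw [Function.onFun, Finset.disjoint_left]
    intro w hw hw'
    exact hne (ov_unique (mem_ab.1 (Finset.mem_filter.1 hw).1) (mem_ab.1 (Finset.mem_filter.1 hw').1))
  have hterm : ∀ v ∈ S, ∀ w ∈ A v, wt w * (∑ i, lamY (av w) (d i) (F i) x / d i) /
      cp ν (finrank K L / nn (V w) w) ≤
      (1 + ε) * (nn v w * (mn (fun k => LL v w c0 D (y (e w) k) x) /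
        ((|cp ν (finrank K L / nn v w)| + ε) * D))) + q * (W * Q) := by
    intro v _ w hw
    have hwab := (Finset.mem_filter.1 hw).1
    have hwT := (Finset.mem_filter.1 hw).2
    have hVw : V w = v := ov_unique (hT w hwT).2 (mem_ab.1 hwab)
    have hov := mem_ab.1 hwab
    rw [hVw]
    have hρ : 1 ≤ (finrank K L : ℝ) / nn v w := RR_one_le (rho_mem hrL hwab)
    have hc1 := one_le_cp hν hρ
    set c : ℝ := cp ν (finrank K L / nn v w) with hcd
    have hc0 : 0 < c := by linarith
    rw [abs_of_pos hc0]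
    have hnn : 0 < nn v w := by
      have := one_le_nn hov
      linarith
    set u : ℝ := wt w * (lamY (av w) (d (e w)) (F (e w)) x / d (e w)) with hu
    have hX : D * u + c0 ≤ nn v w * mn (fun k => LL v w c0 D (y (e w) k) x) := by
      have hne : Nonempty (Fin ν) := ⟨⟨0, hν⟩⟩
      have h2 : (D * u + c0) / nn v w ≤ mn (fun k => LL v w c0 D (y (e w) k) x) := by
        refine le_ciInf fun k => ?_
        unfold LL
        refine div_le_div_of_nonneg_right (add_le_add ?_ le_rfl) hnn.le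
        have e3 : y (e w) k.succ = F (e w) k ^ (D / d (e w)) := by
          simp only [hy, Fin.cons_succ]
        rw [e3, lam_pow (av w) (hdD (e w))]
        have hda : (0 : ℝ) < d (e w) := by exact_mod_cast hd (e w)
        have e1 : (D : ℝ) = d (e w) * ((D / d (e w) : ℕ) : ℝ) := by
          exact_mod_cast (Nat.mul_div_cancel' (hdD (e w))).symm
        have e2 : D * u = wt w * (((D / d (e w) : ℕ) : ℝ) *
            lamY (av w) (d (e w)) (F (e w)) x) := by
          rw [e1, hu]
          field_simp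
        rw [e2]
        exact mul_le_mul_of_nonneg_left (mul_le_mul_of_nonneg_left
          (lamY_le (av w) (d (e w)) (F (e w)) hx k (hFx (e w) k)) (Nat.cast_nonneg _))
          (wt_nonneg w)
      rw [div_le_iff₀ hnn] at h2
      linarith
    set X : ℝ := nn v w * mn (fun k => LL v w c0 D (y (e w) k) x) with hXd
    have hX0 : 0 ≤ X := mul_nonneg hnn.le (mn_nonneg _ fun k => div_nonneg (hpos w k) hnn.le)
    have e1 : nn v w * (mn (fun k => LL v w c0 D (y (e w) k) x) / ((c + ε) * D)) =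
        X / ((c + ε) * D) := by
      rw [hXd, mul_div_assoc]
    rw [e1]
    have h2 : wt w * (∑ i, lamY (av w) (d i) (F i) x / d i) ≤ X / D + q * (W * Q) := by
      refine (hplace w).trans (add_le_add ?_ le_rfl)
      rw [le_div_iff₀ hD0]
      linarith
    have h3 : wt w * (∑ i, lamY (av w) (d i) (F i) x / d i) / c ≤
        (X / D) / c + q * (W * Q) := by
      refine (div_le_div_of_nonneg_right h2 hc0.le).trans ?_
      rw [add_div]
      exact add_le_add le_rfl (div_le_self hWQ hc1)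
    refine h3.trans (add_le_add ?_ le_rfl)
    rw [div_div, mul_div_assoc', div_le_div_iff₀ (by positivity) (by positivity)]
    have h4 : c + ε ≤ (1 + ε) * c := by nlinarith
    have h5 := mul_le_mul_of_nonneg_left h4 (mul_nonneg hX0 hD0.le)
    nlinarith
  rw [hTS, Finset.sum_biUnion hdisj']
  refine (Finset.sum_le_sum fun v hv => Finset.sum_le_sum fun w hw => hterm v hv w hw).trans ?_
  have h3 : ∑ v ∈ S, ∑ w ∈ A v, ((1 + ε) * (nn v w *
        (mn (fun k => LL v w c0 D (y (e w) k) x) /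
        ((|cp ν (finrank K L / nn v w)| + ε) * D))) + q * (W * Q)) =
      (1 + ε) * (∑ v ∈ S, ∑ w ∈ A v, (nn v w * (mn (fun k => LL v w c0 D (y (e w) k) x) /
        ((|cp ν (finrank K L / nn v w)| + ε) * D)))) +
        ∑ v ∈ S, ∑ w ∈ A v, q * (W * Q) := by
    generalize (q : ℝ) * (W * Q) = W'
    rw [Finset.mul_sum, ← Finset.sum_add_distrib]
    refine Finset.sum_congr rfl fun v _ => ?_
    rw [Finset.mul_sum, ← Finset.sum_add_distrib]
  rw [h3]
  have h4 : ∑ v ∈ S, ∑ w ∈ A v, (q : ℝ) * (W * Q) ≤ S.card * (r * (q * (W * Q))) := by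
    have h5 : ∀ v ∈ S, ∑ _w ∈ A v, (q : ℝ) * (W * Q) ≤ r * (q * (W * Q)) := by
      intro v _
      rw [Finset.sum_const, nsmul_eq_mul]
      refine mul_le_mul_of_nonneg_right ?_ hWQ
      exact_mod_cast (Finset.card_filter_le _ _).trans ((card_ab_le L v).trans hrL)
    refine (Finset.sum_le_sum h5).trans (le_of_eq ?_)
    rw [Finset.sum_const, nsmul_eq_mul]
  have h5 := mul_le_mul_of_nonneg_left h1 (by linarith : (0 : ℝ) ≤ 1 + ε)
  have h6 : (1 + ε) * (logHeight x + C) = (1 + ε) * logHeight x + (1 + ε) * C := by ring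
  rw [h6] at h5
  linarith

end Pool.Agent.NH28
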