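import Pool.Agent.NH28.T5

/-!
From the inequality with the local degrees to a uniform constant.
-/

set_option autoImplicit false

namespace Pool.Agent.NH28

open MvPolynomial Finset NumberField IsDedekindDomain Height Module
open Pool.Agent.W180.OP Pool.Agent.W180.TP
open Pool.Agent.TH875 (top_members not_all form_ub)

lemma cp_mono {ν : ℕ} {ρ ρ' : ℝ} (hρ : 1 ≤ ρ) (h : ρ ≤ ρ') : cp ν ρ ≤ cp ν ρ' := by
  unfold cp
  refine mul_le_mul_of_nonneg_left ?_ (by positivity)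
  exact Real.rpow_le_rpow (by linarith) h (by positivity)

/-- a general uniform version -/
theorem unif {K : Type} [Field K] [NumberField K] {r : ℕ} (c : ℝ → ℝ)
    (hc1 : ∀ ρ, 1 ≤ ρ → 1 ≤ c ρ) (hcm : ∀ ρ ρ', 1 ≤ ρ → ρ ≤ ρ' → c ρ ≤ c ρ') (hr : 1 ≤ r)
    {ε ε1 : ℝ} (hε1 : 0 ≤ ε1) (hεε : ε1 * c r ≤ ε) (S : Finset (Pl K)) {C W : ℝ} (hC : 0 ≤ C)
    (hW0 : 0 ≤ W)
    {L : Type} [Field L] [NumberField L] [Algebra K L] (hrL : finrank K L ≤ r) {h : ℝ}
    (hh : 0 ≤ h) (T : Finset (Pl L)) (V : Pl L → Pl K) (hT : ∀ w ∈ T, V w ∈ S ∧ Ov (V w) w)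
    (a : Pl L → ℝ) (hlow : ∀ w, -W ≤ a w)
    (hmain : ∑ w ∈ T, a w / c (finrank K L / nn (V w) w) ≤ (1 + ε1) * h + C)
    {ρ : ℝ} (hρ1 : 1 ≤ ρ) (hρr : ρ ≤ r) (hρ : ∀ w ∈ T, finrank K L / nn (V w) w ≤ ρ) :
    ∑ w ∈ T, a w ≤ (c ρ + ε) * h + c r * (C + S.card * (r * W)) := by
  classical
  have hr1 : (1 : ℝ) ≤ r := by exact_mod_cast hr
  have hcρ := hc1 ρ hρ1
  have hcr := hcm ρ r hρ1 hρr
  have hcρ0 : 0 < c ρ := by linarith
  -- the number of places
  have hcard : (T.card : ℝ) ≤ S.card * r := by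
    have h1 : T ⊆ S.biUnion fun v => ab L v := by
      intro w hw
      obtain ⟨hv, hvw⟩ := hT w hw
      exact Finset.mem_biUnion.2 ⟨V w, hv, mem_ab.2 hvw⟩
    have h2 := (Finset.card_le_card h1).trans Finset.card_biUnion_le
    have h3 : ∑ v ∈ S, (ab L v).card ≤ ∑ _v ∈ S, r :=
      Finset.sum_le_sum fun v _ => (card_ab_le L v).trans hrL
    rw [Finset.sum_const, smul_eq_mul] at h3
    exact_mod_cast h2.trans h3
  have hterm : ∀ w ∈ T, a w / c ρ ≤ a w / c (finrank K L / nn (V w) w) + W := by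
    intro w hw
    obtain ⟨hv, hvw⟩ := hT w hw
    have hρw : 1 ≤ (finrank K L : ℝ) / nn (V w) w :=
      RR_one_le (rho_mem (r := r) hrL (mem_ab.2 hvw))
    have hc1' := hc1 _ hρw
    have hc2 := hcm _ _ hρw (hρ w hw)
    have h1 := hlow w
    have hcw : 0 < c (finrank K L / nn (V w) w) := by linarith
    have h2 : (a w + W) / c ρ ≤ (a w + W) / c (finrank K L / nn (V w) w) :=
      div_le_div_of_nonneg_left (by linarith) hcw hc2
    rw [add_div, add_div] at h2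
    have h3 : 0 ≤ W / c ρ := div_nonneg hW0 hcρ0.le
    have h4 : W / c (finrank K L / nn (V w) w) ≤ W := div_le_self hW0 hc1'
    linarith
  have h1 := Finset.sum_le_sum hterm
  rw [← Finset.sum_div, Finset.sum_add_distrib, Finset.sum_const, nsmul_eq_mul,
    div_le_iff₀ hcρ0] at h1
  refine h1.trans ?_
  have h2 : (T.card : ℝ) * W ≤ S.card * (r * W) := by
    have := mul_le_mul_of_nonneg_right hcard hW0
    linarith
  have h3 : (∑ w ∈ T, a w / c (finrank K L / nn (V w) w) + T.card * W) * c ρ ≤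
      ((1 + ε1) * h + (C + S.card * (r * W))) * c ρ :=
    mul_le_mul_of_nonneg_right (by linarith) hcρ0.le
  refine h3.trans ?_
  have hCS : 0 ≤ C + S.card * (r * W) := by positivity
  have h4 : (C + S.card * (r * W)) * c ρ ≤ c r * (C + S.card * (r * W)) := by
    rw [mul_comm]
    exact mul_le_mul_of_nonneg_right hcr hCS
  have h5 : ε1 * c ρ ≤ ε := (mul_le_mul_of_nonneg_left hcr hε1).trans hεε
  have h6 : ε1 * c ρ * h ≤ ε * h := mul_le_mul_of_nonneg_right h5 hh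
  nlinarith

/-- lower bound for the local heights of a subscheme -/
theorem lamY_low {K : Type} [Field K] [NumberField K] {n q ν : ℕ} (hν : 1 ≤ ν) (r : ℕ)
    (F : Fin q → Fin ν → MvPolynomial (Fin n) K) (d : Fin q → ℕ) (hd : ∀ i, 1 ≤ d i)
    (hF : ∀ i k, (F i k).IsHomogeneous (d i)) : ∃ W : ℝ, 0 ≤ W ∧
      ∀ (L : Type) [Field L] [NumberField L] [Algebra K L], finrank K L ≤ r →
        ∀ x : Fin n → L, x ≠ 0 → (∀ i k, aeval x (F i k) ≠ 0) → ∀ w : Pl L,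
          -W ≤ wt w * ∑ i, lamY (av w) (d i) (F i) x / d i := by
  classical
  choose Cb hCb0 hCb using fun (i : Fin q) (k : Fin ν) => form_ub (F i k) (hF i k)
  set Q : ℝ := (finrank ℚ K : ℝ) * r with hQ
  have hQ0 : 0 ≤ Q := by positivity
  have hCi0 : ∀ i, 0 ≤ ∑ k, Cb i k := fun i => Finset.sum_nonneg fun k _ => hCb0 i k
  refine ⟨(∑ i, ∑ k, Cb i k) * Q, mul_nonneg (Finset.sum_nonneg fun i _ => hCi0 i) hQ0, ?_⟩
  intro L _ _ _ hrL x hx hFx w
  have hfq : (finrank ℚ L : ℝ) ≤ Q := by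
    have h1 : finrank ℚ K * finrank K L = finrank ℚ L := finrank_mul_finrank ℚ K L
    rw [hQ, ← h1]
    push_cast
    exact mul_le_mul_of_nonneg_left (by exact_mod_cast hrL) (Nat.cast_nonneg _)
  rw [Finset.mul_sum, neg_le, ← Finset.sum_neg_distrib, Finset.sum_mul]
  refine Finset.sum_le_sum fun i _ => ?_
  obtain ⟨k, hk⟩ := lamY_eq (av w) hν (d i) (F i) x
  have h2 := hCb i k L w x hx (hFx i k)
  rw [← hk] at h2
  have h3 : Cb i k * finrank ℚ L ≤ (∑ k, Cb i k) * Q :=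
    mul_le_mul (Finset.single_le_sum (f := fun k => Cb i k) (fun k _ => hCb0 i k)
      (Finset.mem_univ k)) hfq (Nat.cast_nonneg _) (hCi0 i)
  have h4 : 0 ≤ (∑ k, Cb i k) * Q := mul_nonneg (hCi0 i) hQ0
  have hd0 : (1 : ℝ) ≤ d i := by exact_mod_cast hd i
  have h5 : -(wt w * (lamY (av w) (d i) (F i) x / d i)) =
      -(wt w * lamY (av w) (d i) (F i) x) / d i := by ring
  rw [h5, div_le_iff₀ (by linarith)]
  have h6 : (∑ k, Cb i k) * Q ≤ (∑ k, Cb i k) * Q * d i := le_mul_of_one_le_right h4 hd0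
  linarith

end Pool.Agent.NH28
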